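import Pool.Agent.H.MP_3b0279_pr.RepDef

set_option autoImplicit false

namespace Pool.Agent.H.MP_3b0279_pr

open Finset

open Classical in
/-- number of admissible length vectors with total `k` and property `Q` -/
noncomputable def nvec {m : ℕ} (VV : (Fin m → ℕ) → Prop) (k : ℕ) (Q : (Fin m → ℕ) → Prop) : ℕ :=
  ((Finset.piAntidiag (univ : Finset (Fin m)) k).filter (fun ℓ => VV ℓ ∧ Q ℓ)).card

/-- adding units keeps validity -/
theorem lvalid_up {V : Type} [Fintype V] [DecidableEq V] {m : ℕ} (κ : Slot m → V)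
    (ℓ ℓ' : Fin m → ℕ) (h : ∀ i, ℓ i ≤ ℓ' i) (hv : LValid κ ℓ) : LValid κ ℓ' := by
  refine ⟨?_, ?_⟩
  · intro i hi
    apply hv.1 i
    rw [Finset.mem_filter] at hi ⊢
    exact ⟨hi.1, (h i).trans hi.2⟩
  · intro i hi j hj hij
    apply hv.2 i _ j _ hij
    · rw [Finset.mem_filter] at hi ⊢
      have := h i
      exact ⟨hi.1, by omega⟩
    · rw [Finset.mem_filter] at hj ⊢
      have := h j
      exact ⟨hj.1, by omega⟩

/-- validity only depends on `min (ℓ i) 2` -/
theorem lvalid_congr {V : Type} [Fintype V] [DecidableEq V] {m : ℕ} (κ : Slot m → V)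
    (ℓ ℓ' : Fin m → ℕ) (h : ∀ i, min (ℓ i) 2 = min (ℓ' i) 2) (hv : LValid κ ℓ) :
    LValid κ ℓ' := by
  refine ⟨?_, ?_⟩
  · intro i hi
    apply hv.1 i
    rw [Finset.mem_filter] at hi ⊢
    have := h i
    exact ⟨hi.1, by omega⟩
  · intro i hi j hj hij
    apply hv.2 i _ j _ hij
    · rw [Finset.mem_filter] at hi ⊢
      have := h i
      exact ⟨hi.1, by omega⟩
    · rw [Finset.mem_filter] at hj ⊢
      have := h j
      exact ⟨hj.1, by omega⟩

/-- the length of a path ending at a vertex of degree one does not matter -/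
theorem lvalid_leaf {V : Type} [Fintype V] [DecidableEq V] {m : ℕ} (κ : Slot m → V)
    (σ : Slot m) (hσ : kdeg κ (κ σ) = 1) (ℓ ℓ' : Fin m → ℕ) (h : ∀ i, i ≠ σ.1 → ℓ i = ℓ' i)
    (hv : LValid κ ℓ) : LValid κ ℓ' := by
  have huniq : ∀ τ, κ τ = κ σ → τ = σ := by
    intro τ hτ
    unfold kdeg at hσ
    obtain ⟨a, ha⟩ := Finset.card_eq_one.1 hσ
    have h1 : τ ∈ (univ.filter (fun τ => κ τ = κ σ)) := by simp [hτ]
    have h2 : σ ∈ (univ.filter (fun τ => κ τ = κ σ)) := by simp
    rw [ha, Finset.mem_singleton] at h1 h2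
    rw [h1, h2]
  -- the edge of σ touches κ σ
  have hmem : κ σ ∈ s(κ (σ.1, false), κ (σ.1, true)) := by
    rcases σ with ⟨i, b⟩
    cases b <;> simp
  have hloop : κ (σ.1, false) ≠ κ (σ.1, true) := by
    intro he
    rcases σ with ⟨i, b⟩
    cases b
    · have := huniq (i, true) he.symm
      simp at this
    · have := huniq (i, false) he
      simp at this
  have hpar : ∀ j, j ≠ σ.1 →
      s(κ (σ.1, false), κ (σ.1, true)) ≠ s(κ (j, false), κ (j, true)) := by
    intro j hj he
    rw [he, Sym2.mem_iff] at hmem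
    rcases hmem with h1 | h1
    · have := huniq (j, false) h1.symm
      exact hj (by rw [← this])
    · have := huniq (j, true) h1.symm
      exact hj (by rw [← this])
  refine ⟨?_, ?_⟩
  · intro i hi
    by_cases hiσ : i = σ.1
    · rw [hiσ]; exact hloop
    · apply hv.1 i
      rw [Finset.mem_filter] at hi ⊢
      rw [h i hiσ]
      exact hi
  · intro i hi j hj hij
    by_cases hiσ : i = σ.1
    · rw [hiσ]
      exact hpar j (fun hc => hij (by rw [hiσ, hc]))
    by_cases hjσ : j = σ.1
    · rw [hjσ]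
      exact (hpar i hiσ).symm
    apply hv.2 i _ j _ hij
    · rw [Finset.mem_filter] at hi ⊢
      rw [h i hiσ]
      exact hi
    · rw [Finset.mem_filter] at hj ⊢
      rw [h j hjσ]
      exact hj

/-- abstract hypotheses: monotone, and depends only on `min (ℓ i) 2` -/
structure VHyp {m : ℕ} (VV : (Fin m → ℕ) → Prop) : Prop where
  up : ∀ ℓ ℓ', (∀ i, ℓ i ≤ ℓ' i) → VV ℓ → VV ℓ'
  congr : ∀ ℓ ℓ', (∀ i, min (ℓ i) 2 = min (ℓ' i) 2) → VV ℓ → VV ℓ'

theorem nvec_step {m : ℕ} (VV : (Fin m → ℕ) → Prop) (h : VHyp VV) (k : ℕ) :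
    (k + 1 - 2 * m) * nvec VV (k + 1) (fun _ => True) ≤ k * nvec VV k (fun _ => True) := by
  classical
  have hN : ∀ k, nvec VV k (fun _ => True)
      = ((Finset.piAntidiag (univ : Finset (Fin m)) k).filter VV).card := by
    intro k; unfold nvec; simp only [and_true]
  rw [hN, hN]
  set S1 := (Finset.piAntidiag (univ : Finset (Fin m)) (k + 1)).filter VV with hS1
  set S0 := (Finset.piAntidiag (univ : Finset (Fin m)) k).filter VV with hS0
  set T : Finset (Σ _ : Fin m → ℕ, Σ _ : Fin m, ℕ) :=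
    S1.sigma (fun ℓ => (univ : Finset (Fin m)).sigma (fun i => range (ℓ i - 2))) with hT
  set T' : Finset (Σ _ : Fin m → ℕ, Σ _ : Fin m, ℕ) :=
    S0.sigma (fun ℓ => (univ : Finset (Fin m)).sigma (fun i => range (ℓ i))) with hT'
  have h1 : (k + 1 - 2 * m) * S1.card ≤ T.card := by
    rw [hT, Finset.card_sigma, mul_comm, ← smul_eq_mul, ← Finset.sum_const]
    apply Finset.sum_le_sum
    intro ℓ hℓ
    rw [hS1, Finset.mem_filter, Finset.mem_piAntidiag] at hℓ
    rw [Finset.card_sigma]
    simp only [Finset.card_range]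
    have h2 : ∑ i, ℓ i ≤ ∑ i, ((ℓ i - 2) + 2) := Finset.sum_le_sum (fun i _ => by omega)
    rw [Finset.sum_add_distrib, Finset.sum_const, Finset.card_univ, Fintype.card_fin,
      smul_eq_mul] at h2
    have h3 : ∑ i, ℓ i = k + 1 := hℓ.1.1
    omega
  have h2 : T'.card = k * S0.card := by
    rw [hT', Finset.card_sigma, mul_comm, ← smul_eq_mul, ← Finset.sum_const]
    apply Finset.sum_congr rfl
    intro ℓ hℓ
    rw [hS0, Finset.mem_filter, Finset.mem_piAntidiag] at hℓ
    rw [Finset.card_sigma]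
    simp only [Finset.card_range]
    exact hℓ.1.1
  refine h1.trans (le_trans ?_ h2.le)
  apply Finset.card_le_card_of_injOn
    (fun x => (⟨Function.update x.1 x.2.1 (x.1 x.2.1 - 1), x.2⟩ :
      Σ _ : Fin m → ℕ, Σ _ : Fin m, ℕ))
  · rintro ⟨ℓ, i, a⟩ hx
    rw [Finset.mem_coe, hT, Finset.mem_sigma, Finset.mem_sigma, Finset.mem_range] at hx
    obtain ⟨h3, _, h5⟩ := hx
    simp only at h3 h5
    rw [hS1, Finset.mem_filter, Finset.mem_piAntidiag] at h3
    rw [Finset.mem_coe, hT', Finset.mem_sigma, Finset.mem_sigma, Finset.mem_range]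
    simp only [Finset.mem_univ, true_and, Function.update_self]
    refine ⟨?_, by omega⟩
    rw [hS0, Finset.mem_filter, Finset.mem_piAntidiag]
    refine ⟨⟨?_, fun _ _ => Finset.mem_univ _⟩, ?_⟩
    · have h6 := h3.1.1
      rw [← Finset.add_sum_erase _ _ (Finset.mem_univ i)] at h6
      rw [← Finset.add_sum_erase _ _ (Finset.mem_univ i), Function.update_self]
      have h7 : ∑ x ∈ univ.erase i, Function.update ℓ i (ℓ i - 1) x
          = ∑ x ∈ univ.erase i, ℓ x := by
        apply Finset.sum_congr rfl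
        intro x hx
        rw [Function.update_of_ne (Finset.ne_of_mem_erase hx)]
      rw [h7]
      omega
    · apply h.congr ℓ _ _ h3.2
      intro j
      by_cases hj : j = i
      · subst hj
        rw [Function.update_self]
        omega
      · rw [Function.update_of_ne hj]
  · rintro ⟨ℓ, i, a⟩ hx ⟨ℓ', i', a'⟩ hx' he
    rw [Finset.mem_coe, hT, Finset.mem_sigma, Finset.mem_sigma, Finset.mem_range] at hx hx'
    simp only [Finset.mem_univ, true_and] at hx hx'
    simp only [Sigma.mk.injEq, heq_eq_eq] at he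
    obtain ⟨h3, h4⟩ := he
    obtain ⟨h5, h6⟩ := h4
    subst h5
    subst h6
    have h7 : ℓ = ℓ' := by
      funext j
      have h8 := congrFun h3 j
      by_cases hj : j = i
      · subst hj
        rw [Function.update_self, Function.update_self] at h8
        omega
      · rw [Function.update_of_ne hj, Function.update_of_ne hj] at h8
        exact h8
    rw [h7]

end Pool.Agent.H.MP_3b0279_pr
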