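import Pool.Agent.H.MP_3b0279_pr.Comp

set_option autoImplicit false

namespace Pool.Agent.H.MP_3b0279_pr

open Finset

namespace CompFree

open Classical in
/-- admissible vectors of total `k` with value `b` at `i₀` -/
noncomputable def UU {m : ℕ} (VV : (Fin m → ℕ) → Prop) (i₀ : Fin m) (k b : ℕ) :
    Finset (Fin m → ℕ) :=
  (Finset.piAntidiag (univ : Finset (Fin m)) k).filter (fun ℓ => VV ℓ ∧ ℓ i₀ = b)

theorem mem_UU {m : ℕ} (VV : (Fin m → ℕ) → Prop) (i₀ : Fin m) (k b : ℕ) (ℓ : Fin m → ℕ) :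
    ℓ ∈ UU VV i₀ k b ↔ (∑ i, ℓ i = k) ∧ VV ℓ ∧ ℓ i₀ = b := by
  classical
  simp [UU]

/-- move one unit from `i₀` to `i` -/
def mv {m : ℕ} (i₀ i : Fin m) (ℓ : Fin m → ℕ) : Fin m → ℕ := fun j =>
  if j = i then ℓ i + 1 else if j = i₀ then ℓ i₀ - 1 else ℓ j

theorem mv_inj {m : ℕ} (i₀ i : Fin m) (hi : i ≠ i₀) (ℓ ℓ' : Fin m → ℕ) (h1 : 1 ≤ ℓ i₀)
    (h2 : 1 ≤ ℓ' i₀) (h : mv i₀ i ℓ = mv i₀ i ℓ') : ℓ = ℓ' := by
  funext j
  have hj := congrFun h j
  unfold mv at hj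
  by_cases hji : j = i
  · subst hji
    simpa using hj
  · by_cases hj0 : j = i₀
    · subst hj0
      simp only [hji, if_false, if_true] at hj
      omega
    · simpa [hji, hj0] using hj

theorem mv_sum {m : ℕ} (i₀ i : Fin m) (hi : i ≠ i₀) (ℓ : Fin m → ℕ) (h1 : 1 ≤ ℓ i₀) :
    ∑ j, mv i₀ i ℓ j = ∑ j, ℓ j := by
  have e1 : ∑ j, mv i₀ i ℓ j = mv i₀ i ℓ i + (mv i₀ i ℓ i₀ + ∑ j ∈ (univ.erase i).erase i₀, mv i₀ i ℓ j) := by
    rw [Finset.add_sum_erase _ _ (by simp [hi.symm]), Finset.add_sum_erase _ _ (mem_univ i)]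
  have e2 : ∑ j, ℓ j = ℓ i + (ℓ i₀ + ∑ j ∈ (univ.erase i).erase i₀, ℓ j) := by
    rw [Finset.add_sum_erase _ _ (by simp [hi.symm]), Finset.add_sum_erase _ _ (mem_univ i)]
  have e3 : ∑ j ∈ (univ.erase i).erase i₀, mv i₀ i ℓ j = ∑ j ∈ (univ.erase i).erase i₀, ℓ j := by
    apply Finset.sum_congr rfl
    intro j hj
    simp only [mem_erase, mem_univ, and_true] at hj
    simp [mv, hj.1, hj.2]
  have e4 : mv i₀ i ℓ i = ℓ i + 1 := by simp [mv]
  have e5 : mv i₀ i ℓ i₀ = ℓ i₀ - 1 := by simp [mv, hi.symm]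
  rw [e1, e2, e3, e4, e5]
  omega

theorem mv_mem {m : ℕ} (VV : (Fin m → ℕ) → Prop) (h : VHyp VV) (i₀ : Fin m)
    (hfree : ∀ ℓ ℓ' : Fin m → ℕ, (∀ i, i ≠ i₀ → ℓ i = ℓ' i) → VV ℓ → VV ℓ')
    (k b : ℕ) (i : Fin m) (hi : i ≠ i₀) (ℓ : Fin m → ℕ) (hl : ℓ ∈ UU VV i₀ k (b + 1)) :
    mv i₀ i ℓ ∈ UU VV i₀ k b := by
  rw [mem_UU] at hl ⊢
  obtain ⟨h1, h2, h3⟩ := hl
  refine ⟨?_, ?_, ?_⟩
  · rw [mv_sum i₀ i hi ℓ (by omega), h1]
  · apply hfree (fun j => if j = i then ℓ i + 1 else ℓ j)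
    · intro j hj
      by_cases hji : j = i
      · subst hji; simp [mv]
      · simp [mv, hji, hj]
    · apply h.up ℓ _ _ h2
      intro j
      by_cases hji : j = i
      · subst hji; simp
      · simp [hji]
  · simp [mv, hi.symm, h3]

theorem level_i {m : ℕ} (VV : (Fin m → ℕ) → Prop) (h : VHyp VV) (i₀ : Fin m)
    (hfree : ∀ ℓ ℓ' : Fin m → ℕ, (∀ i, i ≠ i₀ → ℓ i = ℓ' i) → VV ℓ → VV ℓ')
    (k b : ℕ) (i : Fin m) (hi : i ≠ i₀) :
    ∑ ℓ ∈ UU VV i₀ k (b + 1), (ℓ i + 1) ≤ ∑ ℓ ∈ UU VV i₀ k b, ℓ i := by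
  classical
  have e : ∑ ℓ ∈ (UU VV i₀ k (b + 1)).image (mv i₀ i), ℓ i
      = ∑ ℓ ∈ UU VV i₀ k (b + 1), (ℓ i + 1) := by
    rw [Finset.sum_image]
    · apply Finset.sum_congr rfl
      intro ℓ _
      simp [mv]
    · intro ℓ hl ℓ' hl' heq
      have a1 := (mem_UU VV i₀ k (b + 1) ℓ).1 (by simpa using hl)
      have a2 := (mem_UU VV i₀ k (b + 1) ℓ').1 (by simpa using hl')
      exact mv_inj i₀ i hi ℓ ℓ' (by omega) (by omega) heq
  rw [← e]
  apply Finset.sum_le_sum_of_subset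
  intro ℓ' hl'
  rw [Finset.mem_image] at hl'
  obtain ⟨ℓ, hl, rfl⟩ := hl'
  exact mv_mem VV h i₀ hfree k b i hi ℓ hl

theorem level {m : ℕ} (VV : (Fin m → ℕ) → Prop) (h : VHyp VV) (i₀ : Fin m)
    (hfree : ∀ ℓ ℓ' : Fin m → ℕ, (∀ i, i ≠ i₀ → ℓ i = ℓ' i) → VV ℓ → VV ℓ')
    (k b : ℕ) :
    (UU VV i₀ k (b + 1)).card * ((k - (b + 1)) + (m - 1)) ≤ (UU VV i₀ k b).card * (k - b) := by
  classical
  have h1 : ∑ i ∈ univ.erase i₀, ∑ ℓ ∈ UU VV i₀ k (b + 1), (ℓ i + 1)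
      ≤ ∑ i ∈ univ.erase i₀, ∑ ℓ ∈ UU VV i₀ k b, ℓ i := by
    apply Finset.sum_le_sum
    intro i hi
    exact level_i VV h i₀ hfree k b i (by simpa using hi)
  rw [Finset.sum_comm, Finset.sum_comm (s := univ.erase i₀) (t := UU VV i₀ k b)] at h1
  have h2 : ∑ ℓ ∈ UU VV i₀ k (b + 1), ∑ i ∈ univ.erase i₀, (ℓ i + 1)
      = (UU VV i₀ k (b + 1)).card * ((k - (b + 1)) + (m - 1)) := by
    rw [Finset.card_eq_sum_ones, Finset.sum_mul]
    apply Finset.sum_congr rfl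
    intro ℓ hl
    rw [mem_UU] at hl
    rw [Finset.sum_add_distrib, one_mul]
    have e1 := Finset.add_sum_erase univ ℓ (mem_univ i₀)
    have e2 : ∑ i ∈ univ.erase i₀, 1 = m - 1 := by
      simp
    rw [e2]
    omega
  have h3 : ∑ ℓ ∈ UU VV i₀ k b, ∑ i ∈ univ.erase i₀, ℓ i
      = (UU VV i₀ k b).card * (k - b) := by
    rw [Finset.card_eq_sum_ones, Finset.sum_mul]
    apply Finset.sum_congr rfl
    intro ℓ hl
    rw [mem_UU] at hl
    rw [one_mul]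
    have e1 := Finset.add_sum_erase univ ℓ (mem_univ i₀)
    omega
  rw [h2, h3] at h1
  exact h1

theorem UU_empty {m : ℕ} (VV : (Fin m → ℕ) → Prop) (i₀ : Fin m) (k b : ℕ) (hb : k < b) :
    (UU VV i₀ k b).card = 0 := by
  rw [Finset.card_eq_zero]
  apply Finset.eq_empty_of_forall_notMem
  intro ℓ hl
  rw [mem_UU] at hl
  have := Finset.single_le_sum (f := ℓ) (fun i _ => Nat.zero_le _) (mem_univ i₀)
  omega

theorem ratio {m : ℕ} (VV : (Fin m → ℕ) → Prop) (h : VHyp VV) (i₀ : Fin m)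
    (hfree : ∀ ℓ ℓ' : Fin m → ℕ, (∀ i, i ≠ i₀ → ℓ i = ℓ' i) → VV ℓ → VV ℓ')
    (hm : 3 ≤ m) (k b : ℕ) (hk : 1 ≤ k) :
    ((UU VV i₀ k (b + 1)).card : ℝ) ≤ (1 + ((m : ℝ) - 2) / k)⁻¹ * (UU VV i₀ k b).card := by
  have hk' : (0 : ℝ) < k := by exact_mod_cast hk
  have hm' : (3 : ℝ) ≤ m := by exact_mod_cast hm
  have hs : (0 : ℝ) < (m : ℝ) - 2 := by linarith
  have hr : (1 + ((m : ℝ) - 2) / k)⁻¹ = k / (k + ((m : ℝ) - 2)) := by
    field_simp
  rw [hr]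
  rcases Nat.lt_or_ge k (b + 1) with hb | hb
  · rw [UU_empty VV i₀ k (b + 1) hb]
    push_cast
    positivity
  · have hl := level VV h i₀ hfree k b
    have hl' : ((UU VV i₀ k (b + 1)).card : ℝ) * (((k : ℝ) - b) + ((m : ℝ) - 2))
        ≤ ((UU VV i₀ k b).card : ℝ) * ((k : ℝ) - b) := by
      have e1 : (((k - (b + 1)) + (m - 1) : ℕ) : ℝ) = ((k : ℝ) - b) + ((m : ℝ) - 2) := by
        rw [Nat.cast_add, Nat.cast_sub hb, Nat.cast_sub (by omega)]
        push_cast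
        ring
      have e2 : ((k - b : ℕ) : ℝ) = (k : ℝ) - b := by
        rw [Nat.cast_sub (by omega)]
      rw [← e1, ← e2]
      exact_mod_cast hl
    have ht : (0 : ℝ) < (k : ℝ) - b := by
      have : ((b + 1 : ℕ) : ℝ) ≤ k := by exact_mod_cast hb
      push_cast at this
      linarith
    have hb0 : (0 : ℝ) ≤ b := Nat.cast_nonneg b
    set X := ((UU VV i₀ k (b + 1)).card : ℝ)
    set Y := ((UU VV i₀ k b).card : ℝ) with hY
    have hY0 : 0 ≤ Y := Nat.cast_nonneg _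
    rw [div_mul_eq_mul_div, le_div_iff₀ (by positivity)]
    -- X (k + s) ≤ k Y
    set t := (k : ℝ) - b
    set s := (m : ℝ) - 2
    have h5 : X ≤ Y * t / (t + s) := by
      rw [le_div_iff₀ (by positivity)]
      exact hl'
    have h6 : Y * t / (t + s) * (k + s) ≤ k * Y := by
      rw [div_mul_eq_mul_div, div_le_iff₀ (by positivity)]
      have : t ≤ k := by simp only [t]; linarith
      nlinarith [mul_nonneg hY0 (mul_nonneg hs.le (sub_nonneg.2 this))]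
    calc X * (k + s) ≤ Y * t / (t + s) * (k + s) := by
          apply mul_le_mul_of_nonneg_right h5 (by positivity)
      _ ≤ k * Y := h6

open Classical in
theorem fiber {m : ℕ} (VV : (Fin m → ℕ) → Prop) (i₀ : Fin m) (k : ℕ) (f : ℕ → ℝ) :
    ∑ ℓ ∈ (Finset.piAntidiag (univ : Finset (Fin m)) k).filter VV, f (ℓ i₀)
      = ∑ b ∈ range (k + 1), f b * (UU VV i₀ k b).card := by
  rw [← Finset.sum_fiberwise_of_maps_to (g := fun ℓ : Fin m → ℕ => ℓ i₀) (t := range (k + 1))]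
  · apply Finset.sum_congr rfl
    intro b _
    have : ((Finset.piAntidiag (univ : Finset (Fin m)) k).filter VV).filter (fun ℓ => ℓ i₀ = b)
        = UU VV i₀ k b := by
      ext ℓ
      simp only [UU, mem_filter]
      tauto
    rw [this]
    rw [Finset.sum_congr rfl (g := fun _ => f b)]
    · rw [Finset.sum_const, nsmul_eq_mul, mul_comm]
    · intro ℓ hl
      rw [mem_UU] at hl
      rw [hl.2.2]
  · intro ℓ hl
    rw [mem_filter, Finset.mem_piAntidiag] at hl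
    have := Finset.single_le_sum (f := ℓ) (fun i _ => Nat.zero_le _) (mem_univ i₀)
    have h2 : ∑ x, ℓ x = k := hl.1.1
    rw [mem_range]
    omega

end CompFree

open CompFree

open Classical in
/-- excess length of a free coordinate -/
theorem nvec_free {m : ℕ} (VV : (Fin m → ℕ) → Prop) (h : VHyp VV) (i₀ : Fin m)
    (hfree : ∀ ℓ ℓ' : Fin m → ℕ, (∀ i, i ≠ i₀ → ℓ i = ℓ' i) → VV ℓ → VV ℓ') (hm : 3 ≤ m)
    (k h₀ : ℕ) (hk : 1 ≤ k) :
    (∑ ℓ ∈ (Finset.piAntidiag (univ : Finset (Fin m)) k).filter VV, ((ℓ i₀ - h₀ : ℕ) : ℝ))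
      ≤ (1 + ((m : ℝ) - 2) / k)⁻¹ ^ h₀ * (k / ((m : ℝ) - 2)) * nvec VV k (fun _ => True) := by
  have hk' : (0 : ℝ) < k := by exact_mod_cast hk
  have hm' : (3 : ℝ) ≤ m := by exact_mod_cast hm
  have hs : (0 : ℝ) < (m : ℝ) - 2 := by linarith
  set X : ℕ → ℝ := fun b => ((UU VV i₀ k b).card : ℝ) with hX
  have hX0 : ∀ b, 0 ≤ X b := fun b => Nat.cast_nonneg _
  set ρ : ℝ := (1 + ((m : ℝ) - 2) / k)⁻¹ with hρ
  have hρ0 : 0 < ρ := by rw [hρ]; positivity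
  have hρk : ρ = k / (k + ((m : ℝ) - 2)) := by
    rw [hρ]; field_simp
  have hrat : ∀ b, X (b + 1) ≤ ρ * X b := fun b => ratio VV h i₀ hfree hm k b hk
  have hpow : ∀ j b, X (j + b) ≤ ρ ^ j * X b := by
    intro j b
    induction j with
    | zero => simp
    | succ j ih =>
      calc X (j + 1 + b) = X ((j + b) + 1) := by congr 1; omega
        _ ≤ ρ * X (j + b) := hrat _
        _ ≤ ρ * (ρ ^ j * X b) := by apply mul_le_mul_of_nonneg_left ih hρ0.le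
        _ = ρ ^ (j + 1) * X b := by ring
  have hN : (nvec VV k (fun _ => True) : ℝ) = ∑ b ∈ range (k + 1), X b := by
    have := fiber VV i₀ k (fun _ => 1)
    simp only [one_mul, Finset.sum_const, nsmul_eq_mul, mul_one] at this
    rw [hX]
    rw [← this]
    simp [nvec]
  have hsum := fiber VV i₀ k (fun b => ((b - h₀ : ℕ) : ℝ))
  rw [hsum, hN]
  -- step 1 : A := ∑ j X j ≤ (k/s) N
  set N := ∑ b ∈ range (k + 1), X b with hNdef
  have hN0 : 0 ≤ N := Finset.sum_nonneg (fun b _ => hX0 b)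
  set A := ∑ b ∈ range (k + 1), (b : ℝ) * X b with hA
  have hA1 : A ≤ ρ * (A + N) := by
    have e1 : A = ∑ b ∈ range k, ((b + 1 : ℕ) : ℝ) * X (b + 1) := by
      rw [hA, Finset.sum_range_succ']
      simp
    have e2 : ∑ b ∈ range k, ((b + 1 : ℕ) : ℝ) * X (b + 1)
        ≤ ∑ b ∈ range k, ρ * ((b : ℝ) * X b + X b) := by
      apply Finset.sum_le_sum
      intro b _
      have h1 := hrat b
      have h2 : (0 : ℝ) ≤ ((b + 1 : ℕ) : ℝ) := Nat.cast_nonneg _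
      calc ((b + 1 : ℕ) : ℝ) * X (b + 1) ≤ ((b + 1 : ℕ) : ℝ) * (ρ * X b) :=
            mul_le_mul_of_nonneg_left h1 h2
        _ = ρ * ((b : ℝ) * X b + X b) := by push_cast; ring
    have e3 : ∑ b ∈ range k, ρ * ((b : ℝ) * X b + X b)
        ≤ ∑ b ∈ range (k + 1), ρ * ((b : ℝ) * X b + X b) := by
      apply Finset.sum_le_sum_of_subset_of_nonneg
      · intro x hx; simp only [mem_range] at hx ⊢; omega
      · intro b _ _
        have := hX0 b
        positivity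
    have e4 : ∑ b ∈ range (k + 1), ρ * ((b : ℝ) * X b + X b) = ρ * (A + N) := by
      rw [← Finset.mul_sum, Finset.sum_add_distrib]
    linarith
  have hA2 : A ≤ (k / ((m : ℝ) - 2)) * N := by
    rw [hρk] at hA1
    rw [div_mul_eq_mul_div, le_div_iff₀ (by positivity)] at hA1
    rw [div_mul_eq_mul_div, le_div_iff₀ hs]
    nlinarith
  -- step 2
  have hB : ∑ b ∈ range (k + 1), ((b - h₀ : ℕ) : ℝ) * X b ≤ ρ ^ h₀ * A := by
    have e1 : ∑ b ∈ range (k + 1), ((b - h₀ : ℕ) : ℝ) * X b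
        ≤ ∑ b ∈ range (h₀ + (k + 1)), ((b - h₀ : ℕ) : ℝ) * X b := by
      apply Finset.sum_le_sum_of_subset_of_nonneg
      · intro x hx; simp only [mem_range] at hx ⊢; omega
      · intro b _ _
        have := hX0 b
        positivity
    have e2 : ∑ b ∈ range (h₀ + (k + 1)), ((b - h₀ : ℕ) : ℝ) * X b
        = ∑ b ∈ range (k + 1), (b : ℝ) * X (h₀ + b) := by
      rw [Finset.sum_range_add]
      rw [Finset.sum_eq_zero (s := range h₀)]
      · rw [zero_add]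
        apply Finset.sum_congr rfl
        intro b _
        rw [Nat.add_sub_cancel_left]
      · intro b hb
        rw [mem_range] at hb
        have : b - h₀ = 0 := by omega
        rw [this]; simp
    have e3 : ∑ b ∈ range (k + 1), (b : ℝ) * X (h₀ + b)
        ≤ ∑ b ∈ range (k + 1), ρ ^ h₀ * ((b : ℝ) * X b) := by
      apply Finset.sum_le_sum
      intro b _
      have h1 := hpow h₀ b
      have h2 : (0 : ℝ) ≤ (b : ℝ) := Nat.cast_nonneg _
      calc (b : ℝ) * X (h₀ + b) ≤ (b : ℝ) * (ρ ^ h₀ * X b) := mul_le_mul_of_nonneg_left h1 h2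
        _ = _ := by ring
    rw [← Finset.mul_sum] at e3
    linarith
  calc ∑ b ∈ range (k + 1), ((b - h₀ : ℕ) : ℝ) * ((UU VV i₀ k b).card : ℝ) ≤ ρ ^ h₀ * A := hB
    _ ≤ ρ ^ h₀ * ((k / ((m : ℝ) - 2)) * N) := by
        apply mul_le_mul_of_nonneg_left hA2 (by positivity)
    _ = _ := by ring

end Pool.Agent.H.MP_3b0279_pr
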