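import Pool.Agent.H.MP_3b0279_pr.Comp

set_option autoImplicit false

namespace Pool.Agent.H.MP_3b0279_pr

open Finset

namespace CompSum

open Classical in
/-- admissible vectors of total `k` with sum `t` over `F` -/
noncomputable def nst {m : ℕ} (VV : (Fin m → ℕ) → Prop) (k : ℕ) (F : Finset (Fin m)) (t : ℕ) :
    Finset (Fin m → ℕ) :=
  (Finset.piAntidiag (univ : Finset (Fin m)) k).filter (fun ℓ => VV ℓ ∧ ∑ i ∈ F, ℓ i = t)

lemma mem_nst {m : ℕ} {VV : (Fin m → ℕ) → Prop} {k : ℕ} {F : Finset (Fin m)} {t : ℕ}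
    {ℓ : Fin m → ℕ} :
    ℓ ∈ nst VV k F t ↔ ∑ i, ℓ i = k ∧ VV ℓ ∧ ∑ i ∈ F, ℓ i = t := by
  unfold nst
  simp [Finset.mem_piAntidiag]

open Classical in
/-- the set counted by `nvec` -/
noncomputable def nvs {m : ℕ} (VV : (Fin m → ℕ) → Prop) (k : ℕ) (Q : (Fin m → ℕ) → Prop) :
    Finset (Fin m → ℕ) :=
  (Finset.piAntidiag (univ : Finset (Fin m)) k).filter (fun ℓ => VV ℓ ∧ Q ℓ)

lemma nvec_eq {m : ℕ} (VV : (Fin m → ℕ) → Prop) (k : ℕ) (Q : (Fin m → ℕ) → Prop) :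
    nvec VV k Q = (nvs VV k Q).card := rfl

lemma mem_nvs {m : ℕ} {VV : (Fin m → ℕ) → Prop} {k : ℕ} {Q : (Fin m → ℕ) → Prop}
    {ℓ : Fin m → ℕ} :
    ℓ ∈ nvs VV k Q ↔ ∑ i, ℓ i = k ∧ VV ℓ ∧ Q ℓ := by
  unfold nvs
  simp [Finset.mem_piAntidiag]

/-- move one unit from `i` to `i'` -/
def mv {m : ℕ} (i i' : Fin m) (ℓ : Fin m → ℕ) : Fin m → ℕ :=
  fun j => (ℓ j + if j = i' then 1 else 0) - if j = i then 1 else 0

lemma mv_add {m : ℕ} (i i' : Fin m) (ℓ : Fin m → ℕ) (h : 1 ≤ ℓ i) (j : Fin m) :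
    mv i i' ℓ j + (if j = i then 1 else 0) = ℓ j + if j = i' then 1 else 0 := by
  unfold mv
  by_cases hj : j = i
  · subst hj
    simp only [if_true]
    split_ifs <;> omega
  · simp [hj]

lemma step_pair {m : ℕ} (VV : (Fin m → ℕ) → Prop) (h : VHyp VV) (F : Finset (Fin m)) (k t : ℕ)
    (i i' : Fin m) (hi : i ∈ F) (hi' : i' ∉ F) :
    ∑ ℓ ∈ nst VV k F (t + 1), (ℓ i - 2) * (ℓ i' + 1) ≤ ∑ ℓ ∈ nst VV k F t, ℓ i * ℓ i' := by
  classical
  have hne : i ≠ i' := fun e => hi' (e ▸ hi)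
  have h1 : ∑ ℓ ∈ nst VV k F (t + 1), (ℓ i - 2) * (ℓ i' + 1)
      = ∑ ℓ ∈ (nst VV k F (t + 1)).filter (fun ℓ => 3 ≤ ℓ i), (ℓ i - 2) * (ℓ i' + 1) := by
    rw [Finset.sum_filter]
    refine Finset.sum_congr rfl fun ℓ _ => ?_
    split_ifs with h3
    · rfl
    · have : ℓ i - 2 = 0 := by omega
      rw [this, zero_mul]
  rw [h1]
  have hinj : Set.InjOn (mv i i')
      (((nst VV k F (t + 1)).filter (fun ℓ => 3 ≤ ℓ i) : Finset (Fin m → ℕ)) :
        Set (Fin m → ℕ)) := by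
    intro a ha b hb hab
    rw [Finset.mem_coe, Finset.mem_filter] at ha hb
    funext j
    have e1 := mv_add i i' a (by omega) j
    have e2 := mv_add i i' b (by omega) j
    rw [hab] at e1
    omega
  calc ∑ ℓ ∈ (nst VV k F (t + 1)).filter (fun ℓ => 3 ≤ ℓ i), (ℓ i - 2) * (ℓ i' + 1)
      ≤ ∑ ℓ ∈ (nst VV k F (t + 1)).filter (fun ℓ => 3 ≤ ℓ i), (mv i i' ℓ) i * (mv i i' ℓ) i' := by
        refine Finset.sum_le_sum fun ℓ hℓ => ?_
        rw [Finset.mem_filter] at hℓ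
        have e1 := mv_add i i' ℓ (by omega) i
        have e2 := mv_add i i' ℓ (by omega) i'
        rw [if_pos rfl, if_neg hne] at e1
        rw [if_pos rfl, if_neg hne.symm] at e2
        exact Nat.mul_le_mul (by omega) (by omega)
    _ = ∑ ℓ ∈ ((nst VV k F (t + 1)).filter (fun ℓ => 3 ≤ ℓ i)).image (mv i i'), ℓ i * ℓ i' := by
        rw [Finset.sum_image hinj]
    _ ≤ ∑ ℓ ∈ nst VV k F t, ℓ i * ℓ i' := by
        refine Finset.sum_le_sum_of_subset ?_
        intro ℓ' hℓ'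
        rw [Finset.mem_image] at hℓ'
        obtain ⟨ℓ, hℓ, rfl⟩ := hℓ'
        rw [Finset.mem_filter, mem_nst] at hℓ
        obtain ⟨⟨hs, hv, hF⟩, h3⟩ := hℓ
        have hadd := mv_add i i' ℓ (by omega)
        rw [mem_nst]
        refine ⟨?_, ?_, ?_⟩
        · have e : ∑ j, (mv i i' ℓ j + (if j = i then 1 else 0))
              = ∑ j, (ℓ j + if j = i' then 1 else 0) :=
            Finset.sum_congr rfl fun j _ => hadd j
          rw [Finset.sum_add_distrib, Finset.sum_add_distrib] at e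
          simp only [Finset.sum_ite_eq', Finset.mem_univ, if_true] at e
          omega
        · refine h.up (fun j => ℓ j - if j = i then 1 else 0) _ (fun j => ?_)
            (h.congr ℓ _ (fun j => ?_) hv)
          · show (ℓ j - if j = i then 1 else 0) ≤ mv i i' ℓ j
            unfold mv
            omega
          · show min (ℓ j) 2 = min (ℓ j - if j = i then 1 else 0) 2
            by_cases hj : j = i
            · subst hj
              simp only [if_true]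
              omega
            · simp [hj]
        · have e : ∑ j ∈ F, (mv i i' ℓ j + (if j = i then 1 else 0))
              = ∑ j ∈ F, (ℓ j + if j = i' then 1 else 0) :=
            Finset.sum_congr rfl fun j _ => hadd j
          rw [Finset.sum_add_distrib, Finset.sum_add_distrib] at e
          simp only [Finset.sum_ite_eq', hi, hi', if_true, if_false] at e
          omega

lemma step_card {m : ℕ} (VV : (Fin m → ℕ) → Prop) (h : VHyp VV) (F : Finset (Fin m)) (q : ℕ)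
    (hF : F.card ≤ q) (k t : ℕ) :
    (nst VV k F (t + 1)).card * ((t + 1 - 2 * q) * (k + m - (t + 1) - q))
      ≤ (nst VV k F t).card * (t * (k - t)) := by
  classical
  have hL : ∀ ℓ ∈ nst VV k F (t + 1), (t + 1 - 2 * q) * (k + m - (t + 1) - q)
      ≤ ∑ i ∈ F, ∑ i' ∈ Fᶜ, (ℓ i - 2) * (ℓ i' + 1) := by
    intro ℓ hℓ
    rw [mem_nst] at hℓ
    obtain ⟨hs, hv, hFt⟩ := hℓ
    have e : ∑ i ∈ F, ∑ i' ∈ Fᶜ, (ℓ i - 2) * (ℓ i' + 1)
        = (∑ i ∈ F, (ℓ i - 2)) * (∑ i' ∈ Fᶜ, (ℓ i' + 1)) := by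
      rw [Finset.sum_mul_sum]
    rw [e]
    refine Nat.mul_le_mul ?_ ?_
    · have h1 : ∑ i ∈ F, ℓ i ≤ ∑ i ∈ F, ((ℓ i - 2) + 2) :=
        Finset.sum_le_sum fun i _ => by omega
      rw [Finset.sum_add_distrib, Finset.sum_const, smul_eq_mul] at h1
      have h2 : F.card * 2 ≤ q * 2 := Nat.mul_le_mul_right 2 hF
      omega
    · rw [Finset.sum_add_distrib, Finset.sum_const, smul_eq_mul, mul_one]
      have h1 : ∑ i ∈ F, ℓ i + ∑ i ∈ Fᶜ, ℓ i = ∑ i, ℓ i := Finset.sum_add_sum_compl F ℓ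
      have h2 : F.card + Fᶜ.card = m := by
        rw [Finset.card_add_card_compl, Fintype.card_fin]
      omega
  have hR : ∀ ℓ ∈ nst VV k F t, ∑ i ∈ F, ∑ i' ∈ Fᶜ, ℓ i * ℓ i' = t * (k - t) := by
    intro ℓ hℓ
    rw [mem_nst] at hℓ
    obtain ⟨hs, hv, hFt⟩ := hℓ
    rw [← Finset.sum_mul_sum]
    have h1 : ∑ i ∈ F, ℓ i + ∑ i ∈ Fᶜ, ℓ i = ∑ i, ℓ i := Finset.sum_add_sum_compl F ℓ
    rw [hFt]
    congr 1
    omega
  calc (nst VV k F (t + 1)).card * ((t + 1 - 2 * q) * (k + m - (t + 1) - q))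
      = ∑ ℓ ∈ nst VV k F (t + 1), (t + 1 - 2 * q) * (k + m - (t + 1) - q) := by
        rw [Finset.sum_const, smul_eq_mul]
    _ ≤ ∑ ℓ ∈ nst VV k F (t + 1), ∑ i ∈ F, ∑ i' ∈ Fᶜ, (ℓ i - 2) * (ℓ i' + 1) :=
        Finset.sum_le_sum hL
    _ = ∑ i ∈ F, ∑ i' ∈ Fᶜ, ∑ ℓ ∈ nst VV k F (t + 1), (ℓ i - 2) * (ℓ i' + 1) := by
        rw [Finset.sum_comm]
        refine Finset.sum_congr rfl fun i _ => ?_
        rw [Finset.sum_comm]
    _ ≤ ∑ i ∈ F, ∑ i' ∈ Fᶜ, ∑ ℓ ∈ nst VV k F t, ℓ i * ℓ i' := by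
        refine Finset.sum_le_sum fun i hi => Finset.sum_le_sum fun i' hi' => ?_
        exact step_pair VV h F k t i i' hi (by simpa using hi')
    _ = ∑ ℓ ∈ nst VV k F t, ∑ i ∈ F, ∑ i' ∈ Fᶜ, ℓ i * ℓ i' := by
        symm
        rw [Finset.sum_comm]
        refine Finset.sum_congr rfl fun i _ => ?_
        rw [Finset.sum_comm]
    _ = ∑ ℓ ∈ nst VV k F t, t * (k - t) := Finset.sum_congr rfl hR
    _ = (nst VV k F t).card * (t * (k - t)) := by
        rw [Finset.sum_const, smul_eq_mul]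

lemma nst_empty {m : ℕ} (VV : (Fin m → ℕ) → Prop) (F : Finset (Fin m)) (k t : ℕ) (ht : k < t) :
    (nst VV k F t).card = 0 := by
  classical
  rw [Finset.card_eq_zero, Finset.eq_empty_iff_forall_notMem]
  intro ℓ hℓ
  rw [mem_nst] at hℓ
  obtain ⟨hs, hv, hFt⟩ := hℓ
  have h1 : ∑ i ∈ F, ℓ i + ∑ i ∈ Fᶜ, ℓ i = ∑ i, ℓ i := Finset.sum_add_sum_compl F ℓ
  omega

lemma ratio {m : ℕ} (VV : (Fin m → ℕ) → Prop) (h : VHyp VV) (F : Finset (Fin m)) (q : ℕ)
    (hF : F.card ≤ q) (hq : 4 * q + 4 ≤ m) (k t : ℕ)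
    (ht : 2 * (q : ℝ) + 8 * q * (k + m) / m < (t + 1 : ℕ)) :
    ((nst VV k F (t + 1)).card : ℝ)
      ≤ Real.exp (-(m / (2 * (k + m)) : ℝ)) * (nst VV k F t).card := by
  have hm0 : (0 : ℝ) < m := by
    have : 0 < m := by omega
    exact_mod_cast this
  have hk0 : (0 : ℝ) ≤ k := Nat.cast_nonneg k
  have hkm : (0 : ℝ) < k + m := by linarith
  have hq0 : (0 : ℝ) ≤ q := Nat.cast_nonneg q
  have hfrac : (0 : ℝ) ≤ 8 * q * (k + m) / m := by positivity
  by_cases hkt : k < t + 1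
  · rw [nst_empty VV F k (t + 1) hkt]
    simp only [Nat.cast_zero]
    positivity
  push Not at hkt
  have hstep := step_card VV h F q hF k t
  set A : ℝ := ((nst VV k F (t + 1)).card : ℝ) with hA
  set B : ℝ := ((nst VV k F t).card : ℝ) with hB
  have hA0 : 0 ≤ A := Nat.cast_nonneg _
  have hB0 : 0 ≤ B := Nat.cast_nonneg _
  -- real version of the step inequality
  have ht2q : 2 * q ≤ t + 1 := by
    have : (2 * q : ℝ) < (t + 1 : ℕ) := by linarith
    have h' : ((2 * q : ℕ) : ℝ) < ((t + 1 : ℕ) : ℝ) := by push_cast; push_cast at this; linarith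
    exact le_of_lt (by exact_mod_cast h')
  set x : ℝ := (t : ℝ) + 1 - 2 * q with hx
  have hxpos : 0 < x := by
    push_cast at ht
    rw [hx]; linarith
  set y : ℝ := (k : ℝ) + m - (t + 1) - q with hy
  have hkt' : ((t : ℝ) + 1) ≤ k := by exact_mod_cast hkt
  have hqm : (q : ℝ) + 1 ≤ m / 4 := by
    have : ((4 * q + 4 : ℕ) : ℝ) ≤ (m : ℝ) := by exact_mod_cast hq
    push_cast at this
    linarith
  have hypos : 0 < y := by
    rw [hy]; linarith
  have hreal : A * (x * y) ≤ B * (t * (k - t)) := by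
    have h1 : ((((nst VV k F (t + 1)).card * ((t + 1 - 2 * q) * (k + m - (t + 1) - q)) : ℕ)) : ℝ)
        ≤ (((nst VV k F t).card * (t * (k - t)) : ℕ) : ℝ) := by exact_mod_cast hstep
    have c1 : (((t + 1 - 2 * q : ℕ)) : ℝ) = x := by
      rw [Nat.cast_sub ht2q, hx]; push_cast; ring
    have c2 : (((k + m - (t + 1) - q : ℕ)) : ℝ) = y := by
      rw [Nat.cast_sub (by omega), Nat.cast_sub (by omega), hy]; push_cast; ring
    have c3 : (((k - t : ℕ)) : ℝ) = (k : ℝ) - t := by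
      rw [Nat.cast_sub (by omega)]
    rw [Nat.cast_mul, Nat.cast_mul, Nat.cast_mul, Nat.cast_mul, c1, c2, c3] at h1
    exact h1
  -- analytic estimates
  have e1 : (t : ℝ) ≤ x * Real.exp (m / (4 * (k + m))) := by
    have h2 : 2 * (q : ℝ) ≤ x * (m / (4 * (k + m))) := by
      have h3 : 8 * (q : ℝ) * (k + m) / m ≤ x := by
        push_cast at ht
        rw [hx]; linarith
      have h4 : 8 * (q : ℝ) * (k + m) / m * (m / (4 * (k + m))) = 2 * q := by
        field_simp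
        ring
      calc 2 * (q : ℝ) = 8 * (q : ℝ) * (k + m) / m * (m / (4 * (k + m))) := h4.symm
        _ ≤ x * (m / (4 * (k + m))) := mul_le_mul_of_nonneg_right h3 (by positivity)
    have h5 : (m / (4 * (k + m)) : ℝ) + 1 ≤ Real.exp (m / (4 * (k + m))) :=
      Real.add_one_le_exp _
    calc (t : ℝ) ≤ x + 2 * q := by rw [hx]; linarith
      _ ≤ x * ((m / (4 * (k + m)) : ℝ) + 1) := by linarith
      _ ≤ x * Real.exp (m / (4 * (k + m))) := mul_le_mul_of_nonneg_left h5 hxpos.le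
  have e2 : (k : ℝ) - t ≤ y * Real.exp (-(3 * m / (4 * (k + m)))) := by
    have h1 : 1 - 3 * (m : ℝ) / (4 * (k + m)) ≤ Real.exp (-(3 * m / (4 * (k + m)))) := by
      have := Real.add_one_le_exp (-(3 * (m : ℝ) / (4 * (k + m))))
      linarith
    have h2 : (k : ℝ) - t ≤ y * (1 - 3 * (m : ℝ) / (4 * (k + m))) := by
      have h3 : y * (3 * (m : ℝ) / (4 * (k + m))) ≤ 3 * m / 4 := by
        have h4 : y ≤ k + m := by rw [hy]; linarith
        have h5 : (k + m : ℝ) * (3 * (m : ℝ) / (4 * (k + m))) = 3 * m / 4 := by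
          field_simp
        rw [← h5]
        exact mul_le_mul_of_nonneg_right h4 (by positivity)
      have h6 : y - ((k : ℝ) - t) = m - q - 1 := by rw [hy]; ring
      linarith
    exact h2.trans (mul_le_mul_of_nonneg_left h1 hypos.le)
  have hkt0 : 0 ≤ (k : ℝ) - t := by linarith
  have e3 : (t : ℝ) * (k - t) ≤ (x * y) * Real.exp (-(m / (2 * (k + m)) : ℝ)) := by
    have h1 : (t : ℝ) * (k - t) ≤ (x * Real.exp (m / (4 * (k + m)))) *
        (y * Real.exp (-(3 * m / (4 * (k + m))))) :=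
      mul_le_mul e1 e2 hkt0 (by positivity)
    have h2 : Real.exp (m / (4 * (k + m))) * Real.exp (-(3 * m / (4 * (k + m))))
        = Real.exp (-(m / (2 * (k + m)) : ℝ)) := by
      rw [← Real.exp_add]
      congr 1
      field_simp
      ring
    calc (t : ℝ) * (k - t) ≤ (x * Real.exp (m / (4 * (k + m)))) *
        (y * Real.exp (-(3 * m / (4 * (k + m))))) := h1
      _ = (x * y) * (Real.exp (m / (4 * (k + m))) * Real.exp (-(3 * m / (4 * (k + m))))) := by
        ring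
      _ = (x * y) * Real.exp (-(m / (2 * (k + m)) : ℝ)) := by rw [h2]
  have hxy : 0 < x * y := mul_pos hxpos hypos
  have h7 : A * (x * y) ≤ (Real.exp (-(m / (2 * (k + m)) : ℝ)) * B) * (x * y) := by
    calc A * (x * y) ≤ B * (t * (k - t)) := hreal
      _ ≤ B * ((x * y) * Real.exp (-(m / (2 * (k + m)) : ℝ))) :=
        mul_le_mul_of_nonneg_left e3 hB0
      _ = (Real.exp (-(m / (2 * (k + m)) : ℝ)) * B) * (x * y) := by ring
  exact le_of_mul_le_mul_right h7 hxy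

lemma ratio_iter {m : ℕ} (VV : (Fin m → ℕ) → Prop) (h : VHyp VV) (F : Finset (Fin m)) (q : ℕ)
    (hF : F.card ≤ q) (hq : 4 * q + 4 ≤ m) (k Y : ℕ) :
    ∀ s : ℕ, 2 * (q : ℝ) + 8 * q * (k + m) / m < (s + 1 : ℕ) →
    ((nst VV k F (s + Y)).card : ℝ)
      ≤ Real.exp (-(Y * m / (2 * (k + m)) : ℝ)) * (nst VV k F s).card := by
  induction Y with
  | zero => intro s _; simp
  | succ Y ih =>
    intro s hs
    have h1 := ih s hs
    have h2 := ratio VV h F q hF hq k (s + Y) (by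
      refine lt_of_lt_of_le hs ?_
      have : s + 1 ≤ s + Y + 1 := by omega
      exact_mod_cast this)
    rw [show s + (Y + 1) = s + Y + 1 by ring]
    calc ((nst VV k F (s + Y + 1)).card : ℝ)
        ≤ Real.exp (-(m / (2 * (k + m)) : ℝ)) * (nst VV k F (s + Y)).card := h2
      _ ≤ Real.exp (-(m / (2 * (k + m)) : ℝ)) *
          (Real.exp (-(Y * m / (2 * (k + m)) : ℝ)) * (nst VV k F s).card) :=
          mul_le_mul_of_nonneg_left h1 (Real.exp_nonneg _)
      _ = Real.exp (-(((Y + 1 : ℕ) : ℝ) * m / (2 * (k + m)) : ℝ)) * (nst VV k F s).card := by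
          rw [← mul_assoc, ← Real.exp_add]
          congr 2
          push_cast
          ring

end CompSum

open CompSum in
/-- total length of few paths -/
theorem nvec_sum {m : ℕ} (VV : (Fin m → ℕ) → Prop) (h : VHyp VV) (F : Finset (Fin m)) (q : ℕ)
    (hF : F.card ≤ q) (hq : 4 * q + 4 ≤ m) (k T Y : ℕ)
    (hT : 2 * (q : ℝ) + 8 * q * (k + m) / m + 2 + Y ≤ T) :
    (nvec VV k (fun ℓ => T ≤ ∑ i ∈ F, ℓ i) : ℝ)
      ≤ Real.exp (-(Y * m / (4 * (k + m)))) * nvec VV k (fun _ => True) := by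
  classical
  have hm0 : (0 : ℝ) < m := by
    have : 0 < m := by omega
    exact_mod_cast this
  have hk0 : (0 : ℝ) ≤ k := Nat.cast_nonneg k
  have hkm : (0 : ℝ) < k + m := by linarith
  have hq0 : (0 : ℝ) ≤ q := Nat.cast_nonneg q
  have hfrac : (0 : ℝ) ≤ 8 * q * (k + m) / m := by positivity
  have hYT : Y ≤ T := by
    have : (Y : ℝ) ≤ T := by linarith
    exact_mod_cast this
  -- decompose
  have hdec : nvec VV k (fun ℓ => T ≤ ∑ i ∈ F, ℓ i)
      ≤ ∑ s ∈ Finset.range (k + 1), (nst VV k F (s + (T - Y) + Y)).card := by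
    rw [nvec_eq]
    refine (Finset.card_le_card (t := (Finset.range (k + 1)).biUnion
      (fun s => nst VV k F (s + (T - Y) + Y))) ?_).trans Finset.card_biUnion_le
    intro ℓ hℓ
    obtain ⟨hs, hv, hFt⟩ := mem_nvs.mp hℓ
    have hFt' : T ≤ ∑ i ∈ F, ℓ i := hFt
    have h1 : ∑ i ∈ F, ℓ i + ∑ i ∈ Fᶜ, ℓ i = ∑ i, ℓ i := Finset.sum_add_sum_compl F ℓ
    rw [Finset.mem_biUnion]
    refine ⟨∑ i ∈ F, ℓ i - T, ?_, ?_⟩
    · rw [Finset.mem_range]; omega
    · rw [mem_nst]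
      exact ⟨hs, hv, by omega⟩
  have hall : ∑ s ∈ Finset.range (k + 1), (nst VV k F (s + (T - Y))).card
      ≤ nvec VV k (fun _ => True) := by
    rw [← Finset.card_biUnion]
    · rw [nvec_eq]
      refine Finset.card_le_card ?_
      intro ℓ hℓ
      rw [Finset.mem_biUnion] at hℓ
      obtain ⟨s, -, hs⟩ := hℓ
      rw [mem_nst] at hs
      exact mem_nvs.mpr ⟨hs.1, hs.2.1, trivial⟩
    · intro s _ s' _ hss'
      rw [Function.onFun, Finset.disjoint_left]
      intro ℓ h1 h2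
      rw [mem_nst] at h1 h2
      omega
  have hterm : ∀ s ∈ Finset.range (k + 1), ((nst VV k F (s + (T - Y) + Y)).card : ℝ)
      ≤ Real.exp (-(Y * m / (2 * (k + m)) : ℝ)) * (nst VV k F (s + (T - Y))).card := by
    intro s _
    refine ratio_iter VV h F q hF hq k Y (s + (T - Y)) ?_
    have c : (((s + (T - Y) + 1 : ℕ)) : ℝ) = s + (T - Y) + 1 := by
      push_cast [Nat.cast_sub hYT]; ring
    rw [c]
    have : (0 : ℝ) ≤ s := Nat.cast_nonneg s
    linarith
  calc (nvec VV k (fun ℓ => T ≤ ∑ i ∈ F, ℓ i) : ℝ)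
      ≤ ((∑ s ∈ Finset.range (k + 1), (nst VV k F (s + (T - Y) + Y)).card : ℕ) : ℝ) := by
        exact_mod_cast hdec
    _ = ∑ s ∈ Finset.range (k + 1), ((nst VV k F (s + (T - Y) + Y)).card : ℝ) := by
        push_cast; rfl
    _ ≤ ∑ s ∈ Finset.range (k + 1), Real.exp (-(Y * m / (2 * (k + m)) : ℝ)) *
          (nst VV k F (s + (T - Y))).card := Finset.sum_le_sum hterm
    _ = Real.exp (-(Y * m / (2 * (k + m)) : ℝ)) *
          ((∑ s ∈ Finset.range (k + 1), (nst VV k F (s + (T - Y))).card : ℕ) : ℝ) := by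
        push_cast
        rw [Finset.mul_sum]
    _ ≤ Real.exp (-(Y * m / (4 * (k + m)) : ℝ)) * nvec VV k (fun _ => True) := by
        refine mul_le_mul ?_ (by exact_mod_cast hall) (Nat.cast_nonneg _) (Real.exp_nonneg _)
        refine Real.exp_le_exp.mpr (neg_le_neg ?_)
        refine div_le_div_of_nonneg_left (by positivity) (by positivity) ?_
        linarith

end Pool.Agent.H.MP_3b0279_pr
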