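import Pool.Agent.H.MP_3b0279_pr.RepDef

/-!
The largest stable set `cor G A`, distances to it, and the chain of marked sets.
-/

set_option autoImplicit false

namespace Pool.Agent.H.MP_3b0279_pr

open Finset

variable {V : Type} [Fintype V] [DecidableEq V]

/-- distance from a vertex to a set (`0` for the empty set) -/
noncomputable def setDist (G : SimpleGraph V) (X : Finset V) (x : V) : ℕ :=
  sInf {k | ∃ u ∈ X, G.dist x u = k}

theorem setDist_le (G : SimpleGraph V) (X : Finset V) (x u : V) (hu : u ∈ X) :
    setDist G X x ≤ G.dist x u :=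
  Nat.sInf_le ⟨u, hu, rfl⟩

theorem exists_setDist (G : SimpleGraph V) (X : Finset V) (x : V) (hX : X.Nonempty) :
    ∃ u ∈ X, G.dist x u = setDist G X x := by
  obtain ⟨u, hu⟩ := hX
  exact Nat.sInf_mem (s := {k | ∃ u ∈ X, G.dist x u = k}) ⟨_, u, hu, rfl⟩

theorem cor_stable (G : SimpleGraph V) (A : Finset V) : AStable G A (cor G A) := by
  classical
  constructor
  · intro v hv hA
    simp only [cor, mem_filter, mem_univ, true_and] at hv
    obtain ⟨X, hX, hvX⟩ := hv
    obtain ⟨u, hu, u', hu', hne, h1, h2⟩ := hX.1 v hvX hA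
    exact ⟨u, by simp only [cor, mem_filter, mem_univ, true_and]; exact ⟨X, hX, hu⟩,
      u', by simp only [cor, mem_filter, mem_univ, true_and]; exact ⟨X, hX, hu'⟩, hne, h1, h2⟩
  · intro v hv hA
    simp only [cor, mem_filter, mem_univ, true_and] at hv
    obtain ⟨X, hX, hvX⟩ := hv
    obtain ⟨u, hu, h1⟩ := hX.2 v hvX hA
    exact ⟨u, by simp only [cor, mem_filter, mem_univ, true_and]; exact ⟨X, hX, hu⟩, h1⟩

theorem cor_max (G : SimpleGraph V) (A X : Finset V) (h : AStable G A X) : X ⊆ cor G A := by
  classical
  intro v hv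
  simp only [cor, mem_filter, mem_univ, true_and]
  exact ⟨X, h, hv⟩

theorem cor_mono (G : SimpleGraph V) (A A' : Finset V) (h : A ⊆ A') : cor G A ⊆ cor G A' := by
  apply cor_max
  have hs := cor_stable G A
  constructor
  · intro v hv hA'
    exact hs.1 v hv fun hA => hA' (h hA)
  · intro v hv _
    by_cases hA : v ∈ A
    · exact hs.2 v hv hA
    · obtain ⟨u, hu, _, _, _, h1, _⟩ := hs.1 v hv hA
      exact ⟨u, hu, h1⟩

lemma setDist_triangle (G : SimpleGraph V) (hG : G.Connected) (X : Finset V) (hX : X.Nonempty)
    (x y : V) : setDist G X x ≤ G.dist x y + setDist G X y := by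
  obtain ⟨u, hu, h⟩ := exists_setDist G X y hX
  rw [← h]
  exact (setDist_le G X x u hu).trans hG.dist_triangle

lemma setDist_of_mem (G : SimpleGraph V) (X : Finset V) (x : V) (hx : x ∈ X) :
    setDist G X x = 0 := by
  have := setDist_le G X x x hx
  rw [SimpleGraph.dist_self] at this
  omega

lemma mem_of_setDist_eq_zero (G : SimpleGraph V) (hG : G.Connected) (X : Finset V)
    (hX : X.Nonempty) (x : V) (h : setDist G X x = 0) : x ∈ X := by
  obtain ⟨u, hu, h1⟩ := exists_setDist G X x hX
  rw [h, hG.dist_eq_zero_iff] at h1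
  exact h1 ▸ hu

lemma setDist_adj (G : SimpleGraph V) (hG : G.Connected) (X : Finset V)
    (hX : X.Nonempty) (x y : V) (h : G.Adj x y) : setDist G X x ≤ setDist G X y + 1 := by
  have h1 := setDist_triangle G hG X hX x y
  have h2 : G.dist x y ≤ 1 := by
    simpa using SimpleGraph.dist_le h.toWalk
  omega

lemma exists_step (G : SimpleGraph V) (hG : G.Connected) (X : Finset V)
    (hX : X.Nonempty) (x : V) (D : ℕ) (h : setDist G X x = D + 1) :
    ∃ y, G.Adj x y ∧ setDist G X y = D := by
  obtain ⟨u, hu, h1⟩ := exists_setDist G X x hX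
  obtain ⟨w, hw⟩ := hG.exists_walk_length_eq_dist x u
  rw [h1, h] at hw
  cases w with
  | nil => simp at hw
  | cons ha q =>
    rename_i y
    refine ⟨y, ha, ?_⟩
    have h2 : q.length = D := by simpa using hw
    have h3 := setDist_le G X y u hu
    have h4 := SimpleGraph.dist_le q
    have h5 := setDist_adj G hG X hX x y ha
    omega

/-- a shortest path to the set `X`, as a function -/
lemma exists_geodesic (G : SimpleGraph V) (hG : G.Connected) (X : Finset V)
    (hX : X.Nonempty) (D : ℕ) (x : V) (h : setDist G X x = D) :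
    ∃ p : ℕ → V, p 0 = x ∧ (∀ i < D, G.Adj (p i) (p (i + 1))) ∧
      (∀ i ≤ D, setDist G X (p i) = D - i) := by
  induction D generalizing x with
  | zero =>
    refine ⟨fun _ => x, rfl, fun i hi => absurd hi (by omega), fun i hi => ?_⟩
    have : i = 0 := by omega
    subst this
    simpa using h
  | succ D ih =>
    obtain ⟨y, hxy, hy⟩ := exists_step G hG X hX x D h
    obtain ⟨p, hp0, hp1, hp2⟩ := ih y hy
    refine ⟨fun i => if i = 0 then x else p (i - 1), by simp, ?_, ?_⟩
    · intro i hi
      rcases Nat.eq_zero_or_pos i with rfl | hi0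
      · simpa [hp0] using hxy
      · have e1 : i - 1 + 1 = i := by omega
        have := hp1 (i - 1) (by omega)
        rw [e1] at this
        simpa [Nat.pos_iff_ne_zero.1 hi0] using this
    · intro i hi
      rcases Nat.eq_zero_or_pos i with rfl | hi0
      · simpa using h
      · have := hp2 (i - 1) (by omega)
        simp only [Nat.pos_iff_ne_zero.1 hi0, if_false]
        rw [this]
        omega

/-- attaching vertices to the largest stable set -/
lemma sub_cor_of_attach (G : SimpleGraph V) (A X : Finset V) (hC : cor G A ⊆ X)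
    (h1 : ∀ v ∈ X, v ∉ cor G A → v ∉ A → ∃ u ∈ X, ∃ u' ∈ X, u ≠ u' ∧ G.Adj v u ∧ G.Adj v u')
    (h2 : ∀ v ∈ X, v ∉ cor G A → v ∈ A → ∃ u ∈ X, G.Adj v u) : X ⊆ cor G A := by
  apply cor_max
  have hs := cor_stable G A
  constructor
  · intro v hv hA
    by_cases hvC : v ∈ cor G A
    · obtain ⟨u, hu, u', hu', hne, h3, h4⟩ := hs.1 v hvC hA
      exact ⟨u, hC hu, u', hC hu', hne, h3, h4⟩
    · exact h1 v hv hvC hA
  · intro v hv hA
    by_cases hvC : v ∈ cor G A
    · obtain ⟨u, hu, h3⟩ := hs.2 v hvC hA
      exact ⟨u, hC hu, h3⟩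
    · exact h2 v hv hvC hA

/-- marked vertices belong to the core -/
theorem sub_cor (G : SimpleGraph V) (hG : G.Connected) (A : Finset V)
    (hne : (cor G A).Nonempty) : A ⊆ cor G A := by
  intro x hx
  by_contra hxC
  set C := cor G A with hCdef
  set D := setDist G C x with hD
  obtain ⟨p, hp0, hp1, hp2⟩ := exists_geodesic G hG C hne D x rfl
  have hlt : ∀ i ≤ D, p i ∉ C → i < D := by
    intro i hi hi'
    rcases Nat.lt_or_ge i D with h | h
    · exact h
    · exfalso
      apply hi'
      apply mem_of_setDist_eq_zero G hG C hne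
      rw [hp2 i hi]
      omega
  have hmem : ∀ i ≤ D, p i ∈ C ∪ (range (D + 1)).image p := fun i hi =>
    mem_union_right _ (mem_image_of_mem p (mem_range.2 (by omega)))
  have key : C ∪ (range (D + 1)).image p ⊆ C := by
    apply sub_cor_of_attach G A _ subset_union_left
    · intro v hv hvC hvA
      rcases mem_union.1 hv with h | h
      · exact absurd h hvC
      · obtain ⟨i, hi, rfl⟩ := mem_image.1 h
        rw [mem_range] at hi
        have hi' := hlt i (by omega) hvC
        have hi0 : i ≠ 0 := by
          rintro rfl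
          rw [hp0] at hvA
          exact hvA hx
        refine ⟨p (i - 1), hmem _ (by omega), p (i + 1), hmem _ (by omega), ?_, ?_,
          hp1 i hi'⟩
        · intro he
          have h3 := hp2 (i - 1) (by omega)
          have h4 := hp2 (i + 1) (by omega)
          rw [he] at h3
          omega
        · have := hp1 (i - 1) (by omega)
          rw [show i - 1 + 1 = i by omega] at this
          exact this.symm
    · intro v hv hvC _
      rcases mem_union.1 hv with h | h
      · exact absurd h hvC
      · obtain ⟨i, hi, rfl⟩ := mem_image.1 h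
        rw [mem_range] at hi
        have hi' := hlt i (by omega) hvC
        exact ⟨p (i + 1), hmem _ (by omega), hp1 i hi'⟩
  exact hxC (by simpa [hp0] using key (hmem 0 (by omega)))

/-- outside of the core, at most one neighbour is not farther from the core -/
theorem unique_parent (G : SimpleGraph V) (hG : G.Connected) (A : Finset V)
    (hne : (cor G A).Nonempty) (v u u' : V) (hv : v ∉ cor G A) (hu : G.Adj v u)
    (hu' : G.Adj v u') (hd : setDist G (cor G A) u ≤ setDist G (cor G A) v)
    (hd' : setDist G (cor G A) u' ≤ setDist G (cor G A) v) : u = u' := by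
  by_contra huu
  set C := cor G A with hCdef
  obtain ⟨p, hp0, hp1, hp2⟩ := exists_geodesic G hG C hne _ u rfl
  obtain ⟨q, hq0, hq1, hq2⟩ := exists_geodesic G hG C hne _ u' rfl
  set D := setDist G C u with hD
  set D' := setDist G C u' with hD'
  set X := insert v (C ∪ (range (D + 1)).image p ∪ (range (D' + 1)).image q) with hX
  have hmemp : ∀ i ≤ D, p i ∈ X := fun i hi => mem_insert_of_mem
    (mem_union_left _ (mem_union_right _ (mem_image_of_mem p (mem_range.2 (by omega)))))
  have hmemq : ∀ i ≤ D', q i ∈ X := fun i hi => mem_insert_of_mem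
    (mem_union_right _ (mem_image_of_mem q (mem_range.2 (by omega))))
  have hmemv : v ∈ X := mem_insert_self _ _
  have hnbr : ∀ y ∈ X, y ∉ C → ∃ a ∈ X, ∃ b ∈ X, a ≠ b ∧ G.Adj y a ∧ G.Adj y b := by
    intro y hy hyC
    rcases mem_insert.1 hy with rfl | hy
    · exact ⟨u, hp0 ▸ hmemp 0 (by omega), u', hq0 ▸ hmemq 0 (by omega), huu, hu, hu'⟩
    rcases mem_union.1 hy with hy | hy
    · rcases mem_union.1 hy with hy | hy
      · exact absurd hy hyC
      · obtain ⟨i, hi, rfl⟩ := mem_image.1 hy
        rw [mem_range] at hi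
        have hi' : i < D := by
          rcases Nat.lt_or_ge i D with h | h
          · exact h
          · exfalso
            apply hyC
            apply mem_of_setDist_eq_zero G hG C hne
            rw [hp2 i (by omega)]
            omega
        have h4 := hp2 (i + 1) (by omega)
        rcases Nat.eq_zero_or_pos i with rfl | hi0
        · refine ⟨v, hmemv, p 1, hmemp _ (by omega), ?_, ?_, hp1 0 hi'⟩
          · rintro rfl
            simp only [zero_add] at h4
            omega
          · rw [hp0]; exact hu.symm
        · refine ⟨p (i - 1), hmemp _ (by omega), p (i + 1), hmemp _ (by omega), ?_, ?_,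
            hp1 i hi'⟩
          · intro he
            have h3 := hp2 (i - 1) (by omega)
            rw [he] at h3
            omega
          · have := hp1 (i - 1) (by omega)
            rw [show i - 1 + 1 = i by omega] at this
            exact this.symm
    · obtain ⟨i, hi, rfl⟩ := mem_image.1 hy
      rw [mem_range] at hi
      have hi' : i < D' := by
        rcases Nat.lt_or_ge i D' with h | h
        · exact h
        · exfalso
          apply hyC
          apply mem_of_setDist_eq_zero G hG C hne
          rw [hq2 i (by omega)]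
          omega
      have h4 := hq2 (i + 1) (by omega)
      rcases Nat.eq_zero_or_pos i with rfl | hi0
      · refine ⟨v, hmemv, q 1, hmemq _ (by omega), ?_, ?_, hq1 0 hi'⟩
        · rintro rfl
          simp only [zero_add] at h4
          omega
        · rw [hq0]; exact hu'.symm
      · refine ⟨q (i - 1), hmemq _ (by omega), q (i + 1), hmemq _ (by omega), ?_, ?_,
          hq1 i hi'⟩
        · intro he
          have h3 := hq2 (i - 1) (by omega)
          rw [he] at h3
          omega
        · have := hq1 (i - 1) (by omega)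
          rw [show i - 1 + 1 = i by omega] at this
          exact this.symm
  have key : X ⊆ C := by
    apply sub_cor_of_attach G A X
    · intro y hy
      exact mem_insert_of_mem (mem_union_left _ (mem_union_left _ hy))
    · intro y hy hyC _
      exact hnbr y hy hyC
    · intro y hy hyC _
      obtain ⟨a, ha, _, _, _, h1, _⟩ := hnbr y hy hyC
      exact ⟨a, ha, h1⟩
  exact hv (key hmemv)

/-- vertices of the larger core are at most as far as the marked vertices -/
theorem chain_level (G : SimpleGraph V) (hG : G.Connected) (A A' : Finset V) (hAA : A ⊆ A')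
    (hne : (cor G A).Nonempty) (M : ℕ) (hM : ∀ x ∈ A', setDist G (cor G A) x ≤ M) (v : V)
    (hv : v ∈ cor G A') : setDist G (cor G A) v ≤ M := by
  obtain ⟨w, hw, hmax⟩ := exists_max_image (cor G A') (setDist G (cor G A)) ⟨v, hv⟩
  refine (hmax v hv).trans ?_
  by_cases hwA : w ∈ A'
  · exact hM w hwA
  by_cases hwC : w ∈ cor G A
  · rw [setDist_of_mem G _ w hwC]
    exact Nat.zero_le _
  obtain ⟨u, hu, u', hu', hne', h1, h2⟩ := (cor_stable G A').1 w hw hwA
  exact absurd (unique_parent G hG A hne w u u' hwC h1 h2 (hmax u hu) (hmax u' hu')) hne'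

/-- with all leaves marked, everything is in the core -/
theorem cor_leaves (d : V → ℕ) (G : SimpleGraph V) (hG : IsGr d G) (hd : ∀ v, 1 ≤ d v) :
    cor G (univ.filter (fun v => d v = 1)) = univ := by
  rw [← univ_subset_iff]
  apply cor_max
  constructor
  · intro v _ hv
    simp only [mem_filter, mem_univ, true_and] at hv
    have h1 : 1 < (G.neighborSet v).ncard := by
      have := hd v
      rw [hG.2 v]
      omega
    rw [Set.one_lt_ncard (Set.toFinite _)] at h1
    obtain ⟨a, ha, b, hb, hab⟩ := h1
    exact ⟨a, mem_univ _, b, mem_univ _, hab, ha, hb⟩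
  · intro v _ _
    have h1 : (G.neighborSet v).ncard ≠ 0 := by
      have := hd v
      rw [hG.2 v]
      omega
    obtain ⟨a, ha⟩ := Set.nonempty_of_ncard_ne_zero h1
    exact ⟨a, mem_univ _, ha⟩

theorem diam_le_of_cor (G : SimpleGraph V) (hG : G.Connected) (X : Finset V)
    (hne : X.Nonempty) (D H : ℕ) (hD : ∀ x ∈ X, ∀ y ∈ X, G.dist x y ≤ D)
    (hH : ∀ v, setDist G X v ≤ H) : G.diam ≤ D + 2 * H := by
  have : Nonempty V := ⟨hne.choose⟩
  obtain ⟨x, y, hxy⟩ := G.exists_dist_eq_diam
  rw [← hxy]
  obtain ⟨a, ha, h1⟩ := exists_setDist G X x hne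
  obtain ⟨b, hb, h2⟩ := exists_setDist G X y hne
  have h3 : G.dist x y ≤ G.dist x a + G.dist a y := hG.dist_triangle
  have h4 : G.dist a y ≤ G.dist a b + G.dist b y := hG.dist_triangle
  have h5 := hD a ha b hb
  have h6 := hH x
  have h7 := hH y
  rw [G.dist_comm (u := b)] at h4
  omega

/-- the whole chain -/
theorem chain_total (d : V → ℕ) (G : SimpleGraph V) (hG : IsGr d G) (hd : ∀ v, 1 ≤ d v)
    (K : ℕ) (A : ℕ → Finset V) (hA : ∀ i, A i ⊆ A (i + 1)) (hA0 : A 0 = ∅)
    (hAK : A K = univ.filter (fun v => d v = 1)) (hne : (cor G ∅).Nonempty) (v : V) :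
    setDist G (cor G ∅) v ≤
      ∑ i ∈ range K, (A (i + 1)).sup (fun x => setDist G (cor G (A i)) x) := by
  have hmono : ∀ i, (cor G (A i)).Nonempty := fun i =>
    hne.mono (cor_mono G ∅ (A i) (empty_subset _))
  have key : ∀ i, ∀ v ∈ cor G (A i), setDist G (cor G ∅) v ≤
      ∑ i ∈ range i, (A (i + 1)).sup (fun x => setDist G (cor G (A i)) x) := by
    intro i
    induction i with
    | zero =>
      intro v hv
      rw [hA0] at hv
      rw [setDist_of_mem G _ v hv]
      exact Nat.zero_le _
    | succ i ih =>
      intro v hv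
      rw [sum_range_succ]
      have h1 := chain_level G hG.1 (A i) (A (i + 1)) (hA i) (hmono i)
        ((A (i + 1)).sup (fun x => setDist G (cor G (A i)) x))
        (fun x hx => le_sup (f := fun x => setDist G (cor G (A i)) x) hx) v hv
      obtain ⟨u, hu, h2⟩ := exists_setDist G (cor G (A i)) v (hmono i)
      have h3 := ih u hu
      have h4 := setDist_triangle G hG.1 (cor G ∅) hne v u
      omega
  apply key K v
  rw [hAK, cor_leaves d G hG hd]
  exact mem_univ _

end Pool.Agent.H.MP_3b0279_pr
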