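import Pool.Agent.H.MP_3b0279_pr.GoodPhi

/-!
Expected diameter of the 2-core.
-/

set_option autoImplicit false

namespace Pool.Agent.H.MP_3b0279_pr

open Finset

variable {V : Type} [Fintype V] [DecidableEq V] {m : ℕ}

/-- replace the kernel -/
def emb (ρ₀ : Rep V m) (κ' : Slot m → V) : Rep V m := ⟨κ', ρ₀.ℓ, ρ₀.L, ρ₀.f⟩

/-- everything except the kernel, and the kernel degrees -/
def cls (ρ : Rep V m) : ((Σ ℓ : Fin m → Fin (Fintype.card V + 1),
    ((i : Fin m) → Fin (ℓ i).val → V)) × (V → V)) × (V → ℕ) :=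
  ((⟨ρ.ℓ, ρ.L⟩, ρ.f), kdeg ρ.κ)

open Classical in
lemma cls_fiber (d : V → ℕ) (A : Finset V) (ρ₀ : Rep V m) (h₀ : IsRep d A ρ₀)
    (P : (Slot m → V) → Prop) :
    ((Om d A m).filter (fun ρ => P ρ.κ)).filter (fun ρ => cls ρ = cls ρ₀)
      = (univ.filter (fun κ' : Slot m → V => KSet (kdeg ρ₀.κ)
          (univ.filter (fun i => ρ₀.len i = 0)) (univ.filter (fun i => ρ₀.len i ≤ 1)) κ'
          ∧ P κ')).image (emb ρ₀) := by
  ext ρ
  simp only [Finset.mem_filter, Finset.mem_image, Finset.mem_univ, true_and, mem_Om]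
  constructor
  · rintro ⟨⟨h1, h2⟩, h3⟩
    have h4 : ρ = emb ρ₀ ρ.κ := by
      apply (Rep.equiv V m).injective
      have h5 : (⟨ρ.ℓ, ρ.L⟩ : Σ ℓ : Fin m → Fin (Fintype.card V + 1),
          ((i : Fin m) → Fin (ℓ i).val → V)) = ⟨ρ₀.ℓ, ρ₀.L⟩ := by
        have := congrArg (fun x => x.1.1) h3
        exact this
      have h6 : ρ.f = ρ₀.f := congrArg (fun x => x.1.2) h3
      show (ρ.κ, (⟨ρ.ℓ, ρ.L⟩ : Σ ℓ : Fin m → Fin (Fintype.card V + 1),
          ((i : Fin m) → Fin (ℓ i).val → V)), ρ.f) = (ρ.κ, ⟨ρ₀.ℓ, ρ₀.L⟩, ρ₀.f)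
      rw [h5, h6]
    have h7 : kdeg ρ.κ = kdeg ρ₀.κ := congrArg (fun x => x.2) h3
    refine ⟨ρ.κ, ⟨?_, h2⟩, h4.symm⟩
    rw [← rep_kappa d A ρ₀ h₀ ρ.κ h7]
    have h8 : (⟨ρ.κ, ρ₀.ℓ, ρ₀.L, ρ₀.f⟩ : Rep V m) = ρ := h4.symm
    rw [h8]
    exact h1
  · rintro ⟨κ', ⟨h1, h2⟩, rfl⟩
    have h3 : kdeg κ' = kdeg ρ₀.κ := funext h1.1
    refine ⟨⟨(rep_kappa d A ρ₀ h₀ κ' h3).2 h1, h2⟩, ?_⟩
    unfold cls emb
    simp only [h3]

lemma emb_inj (ρ₀ : Rep V m) : Function.Injective (emb ρ₀) := by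
  intro κ κ' h
  exact congrArg Rep.κ h

open Classical in
/-- bad kernels have small weight -/
lemma bad_sum (d : V → ℕ) (R : ℕ) (hm : 2 ≤ m)
    (hR : ∀ (c : V → ℕ) (E0 E1 : Finset (Fin m)), (∀ v, c v = 0 ∨ 3 ≤ c v) → E0 ⊆ E1 →
      m ^ 2 * (univ.filter (fun κ : Slot m → V => KSet c E0 E1 κ ∧ ¬ Good κ R)).card
        ≤ (univ.filter (fun κ : Slot m → V => KSet c E0 E1 κ)).card)
    (φ : (Fin m → ℕ) → ℝ) (hφ : ∀ ℓ, 0 ≤ φ ℓ) :
    ∑ ρ ∈ (Om d ∅ m).filter (fun ρ => ¬ Good ρ.κ R), φ ρ.len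
      ≤ 1 / (m : ℝ) ^ 2 * ∑ ρ ∈ Om d ∅ m, φ ρ.len := by
  have hm0 : (0 : ℝ) < (m : ℝ) ^ 2 := by
    have : (0 : ℝ) < m := by exact_mod_cast (by omega : 0 < m)
    positivity
  rw [← Finset.sum_fiberwise_of_maps_to (s := (Om d ∅ m).filter (fun ρ => ¬ Good ρ.κ R))
      (t := (Om d ∅ m).image cls) (g := cls)
      (fun ρ hρ => Finset.mem_image_of_mem _ (Finset.mem_filter.1 hρ).1),
    ← Finset.sum_fiberwise_of_maps_to (s := Om d ∅ m)
      (t := (Om d ∅ m).image cls) (g := cls) (fun ρ hρ => Finset.mem_image_of_mem _ hρ),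
    Finset.mul_sum]
  apply Finset.sum_le_sum
  intro c hc
  rw [Finset.mem_image] at hc
  obtain ⟨ρ₀, h₀, rfl⟩ := hc
  rw [mem_Om] at h₀
  have hlen : ∀ ρ : Rep V m, cls ρ = cls ρ₀ → φ ρ.len = φ ρ₀.len := by
    intro ρ h
    have h1 : ρ.ℓ = ρ₀.ℓ := congrArg (fun x => x.1.1.1) h
    have h2 : ρ.len = ρ₀.len := by
      funext i
      unfold Rep.len
      rw [h1]
    rw [h2]
  rw [Finset.sum_congr rfl (g := fun _ => φ ρ₀.len)
    (fun ρ hρ => hlen ρ (Finset.mem_filter.1 hρ).2),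
    Finset.sum_congr rfl (s₁ := (Om d ∅ m).filter (fun ρ => cls ρ = cls ρ₀))
    (g := fun _ => φ ρ₀.len)
    (fun ρ hρ => hlen ρ (Finset.mem_filter.1 hρ).2), Finset.sum_const, Finset.sum_const,
    nsmul_eq_mul, nsmul_eq_mul]
  have h1 := cls_fiber d ∅ ρ₀ h₀ (fun κ => ¬ Good κ R)
  have h2 := cls_fiber d ∅ ρ₀ h₀ (fun _ => True)
  simp only [and_true, Finset.filter_true] at h2
  have e1 := congrArg Finset.card h1
  have e2 := congrArg Finset.card h2
  rw [Finset.card_image_of_injective _ (emb_inj ρ₀)] at e1 e2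
  have e1' : (((Om d ∅ m).filter (fun ρ => ¬ Good ρ.κ R)).filter
      (fun ρ => cls ρ = cls ρ₀)).card = (univ.filter (fun κ' : Slot m → V =>
        KSet (kdeg ρ₀.κ) (univ.filter (fun i => ρ₀.len i = 0))
        (univ.filter (fun i => ρ₀.len i ≤ 1)) κ' ∧ ¬ Good κ' R)).card := by
    convert e1
  rw [e1', e2]
  have h3 := hR (kdeg ρ₀.κ) (univ.filter (fun i => ρ₀.len i = 0))
    (univ.filter (fun i => ρ₀.len i ≤ 1))
    (fun v => h₀.good.2.2 v (by simp)) (by
      intro i hi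
      rw [Finset.mem_filter] at hi ⊢
      exact ⟨hi.1, by omega⟩)
  have h4 : (m : ℝ) ^ 2 * ((univ.filter (fun κ : Slot m → V => KSet (kdeg ρ₀.κ)
      (univ.filter (fun i => ρ₀.len i = 0)) (univ.filter (fun i => ρ₀.len i ≤ 1)) κ
      ∧ ¬ Good κ R)).card : ℝ) ≤ ((univ.filter (fun κ : Slot m → V => KSet (kdeg ρ₀.κ)
      (univ.filter (fun i => ρ₀.len i = 0))
      (univ.filter (fun i => ρ₀.len i ≤ 1)) κ)).card : ℝ) := by exact_mod_cast h3
  rw [← mul_assoc]
  apply mul_le_mul_of_nonneg_right _ (hφ _)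
  rw [one_div, inv_mul_eq_div, le_div_iff₀ hm0, mul_comm]
  exact h4

lemma natlog_le (m : ℕ) (hm : 1 ≤ m) : (Nat.log 2 m : ℝ) ≤ 2 * Real.log m := by
  have h1 : 2 ^ Nat.log 2 m ≤ m := Nat.pow_log_le_self 2 (by omega)
  have h2 : Real.log ((2 : ℝ) ^ Nat.log 2 m) ≤ Real.log m := by
    apply Real.log_le_log (by positivity)
    exact_mod_cast h1
  rw [Real.log_pow] at h2
  have h3 := Real.log_two_gt_d9
  have h4 : (0 : ℝ) ≤ Nat.log 2 m := Nat.cast_nonneg _
  nlinarith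

lemma exists_large (K : ℕ) : ∃ m₁ : ℕ, ∀ m, m₁ ≤ m → 4 * (K * Nat.log 2 m + 2) + 4 ≤ m := by
  have h1 := Real.isLittleO_log_id_atTop
  have h2 := (h1.comp_tendsto tendsto_natCast_atTop_atTop).bound
    (show (0 : ℝ) < 1 / (16 * K + 16) by positivity)
  obtain ⟨m₁, hm₁⟩ := Filter.eventually_atTop.1 h2
  refine ⟨max m₁ 24, ?_⟩
  intro m hm
  have h3 := hm₁ m (le_trans (le_max_left _ _) hm)
  have h24 : 24 ≤ m := le_trans (le_max_right _ _) hm
  have h24' : (24 : ℝ) ≤ m := by exact_mod_cast h24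
  simp only [Function.comp, id, Real.norm_eq_abs] at h3
  rw [abs_of_nonneg (Real.log_nonneg (by linarith)), abs_of_nonneg (by linarith)] at h3
  have h4 := natlog_le m (by omega)
  have h5 : (K : ℝ) * Nat.log 2 m * 8 ≤ m := by
    have hK : (0 : ℝ) ≤ K := Nat.cast_nonneg _
    calc (K : ℝ) * Nat.log 2 m * 8 ≤ K * (2 * Real.log m) * 8 := by
          have := mul_le_mul_of_nonneg_left h4 hK
          linarith
      _ ≤ K * (2 * (1 / (16 * K + 16) * m)) * 8 := by
          have := mul_le_mul_of_nonneg_left h3 hK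
          linarith
      _ = (16 * K) / (16 * K + 16) * m := by ring
      _ ≤ 1 * m := by
          apply mul_le_mul_of_nonneg_right _ (by linarith)
          rw [div_le_one (by positivity)]
          linarith
      _ = m := one_mul _
  have h6 : (4 * (K * Nat.log 2 m + 2) + 4 : ℝ) ≤ m := by linarith
  exact_mod_cast h6

open Classical in
/-- mean core diameter for a given number of kernel edges -/
theorem core_m (ε : ℝ) (hε : 0 < ε) : ∃ C : ℝ, ∃ m₁ : ℕ, 0 < C ∧
    ∀ (V : Type) [Fintype V] [DecidableEq V] (d : V → ℕ) (s m : ℕ),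
      ((univ.filter (fun v => d v = 2)).card : ℝ) ≤ (1 - ε) * Fintype.card V →
      ∑ v, d v + 2 = 2 * Fintype.card V + 2 * s → 1 ≤ s → m₁ ≤ m →
      ∀ L : ℝ, 1 ≤ L → Real.sqrt ((Fintype.card V : ℝ) / m) ≤ L →
      ∑ ρ ∈ Om d ∅ m, (coreDiam ρ.ev : ℝ) ≤ (C * L * Real.log m) * (Om d ∅ m).card := by
  obtain ⟨K, hK⟩ := kernel_diam
  obtain ⟨C', m₀, hC', H⟩ := core_tail ε hε
  obtain ⟨m₁, hm₁⟩ := exists_large K
  refine ⟨(44 * K + 88) * (C' + 2) + (2 * C' + 4), max (max m₀ m₁) 4, by positivity, ?_⟩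
  intro V _ _ d s m hε2 hs hs1 hm L hL1 hL
  have hm0 : m₀ ≤ m := le_trans (le_trans (le_max_left _ _) (le_max_left _ _)) hm
  have hmm1 : m₁ ≤ m := le_trans (le_trans (le_max_right _ _) (le_max_left _ _)) hm
  have hm4 : 4 ≤ m := le_trans (le_max_right _ _) hm
  have hmR : (4 : ℝ) ≤ m := by exact_mod_cast hm4
  have hmpos : (0 : ℝ) < m := by linarith
  have hlog : 1 ≤ Real.log m := by
    rw [Real.le_log_iff_exp_le hmpos]
    have := Real.exp_one_lt_d9
    linarith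
  set n := Fintype.card V with hn
  set R := K * Nat.log 2 m with hR
  set q := R + 2 with hq
  have hqm : 4 * q + 4 ≤ m := hm₁ m hmm1
  set B : ℝ := 22 * q + 34 * Real.log m + 10 with hB
  have hB0 : 0 < B := by positivity
  have hBle : B ≤ (44 * K + 88) * Real.log m := by
    have h1 := natlog_le m (by omega)
    have h2 : (q : ℝ) = K * Nat.log 2 m + 2 := by rw [hq, hR]; push_cast; ring
    have hK0 : (0 : ℝ) ≤ K := Nat.cast_nonneg _
    have h3 := mul_le_mul_of_nonneg_left h1 hK0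
    rw [hB, h2]
    nlinarith
  have hL0 : 0 < L := by linarith
  -- good part
  have hgood : ∑ ρ ∈ Om d ∅ m, (if Good ρ.κ R then (coreDiam ρ.ev : ℝ) else 0)
      ≤ (B * (C' + 2) * L) * (Om d ∅ m).card := by
    apply fiber_le
    intro ρ₀ h₀
    by_cases hg : Good ρ₀.κ R
    · obtain ⟨F, hF1, hF2⟩ := path_family ρ₀.κ h₀.good.1 R
      have hFq := hF1 hg
      have htail := H V d ∅ m s ρ₀ h₀ hε2 hs hs1 hm0 L hL1 hL
      have hkap := kappa_sum_le d ∅ ρ₀ h₀ (fun ℓ => (gmax F ℓ : ℝ))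
        (fun k => B * (((k : ℝ) + m) / m)) (fun k _ => good_phi ρ₀.κ F q hFq hqm hlog k)
      have hts := tail_sum_le d ρ₀.κ (n + 1) (C' * L * m) (B * (1 + C' * L)) (B / m) L
        (by positivity) (fun k => B * (((k : ℝ) + m) / m)) (by
          intro k hk
          apply mul_le_mul_of_nonneg_left _ hB0.le
          rw [div_le_iff₀ hmpos]
          nlinarith) (by positivity) (by
          intro k hk
          have h1 : B * (((k : ℝ) + m) / m) = B + B / m * k := by field_simp; ring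
          show B * (((k : ℝ) + m) / m) ≤ _
          rw [h1]
          have : 0 ≤ B * (C' * L) := by positivity
          linarith) htail
      rw [← fiber_card d ∅ ρ₀ h₀] at hts
      have hKD := KD_pos d ρ₀.κ
      have h5 := hkap.trans hts
      have h6 : ∑ ρ ∈ univ.filter (fun ρ : Rep V m => IsRep d ∅ ρ ∧ ρ.κ = ρ₀.κ),
          (gmax F ρ.len : ℝ) ≤ (B * (1 + C' * L) + B / m * L) *
            (univ.filter (fun ρ : Rep V m => IsRep d ∅ ρ ∧ ρ.κ = ρ₀.κ)).card := by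
        refine le_of_mul_le_mul_left ?_ hKD
        refine h5.trans (le_of_eq ?_)
        ring
      refine le_trans (Finset.sum_le_sum ?_) (h6.trans ?_)
      · intro ρ hρ
        rw [Finset.mem_filter] at hρ
        rw [if_pos (by rw [hρ.2.2]; exact hg)]
        have : coreDiam ρ.ev ≤ gmax F ρ.len := by
          unfold coreDiam
          apply Finset.sup_le
          rintro ⟨x, y⟩ hxy
          rw [Finset.mem_product, ← hρ.2.1.In_eq_cor] at hxy
          obtain ⟨i, j, hij⟩ := hF2 d ∅ ρ hρ.2.1 hρ.2.2 x hxy.1 y hxy.2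
          exact hij.trans (le_gmax F ρ.len i j)
        exact_mod_cast this
      · apply mul_le_mul_of_nonneg_right _ (Nat.cast_nonneg _)
        have h7 : B / m * L ≤ B * L := by
          apply mul_le_mul_of_nonneg_right _ hL0.le
          exact div_le_self hB0.le (by linarith)
        nlinarith
    · have h1 : ∑ ρ ∈ univ.filter (fun ρ : Rep V m => IsRep d ∅ ρ ∧ ρ.κ = ρ₀.κ),
          (if Good ρ.κ R then (coreDiam ρ.ev : ℝ) else 0) = 0 := by
        apply Finset.sum_eq_zero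
        intro ρ hρ
        rw [Finset.mem_filter] at hρ
        rw [if_neg (by rw [hρ.2.2]; exact hg)]
      rw [h1]
      positivity
  -- bad part
  have hall : ∑ ρ ∈ Om d ∅ m, (2 * (((∑ l, ρ.len l : ℕ) : ℝ) + m))
      ≤ ((2 * C' + 4) * L * m) * (Om d ∅ m).card := by
    apply fiber_le
    intro ρ₀ h₀
    have htail := H V d ∅ m s ρ₀ h₀ hε2 hs hs1 hm0 L hL1 hL
    have hkap := kappa_sum_le d ∅ ρ₀ h₀ (fun ℓ => 2 * (((∑ l, ℓ l : ℕ) : ℝ) + m))
      (fun k => 2 * ((k : ℝ) + m)) (by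
        intro k _
        rw [Finset.sum_congr rfl (g := fun _ => 2 * ((k : ℝ) + m))]
        · rw [Finset.sum_const, nsmul_eq_mul]
          unfold nvec
          simp only [and_true]
          rw [mul_comm]
        · intro ℓ hℓ
          rw [Finset.mem_filter, Finset.mem_piAntidiag] at hℓ
          have h2 : ∑ l, ℓ l = k := hℓ.1.1
          rw [h2])
    have hts := tail_sum_le d ρ₀.κ (n + 1) (C' * L * m) (2 * (C' * L * m + m)) 2 L
      (by norm_num) (fun k => 2 * ((k : ℝ) + m)) (by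
        intro k hk
        show 2 * ((k : ℝ) + m) ≤ _
        linarith) (by positivity) (by
        intro k hk
        have : 0 ≤ C' * L * m := by positivity
        show 2 * ((k : ℝ) + m) ≤ _
        linarith) htail
    rw [← fiber_card d ∅ ρ₀ h₀] at hts
    have hKD := KD_pos d ρ₀.κ
    have h5 := hkap.trans hts
    have h6 : ∑ ρ ∈ univ.filter (fun ρ : Rep V m => IsRep d ∅ ρ ∧ ρ.κ = ρ₀.κ),
        (2 * (((∑ l, ρ.len l : ℕ) : ℝ) + m)) ≤ (2 * (C' * L * m + m) + 2 * L) *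
          (univ.filter (fun ρ : Rep V m => IsRep d ∅ ρ ∧ ρ.κ = ρ₀.κ)).card := by
      refine le_of_mul_le_mul_left ?_ hKD
      refine h5.trans (le_of_eq ?_)
      ring
    refine h6.trans ?_
    apply mul_le_mul_of_nonneg_right _ (Nat.cast_nonneg _)
    nlinarith
  have hbad := bad_sum (V := V) d R (by omega : 2 ≤ m) (by
    intro c E0 E1 hc hE
    have h1 := hK V m c E0 E1 (by omega) hc hE
    have h2 : (univ.filter (fun κ : Slot m → V => KSet c E0 E1 κ ∧ ¬ Good κ R))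
        = (univ.filter (fun κ : Slot m → V => KSet c E0 E1 κ ∧
        ∃ σ τ, κ τ ∉ kball κ (κ σ) (K * Nat.log 2 m))) := by
      ext κ
      simp only [Finset.mem_filter, Finset.mem_univ, true_and, Good, not_forall, hR]
    rw [h2]
    exact h1) (fun ℓ => 2 * (((∑ l, ℓ l : ℕ) : ℝ) + m)) (by intro ℓ; positivity)
  have hbad2 : ∑ ρ ∈ (Om d ∅ m).filter (fun ρ => ¬ Good ρ.κ R), (coreDiam ρ.ev : ℝ)
      ≤ ((2 * C' + 4) * L * Real.log m) * (Om d ∅ m).card := by
    calc ∑ ρ ∈ (Om d ∅ m).filter (fun ρ => ¬ Good ρ.κ R), (coreDiam ρ.ev : ℝ)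
        ≤ ∑ ρ ∈ (Om d ∅ m).filter (fun ρ => ¬ Good ρ.κ R),
          (2 * (((∑ l, ρ.len l : ℕ) : ℝ) + m)) := by
          apply Finset.sum_le_sum
          intro ρ hρ
          rw [Finset.mem_filter, mem_Om] at hρ
          have := coreDiam_le_all d ρ hρ.1
          exact_mod_cast this
      _ ≤ 1 / (m : ℝ) ^ 2 * (((2 * C' + 4) * L * m) * (Om d ∅ m).card) :=
          hbad.trans (mul_le_mul_of_nonneg_left hall (by positivity))
      _ = ((2 * C' + 4) * L * (1 / m)) * (Om d ∅ m).card := by field_simp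
      _ ≤ ((2 * C' + 4) * L * Real.log m) * (Om d ∅ m).card := by
          apply mul_le_mul_of_nonneg_right _ (Nat.cast_nonneg _)
          apply mul_le_mul_of_nonneg_left _ (by positivity)
          have : 1 / (m : ℝ) ≤ 1 := by rw [div_le_one hmpos]; linarith
          linarith
  have hsplit : ∑ ρ ∈ Om d ∅ m, (coreDiam ρ.ev : ℝ)
      = ∑ ρ ∈ Om d ∅ m, (if Good ρ.κ R then (coreDiam ρ.ev : ℝ) else 0)
        + ∑ ρ ∈ (Om d ∅ m).filter (fun ρ => ¬ Good ρ.κ R), (coreDiam ρ.ev : ℝ) := by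
    rw [← Finset.sum_filter, Finset.sum_filter_add_sum_filter_not]
  rw [hsplit]
  have h9 : B * (C' + 2) * L ≤ (44 * K + 88) * (C' + 2) * L * Real.log m := by
    calc B * (C' + 2) * L ≤ ((44 * K + 88) * Real.log m) * (C' + 2) * L := by
          apply mul_le_mul_of_nonneg_right _ hL0.le
          exact mul_le_mul_of_nonneg_right hBle (by linarith)
      _ = _ := by ring
  have h10 := mul_le_mul_of_nonneg_right h9 (Nat.cast_nonneg (α := ℝ) (Om d ∅ m).card)
  calc _ ≤ ((44 * K + 88) * (C' + 2) * L * Real.log m) * (Om d ∅ m).card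
        + ((2 * C' + 4) * L * Real.log m) * (Om d ∅ m).card := by linarith
    _ = _ := by ring

lemma scale_cmp (s m n : ℕ) (hs : 3 ≤ s) (hsm : s ≤ m) (hmn : m ≤ s + n) :
    (1 + Real.sqrt ((n : ℝ) / m)) * Real.log m
      ≤ 10 * ((1 + Real.sqrt ((n : ℝ) / s)) * Real.log s) := by
  have hsR : (3 : ℝ) ≤ s := by exact_mod_cast hs
  have hs0 : (0 : ℝ) < s := by linarith
  have hmR : (s : ℝ) ≤ m := by exact_mod_cast hsm
  have hm0 : (0 : ℝ) < m := by linarith
  have hlogs : 1 ≤ Real.log s := by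
    rw [Real.le_log_iff_exp_le hs0]
    have := Real.exp_one_lt_d9
    linarith
  have hsqrt : Real.sqrt ((n : ℝ) / m) ≤ Real.sqrt ((n : ℝ) / s) :=
    Real.sqrt_le_sqrt (div_le_div_of_nonneg_left (Nat.cast_nonneg _) hs0 hmR)
  have h0 := Real.sqrt_nonneg ((n : ℝ) / m)
  have h0' := Real.sqrt_nonneg ((n : ℝ) / s)
  rcases le_or_gt m (s ^ 2) with h1 | h1
  · have h2 : Real.log m ≤ 2 * Real.log s := by
      have h3 : (m : ℝ) ≤ (s : ℝ) ^ 2 := by exact_mod_cast h1
      have := Real.log_le_log hm0 h3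
      rwa [Real.log_pow, Nat.cast_ofNat] at this
    have hlogm : 0 ≤ Real.log m := Real.log_nonneg (by linarith)
    calc (1 + Real.sqrt ((n : ℝ) / m)) * Real.log m
        ≤ (1 + Real.sqrt ((n : ℝ) / s)) * (2 * Real.log s) :=
          mul_le_mul (by linarith) h2 hlogm (by positivity)
      _ ≤ 10 * ((1 + Real.sqrt ((n : ℝ) / s)) * Real.log s) := by
          have : 0 ≤ (1 + Real.sqrt ((n : ℝ) / s)) * Real.log s := by positivity
          nlinarith
  · set t : ℝ := Real.sqrt (Real.sqrt m) with ht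
    have hsm0 : 0 < Real.sqrt m := Real.sqrt_pos.2 hm0
    have ht0 : 0 < t := Real.sqrt_pos.2 hsm0
    have ht2 : t ^ 2 = Real.sqrt m := Real.sq_sqrt hsm0.le
    have ht4 : t ^ 4 = m := by
      calc t ^ 4 = (t ^ 2) ^ 2 := by ring
        _ = (m : ℝ) := by rw [ht2, Real.sq_sqrt hm0.le]
    have hlogm : Real.log m ≤ 4 * t := by
      rw [← ht4, Real.log_pow]
      have := Real.log_le_sub_one_of_pos ht0
      push_cast
      linarith
    have hst : (s : ℝ) ≤ t ^ 2 := by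
      rw [ht2]
      apply Real.le_sqrt_of_sq_le
      exact_mod_cast h1.le
    set a : ℝ := Real.sqrt n with ha
    have ha0 : 0 ≤ a := Real.sqrt_nonneg _
    have hn : (2 / 3 : ℝ) * m ≤ n := by
      have h2 : (m : ℝ) ≤ s + n := by exact_mod_cast hmn
      have h3 : ((s : ℝ)) ^ 2 < m := by exact_mod_cast h1
      nlinarith
    have ha1 : (0.8 : ℝ) * t ^ 2 ≤ a := by
      apply Real.le_sqrt_of_sq_le
      calc (0.8 * t ^ 2 : ℝ) ^ 2 = 0.64 * t ^ 4 := by ring
        _ = 0.64 * (m : ℝ) := by rw [ht4]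
        _ ≤ (n : ℝ) := by linarith
    have hb1 : a / t ≤ Real.sqrt ((n : ℝ) / s) := by
      apply Real.le_sqrt_of_sq_le
      rw [div_pow, ha, Real.sq_sqrt (Nat.cast_nonneg _)]
      exact div_le_div_of_nonneg_left (Nat.cast_nonneg _) hs0 hst
    have hb2 : Real.sqrt ((n : ℝ) / m) = a / t ^ 2 := by
      rw [Real.sqrt_div (Nat.cast_nonneg _), ht2]
    have hlogm0 : 0 ≤ Real.log m := Real.log_nonneg (by linarith)
    rw [hb2]
    calc (1 + a / t ^ 2) * Real.log m ≤ (1 + a / t ^ 2) * (4 * t) :=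
          mul_le_mul_of_nonneg_left hlogm (by positivity)
      _ = 4 * t + 4 * (a / t) := by field_simp
      _ ≤ 10 * (a / t) := by
          have h5 : t ≤ a / (0.8 * t) := by
            rw [le_div_iff₀ (by positivity)]
            nlinarith
          have h6 : a / (0.8 * t) = 1.25 * (a / t) := by
            field_simp; ring
          have h7 : 0 ≤ a / t := by positivity
          rw [h6] at h5
          linarith
      _ ≤ 10 * ((1 + Real.sqrt ((n : ℝ) / s)) * Real.log s) := by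
          have h8 : 1 + Real.sqrt ((n : ℝ) / s)
              ≤ (1 + Real.sqrt ((n : ℝ) / s)) * Real.log s :=
            le_mul_of_one_le_right (by positivity) hlogs
          linarith

open Classical in
/-- mean diameter of the 2-core -/
theorem core_diam (ε : ℝ) (hε : 0 < ε) : ∃ C : ℝ, ∃ s₀ : ℕ, 0 < C ∧
    ∀ (V : Type) [Fintype V] [DecidableEq V] (d : V → ℕ) (s : ℕ),
      ((univ.filter (fun v => d v = 2)).card : ℝ) ≤ (1 - ε) * Fintype.card V →
      ∑ v, d v + 2 = 2 * Fintype.card V + 2 * s → s₀ ≤ s →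
      ∑ G ∈ grs d, (coreDiam G : ℝ)
        ≤ (C * (1 + Real.sqrt ((Fintype.card V : ℝ) / s)) * Real.log s) * (grs d).card := by
  obtain ⟨C, m₁, hC, H⟩ := core_m ε hε
  refine ⟨C * 10, max m₁ 3, by positivity, ?_⟩
  intro V _ _ d s hε2 hs hs₀
  have hs3 : 3 ≤ s := le_trans (le_max_right _ _) hs₀
  have hsm₁ : m₁ ≤ s := le_trans (le_max_left _ _) hs₀
  apply avg_le d ∅ (by simp) (by omega)
  intro m hm
  obtain ⟨ρ₀, hρ₀⟩ := hm
  rw [mem_Om] at hρ₀
  have h1 := m_ge d ∅ ρ₀ hρ₀ s (by omega) hs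
  have h2 := m_eq d ∅ ρ₀ hρ₀ s hs
  have h3 : ρ₀.B.card ≤ Fintype.card V := Finset.card_le_univ _
  rw [Finset.card_empty, add_zero] at h1
  have h4 := H V d s m hε2 hs (by omega) (by omega)
    (1 + Real.sqrt ((Fintype.card V : ℝ) / m)) (by
      have := Real.sqrt_nonneg ((Fintype.card V : ℝ) / m)
      linarith) (by linarith)
  refine h4.trans ?_
  apply mul_le_mul_of_nonneg_right _ (Nat.cast_nonneg _)
  have h5 := scale_cmp s m (Fintype.card V) hs3 h1 (by omega)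
  have h6 := mul_le_mul_of_nonneg_left h5 hC.le
  calc C * (1 + Real.sqrt ((Fintype.card V : ℝ) / m)) * Real.log m
      = C * ((1 + Real.sqrt ((Fintype.card V : ℝ) / m)) * Real.log m) := by ring
    _ ≤ _ := h6
    _ = _ := by ring

end Pool.Agent.H.MP_3b0279_pr
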