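import Pool.Agent.H.MP_3b0279_pr.LeafDist

/-!
Maximal distance to the 2-core.
-/

set_option autoImplicit false

namespace Pool.Agent.H.MP_3b0279_pr

open Finset

open Classical in
/-- one scale of the chain -/
theorem max_leaf (ε : ℝ) (hε : 0 < ε) : ∃ C : ℝ, ∃ s₀ : ℕ, 0 < C ∧
    ∀ (V : Type) [Fintype V] [DecidableEq V] (d : V → ℕ) (s : ℕ) (A B : Finset V),
      ((univ.filter (fun v => d v = 2)).card : ℝ) ≤ (1 - ε) * Fintype.card V →
      ∑ v, d v + 2 = 2 * Fintype.card V + 2 * s → s₀ ≤ s → (∀ v ∈ B, d v = 1) → A ⊆ B →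
      B.card ≤ s + 2 * A.card →
      ∀ L : ℝ, 1 ≤ L → Real.sqrt ((Fintype.card V : ℝ) / (s + A.card : ℕ)) ≤ L →
      ∑ G ∈ grs d, ((B.sup (fun x => setDist G (cor G A) x) : ℕ) : ℝ)
        ≤ (C * L * Real.log (s + A.card : ℕ)) * (grs d).card := by
  obtain ⟨C, c, s₀, hC, hc, H⟩ := leaf_dist ε hε
  refine ⟨1 / c + C + 4, max s₀ 3, by positivity, ?_⟩
  intro V _ _ d s A B hε2 hs hs₀ hB hAB hcard L hL1 hL
  have hs3 : 3 ≤ s := le_trans (le_max_right _ _) hs₀
  have hs₀' : s₀ ≤ s := le_trans (le_max_left _ _) hs₀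
  have hL0 : 0 < L := by linarith
  set N : ℕ := s + A.card with hN
  have hN3 : (3 : ℝ) ≤ N := by exact_mod_cast (by omega : 3 ≤ N)
  have hN0 : (0 : ℝ) < N := by linarith
  have hlog : 1 ≤ Real.log N := by
    rw [Real.le_log_iff_exp_le hN0]
    have := Real.exp_one_lt_d9
    linarith
  set h : ℕ := ⌈L / c * Real.log N⌉₊ with hh
  have hh1 : (h : ℝ) ≤ L / c * Real.log N + 1 := (Nat.ceil_lt_add_one (by positivity)).le
  have hh2 : L / c * Real.log N ≤ h := Nat.le_ceil _
  have hexp : Real.exp (-(c * h / L)) ≤ 1 / N := by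
    have h1 : Real.log N ≤ c * h / L := by
      rw [le_div_iff₀ hL0]
      have := mul_le_mul_of_nonneg_left hh2 hc.le
      calc Real.log N * L = c * (L / c * Real.log N) := by field_simp
        _ ≤ c * h := this
    calc Real.exp (-(c * h / L)) ≤ Real.exp (-(Real.log N)) := Real.exp_le_exp.2 (by linarith)
      _ = 1 / N := by rw [Real.exp_neg, Real.exp_log hN0, one_div]
  -- pointwise bound
  have hpt : ∀ G ∈ grs d, ((B.sup (fun x => setDist G (cor G A) x) : ℕ) : ℝ)
      ≤ (1 + h : ℝ) + ∑ x ∈ B \ A, ((setDist G (cor G A) x - 1 - h : ℕ) : ℝ) := by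
    intro G hG
    rw [mem_grs] at hG
    have hne := cor_nonempty d A (by omega) G hG
    have hAc := sub_cor G hG.1 A hne
    have : B.sup (fun x => setDist G (cor G A) x) ≤ 1 + h +
        ∑ x ∈ B \ A, (setDist G (cor G A) x - 1 - h) := by
      apply Finset.sup_le
      intro x hx
      by_cases hxA : x ∈ A
      · have h1 := setDist_le G (cor G A) x x (hAc hxA)
        rw [SimpleGraph.dist_self] at h1
        omega
      · have h1 : setDist G (cor G A) x - 1 - h
            ≤ ∑ x ∈ B \ A, (setDist G (cor G A) x - 1 - h) :=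
          Finset.single_le_sum (f := fun x => setDist G (cor G A) x - 1 - h)
            (fun _ _ => Nat.zero_le _) (Finset.mem_sdiff.2 ⟨hx, hxA⟩)
        omega
    exact_mod_cast this
  have hx : ∀ x ∈ B \ A, ∑ G ∈ grs d, ((setDist G (cor G A) x - 1 - h : ℕ) : ℝ)
      ≤ (C * L * (1 / N) + 2 * L / N) * (grs d).card := by
    intro x hx
    rw [Finset.mem_sdiff] at hx
    have hcardi : (insert x A).card = A.card + 1 := Finset.card_insert_of_notMem hx.2
    have h1 := H V d s (insert x A) x hε2 hs hs₀' ?_ (Finset.mem_insert_self _ _) L hL1 ?_ h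
    · rw [Finset.erase_insert hx.2, hcardi] at h1
      refine h1.trans ?_
      apply mul_le_mul_of_nonneg_right _ (Nat.cast_nonneg _)
      have h2 : C * L * Real.exp (-(c * h / L)) ≤ C * L * (1 / N) :=
        mul_le_mul_of_nonneg_left hexp (by positivity)
      have h3 : 2 * L / ((s + (A.card + 1) : ℕ) : ℝ) ≤ 2 * L / N := by
        apply div_le_div_of_nonneg_left (by positivity) hN0
        exact_mod_cast (by omega : N ≤ s + (A.card + 1))
      linarith
    · intro v hv
      rw [Finset.mem_insert] at hv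
      rcases hv with rfl | hv
      · exact hB _ hx.1
      · exact hB _ (hAB hv)
    · refine le_trans (Real.sqrt_le_sqrt ?_) hL
      apply div_le_div_of_nonneg_left (Nat.cast_nonneg _) hN0
      rw [hcardi]
      exact_mod_cast (by omega : N ≤ s + (A.card + 1))
  have hBA : ((B \ A).card : ℝ) ≤ N := by
    have h1 := Finset.card_sdiff_add_card_eq_card hAB
    exact_mod_cast (by omega : (B \ A).card ≤ N)
  calc ∑ G ∈ grs d, ((B.sup (fun x => setDist G (cor G A) x) : ℕ) : ℝ)
      ≤ ∑ G ∈ grs d, ((1 + h : ℝ) + ∑ x ∈ B \ A, ((setDist G (cor G A) x - 1 - h : ℕ) : ℝ)) :=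
        Finset.sum_le_sum hpt
    _ = (1 + h : ℝ) * (grs d).card
        + ∑ x ∈ B \ A, ∑ G ∈ grs d, ((setDist G (cor G A) x - 1 - h : ℕ) : ℝ) := by
        rw [Finset.sum_add_distrib, Finset.sum_const, nsmul_eq_mul, Finset.sum_comm]
        ring
    _ ≤ (1 + h : ℝ) * (grs d).card
        + ∑ x ∈ B \ A, (C * L * (1 / N) + 2 * L / N) * (grs d).card := by
        have := Finset.sum_le_sum hx
        linarith
    _ = (1 + h + (B \ A).card * (C * L * (1 / N) + 2 * L / N)) * (grs d).card := by
        rw [Finset.sum_const, nsmul_eq_mul]; ring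
    _ ≤ ((1 / c + C + 4) * L * Real.log N) * (grs d).card := by
        apply mul_le_mul_of_nonneg_right _ (Nat.cast_nonneg _)
        have h1 : ((B \ A).card : ℝ) * (C * L * (1 / N) + 2 * L / N) ≤ C * L + 2 * L := by
          calc ((B \ A).card : ℝ) * (C * L * (1 / N) + 2 * L / N)
              ≤ N * (C * L * (1 / N) + 2 * L / N) :=
                mul_le_mul_of_nonneg_right hBA (by positivity)
            _ = C * L + 2 * L := by field_simp
        have h2 : (C + 2) * L + 2 ≤ (C + 4) * L * Real.log N := by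
          have h3 : (C + 4) * L ≤ (C + 4) * L * Real.log N :=
            le_mul_of_one_le_right (by positivity) hlog
          nlinarith
        have h4 : L / c * Real.log N = 1 / c * L * Real.log N := by ring
        have h5 : (1 / c + C + 4) * L * Real.log N
            = 1 / c * L * Real.log N + (C + 4) * L * Real.log N := by ring
        rw [h5]
        linarith

lemma pow_four_le (p : ℕ) : (p + 1) ^ 4 ≤ 49 * 2 ^ p := by
  by_cases hp : p < 6
  · interval_cases p <;> norm_num
  · push Not at hp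
    induction p, hp using Nat.le_induction with
    | base => norm_num
    | succ p hp ih =>
      have h1 : (p + 1 + 1) ^ 4 ≤ 2 * (p + 1) ^ 4 := by
        have : ∃ q, p = q + 6 := ⟨p - 6, by omega⟩
        obtain ⟨q, rfl⟩ := this
        ring_nf
        nlinarith [Nat.zero_le q, Nat.zero_le (q ^ 2), Nat.zero_le (q ^ 3), Nat.zero_le (q ^ 4)]
      calc (p + 1 + 1) ^ 4 ≤ 2 * (p + 1) ^ 4 := h1
        _ ≤ 2 * (49 * 2 ^ p) := Nat.mul_le_mul_left _ ih
        _ = 49 * 2 ^ (p + 1) := by ring

lemma geo_sum (K : ℕ) : ∑ i ∈ range K, ((i : ℝ) + 1) * (3 / 4) ^ i ≤ 16 := by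
  have h : ∑ i ∈ range K, ((i : ℝ) + 1) * (3 / 4) ^ i = 16 - (4 * K + 16) * (3 / 4) ^ K := by
    induction K with
    | zero => norm_num
    | succ K ih => rw [Finset.sum_range_succ, ih]; push_cast; ring
  rw [h]
  have : (0 : ℝ) ≤ (4 * K + 16) * (3 / 4) ^ K := by positivity
  linarith

lemma one_le_deg {V : Type} [Fintype V] [DecidableEq V] (d : V → ℕ)
    (hd : 2 * Fintype.card V + 2 ≤ ∑ v, d v) (G : SimpleGraph V) (hG : IsGr d G) (v : V) :
    1 ≤ d v := by
  obtain ⟨m, ρ, hρ, _⟩ := exists_rep d ∅ (by simp) hd G hG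
  have h1 := hρ.deg v
  have h2 : 1 ≤ ρ.tdeg v := by
    unfold Rep.tdeg
    split_ifs with h3 h4
    · norm_num
    · rw [Rep.mem_B] at h4
      obtain ⟨σ, hσ⟩ := h4
      unfold kdeg
      exact Finset.card_pos.2 ⟨σ, by simp [hσ]⟩
    · exact le_refl _
  omega

/-- sizes of the marked sets -/
lemma exists_chain {V : Type} [DecidableEq V] (Λ : Finset V) (a : ℕ → ℕ)
    (ha : Monotone a) : ∃ A : ℕ → Finset V, (∀ i, A i ⊆ A (i + 1)) ∧
      (∀ i, A i ⊆ Λ) ∧ (∀ i, (A i).card = min (a i) Λ.card) := by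
  refine ⟨fun i => (Λ.toList.take (a i)).toFinset, ?_, ?_, ?_⟩
  · intro i x hx
    rw [List.mem_toFinset] at hx ⊢
    exact (List.take_subset_take_left Λ.toList (ha (Nat.le_succ i))) hx
  · intro i x hx
    rw [List.mem_toFinset] at hx
    have := List.mem_of_mem_take hx
    exact Finset.mem_toList.1 this
  · intro i
    show ((Λ.toList.take (a i)).toFinset).card = _
    rw [List.toFinset_card_of_nodup ((Λ.nodup_toList).sublist (List.take_sublist _ _)),
      List.length_take, Finset.length_toList]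

open Classical in
theorem core_dist (ε : ℝ) (hε : 0 < ε) : ∃ C : ℝ, ∃ s₀ : ℕ, 0 < C ∧
    ∀ (V : Type) [Fintype V] [DecidableEq V] (d : V → ℕ) (s : ℕ),
      ((univ.filter (fun v => d v = 2)).card : ℝ) ≤ (1 - ε) * Fintype.card V →
      ∑ v, d v + 2 = 2 * Fintype.card V + 2 * s → s₀ ≤ s →
      ∑ G ∈ grs d, ((univ.sup (fun x => setDist G (cor G ∅) x) : ℕ) : ℝ)
        ≤ (C * (1 + Real.sqrt ((Fintype.card V : ℝ) / s)) * Real.log s) * (grs d).card := by
  obtain ⟨C, s₀, hC, H⟩ := max_leaf ε hε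
  refine ⟨C * 23, max s₀ 3, by positivity, ?_⟩
  intro V _ _ d s hε2 hs hs₀
  have hs3 : 3 ≤ s := le_trans (le_max_right _ _) hs₀
  have hs₀' : s₀ ≤ s := le_trans (le_max_left _ _) hs₀
  rcases (grs d).eq_empty_or_nonempty with h0 | ⟨G₀, hG₀⟩
  · rw [h0]; simp
  have hsR : (3 : ℝ) ≤ s := by exact_mod_cast hs3
  have hs0 : (0 : ℝ) < s := by linarith
  have hlog : 1 ≤ Real.log s := by
    rw [Real.le_log_iff_exp_le hs0]
    have := Real.exp_one_lt_d9
    linarith
  have hdpos : ∀ v, 1 ≤ d v := one_le_deg d (by omega) G₀ ((mem_grs d G₀).1 hG₀)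
  set n := Fintype.card V with hn
  set Λ : Finset V := univ.filter (fun v => d v = 1) with hΛ
  have hΛn : Λ.card ≤ n := Finset.card_le_univ _
  set p := Nat.log 2 (n / s + 1) with hp
  set K := p + 1 with hK
  obtain ⟨A, hAmono, hAΛ, hAcard⟩ := exists_chain Λ (fun i => (2 ^ i - 1) * s) (by
    intro i j hij
    apply Nat.mul_le_mul_right
    have := Nat.pow_le_pow_right (show 0 < 2 by norm_num) hij
    show 2 ^ i - 1 ≤ 2 ^ j - 1
    omega)
  have hA0 : A 0 = ∅ := by
    have := hAcard 0
    simp at this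
    exact this
  have hAK : A K = Λ := by
    apply Finset.eq_of_subset_of_card_le (hAΛ K)
    rw [hAcard K]
    apply le_min _ le_rfl
    have h1 : n / s + 1 < 2 ^ K := Nat.lt_pow_succ_log_self (by norm_num) _
    have h2 : n < s * (n / s + 1) := Nat.lt_mul_div_succ n (by omega)
    have h3 : (n / s + 1) * s ≤ (2 ^ K - 1) * s := Nat.mul_le_mul_right _ (by omega)
    have h4 : s * (n / s + 1) = (n / s + 1) * s := Nat.mul_comm _ _
    show Λ.card ≤ (2 ^ K - 1) * s
    omega
  have hpt : ∀ G ∈ grs d, ((univ.sup (fun x => setDist G (cor G ∅) x) : ℕ) : ℝ)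
      ≤ ∑ i ∈ range K, (((A (i + 1)).sup (fun x => setDist G (cor G (A i)) x) : ℕ) : ℝ) := by
    intro G hG
    rw [mem_grs] at hG
    have hne := cor_nonempty d ∅ (by omega) G hG
    have : univ.sup (fun x => setDist G (cor G ∅) x)
        ≤ ∑ i ∈ range K, (A (i + 1)).sup (fun x => setDist G (cor G (A i)) x) := by
      apply Finset.sup_le
      intro v _
      exact chain_total d G hG hdpos K A hAmono hA0 hAK hne v
    exact_mod_cast this
  have hlevel : ∀ i, ∑ G ∈ grs d,
      (((A (i + 1)).sup (fun x => setDist G (cor G (A i)) x) : ℕ) : ℝ)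
      ≤ (C * (1 + Real.sqrt ((n : ℝ) / s) * (3 / 4) ^ i) * ((i + 1) * Real.log s))
        * (grs d).card := by
    intro i
    rcases lt_or_ge (A i).card Λ.card with h1 | h1
    · have h2 : (A i).card = (2 ^ i - 1) * s := by
        have := hAcard i
        rw [this] at h1
        rcases le_total ((2 ^ i - 1) * s) Λ.card with h3 | h3
        · rw [this]; exact min_eq_left h3
        · exfalso
          simp only [min_eq_right h3] at h1
          omega
      have hpow : 1 ≤ 2 ^ i := Nat.one_le_two_pow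
      have h3 : s + (A i).card = 2 ^ i * s := by
        rw [h2]
        obtain ⟨q, hq⟩ : ∃ q, 2 ^ i = q + 1 := ⟨2 ^ i - 1, by omega⟩
        rw [hq]
        simp
        ring
      have h4 : (A (i + 1)).card ≤ s + 2 * (A i).card := by
        rw [hAcard (i + 1), h2]
        refine (min_le_left _ _).trans ?_
        obtain ⟨q, hq⟩ : ∃ q, 2 ^ i = q + 1 := ⟨2 ^ i - 1, by omega⟩
        show (2 ^ (i + 1) - 1) * s ≤ _
        rw [pow_succ, hq]
        have : (q + 1) * 2 - 1 = 2 * q + 1 := by omega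
        rw [this]
        simp
        nlinarith
      have hLi : Real.sqrt ((n : ℝ) / (s + (A i).card : ℕ))
          ≤ 1 + Real.sqrt ((n : ℝ) / s) * (3 / 4) ^ i := by
        rw [h3]
        push_cast
        have h5 : (n : ℝ) / (2 ^ i * s) = (n : ℝ) / s * (1 / 2) ^ i := by
          rw [one_div, inv_pow]; field_simp
        rw [h5, Real.sqrt_mul (by positivity)]
        have h6 : Real.sqrt ((1 / 2 : ℝ) ^ i) ≤ (3 / 4) ^ i := by
          rw [Real.sqrt_le_left (by positivity), ← pow_mul, mul_comm i 2, pow_mul]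
          exact pow_le_pow_left₀ (by norm_num) (by norm_num) i
        have h7 := mul_le_mul_of_nonneg_left h6 (Real.sqrt_nonneg ((n : ℝ) / s))
        linarith
      have h8 := H V d s (A i) (A (i + 1)) hε2 hs hs₀'
        (fun v hv => by
          have := hAΛ (i + 1) hv
          rw [hΛ, Finset.mem_filter] at this
          exact this.2) (hAmono i) h4
        (1 + Real.sqrt ((n : ℝ) / s) * (3 / 4) ^ i)
        (by have : 0 ≤ Real.sqrt ((n : ℝ) / s) * (3 / 4) ^ i := by positivity
            linarith) hLi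
      refine h8.trans ?_
      apply mul_le_mul_of_nonneg_right _ (Nat.cast_nonneg _)
      apply mul_le_mul_of_nonneg_left _ (by positivity)
      rw [h3]
      push_cast
      rw [Real.log_mul (by positivity) (by positivity), Real.log_pow]
      have hlog2 : Real.log 2 ≤ 1 := by
        have := Real.log_two_lt_d9
        linarith
      have hi : (0 : ℝ) ≤ i := Nat.cast_nonneg _
      nlinarith
    · have h2 : A i = Λ := Finset.eq_of_subset_of_card_le (hAΛ i) h1
      have h3 : A (i + 1) = Λ :=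
        Finset.Subset.antisymm (hAΛ (i + 1)) (h2 ▸ hAmono i)
      have h4 : ∑ G ∈ grs d,
          (((A (i + 1)).sup (fun x => setDist G (cor G (A i)) x) : ℕ) : ℝ) = 0 := by
        apply Finset.sum_eq_zero
        intro G hG
        rw [mem_grs] at hG
        have hne := cor_nonempty d (A i) (by omega) G hG
        have hAc := sub_cor G hG.1 (A i) hne
        have h5 : (A (i + 1)).sup (fun x => setDist G (cor G (A i)) x) = 0 := by
          apply Nat.eq_zero_of_le_zero
          apply Finset.sup_le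
          intro x hx
          rw [h3, ← h2] at hx
          have := setDist_le G (cor G (A i)) x x (hAc hx)
          rw [SimpleGraph.dist_self] at this
          exact this
        rw [h5]
        simp
      rw [h4]
      positivity
  -- sum of the scales
  have hK2 : ((K : ℝ)) ^ 2 ≤ 7 * (1 + Real.sqrt ((n : ℝ) / s)) := by
    have h1 : ((K : ℝ)) ^ 4 ≤ 49 * (n / s + 1) := by
      have h2 := pow_four_le p
      have h3 : 2 ^ p ≤ n / s + 1 := Nat.pow_log_le_self 2 (Nat.succ_ne_zero _)
      have h4 : K ^ 4 ≤ 49 * (n / s + 1) := h2.trans (Nat.mul_le_mul_left _ h3)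
      have h5 : ((n / s : ℕ) : ℝ) ≤ (n : ℝ) / s := Nat.cast_div_le
      have h6 : ((K : ℝ)) ^ 4 ≤ 49 * (((n / s : ℕ) : ℝ) + 1) := by exact_mod_cast h4
      nlinarith
    have h2 : (7 * (1 + Real.sqrt ((n : ℝ) / s))) ^ 2 ≥ 49 * (n / s + 1) := by
      have h3 := Real.sq_sqrt (show (0 : ℝ) ≤ (n : ℝ) / s by positivity)
      have h4 := Real.sqrt_nonneg ((n : ℝ) / s)
      nlinarith
    have h3 : (((K : ℝ)) ^ 2) ^ 2 ≤ (7 * (1 + Real.sqrt ((n : ℝ) / s))) ^ 2 := by
      calc (((K : ℝ)) ^ 2) ^ 2 = (K : ℝ) ^ 4 := by ring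
        _ ≤ _ := h1.trans h2
    have h4 := Real.sqrt_nonneg ((n : ℝ) / s)
    exact (sq_le_sq₀ (by positivity) (by positivity)).1 h3
  have hsumi : ∑ i ∈ range K, ((i : ℝ) + 1) ≤ (K : ℝ) ^ 2 := by
    calc ∑ i ∈ range K, ((i : ℝ) + 1) ≤ ∑ i ∈ range K, (K : ℝ) := by
          apply Finset.sum_le_sum
          intro i hi
          rw [Finset.mem_range] at hi
          exact_mod_cast hi
      _ = (K : ℝ) ^ 2 := by rw [Finset.sum_const, Finset.card_range, nsmul_eq_mul]; ring
  calc ∑ G ∈ grs d, ((univ.sup (fun x => setDist G (cor G ∅) x) : ℕ) : ℝ)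
      ≤ ∑ G ∈ grs d, ∑ i ∈ range K,
          (((A (i + 1)).sup (fun x => setDist G (cor G (A i)) x) : ℕ) : ℝ) :=
        Finset.sum_le_sum hpt
    _ = ∑ i ∈ range K, ∑ G ∈ grs d,
          (((A (i + 1)).sup (fun x => setDist G (cor G (A i)) x) : ℕ) : ℝ) := Finset.sum_comm
    _ ≤ ∑ i ∈ range K, (C * (1 + Real.sqrt ((n : ℝ) / s) * (3 / 4) ^ i)
          * ((i + 1) * Real.log s)) * (grs d).card :=
        Finset.sum_le_sum (fun i _ => hlevel i)
    _ = (C * (∑ i ∈ range K, ((i : ℝ) + 1) + Real.sqrt ((n : ℝ) / s) *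
          ∑ i ∈ range K, ((i : ℝ) + 1) * (3 / 4) ^ i) * Real.log s) * (grs d).card := by
        rw [Finset.mul_sum (s := range K) (a := Real.sqrt ((n : ℝ) / s)),
          ← Finset.sum_add_distrib, Finset.mul_sum, Finset.sum_mul, Finset.sum_mul]
        apply Finset.sum_congr rfl
        intro i _
        ring
    _ ≤ (C * 23 * (1 + Real.sqrt ((n : ℝ) / s)) * Real.log s) * (grs d).card := by
        apply mul_le_mul_of_nonneg_right _ (Nat.cast_nonneg _)
        apply mul_le_mul_of_nonneg_right _ (by linarith)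
        rw [mul_assoc C 23]
        apply mul_le_mul_of_nonneg_left _ hC.le
        have h1 := mul_le_mul_of_nonneg_left (geo_sum K) (Real.sqrt_nonneg ((n : ℝ) / s))
        have h2 := Real.sqrt_nonneg ((n : ℝ) / s)
        nlinarith

end Pool.Agent.H.MP_3b0279_pr
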