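import Pool.Agent.H.MP_3b0279_pr.CoreSizeC

/-!
Size of the core: for a fixed kernel, the number `k` of inner vertices of kernel paths is
`O(√(n m))` on average.
-/

set_option autoImplicit false

namespace Pool.Agent.H.MP_3b0279_pr

open Finset

lemma cs_exp_neg_le (y : ℝ) (hy : 0 < y) : Real.exp (-y) ≤ 2 / y ^ 2 := by
  have h := Real.quadratic_le_exp_of_nonneg hy.le
  rw [Real.exp_neg, inv_eq_one_div, div_le_div_iff₀ (Real.exp_pos _) (by positivity)]
  nlinarith

/-- the map `k ↦ k - ⌊c k⌋` is at most two-to-one -/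
lemma cs_two_to_one (c : ℝ) (hc0 : 0 < c) (hc1 : c ≤ 1 / 80) (n : ℕ) (K : Finset ℕ)
    (hK : K ⊆ range (n + 1)) (Z : ℕ → ℝ) (hZ : ∀ k, 0 ≤ Z k) :
    ∑ k ∈ K, Z (k - ⌊c * k⌋₊) ≤ 2 * ∑ k ∈ range (n + 1), Z k := by
  have h1 : ∑ k ∈ K, Z (k - ⌊c * k⌋₊) =
      ∑ b ∈ K.image (fun k : ℕ => k - ⌊c * k⌋₊),
        (K.filter (fun k : ℕ => k - ⌊c * k⌋₊ = b)).card • Z b := by
    exact sum_comp Z (fun k : ℕ => k - ⌊c * k⌋₊)
  rw [h1]
  have h2 : ∀ b, (K.filter (fun k : ℕ => k - ⌊c * k⌋₊ = b)).card ≤ 2 := by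
    intro b
    have h3 : (K.filter (fun k : ℕ => k - ⌊c * k⌋₊ = b)).card ≤ (range 2).card := by
      refine card_le_card_of_injOn (fun k => k % 2) (fun k _ => ?_) ?_
      · simp only [coe_range, Set.mem_Iio]; omega
      · intro x hx y hy hxy
        simp only [coe_filter, Set.mem_ofPred_eq] at hx hy
        simp only at hxy
        have key : ∀ a b : ℕ, a < b → a % 2 = b % 2 →
            a - ⌊c * a⌋₊ = b - ⌊c * b⌋₊ → False := by
          intro a b hab h2 he
          have ha : (⌊c * a⌋₊ : ℝ) ≤ c * a := Nat.floor_le (by positivity)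
          have hb : (⌊c * b⌋₊ : ℝ) ≤ c * b := Nat.floor_le (by positivity)
          have ha2 : c * a < ⌊c * a⌋₊ + 1 := Nat.lt_floor_add_one _
          have ha3 : ⌊c * a⌋₊ ≤ a := by
            have : (⌊c * a⌋₊ : ℝ) ≤ a := ha.trans (by
              have : (0 : ℝ) ≤ a := Nat.cast_nonneg _
              nlinarith)
            exact_mod_cast this
          have hb3 : ⌊c * b⌋₊ ≤ b := by
            have : (⌊c * b⌋₊ : ℝ) ≤ b := hb.trans (by
              have : (0 : ℝ) ≤ b := Nat.cast_nonneg _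
              nlinarith)
            exact_mod_cast this
          have h5 : a + 2 ≤ b := by omega
          have h6 : (⌊c * b⌋₊ : ℝ) = ⌊c * a⌋₊ + (b - a) := by
            have : ⌊c * b⌋₊ + a = ⌊c * a⌋₊ + b := by omega
            have : (⌊c * b⌋₊ : ℝ) + a = ⌊c * a⌋₊ + b := by exact_mod_cast this
            linarith
          have h7 : (a : ℝ) + 2 ≤ b := by exact_mod_cast h5
          nlinarith
        rcases lt_trichotomy x y with h | h | h
        · exact (key x y h hxy (hx.2.trans hy.2.symm)).elim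
        · exact h
        · exact (key y x h hxy.symm (hy.2.trans hx.2.symm)).elim
    simpa using h3
  calc ∑ b ∈ K.image (fun k : ℕ => k - ⌊c * k⌋₊),
        (K.filter (fun k : ℕ => k - ⌊c * k⌋₊ = b)).card • Z b
      ≤ ∑ b ∈ K.image (fun k : ℕ => k - ⌊c * k⌋₊), 2 * Z b := by
        refine sum_le_sum fun b _ => ?_
        rw [nsmul_eq_mul]
        refine mul_le_mul_of_nonneg_right ?_ (hZ b)
        exact_mod_cast h2 b
    _ ≤ ∑ b ∈ range (n + 1), 2 * Z b := by
        refine sum_le_sum_of_subset_of_nonneg ?_ (fun b _ _ => mul_nonneg (by norm_num) (hZ b))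
        intro b hb
        rw [mem_image] at hb
        obtain ⟨k, hk, rfl⟩ := hb
        have := mem_range.1 (hK hk)
        exact mem_range.2 (by omega)
    _ = 2 * ∑ k ∈ range (n + 1), Z k := by rw [mul_sum]

/-- the numerical part -/
lemma cs_num (e c C r m k n j : ℝ) (he0 : 0 < e) (he1 : e ≤ 1) (hc : c = e / 80)
    (hC : C = 4096 / (e ^ 2 * c ^ 4)) (hr : 1 ≤ r) (hm : 1 ≤ m) (hn : n = m * r ^ 2)
    (hk : C * (m * r) < k) (hj1 : c * k / 2 ≤ j) (hj2 : j ≤ c * k) :
    k * (4 * Real.exp (4 * m * j / k - j ^ 2 / n) +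
        Real.exp (4 * m * j / k + 10 * j ^ 2 / k - e * j / 2)) ≤ r / 4 := by
  have hc0 : 0 < c := by rw [hc]; positivity
  have hc1 : c ≤ 1 / 80 := by rw [hc]; linarith
  have hc80 : 80 * c = e := by rw [hc]; ring
  have hC0 : 0 < C := by rw [hC]; positivity
  -- C ≥ 4096 / c^4 etc.
  have hCe : C * (e ^ 2 * c ^ 4) = 4096 := by rw [hC]; field_simp
  have hc4 : c ^ 4 ≤ 1 := pow_le_one₀ hc0.le (by linarith)
  have he2 : e ^ 2 ≤ 1 := pow_le_one₀ he0.le he1
  have hC1 : 4096 ≤ C * c ^ 4 := by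
    have : C * (e ^ 2 * c ^ 4) ≤ C * c ^ 4 := by
      have : e ^ 2 * c ^ 4 ≤ 1 * c ^ 4 := mul_le_mul_of_nonneg_right he2 (by positivity)
      rw [one_mul] at this
      exact mul_le_mul_of_nonneg_left this hC0.le
    linarith
  have hC2 : 4096 ≤ C * (e ^ 2 * c ^ 2) := by
    have h1 : c ^ 2 ≤ 1 := pow_le_one₀ hc0.le (by linarith)
    have : e ^ 2 * c ^ 4 ≤ e ^ 2 * c ^ 2 := by
      have : c ^ 4 = c ^ 2 * c ^ 2 := by ring
      rw [this]
      nlinarith [sq_nonneg e, sq_nonneg c, mul_nonneg (sq_nonneg e) (sq_nonneg c)]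
    have := mul_le_mul_of_nonneg_left this hC0.le
    linarith
  have hCone : 1 ≤ C := by
    have : C * c ^ 4 ≤ C := by
      calc C * c ^ 4 ≤ C * 1 := mul_le_mul_of_nonneg_left hc4 hC0.le
        _ = C := mul_one _
    linarith
  have hCc : 4096 ≤ C * c := by
    have : c ^ 4 ≤ c := by
      have h3 : c ^ 3 ≤ 1 := pow_le_one₀ hc0.le (by linarith)
      calc c ^ 4 = c ^ 3 * c := by ring
        _ ≤ 1 * c := mul_le_mul_of_nonneg_right h3 hc0.le
        _ = c := one_mul _
    have := mul_le_mul_of_nonneg_left this hC0.le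
    linarith
  have hmr : m ≤ m * r := by nlinarith
  have hkm : C * m ≤ k := by
    have := mul_le_mul_of_nonneg_left hmr hC0.le
    linarith
  have hk0 : 0 < k := by
    have : 0 < C * m := by positivity
    linarith
  have hkC : C ≤ k := by
    have : C * 1 ≤ C * m := mul_le_mul_of_nonneg_left hm hC0.le
    linarith
  have hn0 : 0 < n := by rw [hn]; positivity
  have hj0 : 0 < j := by
    have : 0 < c * k / 2 := by positivity
    linarith
  have hck : c * (C * m) ≤ c * k := mul_le_mul_of_nonneg_left hkm hc0.le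
  -- first term
  have hx1 : 4 * m * j / k - j ^ 2 / n ≤ -(c ^ 2 * k ^ 2 / (8 * n)) := by
    have h1 : 4 * m * j / k ≤ 4 * c * m := by
      rw [div_le_iff₀ hk0]
      nlinarith
    have h2 : c ^ 2 * k ^ 2 / (4 * n) ≤ j ^ 2 / n := by
      rw [div_le_div_iff₀ (by positivity) hn0]
      have : (c * k / 2) ^ 2 ≤ j ^ 2 := pow_le_pow_left₀ (by positivity) hj1 2
      nlinarith
    have h3 : 4 * c * m ≤ c ^ 2 * k ^ 2 / (8 * n) := by
      rw [le_div_iff₀ (by positivity)]
      have h4 : (C * (m * r)) ^ 2 ≤ k ^ 2 := pow_le_pow_left₀ (by positivity) hk.le 2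
      have h5 : 4 * c * m * (8 * n) = 32 * c * m ^ 2 * r ^ 2 := by rw [hn]; ring
      rw [h5]
      have h6 : c ^ 2 * (C * (m * r)) ^ 2 ≤ c ^ 2 * k ^ 2 :=
        mul_le_mul_of_nonneg_left h4 (by positivity)
      have h7 : 32 * c * m ^ 2 * r ^ 2 ≤ c ^ 2 * (C * (m * r)) ^ 2 := by
        have h8 : 32 * c ≤ c ^ 2 * C ^ 2 := by
          have : c ^ 2 * C ^ 2 = (C * c) * (C * c) := by ring
          rw [this]
          have h9 : (4096 : ℝ) * 4096 ≤ (C * c) * (C * c) :=
            mul_le_mul hCc hCc (by norm_num) (by positivity)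
          linarith
        calc 32 * c * m ^ 2 * r ^ 2 = (32 * c) * (m ^ 2 * r ^ 2) := by ring
          _ ≤ (c ^ 2 * C ^ 2) * (m ^ 2 * r ^ 2) := mul_le_mul_of_nonneg_right h8 (by positivity)
          _ = _ := by ring
      linarith
    have h10 : c ^ 2 * k ^ 2 / (4 * n) = 2 * (c ^ 2 * k ^ 2 / (8 * n)) := by
      field_simp; ring
    linarith
  have hE1 : k * (4 * Real.exp (4 * m * j / k - j ^ 2 / n)) ≤ r / 8 := by
    have h1 : Real.exp (4 * m * j / k - j ^ 2 / n) ≤ 2 / (c ^ 2 * k ^ 2 / (8 * n)) ^ 2 :=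
      (Real.exp_le_exp.2 hx1).trans (cs_exp_neg_le _ (by positivity))
    have h2 : k * (4 * (2 / (c ^ 2 * k ^ 2 / (8 * n)) ^ 2)) = 512 * n ^ 2 / (c ^ 4 * k ^ 3) := by
      field_simp; ring
    have h3 : k * (4 * Real.exp (4 * m * j / k - j ^ 2 / n)) ≤ 512 * n ^ 2 / (c ^ 4 * k ^ 3) := by
      rw [← h2]
      gcongr
    refine h3.trans ?_
    rw [div_le_div_iff₀ (by positivity) (by norm_num)]
    have h4 : (C * (m * r)) ^ 3 ≤ k ^ 3 := pow_le_pow_left₀ (by positivity) hk.le 3
    have h5 : 512 * n ^ 2 * 8 = 4096 * (m ^ 2 * r ^ 4) := by rw [hn]; ring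
    rw [h5]
    have h6 : r * (c ^ 4 * (C * (m * r)) ^ 3) ≤ r * (c ^ 4 * k ^ 3) := by gcongr
    refine le_trans ?_ h6
    have h7 : r * (c ^ 4 * (C * (m * r)) ^ 3) = (C * c ^ 4) * C ^ 2 * m * (m ^ 2 * r ^ 4) := by ring
    rw [h7]
    have h8 : (4096 : ℝ) ≤ (C * c ^ 4) * C ^ 2 * m := by
      have h9 : 1 ≤ C ^ 2 := one_le_pow₀ hCone
      calc (4096 : ℝ) = 4096 * 1 * 1 := by norm_num
        _ ≤ (C * c ^ 4) * C ^ 2 * m := by gcongr
    exact mul_le_mul_of_nonneg_right h8 (by positivity)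
  -- second term
  have hx2 : 4 * m * j / k + 10 * j ^ 2 / k - e * j / 2 ≤ -(e * c * k / 8) := by
    have h1 : 4 * m * j / k ≤ e * j / 8 := by
      rw [div_le_iff₀ hk0]
      have h2 : 32 * m ≤ e * k := by
        have h3 : e * (C * m) ≤ e * k := mul_le_mul_of_nonneg_left hkm he0.le
        have h4 : 32 ≤ e * C := by
          have : c * C ≤ e * C := mul_le_mul_of_nonneg_right (by linarith) hC0.le
          linarith
        nlinarith
      nlinarith
    have h2 : 10 * j ^ 2 / k ≤ e * j / 8 := by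
      rw [div_le_iff₀ hk0]
      have : j * j ≤ j * (c * k) := mul_le_mul_of_nonneg_left hj2 hj0.le
      nlinarith
    have h3 : e * c * k / 8 ≤ e * j / 4 := by
      have : e * (c * k / 2) ≤ e * j := mul_le_mul_of_nonneg_left hj1 he0.le
      nlinarith
    linarith
  have hE2 : k * Real.exp (4 * m * j / k + 10 * j ^ 2 / k - e * j / 2) ≤ r / 8 := by
    have h1 : Real.exp (4 * m * j / k + 10 * j ^ 2 / k - e * j / 2) ≤
        2 / (e * c * k / 8) ^ 2 :=
      (Real.exp_le_exp.2 hx2).trans (cs_exp_neg_le _ (by positivity))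
    have h2 : k * (2 / (e * c * k / 8) ^ 2) = 128 / (e ^ 2 * c ^ 2 * k) := by
      field_simp; ring
    have h3 : k * Real.exp (4 * m * j / k + 10 * j ^ 2 / k - e * j / 2) ≤
        128 / (e ^ 2 * c ^ 2 * k) := by
      rw [← h2]
      gcongr
    refine h3.trans ?_
    rw [div_le_div_iff₀ (by positivity) (by norm_num)]
    have h4 : e ^ 2 * c ^ 2 * C ≤ e ^ 2 * c ^ 2 * k := by gcongr
    nlinarith
  calc k * (4 * Real.exp (4 * m * j / k - j ^ 2 / n) +
        Real.exp (4 * m * j / k + 10 * j ^ 2 / k - e * j / 2))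
      = k * (4 * Real.exp (4 * m * j / k - j ^ 2 / n)) +
        k * Real.exp (4 * m * j / k + 10 * j ^ 2 / k - e * j / 2) := by ring
    _ ≤ r / 8 + r / 8 := add_le_add hE1 hE2
    _ = r / 4 := by ring

theorem core_size (ε : ℝ) (hε : 0 < ε) :
    ∃ C c₂ : ℝ, ∃ m₀ : ℕ, 0 < C ∧ 0 < c₂ ∧
      ∀ (V : Type) [Fintype V] [DecidableEq V] (n m : ℕ) (U : Finset V) (w : V → ℕ)
        (R0 : ℕ) (v : ℕ → ℕ),
        m₀ ≤ m → (m : ℝ) ≤ c₂ * n → U.card ≤ n → n ≤ U.card + m →
        R0 + ∑ x ∈ U, w x = U.card →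
        ((U.filter (fun x => w x = 1)).card : ℝ) ≤ (1 - ε) * n →
        (∀ k, (k + 1 - 2 * m) * v (k + 1) ≤ k * v k) →
        ∑ k ∈ (range (n + 1)).filter (fun k : ℕ => C * Real.sqrt (n * m) < (k : ℝ)),
            (k : ℝ) * ((v k : ℝ) * (Wk U w R0 k : ℝ))
          ≤ Real.sqrt (n / m) * ∑ k ∈ range (n + 1), ((v k : ℝ) * (Wk U w R0 k : ℝ)) := by
  set e : ℝ := min ε 1 with he
  have he0 : 0 < e := lt_min hε one_pos
  have he1 : e ≤ 1 := min_le_right _ _
  set c : ℝ := e / 80 with hc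
  have hc0 : 0 < c := by positivity
  have hc1 : c ≤ 1 / 80 := by rw [hc]; linarith
  set C : ℝ := 4096 / (e ^ 2 * c ^ 4) with hC
  have hC0 : 0 < C := by positivity
  refine ⟨C, e / 8, 1, hC0, by positivity, ?_⟩
  intro V _ _ n m U w R0 v hm hmn hUn hnU hsum hT hv
  have hm1 : (1 : ℝ) ≤ m := by exact_mod_cast hm
  have hmn' : (m : ℝ) ≤ n := by
    have : (0 : ℝ) ≤ n := Nat.cast_nonneg _
    nlinarith
  have hn0 : (0 : ℝ) < n := by linarith
  have hT' : ((U.filter (fun x => w x = 1)).card : ℝ) ≤ (1 - e) * n := by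
    refine hT.trans (mul_le_mul_of_nonneg_right ?_ hn0.le)
    have := min_le_left ε 1
    linarith
  -- there is a vertex of weight zero
  obtain ⟨x₀, hx₀, hwx₀⟩ : ∃ x ∈ U, w x = 0 := by
    by_contra hcon
    push Not at hcon
    have h1 : ∀ x ∈ U, w x = 1 := by
      by_contra hcon2
      push Not at hcon2
      obtain ⟨y, hy, hy1⟩ := hcon2
      have h2 : ∑ x ∈ U, 1 < ∑ x ∈ U, w x := by
        refine sum_lt_sum (fun x hx => ?_) ⟨y, hy, ?_⟩
        · have := hcon x hx; omega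
        · have := hcon y hy; omega
      simp only [sum_const, smul_eq_mul, mul_one] at h2
      omega
    have h2 : U.filter (fun x => w x = 1) = U := filter_true_of_mem h1
    rw [h2] at hT'
    have h3 : (n : ℝ) ≤ U.card + m := by exact_mod_cast hnU
    have h4 : e * n ≤ m := by linarith
    have : e * n ≤ e / 8 * n := h4.trans hmn
    have : 0 < e * n := by positivity
    linarith
  set r : ℝ := Real.sqrt (n / m) with hr
  have hm0 : (0 : ℝ) < m := by linarith
  have hr2 : r ^ 2 = n / m := Real.sq_sqrt (by positivity)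
  have hnr : (n : ℝ) = m * r ^ 2 := by rw [hr2]; field_simp
  have hr1 : 1 ≤ r := by
    rw [hr, Real.one_le_sqrt, le_div_iff₀ hm0]
    linarith
  have hs : Real.sqrt (n * m) = m * r := by
    rw [Real.sqrt_eq_iff_mul_self_eq (by positivity) (by positivity)]
    rw [hnr]; ring
  rw [hs]
  set Z : ℕ → ℝ := fun k => (v k : ℝ) * (Wk U w R0 k : ℝ) with hZ
  have hZ0 : ∀ k, 0 ≤ Z k := fun k => by simp only [hZ]; positivity
  set K : Finset ℕ := (range (n + 1)).filter (fun k : ℕ => C * (m * r) < (k : ℝ)) with hK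
  have key : ∀ k ∈ K, (k : ℝ) * Z k ≤ r / 4 * Z (k - ⌊c * k⌋₊) := by
    intro k hk
    rw [hK, mem_filter, mem_range] at hk
    obtain ⟨hkn, hkC⟩ := hk
    rcases Nat.lt_or_ge k U.card with hkU | hkU
    · -- main case
      have hCone : 1 ≤ C * c := by
        have : C * c * (e ^ 2 * c ^ 3) = 4096 := by rw [hC]; field_simp
        have h2 : e ^ 2 * c ^ 3 ≤ 1 := by
          calc e ^ 2 * c ^ 3 ≤ 1 * 1 := by
                refine mul_le_mul (pow_le_one₀ he0.le he1) (pow_le_one₀ hc0.le (by linarith))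
                  (by positivity) (by norm_num)
            _ = 1 := by norm_num
        have h3 : 0 < e ^ 2 * c ^ 3 := by positivity
        by_contra h
        push Not at h
        have : C * c * (e ^ 2 * c ^ 3) ≤ 1 * 1 :=
          mul_le_mul h.le h2 h3.le (by norm_num)
        linarith
      have hkm : C * m ≤ k := by
        have : m ≤ m * r := by nlinarith
        have := mul_le_mul_of_nonneg_left this hC0.le
        linarith
      have hck : 1 ≤ c * k := by
        have h1 : C * 1 ≤ C * m := mul_le_mul_of_nonneg_left hm1 hC0.le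
        have h2 : C ≤ k := by linarith
        have h3 : c * C ≤ c * k := mul_le_mul_of_nonneg_left h2 hc0.le
        linarith
      set j := ⌊c * k⌋₊ with hj
      have hj1 : 1 ≤ j := Nat.le_floor (by exact_mod_cast hck)
      have hj2 : (j : ℝ) ≤ c * k := Nat.floor_le (by positivity)
      have hj3 : c * k / 2 ≤ j := by
        have h1 : c * k < j + 1 := Nat.lt_floor_add_one _
        have h2 : (1 : ℝ) ≤ j := by exact_mod_cast hj1
        linarith
      have hkn' : (k : ℝ) ≤ n := by exact_mod_cast (by omega : k ≤ n)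
      have hjk : 10 * j ≤ k := by
        have : (10 : ℝ) * j ≤ k := by
          have : (0 : ℝ) ≤ k := Nat.cast_nonneg _
          nlinarith
        exact_mod_cast this
      have hmk : 8 * m ≤ k := by
        have : (8 : ℝ) * m ≤ k := by
          have h1 : 80 ≤ C := by
            have : C * c ≤ C * (1 / 80) := mul_le_mul_of_nonneg_left hc1 hC0.le
            linarith
          nlinarith
        exact_mod_cast this
      have hmj : (m : ℝ) + 5 * j ≤ e * n / 2 := by
        have h1 : (j : ℝ) ≤ c * n := hj2.trans (mul_le_mul_of_nonneg_left hkn' hc0.le)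
        have h2 : c * n = e * n / 80 := by rw [hc]; ring
        have h3 : 0 < e * n := by positivity
        linarith
      have hrec := cs_rec e he0 he1 n m U w R0 v hUn hnU hsum hT' hv k j hj1 hjk hmk hkU hmj
      have hnum := cs_num e c C r m k n j he0 he1 hc hC hr1 hm1 hnr hkC hj3 hj2
      calc (k : ℝ) * Z k ≤ k * ((4 * Real.exp (4 * m * j / k - j ^ 2 / n) +
            Real.exp (4 * m * j / k + 10 * j ^ 2 / k - e * j / 2)) * Z (k - j)) :=
            mul_le_mul_of_nonneg_left hrec (Nat.cast_nonneg _)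
        _ = (k * (4 * Real.exp (4 * m * j / k - j ^ 2 / n) +
            Real.exp (4 * m * j / k + 10 * j ^ 2 / k - e * j / 2))) * Z (k - j) := by ring
        _ ≤ r / 4 * Z (k - j) := mul_le_mul_of_nonneg_right hnum (hZ0 _)
    · have : Z k = 0 := by
        simp only [hZ]
        rw [Wk_eq_zero U w R0 k x₀ hx₀ hwx₀ hkU]
        simp
      rw [this, mul_zero]
      exact mul_nonneg (by positivity) (hZ0 _)
  calc ∑ k ∈ K, (k : ℝ) * Z k ≤ ∑ k ∈ K, r / 4 * Z (k - ⌊c * k⌋₊) := sum_le_sum key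
    _ = r / 4 * ∑ k ∈ K, Z (k - ⌊c * k⌋₊) := by rw [mul_sum]
    _ ≤ r / 4 * (2 * ∑ k ∈ range (n + 1), Z k) :=
        mul_le_mul_of_nonneg_left (cs_two_to_one c hc0 hc1 n K (filter_subset _ _) Z hZ0)
          (by positivity)
    _ ≤ r * ∑ k ∈ range (n + 1), Z k := by
        have : 0 ≤ r * ∑ k ∈ range (n + 1), Z k :=
          mul_nonneg (by positivity) (sum_nonneg fun k _ => hZ0 k)
        linarith

end Pool.Agent.H.MP_3b0279_pr
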