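import Pool.Agent.H.MP_3b0279_pr.Defs

/-!
Size of the core, part A: combinatorial double counting.
-/

set_option autoImplicit false

namespace Pool.Agent.H.MP_3b0279_pr

open Finset

variable {V : Type} [DecidableEq V]

/-- choose a `k`-set and a `j`-subset of it, or a `(k-j)`-set and a `j`-set outside -/
lemma cs_swap (U : Finset V) (k j : ℕ) (hjk : j ≤ k) (F : Finset V → Finset V → ℕ) :
    ∑ P ∈ U.powersetCard k, ∑ D ∈ P.powersetCard j, F (P \ D) D =
      ∑ Q ∈ U.powersetCard (k - j), ∑ D ∈ (U \ Q).powersetCard j, F Q D := by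
  rw [Finset.sum_sigma', Finset.sum_sigma']
  refine Finset.sum_bij' (fun x _ => ⟨x.1 \ x.2, x.2⟩) (fun x _ => ⟨x.1 ∪ x.2, x.2⟩) ?_ ?_ ?_ ?_ ?_
  · rintro ⟨P, D⟩ hx
    simp only [mem_sigma, mem_powersetCard] at hx ⊢
    obtain ⟨⟨hP, hPk⟩, hD, hDj⟩ := hx
    refine ⟨⟨fun x hx => hP (mem_sdiff.1 hx).1, ?_⟩, fun x hx => ?_, hDj⟩
    · rw [card_sdiff_of_subset hD, hPk, hDj]
    · simp only [mem_sdiff, not_and, not_not]
      exact ⟨hP (hD hx), fun _ => hx⟩
  · rintro ⟨Q, D⟩ hx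
    simp only [mem_sigma, mem_powersetCard] at hx ⊢
    obtain ⟨⟨hQ, hQk⟩, hD, hDj⟩ := hx
    have hdis : Disjoint Q D := by
      rw [Finset.disjoint_left]
      intro x hxQ hxD
      exact (mem_sdiff.1 (hD hxD)).2 hxQ
    refine ⟨⟨?_, ?_⟩, subset_union_right, hDj⟩
    · intro x hx
      rcases mem_union.1 hx with h | h
      · exact hQ h
      · exact (mem_sdiff.1 (hD h)).1
    · rw [card_union_of_disjoint hdis, hQk, hDj]; omega
  · rintro ⟨P, D⟩ hx
    simp only [mem_sigma, mem_powersetCard] at hx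
    obtain ⟨⟨hP, hPk⟩, hD, hDj⟩ := hx
    simp only [Sigma.mk.injEq, heq_eq_eq, and_true]
    exact sdiff_union_of_subset hD
  · rintro ⟨Q, D⟩ hx
    simp only [mem_sigma, mem_powersetCard] at hx
    obtain ⟨⟨hQ, hQk⟩, hD, hDj⟩ := hx
    have hdis : Disjoint Q D := by
      rw [Finset.disjoint_left]
      intro x hxQ hxD
      exact (mem_sdiff.1 (hD hxD)).2 hxQ
    simp only [Sigma.mk.injEq, heq_eq_eq, and_true]
    rw [union_sdiff_right]
    exact sdiff_eq_self_of_disjoint hdis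
  · rintro ⟨P, D⟩ hx
    rfl

/-- elementary symmetric sums are bounded by powers of the sum -/
lemma cs_esymm (s : Finset V) (w : V → ℕ) (j : ℕ) :
    j.factorial * ∑ D ∈ s.powersetCard j, ∏ x ∈ D, w x ≤ (∑ x ∈ s, w x) ^ j := by
  induction j with
  | zero => simp
  | succ j ih =>
    have h1 := cs_swap s (j + 1) 1 (by omega) (fun Q D => (∏ x ∈ Q, w x) * ∏ x ∈ D, w x)
    have h2 : ∑ P ∈ s.powersetCard (j + 1), ∑ D ∈ P.powersetCard 1,
        (∏ x ∈ P \ D, w x) * ∏ x ∈ D, w x =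
        (j + 1) * ∑ P ∈ s.powersetCard (j + 1), ∏ x ∈ P, w x := by
      rw [mul_sum]
      refine sum_congr rfl fun P hP => ?_
      have hPc := (mem_powersetCard.1 hP).2
      rw [sum_congr rfl (g := fun _ => ∏ x ∈ P, w x)]
      · rw [sum_const, card_powersetCard, hPc, Nat.choose_one_right, smul_eq_mul]
      · intro D hD
        exact prod_sdiff (mem_powersetCard.1 hD).1
    rw [h2] at h1
    have h3 : ∑ Q ∈ s.powersetCard (j + 1 - 1), ∑ D ∈ (s \ Q).powersetCard 1,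
        (∏ x ∈ Q, w x) * ∏ x ∈ D, w x ≤
        (∑ Q ∈ s.powersetCard j, ∏ x ∈ Q, w x) * ∑ x ∈ s, w x := by
      rw [Nat.add_sub_cancel, sum_mul]
      refine sum_le_sum fun Q hQ => ?_
      rw [← mul_sum]
      refine Nat.mul_le_mul_left _ ?_
      rw [powersetCard_one, sum_map]
      simp only [Function.Embedding.coeFn_mk, prod_singleton]
      exact sum_le_sum_of_subset sdiff_subset
    calc (j + 1).factorial * ∑ D ∈ s.powersetCard (j + 1), ∏ x ∈ D, w x
        = j.factorial * ((j + 1) * ∑ P ∈ s.powersetCard (j + 1), ∏ x ∈ P, w x) := by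
          rw [Nat.factorial_succ]; ring
      _ ≤ j.factorial * ((∑ Q ∈ s.powersetCard j, ∏ x ∈ Q, w x) * ∑ x ∈ s, w x) := by
          rw [h1]; exact Nat.mul_le_mul_left _ h3
      _ = (j.factorial * ∑ Q ∈ s.powersetCard j, ∏ x ∈ Q, w x) * ∑ x ∈ s, w x := by ring
      _ ≤ (∑ x ∈ s, w x) ^ j * ∑ x ∈ s, w x := Nat.mul_le_mul_right _ ih
      _ = (∑ x ∈ s, w x) ^ (j + 1) := by rw [pow_succ]

/-- number of `j`-subsets containing a given element -/
lemma cs_card_mem (P : Finset V) (j : ℕ) (hj : 1 ≤ j) (x : V) (hx : x ∈ P) :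
    ((P.powersetCard j).filter (fun D => x ∈ D)).card = (P.card - 1).choose (j - 1) := by
  have h1 : (P.powersetCard j).filter (fun D => ¬ x ∈ D) = (P.erase x).powersetCard j := by
    ext D
    simp only [mem_filter, mem_powersetCard]
    constructor
    · rintro ⟨⟨h1, h2⟩, h3⟩
      exact ⟨fun y hy => mem_erase.2 ⟨fun h => h3 (h ▸ hy), h1 hy⟩, h2⟩
    · rintro ⟨h1, h2⟩
      exact ⟨⟨fun y hy => (mem_erase.1 (h1 hy)).2, h2⟩, fun h => (mem_erase.1 (h1 h)).1 rfl⟩
  have h2 := card_filter_add_card_filter_not (s := P.powersetCard j) (fun D => x ∈ D)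
  rw [h1, card_powersetCard, card_powersetCard, card_erase_of_mem hx] at h2
  have hP : 1 ≤ P.card := card_pos.2 ⟨x, hx⟩
  obtain ⟨c, hc⟩ : ∃ c, P.card = c + 1 := ⟨P.card - 1, by omega⟩
  obtain ⟨i, rfl⟩ : ∃ i, j = i + 1 := ⟨j - 1, by omega⟩
  rw [hc] at h2 ⊢
  simp only [Nat.add_sub_cancel] at h2 ⊢
  rw [Nat.choose_succ_succ'] at h2
  omega

/-- the average of `∑_{D} f` over `j`-subsets -/
lemma cs_avg (P : Finset V) (j : ℕ) (hj : 1 ≤ j) (f : V → ℕ) :
    ∑ D ∈ P.powersetCard j, ∑ x ∈ D, f x = (P.card - 1).choose (j - 1) * ∑ x ∈ P, f x := by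
  have h1 : ∑ D ∈ P.powersetCard j, ∑ x ∈ D, f x =
      ∑ D ∈ P.powersetCard j, ∑ x ∈ P, if x ∈ D then f x else 0 := by
    refine sum_congr rfl fun D hD => ?_
    rw [← sum_filter]
    refine sum_congr ?_ fun _ _ => rfl
    ext x
    simp only [mem_filter]
    exact ⟨fun h => ⟨(mem_powersetCard.1 hD).1 h, h⟩, fun h => h.2⟩
  rw [h1, sum_comm, mul_sum]
  refine sum_congr rfl fun x hx => ?_
  rw [← sum_filter, sum_const, cs_card_mem P j hj x hx, smul_eq_mul]

/-- at least half of the `j`-subsets carry at most half of the weight -/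
lemma cs_nice (P : Finset V) (j : ℕ) (hj : 1 ≤ j) (hjP : 4 * j ≤ P.card) (f : V → ℕ) (R : ℕ)
    (hR : ∑ x ∈ P, f x ≤ R) :
    P.card.choose j ≤ 2 * ((P.powersetCard j).filter (fun D => 2 * ∑ x ∈ D, f x ≤ R)).card := by
  have h1 := cs_avg P j hj f
  have h2 : ((P.powersetCard j).filter (fun D => ¬ 2 * ∑ x ∈ D, f x ≤ R)).card * (R + 1) ≤
      2 * ∑ D ∈ P.powersetCard j, ∑ x ∈ D, f x := by
    calc ((P.powersetCard j).filter (fun D => ¬ 2 * ∑ x ∈ D, f x ≤ R)).card * (R + 1)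
        = ∑ D ∈ (P.powersetCard j).filter (fun D => ¬ 2 * ∑ x ∈ D, f x ≤ R), (R + 1) := by
          rw [sum_const, smul_eq_mul]
      _ ≤ ∑ D ∈ (P.powersetCard j).filter (fun D => ¬ 2 * ∑ x ∈ D, f x ≤ R),
            2 * ∑ x ∈ D, f x := by
          refine sum_le_sum fun D hD => ?_
          have := (mem_filter.1 hD).2
          omega
      _ ≤ ∑ D ∈ P.powersetCard j, 2 * ∑ x ∈ D, f x :=
          sum_le_sum_of_subset (filter_subset _ _)
      _ = 2 * ∑ D ∈ P.powersetCard j, ∑ x ∈ D, f x := by rw [mul_sum]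
  have h3 := card_filter_add_card_filter_not (s := P.powersetCard j)
    (fun D => 2 * ∑ x ∈ D, f x ≤ R)
  rw [card_powersetCard] at h3
  -- choose identity: k * C(k-1, j-1) = j * C(k, j)
  have h4 : P.card * (P.card - 1).choose (j - 1) = P.card.choose j * j := by
    obtain ⟨c, hc⟩ : ∃ c, P.card = c + 1 := ⟨P.card - 1, by omega⟩
    obtain ⟨i, rfl⟩ : ∃ i, j = i + 1 := ⟨j - 1, by omega⟩
    rw [hc]
    simp only [Nat.add_sub_cancel]
    exact Nat.add_one_mul_choose_eq c i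
  set B := ((P.powersetCard j).filter (fun D => ¬ 2 * ∑ x ∈ D, f x ≤ R)).card with hB
  set G := ((P.powersetCard j).filter (fun D => 2 * ∑ x ∈ D, f x ≤ R)).card with hG
  -- k * B * (R+1) ≤ 2 k C(k-1,j-1) R = 2 j C(k,j) R, 4 j ≤ k
  have h5 : P.card * (B * (R + 1)) ≤ 2 * (P.card.choose j * j) * R := by
    calc P.card * (B * (R + 1)) ≤ P.card * (2 * ((P.card - 1).choose (j - 1) * ∑ x ∈ P, f x)) := by
          rw [← h1]; exact Nat.mul_le_mul_left _ h2
      _ = 2 * (P.card * (P.card - 1).choose (j - 1)) * ∑ x ∈ P, f x := by ring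
      _ ≤ 2 * (P.card * (P.card - 1).choose (j - 1)) * R := Nat.mul_le_mul_left _ hR
      _ = 2 * (P.card.choose j * j) * R := by rw [h4]
  have h6 : 4 * j * (B * (R + 1)) ≤ 2 * (P.card.choose j * j) * R :=
    (Nat.mul_le_mul_right _ hjP).trans h5
  have h7 : 2 * B ≤ P.card.choose j := by
    by_contra hcon
    push Not at hcon
    have h8 : 2 * (P.card.choose j * j) * R < 4 * j * (B * (R + 1)) := by
      have : P.card.choose j * (j * R) ≤ 2 * B * (j * R) := Nat.mul_le_mul_right _ hcon.le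
      have hB' : 0 < B * j := by
        refine Nat.mul_pos ?_ hj
        by_contra hB0
        have : B = 0 := by omega
        omega
      nlinarith
    omega
  omega

end Pool.Agent.H.MP_3b0279_pr
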