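import Pool.Agent.H.MP_3b0279_pr.CoreSizeA

/-!
Size of the core, part B: good and bad sets.
-/

set_option autoImplicit false

namespace Pool.Agent.H.MP_3b0279_pr

open Finset

variable {V : Type} [DecidableEq V]

/-- number of child slots at the core with inner vertex set `P` -/
def csR (w : V → ℕ) (R0 : ℕ) (P : Finset V) : ℕ := R0 + ∑ v ∈ P, (w v - 1)

/-- the sum over all inner vertex sets of size `k` -/
def csS (U : Finset V) (w : V → ℕ) (R0 k : ℕ) : ℕ :=
  ∑ P ∈ U.powersetCard k, (∏ v ∈ P, w v) * csR w R0 P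

lemma csR_sdiff (w : V → ℕ) (R0 : ℕ) {P D : Finset V} (h : D ⊆ P) :
    csR w R0 (P \ D) + ∑ v ∈ D, (w v - 1) = csR w R0 P := by
  unfold csR
  rw [add_assoc, sum_sdiff h]

omit [DecidableEq V] in
lemma cs_sum_eq (w : V → ℕ) {Q : Finset V} (hQ : ∏ v ∈ Q, w v ≠ 0) :
    ∑ v ∈ Q, w v = ∑ v ∈ Q, (w v - 1) + Q.card := by
  rw [card_eq_sum_ones, ← sum_add_distrib]
  refine sum_congr rfl fun v hv => ?_
  have : w v ≠ 0 := fun h => hQ (prod_eq_zero hv h)
  omega

omit [DecidableEq V] in
lemma cs_ne_one (w : V → ℕ) {Q : Finset V} (hQ : ∏ v ∈ Q, w v ≠ 0) :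
    (Q.filter (fun v => ¬ w v = 1)).card ≤ ∑ v ∈ Q, (w v - 1) := by
  calc (Q.filter (fun v => ¬ w v = 1)).card = ∑ v ∈ Q.filter (fun v => ¬ w v = 1), 1 := by simp
    _ ≤ ∑ v ∈ Q.filter (fun v => ¬ w v = 1), (w v - 1) := by
        refine sum_le_sum fun v hv => ?_
        have h1 := (mem_filter.1 hv)
        have : w v ≠ 0 := fun h => hQ (prod_eq_zero h1.1 h)
        have := h1.2
        omega
    _ ≤ ∑ v ∈ Q, (w v - 1) := sum_le_sum_of_subset (filter_subset _ _)

lemma cs_good (U : Finset V) (w : V → ℕ) (R0 k j : ℕ) (hj : 1 ≤ j) (hjk : 4 * j ≤ k)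
    (hsum : R0 + ∑ x ∈ U, w x = U.card) :
    k.descFactorial j * ∑ P ∈ (U.powersetCard k).filter (fun P => 4 * j ≤ csR w R0 P),
      (∏ v ∈ P, w v) * csR w R0 P ≤ 4 * (U.card - k - j) ^ j * csS U w R0 (k - j) := by
  set F : Finset V → Finset V → ℕ := fun Q D =>
    if 2 * j ≤ csR w R0 Q then 4 * ((∏ v ∈ Q, w v) * csR w R0 Q) * ∏ v ∈ D, w v else 0 with hF
  -- step 1
  have h1 : ∀ P ∈ (U.powersetCard k).filter (fun P => 4 * j ≤ csR w R0 P),
      k.choose j * ((∏ v ∈ P, w v) * csR w R0 P) ≤ ∑ D ∈ P.powersetCard j, F (P \ D) D := by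
    intro P hP
    rw [mem_filter, mem_powersetCard] at hP
    obtain ⟨⟨hPU, hPk⟩, hPR⟩ := hP
    have hn := cs_nice P j hj (by rw [hPk]; exact hjk) (fun v => w v - 1) (csR w R0 P)
      (by unfold csR; omega)
    rw [hPk] at hn
    calc k.choose j * ((∏ v ∈ P, w v) * csR w R0 P)
        ≤ 2 * ((P.powersetCard j).filter
            (fun D => 2 * ∑ x ∈ D, (w x - 1) ≤ csR w R0 P)).card *
            ((∏ v ∈ P, w v) * csR w R0 P) := Nat.mul_le_mul_right _ hn
      _ = ∑ D ∈ (P.powersetCard j).filter (fun D => 2 * ∑ x ∈ D, (w x - 1) ≤ csR w R0 P),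
            2 * ((∏ v ∈ P, w v) * csR w R0 P) := by
          rw [sum_const, smul_eq_mul]; ring
      _ ≤ ∑ D ∈ (P.powersetCard j).filter (fun D => 2 * ∑ x ∈ D, (w x - 1) ≤ csR w R0 P),
            F (P \ D) D := by
          refine sum_le_sum fun D hD => ?_
          rw [mem_filter, mem_powersetCard] at hD
          obtain ⟨⟨hDP, hDj⟩, hD2⟩ := hD
          have h2 := csR_sdiff w R0 hDP
          have h3 : 2 * j ≤ csR w R0 (P \ D) := by omega
          simp only [hF, if_pos h3]
          have h4 : ∏ v ∈ P, w v = (∏ v ∈ P \ D, w v) * ∏ v ∈ D, w v := (prod_sdiff hDP).symm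
          rw [h4]
          have h5 : csR w R0 P ≤ 2 * csR w R0 (P \ D) := by omega
          calc 2 * ((∏ v ∈ P \ D, w v) * (∏ v ∈ D, w v) * csR w R0 P)
              ≤ 2 * ((∏ v ∈ P \ D, w v) * (∏ v ∈ D, w v) * (2 * csR w R0 (P \ D))) :=
                Nat.mul_le_mul_left _ (Nat.mul_le_mul_left _ h5)
            _ = _ := by ring
      _ ≤ ∑ D ∈ P.powersetCard j, F (P \ D) D := sum_le_sum_of_subset (filter_subset _ _)
  have h2 : k.choose j * ∑ P ∈ (U.powersetCard k).filter (fun P => 4 * j ≤ csR w R0 P),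
      (∏ v ∈ P, w v) * csR w R0 P ≤
      ∑ Q ∈ U.powersetCard (k - j), ∑ D ∈ (U \ Q).powersetCard j, F Q D := by
    rw [← cs_swap U k j (by omega) F, mul_sum]
    exact (sum_le_sum h1).trans (sum_le_sum_of_subset (filter_subset _ _))
  rw [Nat.descFactorial_eq_factorial_mul_choose]
  calc j.factorial * k.choose j * ∑ P ∈ (U.powersetCard k).filter
        (fun P => 4 * j ≤ csR w R0 P), (∏ v ∈ P, w v) * csR w R0 P
      ≤ j.factorial * ∑ Q ∈ U.powersetCard (k - j), ∑ D ∈ (U \ Q).powersetCard j, F Q D := by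
        rw [mul_assoc]; exact Nat.mul_le_mul_left _ h2
    _ ≤ 4 * (U.card - k - j) ^ j * csS U w R0 (k - j) := by
        unfold csS
        rw [mul_sum, mul_sum]
        refine sum_le_sum fun Q hQ => ?_
        rw [mem_powersetCard] at hQ
        obtain ⟨hQU, hQk⟩ := hQ
        by_cases h3 : 2 * j ≤ csR w R0 Q
        · simp only [hF, if_pos h3]
          by_cases h4 : ∏ v ∈ Q, w v = 0
          · simp [h4]
          have h5 := cs_sum_eq w h4
          have h6 : ∑ v ∈ U \ Q, w v + ∑ v ∈ Q, w v = ∑ v ∈ U, w v := sum_sdiff hQU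
          have h7 : ∑ v ∈ U \ Q, w v ≤ U.card - k - j := by
            unfold csR at h3
            omega
          have h8 := cs_esymm (U \ Q) w j
          rw [← mul_sum]
          calc j.factorial * (4 * ((∏ v ∈ Q, w v) * csR w R0 Q) *
                ∑ D ∈ (U \ Q).powersetCard j, ∏ v ∈ D, w v)
              = 4 * ((∏ v ∈ Q, w v) * csR w R0 Q) *
                (j.factorial * ∑ D ∈ (U \ Q).powersetCard j, ∏ v ∈ D, w v) := by ring
            _ ≤ 4 * ((∏ v ∈ Q, w v) * csR w R0 Q) * (U.card - k - j) ^ j :=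
                Nat.mul_le_mul_left _ (h8.trans (Nat.pow_le_pow_left h7 _))
            _ = _ := by ring
        · simp only [hF, if_neg h3]
          simp

lemma cs_bad (U : Finset V) (w : V → ℕ) (R0 k j : ℕ) (hj5 : 5 * j ≤ k) :
    (k - 4 * j).choose j * ∑ P ∈ (U.powersetCard k).filter (fun P => ¬ 4 * j ≤ csR w R0 P),
      (∏ v ∈ P, w v) * csR w R0 P ≤
      ((U.filter (fun v => w v = 1)).card - (k - 5 * j)).choose j * csS U w R0 (k - j) := by
  set T : Finset V := U.filter (fun v => w v = 1) with hT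
  set F : Finset V → Finset V → ℕ := fun Q D =>
    if D ⊆ T ∧ csR w R0 Q < 4 * j then (∏ v ∈ Q, w v) * csR w R0 Q else 0 with hF
  have h1 : ∀ P ∈ (U.powersetCard k).filter (fun P => ¬ 4 * j ≤ csR w R0 P),
      (k - 4 * j).choose j * ((∏ v ∈ P, w v) * csR w R0 P) ≤
        ∑ D ∈ P.powersetCard j, F (P \ D) D := by
    intro P hP
    rw [mem_filter, mem_powersetCard] at hP
    obtain ⟨⟨hPU, hPk⟩, hPR⟩ := hP
    by_cases h0 : ∏ v ∈ P, w v = 0
    · simp [h0]
    have h2 := cs_ne_one w h0
    have h3 := card_filter_add_card_filter_not (s := P) (fun v => w v = 1)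
    have h4 : k - 4 * j ≤ (P.filter (fun v => w v = 1)).card := by
      unfold csR at hPR
      omega
    calc (k - 4 * j).choose j * ((∏ v ∈ P, w v) * csR w R0 P)
        ≤ ((P.filter (fun v => w v = 1)).powersetCard j).card *
            ((∏ v ∈ P, w v) * csR w R0 P) := by
          rw [card_powersetCard]
          exact Nat.mul_le_mul_right _ (Nat.choose_le_choose _ h4)
      _ = ∑ D ∈ (P.filter (fun v => w v = 1)).powersetCard j,
            ((∏ v ∈ P, w v) * csR w R0 P) := by rw [sum_const, smul_eq_mul]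
      _ ≤ ∑ D ∈ (P.filter (fun v => w v = 1)).powersetCard j, F (P \ D) D := by
          refine sum_le_sum fun D hD => ?_
          rw [mem_powersetCard] at hD
          have hDP : D ⊆ P := hD.1.trans (filter_subset _ _)
          have hD1 : ∀ v ∈ D, w v = 1 := fun v hv => (mem_filter.1 (hD.1 hv)).2
          have hDT : D ⊆ T := fun v hv => mem_filter.2 ⟨hPU (hDP hv), hD1 v hv⟩
          have h5 := csR_sdiff w R0 hDP
          have h6 : ∑ v ∈ D, (w v - 1) = 0 :=
            sum_eq_zero fun v hv => by simp [hD1 v hv]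
          have h7 : csR w R0 (P \ D) = csR w R0 P := by omega
          have h8 : ∏ v ∈ P \ D, w v = ∏ v ∈ P, w v := by
            rw [← prod_sdiff hDP, prod_eq_one hD1, mul_one]
          have h9 : D ⊆ T ∧ csR w R0 (P \ D) < 4 * j := ⟨hDT, by omega⟩
          simp only [hF, if_pos h9]
          rw [h7, h8]
      _ ≤ ∑ D ∈ P.powersetCard j, F (P \ D) D :=
          sum_le_sum_of_subset (powersetCard_mono (filter_subset _ _))
  calc (k - 4 * j).choose j * ∑ P ∈ (U.powersetCard k).filter
        (fun P => ¬ 4 * j ≤ csR w R0 P), (∏ v ∈ P, w v) * csR w R0 P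
      ≤ ∑ Q ∈ U.powersetCard (k - j), ∑ D ∈ (U \ Q).powersetCard j, F Q D := by
        rw [← cs_swap U k j (by omega) F, mul_sum]
        exact (sum_le_sum h1).trans (sum_le_sum_of_subset (filter_subset _ _))
    _ ≤ (T.card - (k - 5 * j)).choose j * csS U w R0 (k - j) := by
        unfold csS
        rw [mul_sum]
        refine sum_le_sum fun Q hQ => ?_
        rw [mem_powersetCard] at hQ
        obtain ⟨hQU, hQk⟩ := hQ
        by_cases h4 : ∏ v ∈ Q, w v = 0
        · simp [hF, h4]
        by_cases h3 : csR w R0 Q < 4 * j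
        · have h5 : ∑ D ∈ (U \ Q).powersetCard j, F Q D ≤
              ∑ D ∈ (T \ Q).powersetCard j, (∏ v ∈ Q, w v) * csR w R0 Q := by
            rw [← sum_filter_add_sum_filter_not ((U \ Q).powersetCard j) (fun D => D ⊆ T)]
            have h6 : ∑ D ∈ ((U \ Q).powersetCard j).filter (fun D => ¬ D ⊆ T), F Q D = 0 := by
              refine sum_eq_zero fun D hD => ?_
              have := (mem_filter.1 hD).2
              simp only [hF]
              rw [if_neg]
              exact fun h => this h.1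
            rw [h6, add_zero]
            refine (sum_le_sum (g := fun _ => (∏ v ∈ Q, w v) * csR w R0 Q) ?_).trans
              (sum_le_sum_of_subset ?_)
            · intro D hD
              simp only [hF]
              split_ifs
              · exact le_rfl
              · exact Nat.zero_le _
            · intro D hD
              rw [mem_filter, mem_powersetCard] at hD
              rw [mem_powersetCard]
              exact ⟨fun v hv => mem_sdiff.2 ⟨hD.2 hv, (mem_sdiff.1 (hD.1.1 hv)).2⟩, hD.1.2⟩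
          refine h5.trans ?_
          rw [sum_const, card_powersetCard, smul_eq_mul]
          refine Nat.mul_le_mul_right _ (Nat.choose_le_choose _ ?_)
          have h6 := cs_ne_one w h4
          have h7 := card_filter_add_card_filter_not (s := Q) (fun v => w v = 1)
          have h8 : k - 5 * j ≤ (Q.filter (fun v => w v = 1)).card := by
            unfold csR at h3
            omega
          have h9 : Q.filter (fun v => w v = 1) ⊆ T := fun v hv =>
            mem_filter.2 ⟨hQU (mem_filter.1 hv).1, (mem_filter.1 hv).2⟩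
          calc (T \ Q).card ≤ (T \ Q.filter (fun v => w v = 1)).card :=
                card_le_card (sdiff_subset_sdiff le_rfl (filter_subset _ _))
            _ = T.card - (Q.filter (fun v => w v = 1)).card := card_sdiff_of_subset h9
            _ ≤ T.card - (k - 5 * j) := by omega
        · refine le_trans (le_of_eq (sum_eq_zero fun D hD => ?_)) (Nat.zero_le _)
          simp only [hF]
          rw [if_neg]
          exact fun h => h3 h.2

end Pool.Agent.H.MP_3b0279_pr
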