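import Pool.Agent.H.MP_3b0279_pr.CoreSizeB

/-!
Size of the core, part C: the recursive inequality.
-/

set_option autoImplicit false

namespace Pool.Agent.H.MP_3b0279_pr

open Finset

lemma cs_vratio (m : ℕ) (v : ℕ → ℕ) (hv : ∀ k, (k + 1 - 2 * m) * v (k + 1) ≤ k * v k)
    (k j : ℕ) (hk : 1 ≤ k) (hjk : 2 * (j + 2 * m) ≤ k) :
    (v k : ℝ) ≤ Real.exp (4 * m * j / k) * v (k - j) := by
  have hk0 : (0 : ℝ) < k := by exact_mod_cast hk
  have key : ∀ i, i ≤ j → (v (k - j + i) : ℝ) ≤ (1 + 4 * m / k) ^ i * v (k - j) := by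
    intro i
    induction i with
    | zero => intro _; simp
    | succ i ih =>
      intro hi
      have h1 := ih (by omega)
      set a := k - j + i with ha
      have h2 := hv a
      have h3 : ((a + 1 - 2 * m : ℕ) : ℝ) * v (a + 1) ≤ a * v a := by exact_mod_cast h2
      have h4 : ((a + 1 - 2 * m : ℕ) : ℝ) = a + 1 - 2 * m := by
        rw [Nat.cast_sub (by omega)]; push_cast; ring
      have h5 : (k : ℝ) / 2 ≤ a + 1 - 2 * m := by
        have : (k : ℝ) + 4 * m ≤ 2 * a + 2 := by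
          exact_mod_cast (by omega : k + 4 * m ≤ 2 * a + 2)
        linarith
      rw [h4] at h3
      have h6 : (0 : ℝ) < a + 1 - 2 * m := by linarith
      have h7 : (a : ℝ) ≤ (1 + 4 * m / k) * (a + 1 - 2 * m) := by
        have h8 : (2 : ℝ) * m ≤ 4 * m / k * (a + 1 - 2 * m) := by
          calc (2 : ℝ) * m = 4 * m / k * (k / 2) := by field_simp; ring
            _ ≤ _ := mul_le_mul_of_nonneg_left h5 (by positivity)
        nlinarith
      have hva : (0 : ℝ) ≤ v a := Nat.cast_nonneg _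
      have h9 : (v (a + 1) : ℝ) ≤ (1 + 4 * m / k) * v a := by
        have h10 : (a + 1 - 2 * m : ℝ) * v (a + 1) ≤
            (a + 1 - 2 * m) * ((1 + 4 * m / k) * v a) := by
          calc (a + 1 - 2 * m : ℝ) * v (a + 1) ≤ a * v a := h3
            _ ≤ (1 + 4 * m / k) * (a + 1 - 2 * m) * v a := mul_le_mul_of_nonneg_right h7 hva
            _ = _ := by ring
        exact le_of_mul_le_mul_left h10 h6
      have h11 : k - j + (i + 1) = a + 1 := by omega
      rw [h11, pow_succ]
      calc (v (a + 1) : ℝ) ≤ (1 + 4 * m / k) * v a := h9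
        _ ≤ (1 + 4 * m / k) * ((1 + 4 * m / k) ^ i * v (k - j)) :=
            mul_le_mul_of_nonneg_left h1 (by positivity)
        _ = _ := by ring
  have h1 := key j le_rfl
  rw [Nat.sub_add_cancel (by omega)] at h1
  refine h1.trans (mul_le_mul_of_nonneg_right ?_ (Nat.cast_nonneg _))
  calc (1 + 4 * (m : ℝ) / k) ^ j ≤ (Real.exp (4 * m / k)) ^ j := by
        refine pow_le_pow_left₀ (by positivity) ?_ _
        rw [add_comm]; exact Real.add_one_le_exp _
    _ = Real.exp (4 * m * j / k) := by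
        rw [← Real.exp_nat_mul]; congr 1; ring

/-- number of forests with `N` non-core vertices and `R` child-slots at the core,
up to the product of factorials -/
def gfor (N R : ℕ) : ℕ := if N = 0 then 1 else (N - 1).factorial * R

/-- weight of the total length `k` for a fixed kernel (`U` = vertices outside the kernel,
`w = d - 1`, `R0` = number of child-slots at kernel vertices) -/
def Wk {V : Type} [DecidableEq V] (U : Finset V) (w : V → ℕ) (R0 k : ℕ) : ℕ :=
  k.factorial *
    ∑ P ∈ U.powersetCard k, (∏ v ∈ P, w v) * gfor (U.card - k) (R0 + ∑ v ∈ P, (w v - 1))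

variable {V : Type} [DecidableEq V]

lemma Wk_eq (U : Finset V) (w : V → ℕ) (R0 k : ℕ) (hk : k < U.card) :
    Wk U w R0 k = k.factorial * ((U.card - k - 1).factorial * csS U w R0 k) := by
  unfold Wk csS gfor
  congr 1
  rw [mul_sum]
  refine sum_congr rfl fun P _ => ?_
  rw [if_neg (by omega)]
  unfold csR
  ring

lemma Wk_eq_zero (U : Finset V) (w : V → ℕ) (R0 k : ℕ) (x : V) (hx : x ∈ U) (hwx : w x = 0)
    (hk : U.card ≤ k) : Wk U w R0 k = 0 := by
  unfold Wk
  have h : ∑ P ∈ U.powersetCard k,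
      (∏ v ∈ P, w v) * gfor (U.card - k) (R0 + ∑ v ∈ P, (w v - 1)) = 0 := by
    refine sum_eq_zero fun P hP => ?_
    rw [mem_powersetCard] at hP
    have hPU : P = U := eq_of_subset_of_card_le hP.1 (by omega)
    rw [hPU, prod_eq_zero hx hwx, zero_mul]
  rw [h, mul_zero]

lemma cs_rec (e : ℝ) (he0 : 0 < e) (he1 : e ≤ 1) (n m : ℕ) (U : Finset V) (w : V → ℕ)
    (R0 : ℕ) (v : ℕ → ℕ) (hUn : U.card ≤ n) (hnU : n ≤ U.card + m)
    (hsum : R0 + ∑ x ∈ U, w x = U.card)
    (hT : ((U.filter (fun x => w x = 1)).card : ℝ) ≤ (1 - e) * n)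
    (hv : ∀ k, (k + 1 - 2 * m) * v (k + 1) ≤ k * v k) (k j : ℕ) (hj : 1 ≤ j)
    (hjk : 10 * j ≤ k) (hmk : 8 * m ≤ k) (hkU : k < U.card) (hmj : (m : ℝ) + 5 * j ≤ e * n / 2) :
    (v k : ℝ) * (Wk U w R0 k : ℝ) ≤
      (4 * Real.exp (4 * m * j / k - j ^ 2 / n) +
        Real.exp (4 * m * j / k + 10 * j ^ 2 / k - e * j / 2)) *
      ((v (k - j) : ℝ) * (Wk U w R0 (k - j) : ℝ)) := by
  have hk1 : 1 ≤ k := by omega
  have hk0 : (0 : ℝ) < k := by exact_mod_cast hk1
  have hn0 : (0 : ℝ) < n := by exact_mod_cast (by omega : 0 < n)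
  have hvr := cs_vratio m v hv k j hk1 (by omega)
  rw [Wk_eq U w R0 k hkU, Wk_eq U w R0 (k - j) (by omega)]
  set N := U.card - k with hN
  have hN1 : 1 ≤ N := by omega
  have hNn : (N : ℝ) ≤ n := by exact_mod_cast (by omega : N ≤ n)
  have hN0 : (0 : ℝ) < N := by exact_mod_cast hN1
  have hNj : U.card - (k - j) - 1 = N - 1 + j := by omega
  rw [hNj]
  have hfac : (N - 1).factorial * N ^ j ≤ (N - 1 + j).factorial := by
    have := Nat.factorial_mul_pow_le_factorial (m := N - 1) (n := j)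
    rwa [Nat.sub_add_cancel hN1] at this
  have hfacR : ((N - 1).factorial : ℝ) * (N : ℝ) ^ j ≤ ((N - 1 + j).factorial : ℝ) := by
    exact_mod_cast hfac
  have hkfac : k.factorial = (k - j).factorial * k.descFactorial j :=
    (Nat.factorial_mul_descFactorial (by omega)).symm
  -- split into good and bad
  set G := ∑ P ∈ (U.powersetCard k).filter (fun P => 4 * j ≤ csR w R0 P),
      (∏ v ∈ P, w v) * csR w R0 P with hG
  set B := ∑ P ∈ (U.powersetCard k).filter (fun P => ¬ 4 * j ≤ csR w R0 P),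
      (∏ v ∈ P, w v) * csR w R0 P with hB
  have hGB : csS U w R0 k = G + B := by
    unfold csS
    rw [hG, hB, sum_filter_add_sum_filter_not]
  set S' := csS U w R0 (k - j) with hS'
  have hgood : k.descFactorial j * G ≤ 4 * (N - j) ^ j * S' :=
    cs_good U w R0 k j hj (by omega) hsum
  have hbad0 := cs_bad U w R0 k j (by omega)
  rw [← hB, ← hS'] at hbad0
  set T := (U.filter (fun x => w x = 1)).card with hTdef
  set A := T - (k - 5 * j) with hA
  have hbad : (k - 5 * j) ^ j * B ≤ A ^ j * S' := by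
    calc (k - 5 * j) ^ j * B ≤ (k - 4 * j).descFactorial j * B := by
          refine Nat.mul_le_mul_right _ ?_
          refine le_trans (Nat.pow_le_pow_left (by omega) _)
            (Nat.pow_sub_le_descFactorial (k - 4 * j) j)
      _ = j.factorial * ((k - 4 * j).choose j * B) := by
          rw [Nat.descFactorial_eq_factorial_mul_choose]; ring
      _ ≤ j.factorial * (A.choose j * S') := Nat.mul_le_mul_left _ hbad0
      _ = A.descFactorial j * S' := by
          rw [Nat.descFactorial_eq_factorial_mul_choose]; ring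
      _ ≤ A ^ j * S' := Nat.mul_le_mul_right _ (Nat.descFactorial_le_pow A j)
  have hgoodR : (k.descFactorial j : ℝ) * G ≤ 4 * ((N - j : ℕ) : ℝ) ^ j * S' := by
    exact_mod_cast hgood
  have hbadR : ((k - 5 * j : ℕ) : ℝ) ^ j * B ≤ (A : ℝ) ^ j * S' := by
    exact_mod_cast hbad
  -- estimates of powers
  have hp1 : ((N - j : ℕ) : ℝ) ^ j ≤ Real.exp (- (j ^ 2 / n)) * (N : ℝ) ^ j := by
    rcases Nat.lt_or_ge N j with h | h
    · rw [Nat.sub_eq_zero_of_le h.le, Nat.cast_zero, zero_pow (by omega)]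
      positivity
    · rw [Nat.cast_sub h]
      have h1 : (N : ℝ) - j ≤ Real.exp (- (j / n)) * N := by
        have h2 : 1 - (j : ℝ) / n ≤ Real.exp (- (j / n)) := by
          have := Real.add_one_le_exp (- ((j : ℝ) / n)); linarith
        have h3 : (N : ℝ) - j ≤ (1 - (j : ℝ) / n) * N := by
          have : (j : ℝ) / n * N ≤ j := by
            rw [div_mul_eq_mul_div, div_le_iff₀ hn0]
            exact mul_le_mul_of_nonneg_left hNn (Nat.cast_nonneg _)
          linarith
        exact h3.trans (mul_le_mul_of_nonneg_right h2 hN0.le)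
      have h0 : (0 : ℝ) ≤ (N : ℝ) - j := by
        have : (j : ℝ) ≤ N := by exact_mod_cast h
        linarith
      calc ((N : ℝ) - j) ^ j ≤ (Real.exp (- (j / n)) * N) ^ j := pow_le_pow_left₀ h0 h1 _
        _ = Real.exp (- (j ^ 2 / n)) * (N : ℝ) ^ j := by
          rw [mul_pow, ← Real.exp_nat_mul]; congr 2; ring
  have hp2 : (A : ℝ) ^ j ≤ Real.exp (- (e * j / 2)) * (N : ℝ) ^ j := by
    have h1 : (A : ℝ) ≤ (1 - e / 2) * N := by
      have h2 : (0 : ℝ) ≤ 1 - e / 2 := by linarith
      rcases Nat.lt_or_ge T (k - 5 * j) with h | h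
      · rw [hA, Nat.sub_eq_zero_of_le h.le, Nat.cast_zero]
        positivity
      · rw [hA, Nat.cast_sub h, Nat.cast_sub (by omega)]
        push_cast
        have h3 : (n : ℝ) ≤ N + k + m := by exact_mod_cast (by omega : n ≤ N + k + m)
        nlinarith
    calc (A : ℝ) ^ j ≤ ((1 - e / 2) * N) ^ j := pow_le_pow_left₀ (Nat.cast_nonneg _) h1 _
      _ = (1 - e / 2) ^ j * (N : ℝ) ^ j := mul_pow _ _ _
      _ ≤ (Real.exp (- (e / 2))) ^ j * (N : ℝ) ^ j := by
          refine mul_le_mul_of_nonneg_right (pow_le_pow_left₀ (by linarith) ?_ _) (by positivity)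
          have := Real.add_one_le_exp (- (e / 2)); linarith
      _ = Real.exp (- (e * j / 2)) * (N : ℝ) ^ j := by
          rw [← Real.exp_nat_mul]; congr 2; ring
  have hk5 : (k : ℝ) / 2 ≤ ((k - 5 * j : ℕ) : ℝ) := by
    rw [Nat.cast_sub (by omega)]
    have : (10 : ℝ) * j ≤ k := by exact_mod_cast hjk
    push_cast; linarith
  have hk5' : (0 : ℝ) < ((k - 5 * j : ℕ) : ℝ) := by linarith
  have hp3 : (k : ℝ) ^ j ≤ Real.exp (10 * j ^ 2 / k) * ((k - 5 * j : ℕ) : ℝ) ^ j := by
    have h1 : (k : ℝ) ≤ Real.exp (10 * j / k) * ((k - 5 * j : ℕ) : ℝ) := by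
      have h2 := Real.add_one_le_exp (10 * (j : ℝ) / k)
      calc (k : ℝ) = ((k - 5 * j : ℕ) : ℝ) + 5 * j := by
            rw [Nat.cast_sub (by omega)]; push_cast; ring
        _ ≤ ((k - 5 * j : ℕ) : ℝ) + 10 * j / k * ((k - 5 * j : ℕ) : ℝ) := by
            have : (5 : ℝ) * j = 10 * j / k * (k / 2) := by field_simp; ring
            rw [this]
            have := mul_le_mul_of_nonneg_left hk5 (by positivity : (0 : ℝ) ≤ 10 * j / k)
            linarith
        _ = (10 * j / k + 1) * ((k - 5 * j : ℕ) : ℝ) := by ring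
        _ ≤ _ := mul_le_mul_of_nonneg_right h2 hk5'.le
    calc (k : ℝ) ^ j ≤ (Real.exp (10 * j / k) * ((k - 5 * j : ℕ) : ℝ)) ^ j :=
          pow_le_pow_left₀ hk0.le h1 _
      _ = _ := by rw [mul_pow, ← Real.exp_nat_mul]; congr 2; ring
  -- combine
  have hvk : (0 : ℝ) ≤ v k := Nat.cast_nonneg _
  have hvj : (0 : ℝ) ≤ v (k - j) := Nat.cast_nonneg _
  have hX : ∀ (x y : ℝ), 0 ≤ y → x ≤ y * ((N : ℝ) ^ j * S') →
      (v k : ℝ) * ((k - j).factorial * ((N - 1).factorial * x)) ≤
        Real.exp (4 * m * j / k) * y *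
          ((v (k - j) : ℝ) * ((k - j).factorial * ((N - 1 + j).factorial * S'))) := by
    intro x y hy hxy
    have hf1 : (0 : ℝ) ≤ (k - j).factorial := Nat.cast_nonneg _
    have hf2 : (0 : ℝ) ≤ (N - 1).factorial := Nat.cast_nonneg _
    have hS0 : (0 : ℝ) ≤ S' := Nat.cast_nonneg _
    calc (v k : ℝ) * ((k - j).factorial * ((N - 1).factorial * x))
        ≤ (v k : ℝ) * ((k - j).factorial * ((N - 1).factorial * (y * ((N : ℝ) ^ j * S')))) := by
          gcongr
      _ = (v k : ℝ) * ((k - j).factorial * (((N - 1).factorial * (N : ℝ) ^ j) * (y * S'))) := by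
          ring
      _ ≤ (v k : ℝ) * ((k - j).factorial * ((N - 1 + j).factorial * (y * S'))) := by
          gcongr
      _ ≤ (Real.exp (4 * m * j / k) * v (k - j)) *
            ((k - j).factorial * ((N - 1 + j).factorial * (y * S'))) := by
          gcongr
      _ = _ := by ring
  have hg2 : (k.descFactorial j : ℝ) * G ≤ (4 * Real.exp (- (j ^ 2 / n))) * ((N : ℝ) ^ j * S') := by
    refine hgoodR.trans ?_
    calc 4 * ((N - j : ℕ) : ℝ) ^ j * S' ≤ 4 * (Real.exp (- (j ^ 2 / n)) * (N : ℝ) ^ j) * S' := by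
          gcongr
      _ = _ := by ring
  have hb2 : (k.descFactorial j : ℝ) * B ≤
      (Real.exp (10 * j ^ 2 / k) * Real.exp (- (e * j / 2))) * ((N : ℝ) ^ j * S') := by
    have hd : (k.descFactorial j : ℝ) ≤ (k : ℝ) ^ j := by
      exact_mod_cast Nat.descFactorial_le_pow k j
    have hB0 : (0 : ℝ) ≤ (B : ℝ) := Nat.cast_nonneg _
    calc (k.descFactorial j : ℝ) * B ≤ (k : ℝ) ^ j * B := by gcongr
      _ ≤ (Real.exp (10 * j ^ 2 / k) * ((k - 5 * j : ℕ) : ℝ) ^ j) * B := by gcongr
      _ = Real.exp (10 * j ^ 2 / k) * (((k - 5 * j : ℕ) : ℝ) ^ j * B) := by ring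
      _ ≤ Real.exp (10 * j ^ 2 / k) * ((A : ℝ) ^ j * S') := by gcongr
      _ ≤ Real.exp (10 * j ^ 2 / k) * ((Real.exp (- (e * j / 2)) * (N : ℝ) ^ j) * S') := by
          gcongr
      _ = _ := by ring
  have e1 := hX _ _ (by positivity) hg2
  have e2 := hX _ _ (by positivity) hb2
  have e3 : Real.exp (4 * m * j / k - j ^ 2 / n) =
      Real.exp (4 * m * j / k) * Real.exp (- ((j : ℝ) ^ 2 / n)) := by
    rw [← Real.exp_add]; congr 1
  have e4 : Real.exp (4 * m * j / k + 10 * j ^ 2 / k - e * j / 2) =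
      Real.exp (4 * m * j / k) *
        (Real.exp (10 * (j : ℝ) ^ 2 / k) * Real.exp (- (e * j / 2))) := by
    rw [← Real.exp_add, ← Real.exp_add]; congr 1; ring
  rw [e3, e4, hkfac, hGB]
  push_cast
  calc (v k : ℝ) * (((k - j).factorial * k.descFactorial j) * ((N - 1).factorial * (G + B)))
      = (v k : ℝ) * ((k - j).factorial * ((N - 1).factorial * (k.descFactorial j * G))) +
        (v k : ℝ) * ((k - j).factorial * ((N - 1).factorial * (k.descFactorial j * B))) := by
        ring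
    _ ≤ _ := add_le_add e1 e2
    _ = _ := by ring

end Pool.Agent.H.MP_3b0279_pr
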