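import Pool.Agent.H.MP_3b0279_pr.RepAvg

/-!
Tail and mean of the total length of kernel paths.
-/

set_option autoImplicit false

namespace Pool.Agent.H.MP_3b0279_pr

open Finset

variable {V : Type} [Fintype V] [DecidableEq V] {m : ℕ}

/-- weight of total length `k` -/
noncomputable def Zk (d : V → ℕ) (κ : Slot m → V) (k : ℕ) : ℝ :=
  (nvec (LValid κ) k (fun _ => True) : ℝ) * (Wk (KB κ)ᶜ (fun v => d v - 1) (KR d κ) k : ℝ)

lemma Zk_nonneg (d : V → ℕ) (κ : Slot m → V) (k : ℕ) : 0 ≤ Zk d κ k := by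
  unfold Zk; positivity

lemma vhyp (κ : Slot m → V) : VHyp (LValid κ) :=
  ⟨fun ℓ ℓ' h hv => lvalid_up κ ℓ ℓ' h hv, fun ℓ ℓ' h hv => lvalid_congr κ ℓ ℓ' h hv⟩

lemma KB_eq (ρ : Rep V m) : KB ρ.κ = ρ.B := rfl

/-- `m + 1 = s + |B|` -/
lemma m_eq (d : V → ℕ) (A : Finset V) (ρ : Rep V m) (h : IsRep d A ρ) (s : ℕ)
    (hs : ∑ v, d v + 2 = 2 * Fintype.card V + 2 * s) : m + 1 = s + ρ.B.card := by
  have := h.m_formula
  omega

theorem core_tail (ε : ℝ) (hε : 0 < ε) :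
    ∃ C : ℝ, ∃ m₀ : ℕ, 1 ≤ C ∧ ∀ (V : Type) [Fintype V] [DecidableEq V] (d : V → ℕ)
      (A : Finset V) (m s : ℕ) (ρ₀ : Rep V m), IsRep d A ρ₀ →
      ((univ.filter (fun v => d v = 2)).card : ℝ) ≤ (1 - ε) * Fintype.card V →
      ∑ v, d v + 2 = 2 * Fintype.card V + 2 * s → 1 ≤ s → m₀ ≤ m → ∀ L : ℝ, 1 ≤ L →
      Real.sqrt ((Fintype.card V : ℝ) / m) ≤ L →
      ∑ k ∈ (range (Fintype.card V + 1)).filter (fun k : ℕ => C * L * m < (k : ℝ)),
          (k : ℝ) * Zk d ρ₀.κ k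
        ≤ L * ∑ k ∈ range (Fintype.card V + 1), Zk d ρ₀.κ k := by
  obtain ⟨C, c₂, m₀, hC, hc₂, H⟩ := core_size ε hε
  refine ⟨max 1 (max C (1 / c₂)), max m₀ 1, le_max_left _ _, ?_⟩
  intro V _ _ d A m s ρ₀ h₀ hε2 hs hs1 hm₀ L hL1 hL
  set n := Fintype.card V with hn
  set C' := max 1 (max C (1 / c₂)) with hC'
  have hm1 : 1 ≤ m := le_trans (le_max_right _ _) hm₀
  have hmpos : (0 : ℝ) < m := by exact_mod_cast hm1
  have hsum0 : 0 ≤ ∑ k ∈ range (n + 1), Zk d ρ₀.κ k :=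
    Finset.sum_nonneg (fun k _ => Zk_nonneg d ρ₀.κ k)
  have hmB := m_eq d A ρ₀ h₀ s hs
  by_cases hcase : (m : ℝ) ≤ c₂ * n
  · have hcard : ((KB ρ₀.κ)ᶜ : Finset V).card = n - ρ₀.B.card := by
      rw [Finset.card_compl, KB_eq]
    have hBn : ρ₀.B.card ≤ n := Finset.card_le_univ _
    have h1 := H V n m (KB ρ₀.κ)ᶜ (fun v => d v - 1) (KR d ρ₀.κ)
      (fun k => nvec (LValid ρ₀.κ) k (fun _ => True))
      (le_trans (le_max_left _ _) hm₀) hcase (by omega) (by omega)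
      (KR_formula d A ρ₀ h₀) ?_ ?_
    · have h2 : ∑ k ∈ (range (n + 1)).filter (fun k : ℕ => C' * L * m < (k : ℝ)),
          (k : ℝ) * Zk d ρ₀.κ k
          ≤ ∑ k ∈ (range (n + 1)).filter (fun k : ℕ => C * Real.sqrt (n * m) < (k : ℝ)),
          (k : ℝ) * Zk d ρ₀.κ k := by
        apply Finset.sum_le_sum_of_subset_of_nonneg
        · intro k hk
          rw [Finset.mem_filter] at hk ⊢
          refine ⟨hk.1, lt_of_le_of_lt ?_ hk.2⟩
          have h3 : Real.sqrt (n * m) = Real.sqrt ((n : ℝ) / m) * m := by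
            have : (n : ℝ) * m = (n : ℝ) / m * m ^ 2 := by field_simp
            rw [this, Real.sqrt_mul (by positivity), Real.sqrt_sq hmpos.le]
          rw [h3]
          have hCC : C ≤ C' := le_trans (le_max_left _ _) (le_max_right _ _)
          calc C * (Real.sqrt ((n : ℝ) / m) * m) ≤ C' * (L * m) := by
                apply mul_le_mul hCC _ (by positivity) (by positivity)
                exact mul_le_mul_of_nonneg_right hL hmpos.le
            _ = C' * L * m := by ring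
        · intro k _ _
          exact mul_nonneg (Nat.cast_nonneg _) (Zk_nonneg d ρ₀.κ k)
      refine h2.trans (h1.trans ?_)
      exact mul_le_mul_of_nonneg_right hL hsum0
    · refine le_trans ?_ hε2
      have : ((KB ρ₀.κ)ᶜ.filter (fun x => d x - 1 = 1)).card
          ≤ (univ.filter (fun v => d v = 2)).card := by
        apply Finset.card_le_card
        intro x hx
        rw [Finset.mem_filter] at hx ⊢
        exact ⟨Finset.mem_univ _, by omega⟩
      exact_mod_cast this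
    · intro k
      exact nvec_step (LValid ρ₀.κ) (vhyp ρ₀.κ) k
  · push Not at hcase
    have hemp : (range (n + 1)).filter (fun k : ℕ => C' * L * m < (k : ℝ)) = ∅ := by
      rw [Finset.filter_eq_empty_iff]
      intro k hk
      rw [Finset.mem_range] at hk
      push Not
      have h1 : (k : ℝ) ≤ n := by exact_mod_cast Nat.lt_succ_iff.1 hk
      have h2 : (n : ℝ) ≤ 1 / c₂ * m := by
        rw [one_div, ← div_eq_inv_mul, le_div_iff₀ hc₂]
        linarith
      have hCC : 1 / c₂ ≤ C' := le_trans (le_max_right _ _) (le_max_right _ _)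
      have hC'0 : 0 < C' := lt_of_lt_of_le one_pos (le_max_left _ _)
      calc (k : ℝ) ≤ 1 / c₂ * m := h1.trans h2
        _ ≤ C' * m := mul_le_mul_of_nonneg_right hCC hmpos.le
        _ ≤ C' * L * m := by
          apply mul_le_mul_of_nonneg_right _ hmpos.le
          nlinarith
    rw [hemp, Finset.sum_empty]
    positivity

open Classical in
/-- number of representations with a given kernel -/
lemma fiber_card (d : V → ℕ) (A : Finset V) (ρ₀ : Rep V m) (h₀ : IsRep d A ρ₀) :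
    (KD d ρ₀.κ : ℝ) * ((univ.filter (fun ρ : Rep V m => IsRep d A ρ ∧ ρ.κ = ρ₀.κ)).card : ℝ)
      = ∑ k ∈ range (Fintype.card V + 1), Zk d ρ₀.κ k := by
  have h := rep_sum d A ρ₀ h₀ (fun _ => 1)
  simp only [Finset.sum_const, nsmul_eq_mul, mul_one] at h
  rw [h]
  apply Finset.sum_congr rfl
  intro k _
  unfold Zk nvec
  simp only [and_true]
  rw [mul_comm]

lemma KD_pos (d : V → ℕ) (κ : Slot m → V) : (0 : ℝ) < KD d κ := by
  unfold KD
  exact_mod_cast Finset.prod_pos (fun v _ => Nat.factorial_pos _)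

open Classical in
/-- main averaging tool: if for each `k` the sum over length vectors is at most `φ k` times
the number, then the same holds with weights -/
lemma kappa_sum_le (d : V → ℕ) (A : Finset V) (ρ₀ : Rep V m) (h₀ : IsRep d A ρ₀)
    (g : (Fin m → ℕ) → ℝ) (φ : ℕ → ℝ)
    (h : ∀ k ∈ range (Fintype.card V + 1),
      ∑ ℓ ∈ (Finset.piAntidiag (univ : Finset (Fin m)) k).filter (LValid ρ₀.κ), g ℓ
        ≤ φ k * nvec (LValid ρ₀.κ) k (fun _ => True)) :
    (KD d ρ₀.κ : ℝ) *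
        ∑ ρ ∈ univ.filter (fun ρ : Rep V m => IsRep d A ρ ∧ ρ.κ = ρ₀.κ), g ρ.len
      ≤ ∑ k ∈ range (Fintype.card V + 1), φ k * Zk d ρ₀.κ k := by
  rw [rep_sum d A ρ₀ h₀ g]
  apply Finset.sum_le_sum
  intro k hk
  calc (Wk (KB ρ₀.κ)ᶜ (fun v => d v - 1) (KR d ρ₀.κ) k : ℝ) *
      ∑ ℓ ∈ (Finset.piAntidiag (univ : Finset (Fin m)) k).filter (LValid ρ₀.κ), g ℓ
      ≤ (Wk (KB ρ₀.κ)ᶜ (fun v => d v - 1) (KR d ρ₀.κ) k : ℝ) *
        (φ k * nvec (LValid ρ₀.κ) k (fun _ => True)) :=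
        mul_le_mul_of_nonneg_left (h k hk) (Nat.cast_nonneg _)
    _ = φ k * Zk d ρ₀.κ k := by unfold Zk; ring

/-- linear functions of `k` -/
lemma tail_sum_le (d : V → ℕ) (κ : Slot m → V) (N : ℕ) (T a b L : ℝ) (hb : 0 ≤ b)
    (φ : ℕ → ℝ)
    (h1 : ∀ k : ℕ, (k : ℝ) ≤ T → φ k ≤ a) (ha : 0 ≤ a)
    (h2 : ∀ k : ℕ, T < (k : ℝ) → φ k ≤ a + b * k)
    (ht : ∑ k ∈ (range N).filter (fun k : ℕ => T < (k : ℝ)), (k : ℝ) * Zk d κ k
      ≤ L * ∑ k ∈ range N, Zk d κ k) :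
    ∑ k ∈ range N, φ k * Zk d κ k ≤ (a + b * L) * ∑ k ∈ range N, Zk d κ k := by
  have h3 : ∀ k ∈ range N, φ k * Zk d κ k
      ≤ a * Zk d κ k + (if T < (k : ℝ) then b * (k * Zk d κ k) else 0) := by
    intro k _
    have hz := Zk_nonneg d κ k
    by_cases hk : T < (k : ℝ)
    · rw [if_pos hk]
      have := mul_le_mul_of_nonneg_right (h2 k hk) hz
      nlinarith
    · rw [if_neg hk, add_zero]
      exact mul_le_mul_of_nonneg_right (h1 k (not_lt.1 hk)) hz
  refine (Finset.sum_le_sum h3).trans ?_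
  rw [Finset.sum_add_distrib, ← Finset.mul_sum, ← Finset.sum_filter, ← Finset.mul_sum]
  have := mul_le_mul_of_nonneg_left ht hb
  linarith

end Pool.Agent.H.MP_3b0279_pr
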