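import Pool.Agent.H.MP_3b0279_pr.Defs

set_option autoImplicit false
set_option linter.unusedSectionVars false

namespace Pool.Agent.H.MP_3b0279_pr

open Finset

section forest

variable {V : Type} [Fintype V] [DecidableEq V]

/-- the forests hanging off `In` with prescribed numbers of children -/
def IsFor (In : Finset V) (r : V → ℕ) (f : V → V) : Prop :=
  (∀ v ∈ In, f v = v) ∧ (∀ v, ∃ t : ℕ, f^[t] v ∈ In) ∧
        (∀ v, (univ.filter (fun u => u ∉ In ∧ f u = v)).card = r v)

open Classical in
/-- the finset of all these forests -/
noncomputable def forSet (In : Finset V) (r : V → ℕ) : Finset (V → V) :=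
  univ.filter (IsFor In r)

open Classical in
theorem mem_forSet {In : Finset V} {r : V → ℕ} {f : V → V} :
    f ∈ forSet In r ↔ IsFor In r f := by
  rw [forSet, Finset.mem_filter]
  exact ⟨fun h => h.2, fun h => ⟨Finset.mem_univ _, h⟩⟩

theorem for_detach {In : Finset V} {r : V → ℕ} {u p : V} (hu : u ∉ In) (hup : p ≠ u)
    {f : V → V} (hf : IsFor In r f) (hfu : f u = p) :
    IsFor (insert u In) (Function.update r p (r p - 1)) (Function.update f u u) := by
  obtain ⟨h1, h2, h3⟩ := hf
  refine ⟨?_, ?_, ?_⟩
  · intro v hv
    by_cases hvu : v = u
    · subst hvu; simp
    · rw [Function.update_of_ne hvu]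
      rw [Finset.mem_insert] at hv
      exact h1 v (hv.resolve_left hvu)
  · intro v
    obtain ⟨t, ht⟩ := h2 v
    induction t generalizing v with
    | zero => exact ⟨0, Finset.mem_insert_of_mem ht⟩
    | succ t ih =>
      by_cases hvu : v = u
      · exact ⟨0, by simp [hvu]⟩
      · rw [Function.iterate_succ_apply] at ht
        obtain ⟨s, hs⟩ := ih (f v) ht
        refine ⟨s + 1, ?_⟩
        rw [Function.iterate_succ_apply, Function.update_of_ne hvu]
        exact hs
  · intro v
    have hset : (univ.filter (fun w => w ∉ insert u In ∧ Function.update f u u w = v)) =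
        (univ.filter (fun w => w ∉ In ∧ f w = v)).erase u := by
      ext w
      simp only [Finset.mem_filter, Finset.mem_univ, true_and, Finset.mem_erase,
        Finset.mem_insert, not_or]
      by_cases hwu : w = u
      · simp [hwu]
      · rw [Function.update_of_ne hwu]
        tauto
    rw [hset]
    by_cases hvp : v = p
    · rw [hvp, Function.update_self, Finset.card_erase_of_mem (by simp [hu, hfu]), h3]
    · rw [Function.update_of_ne hvp, Finset.erase_eq_of_notMem, h3]
      simp only [Finset.mem_filter, not_and]
      intro _ _ h
      exact hvp (by rw [← h, hfu])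

theorem for_attach {In : Finset V} {r : V → ℕ} {u p : V} (hu : u ∉ In) (hup : p ≠ u)
    (hru : r u = 0) (hrp : 1 ≤ r p) {f : V → V}
    (hf : IsFor (insert u In) (Function.update r p (r p - 1)) f) :
    IsFor In r (Function.update f u p) := by
  obtain ⟨h1, h2, h3⟩ := hf
  have hne : ∀ w, w ≠ u → f w ≠ u := by
    intro w hw
    by_cases hwI : w ∈ insert u In
    · rw [h1 w hwI]; exact hw
    · have h4 := h3 u
      rw [Function.update_of_ne hup.symm, hru, Finset.card_eq_zero] at h4
      intro h
      have : w ∈ univ.filter (fun w => w ∉ insert u In ∧ f w = u) := by simp [h]; simpa using hwI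
      rw [h4] at this
      simp at this
  have hit : ∀ t w, w ≠ u → f^[t] w ≠ u ∧ (Function.update f u p)^[t] w = f^[t] w := by
    intro t
    induction t with
    | zero => intro w hw; exact ⟨hw, rfl⟩
    | succ t ih =>
      intro w hw
      obtain ⟨h5, h6⟩ := ih (f w) (hne w hw)
      refine ⟨by rw [Function.iterate_succ_apply]; exact h5, ?_⟩
      rw [Function.iterate_succ_apply, Function.iterate_succ_apply, Function.update_of_ne hw, h6]
  have hreach : ∀ v, v ≠ u → ∃ t, (Function.update f u p)^[t] v ∈ In := by
    intro v hv
    obtain ⟨t, ht⟩ := h2 v
    obtain ⟨h5, h6⟩ := hit t v hv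
    refine ⟨t, ?_⟩
    rw [h6]
    exact (Finset.mem_insert.1 ht).resolve_left h5
  refine ⟨?_, ?_, ?_⟩
  · intro v hv
    have hvu : v ≠ u := fun h => hu (h ▸ hv)
    rw [Function.update_of_ne hvu]
    exact h1 v (Finset.mem_insert_of_mem hv)
  · intro v
    by_cases hvu : v = u
    · obtain ⟨t, ht⟩ := hreach p hup
      refine ⟨t + 1, ?_⟩
      rw [Function.iterate_succ_apply, hvu, Function.update_self]
      exact ht
    · exact hreach v hvu
  · intro v
    by_cases hvp : v = p
    · have hset : (univ.filter (fun w => w ∉ In ∧ Function.update f u p w = v)) =
          insert u (univ.filter (fun w => w ∉ insert u In ∧ f w = v)) := by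
        ext w
        simp only [Finset.mem_filter, Finset.mem_univ, true_and, Finset.mem_insert, not_or]
        by_cases hwu : w = u
        · simp [hwu, hu, hvp]
        · rw [Function.update_of_ne hwu]
          tauto
      rw [hset, Finset.card_insert_of_notMem (by simp), h3, hvp, Function.update_self]
      omega
    · have hset : (univ.filter (fun w => w ∉ In ∧ Function.update f u p w = v)) =
          (univ.filter (fun w => w ∉ insert u In ∧ f w = v)) := by
        ext w
        simp only [Finset.mem_filter, Finset.mem_univ, true_and, Finset.mem_insert, not_or]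
        by_cases hwu : w = u
        · simp [hwu, Ne.symm hvp]
        · rw [Function.update_of_ne hwu]
          tauto
      rw [hset, h3, Function.update_of_ne hvp]

/-- the number of forests in which the parent of the leaf `u` is `p` -/
theorem for_fiber {In : Finset V} {r : V → ℕ} {u : V} (hu : u ∉ In) (hru : r u = 0) (p : V) :
    ((forSet In r).filter (fun f => f u = p)).card * ∏ v, (r v).factorial =
      r p * ((forSet (insert u In) (Function.update r p (r p - 1))).card *
        ∏ v, (Function.update r p (r p - 1) v).factorial) := by
  rcases Nat.eq_zero_or_pos (r p) with hrp | hrp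
  · rw [hrp, zero_mul]
    have : (forSet In r).filter (fun f => f u = p) = ∅ := by
      rw [Finset.filter_eq_empty_iff]
      intro f hf hfu
      have h3 := (mem_forSet.1 hf).2.2 p
      rw [hrp, Finset.card_eq_zero] at h3
      have : u ∈ univ.filter (fun w => w ∉ In ∧ f w = p) := by simp [hu, hfu]
      rw [h3] at this
      simp at this
    rw [this]
    simp
  · have hup : p ≠ u := by
      intro h
      rw [h, hru] at hrp
      exact lt_irrefl _ hrp
    have hcard : ((forSet In r).filter (fun f => f u = p)).card =
        (forSet (insert u In) (Function.update r p (r p - 1))).card := by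
      refine Finset.card_nbij' (fun f => Function.update f u u) (fun f => Function.update f u p)
        ?_ ?_ ?_ ?_
      · intro f hf
        rw [Finset.mem_coe, Finset.mem_filter] at hf
        exact Finset.mem_coe.2 (mem_forSet.2 (for_detach hu hup (mem_forSet.1 hf.1) hf.2))
      · intro f hf
        rw [Finset.mem_coe] at hf
        rw [Finset.mem_coe, Finset.mem_filter]
        exact ⟨mem_forSet.2 (for_attach hu hup hru hrp (mem_forSet.1 hf)), by simp⟩
      · intro f hf
        rw [Finset.mem_coe, Finset.mem_filter] at hf
        simp only [Function.update_idem]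
        rw [← hf.2, Function.update_eq_self]
      · intro f hf
        rw [Finset.mem_coe] at hf
        simp only [Function.update_idem]
        have h1 := (mem_forSet.1 hf).1 u (Finset.mem_insert_self _ _)
        nth_rewrite 2 [← h1]
        rw [Function.update_eq_self]
    have hprod : ∏ v, (r v).factorial =
        r p * ∏ v, (Function.update r p (r p - 1) v).factorial := by
      rw [← Finset.mul_prod_erase univ _ (Finset.mem_univ p),
        ← Finset.mul_prod_erase univ (fun v => (Function.update r p (r p - 1) v).factorial)
          (Finset.mem_univ p), Function.update_self, ← mul_assoc,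
        Nat.mul_factorial_pred (by omega)]
      congr 1
      refine Finset.prod_congr rfl fun v hv => ?_
      rw [Function.update_of_ne (Finset.ne_of_mem_erase hv)]
    rw [hcard, hprod]
    ring

/-- the counting formula by induction on the number of vertices outside `In` -/
theorem for_main (n : ℕ) : ∀ (In : Finset V) (r : V → ℕ), (Inᶜ : Finset V).card = n →
    ∑ v, r v = n → (forSet In r).card * ∏ v, (r v).factorial =
      if n = 0 then 1 else (n - 1).factorial * ∑ v ∈ In, r v := by
  induction n with
  | zero =>
    intro In r hc hr
    have hIn : In = univ := by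
      rw [Finset.card_eq_zero, Finset.compl_eq_empty_iff] at hc
      exact hc
    have hr0 : ∀ v, r v = 0 := by
      intro v
      exact (Finset.sum_eq_zero_iff.1 hr) v (Finset.mem_univ v)
    have h1 : forSet In r = {id} := by
      ext f
      rw [mem_forSet, Finset.mem_singleton]
      constructor
      · intro h
        funext v
        exact h.1 v (by rw [hIn]; exact Finset.mem_univ v)
      · rintro rfl
        refine ⟨fun v _ => rfl, fun v => ⟨0, by rw [hIn]; exact Finset.mem_univ _⟩, fun v => ?_⟩
        rw [hr0, Finset.card_eq_zero, Finset.filter_eq_empty_iff]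
        intro w _
        rw [hIn]
        simp
    rw [h1]
    simp [hr0]
  | succ n ih =>
    intro In r hc hr
    rw [if_neg (Nat.succ_ne_zero n), Nat.add_sub_cancel]
    have hsplit : ∑ v ∈ In, r v + ∑ v ∈ Inᶜ, r v = n + 1 := by
      rw [Finset.sum_add_sum_compl, hr]
    by_cases hall : ∀ u, u ∉ In → 1 ≤ r u
    · have hge : n + 1 ≤ ∑ v ∈ Inᶜ, r v := by
        rw [← hc, Finset.card_eq_sum_ones]
        exact Finset.sum_le_sum fun v hv => hall v (by simpa using hv)
      have hR : ∑ v ∈ In, r v = 0 := by omega
      rw [hR, mul_zero]
      have hempty : forSet In r = ∅ := by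
        rw [Finset.eq_empty_iff_forall_notMem]
        intro f hf
        obtain ⟨h1, h2, h3⟩ := mem_forSet.1 hf
        obtain ⟨v, hv⟩ : (Inᶜ : Finset V).Nonempty := by
          rw [← Finset.card_pos]; omega
        have hvIn : v ∉ In := by simpa using hv
        obtain ⟨t, ht⟩ := h2 v
        have key : ∀ t v, v ∉ In → f^[t] v ∈ In → ∃ w, w ∉ In ∧ f w ∈ In := by
          intro t
          induction t with
          | zero => intro v hv ht; exact absurd ht hv
          | succ t ih =>
            intro v hv ht
            by_cases hfv : f v ∈ In
            · exact ⟨v, hv, hfv⟩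
            · rw [Function.iterate_succ_apply] at ht
              exact ih (f v) hfv ht
        obtain ⟨w, hw, hfw⟩ := key t v hvIn ht
        have h4 := h3 (f w)
        rw [(Finset.sum_eq_zero_iff.1 hR) (f w) hfw, Finset.card_eq_zero] at h4
        have : w ∈ univ.filter (fun u => u ∉ In ∧ f u = f w) := by simp [hw]
        rw [h4] at this
        simp at this
      rw [hempty]
      simp
    · push Not at hall
      obtain ⟨u, hu, hru⟩ := hall
      replace hru : r u = 0 := by omega
      have hsum : (forSet In r).card =
          ∑ p, ((forSet In r).filter (fun f => f u = p)).card :=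
        Finset.card_eq_sum_card_fiberwise (fun f _ => Finset.mem_coe.2 (Finset.mem_univ (f u)))
      have hcard' : ((insert u In)ᶜ : Finset V).card = n := by
        rw [Finset.card_compl] at hc ⊢
        rw [Finset.card_insert_of_notMem hu]
        omega
      have hterm : ∀ p, ((forSet In r).filter (fun f => f u = p)).card * ∏ v, (r v).factorial =
          r p * (if n = 0 then 1 else
            (n - 1).factorial * ((∑ v ∈ In, r v) - if p ∈ In then 1 else 0)) := by
        intro p
        rw [for_fiber hu hru p]
        rcases Nat.eq_zero_or_pos (r p) with hrp | hrp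
        · rw [hrp]; simp
        · have hup : p ≠ u := by
            intro h
            rw [h, hru] at hrp
            exact lt_irrefl _ hrp
          congr 1
          have hsumr : ∑ v, Function.update r p (r p - 1) v = n := by
            have h1 : ∑ v, r v = ∑ v, Function.update r p (r p - 1) v + 1 := by
              rw [← Finset.add_sum_erase univ _ (Finset.mem_univ p),
                ← Finset.add_sum_erase univ (fun v => Function.update r p (r p - 1) v)
                  (Finset.mem_univ p), Function.update_self]
              have : ∑ x ∈ univ.erase p, Function.update r p (r p - 1) x =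
                  ∑ x ∈ univ.erase p, r x := by
                refine Finset.sum_congr rfl fun v hv => ?_
                rw [Function.update_of_ne (Finset.ne_of_mem_erase hv)]
              rw [this]
              omega
            omega
          rw [ih (insert u In) (Function.update r p (r p - 1)) hcard' hsumr]
          congr 2
          rw [Finset.sum_insert hu, Function.update_of_ne hup.symm, hru, zero_add]
          by_cases hpI : p ∈ In
          · rw [if_pos hpI, ← Finset.add_sum_erase In r hpI,
              ← Finset.add_sum_erase In (fun v => Function.update r p (r p - 1) v) hpI,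
              Function.update_self]
            have : ∑ x ∈ In.erase p, Function.update r p (r p - 1) x =
                ∑ x ∈ In.erase p, r x := by
              refine Finset.sum_congr rfl fun v hv => ?_
              rw [Function.update_of_ne (Finset.ne_of_mem_erase hv)]
            rw [this]
            omega
          · rw [if_neg hpI, Nat.sub_zero]
            refine Finset.sum_congr rfl fun v hv => ?_
            have hvp : v ≠ p := fun h => hpI (by rw [← h]; exact hv)
            rw [Function.update_of_ne hvp]
      rw [hsum, Finset.sum_mul, Finset.sum_congr rfl fun p _ => hterm p]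
      rcases Nat.eq_zero_or_pos n with hn | hn
      · subst hn
        simp only [if_true, mul_one, hr]
        have h1 : ∑ v ∈ Inᶜ, r v = 0 := by
          have h2 : (Inᶜ : Finset V) = {u} := by
            rw [Finset.card_eq_one] at hc
            obtain ⟨a, ha⟩ := hc
            have : u ∈ (Inᶜ : Finset V) := by simpa using hu
            rw [ha, Finset.mem_singleton] at this
            rw [ha, this]
          rw [h2, Finset.sum_singleton, hru]
        rw [h1] at hsplit
        simp
        omega
      · obtain ⟨k, rfl⟩ : ∃ k, n = k + 1 := ⟨n - 1, by omega⟩
        simp only [Nat.add_eq_zero_iff, one_ne_zero, and_false, if_false, Nat.add_sub_cancel]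
        set R := ∑ v ∈ In, r v with hRdef
        have h1 : ∑ p, r p * (k.factorial * (R - if p ∈ In then 1 else 0)) + k.factorial * R =
            k.factorial * ((k + 2) * R) := by
          have h2 : ∀ p, r p * (k.factorial * (R - if p ∈ In then 1 else 0)) +
              k.factorial * (if p ∈ In then r p else 0) = k.factorial * (r p * R) := by
            intro p
            by_cases hpI : p ∈ In
            · rw [if_pos hpI, if_pos hpI]
              have hle : r p ≤ R := Finset.single_le_sum (fun v _ => Nat.zero_le (r v)) hpI
              rcases Nat.eq_zero_or_pos (r p) with hrp | hrp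
              · simp [hrp]
              · obtain ⟨R', hR'⟩ : ∃ R', R = R' + 1 := ⟨R - 1, by omega⟩
                rw [hR', Nat.add_sub_cancel]
                ring
            · rw [if_neg hpI, if_neg hpI, Nat.sub_zero]
              ring
          have h3 : ∑ p, k.factorial * (if p ∈ In then r p else 0) = k.factorial * R := by
            rw [← Finset.mul_sum, Finset.sum_ite_mem, Finset.univ_inter]
          rw [← h3, ← Finset.sum_add_distrib, Finset.sum_congr rfl fun p _ => h2 p,
            ← Finset.mul_sum, ← Finset.sum_mul, hr]
        have h4 : (k + 1).factorial * R + k.factorial * R = k.factorial * ((k + 2) * R) := by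
          rw [Nat.factorial_succ]
          ring
        omega

end forest

/-- number of forests hanging off the set `In`, with prescribed numbers of children -/
theorem forest_count {V : Type} [Fintype V] [DecidableEq V] (In : Finset V) (r : V → ℕ)
    (h : ∑ v, r v = (Inᶜ : Finset V).card) :
    Nat.card {f : V → V // (∀ v ∈ In, f v = v) ∧ (∀ v, ∃ t : ℕ, f^[t] v ∈ In) ∧
        (∀ v, (univ.filter (fun u => u ∉ In ∧ f u = v)).card = r v)} * ∏ v, (r v).factorial
      = if (Inᶜ : Finset V).card = 0 then 1
        else ((Inᶜ : Finset V).card - 1).factorial * ∑ v ∈ In, r v := by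
  classical
  rw [← for_main _ In r rfl h, Nat.card_eq_fintype_card, Fintype.card_subtype]
  congr 2
  ext f
  rw [Finset.mem_filter, mem_forSet]
  exact ⟨fun h => h.2, fun h => ⟨Finset.mem_univ _, h⟩⟩

end Pool.Agent.H.MP_3b0279_pr
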