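import Pool.Agent.H.MP_3b0279_pr.EvGraph
import Pool.Agent.H.MP_3b0279_pr.Forest
import Pool.Agent.H.MP_3b0279_pr.CoreSize

/-!
Number of representations with given kernel and lengths.
-/

set_option autoImplicit false

namespace Pool.Agent.H.MP_3b0279_pr

open Finset

variable {V : Type} [Fintype V] [DecidableEq V] {m : ℕ}

/-- branch vertices of a kernel -/
def KB (κ : Slot m → V) : Finset V := univ.filter (fun v => ∃ σ, κ σ = v)

/-- child-slots at branch vertices -/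
def KR (d : V → ℕ) (κ : Slot m → V) : ℕ := ∑ v ∈ KB κ, (d v - kdeg κ v)

/-- the constant factor -/
def KD (d : V → ℕ) (κ : Slot m → V) : ℕ := ∏ v, (d v - max 1 (kdeg κ v)).factorial

namespace CountLf

theorem mem_KB (κ : Slot m → V) (v : V) : v ∈ KB κ ↔ ∃ σ, κ σ = v := by
  simp [KB]

theorem kdeg_pos (κ : Slot m → V) (v : V) (hv : v ∈ KB κ) : 1 ≤ kdeg κ v := by
  obtain ⟨σ, hσ⟩ := (mem_KB κ v).1 hv
  unfold kdeg
  exact Finset.card_pos.2 ⟨σ, by simp [hσ]⟩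

theorem kdeg_zero (κ : Slot m → V) (v : V) (hv : v ∉ KB κ) : kdeg κ v = 0 := by
  unfold kdeg
  rw [Finset.card_eq_zero, Finset.filter_eq_empty_iff]
  intro σ _ h
  exact hv ((mem_KB κ v).2 ⟨σ, h⟩)

theorem sum_kdeg (κ : Slot m → V) : ∑ v ∈ KB κ, kdeg κ v = 2 * m := by
  have h1 : ∑ v ∈ KB κ, kdeg κ v = (univ : Finset (Slot m)).card := by
    unfold kdeg
    exact (Finset.card_eq_sum_card_fiberwise (f := κ) (s := univ) (t := KB κ)
      (fun σ _ => (mem_KB κ _).2 ⟨σ, rfl⟩)).symm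
  rw [h1, Finset.card_univ, Fintype.card_prod, Fintype.card_fin, Fintype.card_bool]
  ring

theorem kdeg_le {d : V → ℕ} {A : Finset V} {ρ₀ : Rep V m} (h₀ : IsRep d A ρ₀) (v : V)
    (hv : v ∈ KB ρ₀.κ) : kdeg ρ₀.κ v ≤ d v := by
  have hd := h₀.deg v
  have hB : v ∈ ρ₀.B := hv
  have hP : v ∉ ρ₀.P := fun hP => (Finset.disjoint_left.1 h₀.disj_BP) hB hP
  have ht : ρ₀.tdeg v = kdeg ρ₀.κ v := by
    unfold Rep.tdeg
    rw [if_neg hP, if_pos hB]
  omega

theorem one_le_d {d : V → ℕ} {A : Finset V} {ρ₀ : Rep V m} (h₀ : IsRep d A ρ₀) (v : V) :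
    1 ≤ d v := by
  have hd := h₀.deg v
  have ht : 1 ≤ ρ₀.tdeg v := by
    unfold Rep.tdeg
    split_ifs with h1 h2
    · omega
    · exact kdeg_pos _ _ h2
    · omega
  omega

end CountLf

open CountLf

theorem KR_formula (d : V → ℕ) (A : Finset V) (ρ₀ : Rep V m) (h₀ : IsRep d A ρ₀) :
    KR d ρ₀.κ + ∑ x ∈ (KB ρ₀.κ)ᶜ, (d x - 1) = ((KB ρ₀.κ)ᶜ : Finset V).card := by
  have hm := h₀.m_formula
  have hB : ρ₀.B = KB ρ₀.κ := rfl
  rw [hB] at hm
  have h1 : KR d ρ₀.κ + 2 * m = ∑ v ∈ KB ρ₀.κ, d v := by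
    unfold KR
    rw [← sum_kdeg ρ₀.κ, ← Finset.sum_add_distrib]
    refine Finset.sum_congr rfl fun v hv => ?_
    have := kdeg_le h₀ v hv
    omega
  have h2 : ∑ x ∈ (KB ρ₀.κ)ᶜ, (d x - 1) + ((KB ρ₀.κ)ᶜ : Finset V).card
      = ∑ x ∈ (KB ρ₀.κ)ᶜ, d x := by
    rw [Finset.card_eq_sum_ones, ← Finset.sum_add_distrib]
    refine Finset.sum_congr rfl fun v _ => ?_
    have := one_le_d h₀ v
    omega
  have h3 : ∑ v ∈ KB ρ₀.κ, d v + ∑ x ∈ (KB ρ₀.κ)ᶜ, d x = ∑ v, d v :=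
    Finset.sum_add_sum_compl _ _
  have h4 := Finset.card_add_card_compl (KB ρ₀.κ)
  omega

namespace CountLf

/-- degree inside the core part, as a function of the set of inner vertices -/
def td (κ : Slot m → V) (P : Finset V) (v : V) : ℕ :=
  if v ∈ P then 2 else if v ∈ KB κ then kdeg κ v else 1

/-- the conditions on the parent map -/
def FG (d : V → ℕ) (κ : Slot m → V) (P : Finset V) (f : V → V) : Prop :=
  (∀ v ∈ KB κ ∪ P, f v = v) ∧ (∀ v, ∃ t : ℕ, f^[t] v ∈ KB κ ∪ P) ∧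
    ∀ v, (univ.filter (fun u => u ∉ KB κ ∪ P ∧ f u = v)).card + td κ P v = d v

/-- number of parent maps -/
theorem card_FG {d : V → ℕ} {A : Finset V} {ρ₀ : Rep V m} (h₀ : IsRep d A ρ₀)
    (P : Finset V) (k : ℕ) (hP : P ∈ (KB ρ₀.κ)ᶜ.powersetCard k) :
    Nat.card {f : V → V // FG d ρ₀.κ P f} * KD d ρ₀.κ
      = (∏ v ∈ P, (d v - 1)) *
        gfor (((KB ρ₀.κ)ᶜ : Finset V).card - k) (KR d ρ₀.κ + ∑ v ∈ P, ((d v - 1) - 1)) := by
  obtain ⟨hPU, hPk⟩ := Finset.mem_powersetCard.1 hP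
  have hPB : ∀ v ∈ P, v ∉ KB ρ₀.κ := fun v hv => Finset.mem_compl.1 (hPU hv)
  have hdisj : Disjoint (KB ρ₀.κ) P := Finset.disjoint_left.2 fun v h1 h2 => hPB v h2 h1
  by_cases hex : ∃ v ∈ P, d v < 2
  · obtain ⟨v, hv, hdv⟩ := hex
    have h1 : ∏ v ∈ P, (d v - 1) = 0 := Finset.prod_eq_zero hv (by omega)
    rw [h1, zero_mul]
    have hempty : IsEmpty {f : V → V // FG d ρ₀.κ P f} := by
      refine ⟨fun ⟨f, hf⟩ => ?_⟩
      have := hf.2.2 v
      unfold td at this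
      rw [if_pos hv] at this
      omega
    rw [Nat.card_of_isEmpty, zero_mul]
  · push Not at hex
    have hle : ∀ v, td ρ₀.κ P v ≤ d v := by
      intro v
      unfold td
      split_ifs with h1 h2
      · exact hex v h1
      · exact kdeg_le h₀ v h2
      · exact one_le_d h₀ v
    set r : V → ℕ := fun v => d v - td ρ₀.κ P v with hr
    have hrB : ∀ v ∈ KB ρ₀.κ, r v = d v - kdeg ρ₀.κ v := by
      intro v hv
      have : v ∉ P := fun h => hPB v h hv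
      simp [hr, td, this, hv]
    have hrP : ∀ v ∈ P, r v = d v - 2 := by
      intro v hv
      simp [hr, td, hv]
    have hrU : ∀ v ∈ (KB ρ₀.κ)ᶜ \ P, r v = d v - 1 := by
      intro v hv
      rw [Finset.mem_sdiff, Finset.mem_compl] at hv
      simp [hr, td, hv.1, hv.2]
    have hInc : ((KB ρ₀.κ ∪ P)ᶜ : Finset V) = (KB ρ₀.κ)ᶜ \ P := by
      ext v; simp
    have hcard : ((KB ρ₀.κ ∪ P)ᶜ : Finset V).card = ((KB ρ₀.κ)ᶜ : Finset V).card - k := by
      rw [hInc, Finset.card_sdiff_of_subset hPU, hPk]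
    have hkU : k ≤ ((KB ρ₀.κ)ᶜ : Finset V).card := by
      rw [← hPk]; exact Finset.card_le_card hPU
    have hsplit : ∀ g : V → ℕ, ∑ v, g v =
        ∑ v ∈ KB ρ₀.κ, g v + ∑ v ∈ P, g v + ∑ v ∈ (KB ρ₀.κ)ᶜ \ P, g v := by
      intro g
      rw [← Finset.sum_add_sum_compl (KB ρ₀.κ ∪ P) g, hInc, Finset.sum_union hdisj]
    have hKR := KR_formula d A ρ₀ h₀
    have hsum : ∑ v, r v = ((KB ρ₀.κ ∪ P)ᶜ : Finset V).card := by
      rw [hsplit, hcard]
      have e1 : ∑ v ∈ KB ρ₀.κ, r v = KR d ρ₀.κ := Finset.sum_congr rfl hrB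
      have e2 : ∑ v ∈ P, r v + k = ∑ v ∈ P, (d v - 1) := by
        rw [← hPk, Finset.card_eq_sum_ones, ← Finset.sum_add_distrib]
        refine Finset.sum_congr rfl fun v hv => ?_
        have := hrP v hv
        have := hex v hv
        omega
      have e3 : ∑ v ∈ (KB ρ₀.κ)ᶜ \ P, r v = ∑ v ∈ (KB ρ₀.κ)ᶜ \ P, (d v - 1) :=
        Finset.sum_congr rfl hrU
      have e4 : ∑ v ∈ (KB ρ₀.κ)ᶜ \ P, (d v - 1) + ∑ v ∈ P, (d v - 1)
          = ∑ v ∈ (KB ρ₀.κ)ᶜ, (d v - 1) := Finset.sum_sdiff hPU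
      omega
    have hFC := forest_count (KB ρ₀.κ ∪ P) r hsum
    have hcongr : Nat.card {f : V → V // FG d ρ₀.κ P f} =
        Nat.card {f : V → V // (∀ v ∈ KB ρ₀.κ ∪ P, f v = v) ∧
          (∀ v, ∃ t : ℕ, f^[t] v ∈ KB ρ₀.κ ∪ P) ∧
          (∀ v, (univ.filter (fun u => u ∉ KB ρ₀.κ ∪ P ∧ f u = v)).card = r v)} := by
      refine Nat.card_congr (Equiv.subtypeEquivRight fun f => ?_)
      unfold FG
      refine and_congr Iff.rfl (and_congr Iff.rfl (forall_congr' fun v => ?_))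
      have := hle v
      simp only [hr]
      omega
    have hKD : KD d ρ₀.κ = (∏ v, (r v).factorial) * ∏ v ∈ P, (d v - 1) := by
      have hps : ∀ g : V → ℕ, ∏ v, g v =
          (∏ v ∈ KB ρ₀.κ, g v) * (∏ v ∈ P, g v) * ∏ v ∈ (KB ρ₀.κ)ᶜ \ P, g v := by
        intro g
        rw [← Finset.prod_mul_prod_compl (KB ρ₀.κ ∪ P) g, hInc, Finset.prod_union hdisj]
      unfold KD
      rw [hps, hps (fun v => (r v).factorial)]
      have e1 : ∏ v ∈ KB ρ₀.κ, (d v - max 1 (kdeg ρ₀.κ v)).factorial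
          = ∏ v ∈ KB ρ₀.κ, (r v).factorial := by
        refine Finset.prod_congr rfl fun v hv => ?_
        rw [hrB v hv, max_eq_right (kdeg_pos _ _ hv)]
      have e2 : ∏ v ∈ P, (d v - max 1 (kdeg ρ₀.κ v)).factorial
          = (∏ v ∈ P, (r v).factorial) * ∏ v ∈ P, (d v - 1) := by
        rw [← Finset.prod_mul_distrib]
        refine Finset.prod_congr rfl fun v hv => ?_
        rw [hrP v hv, kdeg_zero _ _ (hPB v hv)]
        have h2 := hex v hv
        obtain ⟨e, he⟩ := Nat.exists_eq_add_of_le h2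
        have a1 : d v - max 1 0 = e + 1 := by simp; omega
        have a2 : d v - 2 = e := by omega
        have a3 : d v - 1 = e + 1 := by omega
        rw [a1, a2, a3, Nat.factorial_succ]
        ring
      have e3 : ∏ v ∈ (KB ρ₀.κ)ᶜ \ P, (d v - max 1 (kdeg ρ₀.κ v)).factorial
          = ∏ v ∈ (KB ρ₀.κ)ᶜ \ P, (r v).factorial := by
        refine Finset.prod_congr rfl fun v hv => ?_
        have hv' := hv
        rw [Finset.mem_sdiff, Finset.mem_compl] at hv'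
        rw [hrU v hv, kdeg_zero _ _ hv'.1]
        simp
      rw [e1, e2, e3]
      ring
    have hIn : ∑ v ∈ KB ρ₀.κ ∪ P, r v = KR d ρ₀.κ + ∑ v ∈ P, ((d v - 1) - 1) := by
      rw [Finset.sum_union hdisj]
      congr 1
      · exact Finset.sum_congr rfl hrB
      · refine Finset.sum_congr rfl fun v hv => ?_
        rw [hrP v hv]; omega
    rw [hcongr, hKD, ← mul_assoc, hFC, hcard, hIn]
    unfold gfor
    ring

end CountLf

namespace CountLf

/-- representation with given kernel and lengths -/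
def mk (κ : Slot m → V) (ℓ : Fin m → ℕ) (hℓ : ∀ i, ℓ i < Fintype.card V + 1)
    (x : ((Σ i, Fin (ℓ i)) → V) × (V → V)) : Rep V m where
  κ := κ
  ℓ := fun i => ⟨ℓ i, hℓ i⟩
  L := fun i j => x.1 ⟨i, j⟩
  f := x.2

/-- good pairs -/
def GP (d : V → ℕ) (κ : Slot m → V) (ℓ : Fin m → ℕ)
    (x : ((Σ i, Fin (ℓ i)) → V) × (V → V)) : Prop :=
  Function.Injective x.1 ∧ (∀ a, x.1 a ∉ KB κ) ∧ FG d κ (univ.image x.1) x.2

theorem mk_P (κ : Slot m → V) (ℓ : Fin m → ℕ) (hℓ : ∀ i, ℓ i < Fintype.card V + 1)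
    (x : ((Σ i, Fin (ℓ i)) → V) × (V → V)) : (mk κ ℓ hℓ x).P = univ.image x.1 := by
  ext v
  rw [Rep.mem_P, Finset.mem_image]
  constructor
  · rintro ⟨i, j, h⟩
    exact ⟨⟨i, j⟩, Finset.mem_univ _, h⟩
  · rintro ⟨⟨i, j⟩, _, h⟩
    exact ⟨i, j, h⟩

theorem isRep_mk {d : V → ℕ} {A : Finset V} {ρ₀ : Rep V m} (h₀ : IsRep d A ρ₀)
    (ℓ : Fin m → ℕ) (hv : LValid ρ₀.κ ℓ) (hℓ : ∀ i, ℓ i < Fintype.card V + 1)
    (x : ((Σ i, Fin (ℓ i)) → V) × (V → V)) :
    IsRep d A (mk ρ₀.κ ℓ hℓ x) ↔ GP d ρ₀.κ ℓ x := by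
  have hP := mk_P ρ₀.κ ℓ hℓ x
  have hB : (mk ρ₀.κ ℓ hℓ x).B = KB ρ₀.κ := rfl
  have hIn : (mk ρ₀.κ ℓ hℓ x).In = KB ρ₀.κ ∪ univ.image x.1 := by
    unfold Rep.In; rw [hP, hB]
  have htd : ∀ v, (mk ρ₀.κ ℓ hℓ x).tdeg v = td ρ₀.κ (univ.image x.1) v := by
    intro v
    unfold Rep.tdeg td
    rw [hP, hB]
    rfl
  have hch : ∀ v, (mk ρ₀.κ ℓ hℓ x).childs v
      = (univ.filter (fun u => u ∉ KB ρ₀.κ ∪ univ.image x.1 ∧ x.2 u = v)).card := by
    intro v
    unfold Rep.childs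
    rw [hIn]
    rfl
  constructor
  · intro h
    refine ⟨?_, ?_, ?_, ?_, ?_⟩
    · rintro ⟨i, j⟩ ⟨i', j'⟩ he
      exact h.inj i j i' j' he
    · rintro ⟨i, j⟩ hmem
      obtain ⟨σ, hσ⟩ := (mem_KB _ _).1 hmem
      exact h.disj i j σ hσ.symm
    · have := h.fix
      rw [hIn] at this
      exact this
    · have := h.acyc
      rw [hIn] at this
      exact this
    · intro v
      rw [← hch, ← htd]
      exact h.deg v
  · rintro ⟨h1, h2, h3, h4, h5⟩
    refine ⟨h₀.good, hv, ?_, ?_, ?_, ?_, ?_⟩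
    · intro i j i' j' he
      exact h1 he
    · intro i j σ he
      exact h2 ⟨i, j⟩ ((mem_KB _ _).2 ⟨σ, he.symm⟩)
    · rw [hIn]; exact h3
    · rw [hIn]; exact h4
    · intro v
      rw [hch, htd]
      exact h5 v

theorem mk_bij {d : V → ℕ} {A : Finset V} {ρ₀ : Rep V m} (h₀ : IsRep d A ρ₀)
    (ℓ : Fin m → ℕ) (hv : LValid ρ₀.κ ℓ) (hℓ : ∀ i, ℓ i < Fintype.card V + 1) :
    Nat.card {ρ : Rep V m // IsRep d A ρ ∧ ρ.κ = ρ₀.κ ∧ ρ.len = ℓ}
      = Nat.card {x : ((Σ i, Fin (ℓ i)) → V) × (V → V) // GP d ρ₀.κ ℓ x} := by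
  symm
  refine Nat.card_eq_of_bijective
    (fun x => ⟨mk ρ₀.κ ℓ hℓ x.1, (isRep_mk h₀ ℓ hv hℓ x.1).2 x.2, rfl, rfl⟩) ⟨?_, ?_⟩
  · rintro ⟨⟨L, f⟩, hx⟩ ⟨⟨L', f'⟩, hx'⟩ he
    have he' := congrArg Subtype.val he
    simp only [mk, Rep.mk.injEq, true_and, heq_eq_eq] at he'
    obtain ⟨e1, e2⟩ := he'
    subst e2
    have : L = L' := by
      funext ⟨i, j⟩
      exact congrFun (congrFun e1 i) j
    subst this
    rfl
  · rintro ⟨⟨κ, ℓ', L, f⟩, hρ, hκ, hlen⟩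
    have e1 : κ = ρ₀.κ := hκ
    subst e1
    have e2 : ℓ' = fun i => (⟨ℓ i, hℓ i⟩ : Fin (Fintype.card V + 1)) := by
      funext i
      apply Fin.ext
      exact congrFun hlen i
    subst e2
    refine ⟨⟨(fun a => L a.1 a.2, f), ?_⟩, rfl⟩
    exact (isRep_mk h₀ ℓ hv hℓ (fun a => L a.1 a.2, f)).1 hρ

omit [Fintype V] in
/-- injections with a prescribed image -/
theorem card_inj {α : Type} [Fintype α] (P : Finset V) (hP : P.card = Fintype.card α) :
    Nat.card {L : α → V // Function.Injective L ∧ univ.image L = P}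
      = (Fintype.card α).factorial := by
  classical
  have e : α ≃ P := Fintype.equivOfCardEq (by rw [Fintype.card_coe, hP])
  rw [← Fintype.card_equiv e, ← Nat.card_eq_fintype_card]
  symm
  refine Nat.card_eq_of_bijective
    (fun e => ⟨fun a => (e a : V), ?_, ?_⟩) ⟨?_, ?_⟩
  · exact Subtype.val_injective.comp e.injective
  · ext v
    simp only [Finset.mem_image, Finset.mem_univ, true_and]
    constructor
    · rintro ⟨a, rfl⟩
      exact (e a).2
    · intro hv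
      exact ⟨e.symm ⟨v, hv⟩, by simp⟩
  · intro e1 e2 h
    have h' := congrArg Subtype.val h
    ext a
    exact congrFun h' a
  · rintro ⟨L, hL, hLP⟩
    have hmem : ∀ a, L a ∈ P := fun a => hLP ▸ Finset.mem_image_of_mem L (Finset.mem_univ a)
    have hbij : Function.Bijective (fun a => (⟨L a, hmem a⟩ : P)) := by
      constructor
      · intro a b hab
        exact hL (congrArg Subtype.val hab)
      · rintro ⟨v, hv⟩
        rw [← hLP, Finset.mem_image] at hv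
        obtain ⟨a, _, ha⟩ := hv
        exact ⟨a, Subtype.ext ha⟩
    exact ⟨Equiv.ofBijective _ hbij, rfl⟩

open Classical in
theorem card_GP (d : V → ℕ) (κ : Slot m → V) (ℓ : Fin m → ℕ) :
    Nat.card {x : ((Σ i, Fin (ℓ i)) → V) × (V → V) // GP d κ ℓ x}
      = ∑ P ∈ (KB κ)ᶜ.powersetCard (∑ i, ℓ i),
          (∑ i, ℓ i).factorial * Nat.card {f : V → V // FG d κ P f} := by
  have hα : Fintype.card (Σ i, Fin (ℓ i)) = ∑ i, ℓ i := by simp
  rw [Nat.card_eq_fintype_card, Fintype.card_subtype]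
  rw [Finset.card_eq_sum_card_fiberwise (f := fun x => univ.image x.1)
    (t := (KB κ)ᶜ.powersetCard (∑ i, ℓ i))]
  · refine Finset.sum_congr rfl fun P hP => ?_
    obtain ⟨hPU, hPk⟩ := Finset.mem_powersetCard.1 hP
    have h1 : (univ.filter (fun x => GP d κ ℓ x)).filter (fun x => univ.image x.1 = P)
        = (univ.filter (fun L : (Σ i, Fin (ℓ i)) → V =>
            Function.Injective L ∧ univ.image L = P)) ×ˢ
          (univ.filter (fun f : V → V => FG d κ P f)) := by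
      ext ⟨L, f⟩
      simp only [Finset.mem_filter, Finset.mem_univ, true_and, Finset.mem_product]
      constructor
      · rintro ⟨⟨a1, a2, a3⟩, a4⟩
        have a3' : FG d κ (univ.image L) f := a3
        rw [a4] at a3'
        exact ⟨⟨a1, a4⟩, a3'⟩
      · rintro ⟨⟨a1, a4⟩, a3⟩
        refine ⟨⟨a1, ?_, ?_⟩, a4⟩
        · intro a ha
          have : L a ∈ P := a4 ▸ Finset.mem_image_of_mem L (Finset.mem_univ a)
          exact (Finset.mem_compl.1 (hPU this)) ha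
        · show FG d κ (univ.image L) f
          rw [a4]; exact a3
    rw [h1, Finset.card_product]
    congr 1
    · have := card_inj (α := Σ i, Fin (ℓ i)) P (by rw [hPk, hα])
      rw [hα, Nat.card_eq_fintype_card, Fintype.card_subtype] at this
      exact this
    · rw [Nat.card_eq_fintype_card, Fintype.card_subtype]
  · rintro ⟨L, f⟩ hx
    rw [Finset.mem_coe, Finset.mem_filter] at hx
    obtain ⟨_, a1, a2, a3⟩ := hx
    rw [Finset.mem_coe, Finset.mem_powersetCard]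
    refine ⟨?_, ?_⟩
    · intro v hv
      rw [Finset.mem_image] at hv
      obtain ⟨a, _, rfl⟩ := hv
      exact Finset.mem_compl.2 (a2 a)
    · rw [Finset.card_image_of_injective _ a1, Finset.card_univ, hα]

end CountLf

/-- number of representations with given kernel and lengths -/
theorem count_Lf (d : V → ℕ) (A : Finset V) (ρ₀ : Rep V m) (h₀ : IsRep d A ρ₀)
    (ℓ : Fin m → ℕ) (hv : LValid ρ₀.κ ℓ) :
    Nat.card {ρ : Rep V m // IsRep d A ρ ∧ ρ.κ = ρ₀.κ ∧ ρ.len = ℓ} * KD d ρ₀.κ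
      = Wk (KB ρ₀.κ)ᶜ (fun v => d v - 1) (KR d ρ₀.κ) (∑ i, ℓ i) := by
  by_cases hk : (∑ i, ℓ i) ≤ ((KB ρ₀.κ)ᶜ : Finset V).card
  · have hℓ : ∀ i, ℓ i < Fintype.card V + 1 := by
      intro i
      have h1 : ℓ i ≤ ∑ i, ℓ i := Finset.single_le_sum (f := ℓ) (fun _ _ => Nat.zero_le _)
        (Finset.mem_univ i)
      have h2 : ((KB ρ₀.κ)ᶜ : Finset V).card ≤ Fintype.card V := Finset.card_le_univ _
      omega
    rw [mk_bij h₀ ℓ hv hℓ, card_GP, Finset.sum_mul]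
    unfold Wk
    rw [Finset.mul_sum]
    refine Finset.sum_congr rfl fun P hP => ?_
    rw [mul_assoc, card_FG h₀ P _ hP]
  · push Not at hk
    have hempty : IsEmpty {ρ : Rep V m // IsRep d A ρ ∧ ρ.κ = ρ₀.κ ∧ ρ.len = ℓ} := by
      refine ⟨fun ⟨ρ, hρ, hκ, hlen⟩ => ?_⟩
      have h1 := hρ.card_P
      rw [hlen] at h1
      have h2 : ρ.P ⊆ (KB ρ₀.κ)ᶜ := by
        intro v hv
        rw [Finset.mem_compl]
        intro hB
        have hB' : v ∈ ρ.B := by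
          unfold Rep.B
          rw [hκ]
          exact hB
        exact Finset.disjoint_left.1 hρ.disj_BP hB' hv
      have h3 := Finset.card_le_card h2
      omega
    rw [Nat.card_of_isEmpty, zero_mul]
    unfold Wk
    rw [Finset.powersetCard_eq_empty.2 hk]
    simp

open Classical in
/-- sums over representations with a given kernel -/
theorem rep_sum (d : V → ℕ) (A : Finset V) (ρ₀ : Rep V m) (h₀ : IsRep d A ρ₀)
    (g : (Fin m → ℕ) → ℝ) :
    (KD d ρ₀.κ : ℝ) *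
        ∑ ρ ∈ univ.filter (fun ρ : Rep V m => IsRep d A ρ ∧ ρ.κ = ρ₀.κ), g ρ.len
      = ∑ k ∈ range (Fintype.card V + 1),
          (Wk (KB ρ₀.κ)ᶜ (fun v => d v - 1) (KR d ρ₀.κ) k : ℝ) *
            ∑ ℓ ∈ (Finset.piAntidiag (univ : Finset (Fin m)) k).filter (LValid ρ₀.κ), g ℓ := by
  have hmaps : ∀ ρ ∈ univ.filter (fun ρ : Rep V m => IsRep d A ρ ∧ ρ.κ = ρ₀.κ),
      (⟨∑ i, ρ.len i, ρ.len⟩ : Σ _ : ℕ, (Fin m → ℕ)) ∈ (range (Fintype.card V + 1)).sigma
        (fun k => (Finset.piAntidiag (univ : Finset (Fin m)) k).filter (LValid ρ₀.κ)) := by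
    intro ρ hρ
    rw [Finset.mem_filter] at hρ
    obtain ⟨_, h1, h2⟩ := hρ
    rw [Finset.mem_sigma]
    refine ⟨?_, ?_⟩
    · have := h1.card_P
      have h3 : ρ.P.card ≤ Fintype.card V := Finset.card_le_univ _
      rw [Finset.mem_range]
      show ∑ i, ρ.len i < _
      omega
    · rw [Finset.mem_filter]
      refine ⟨?_, ?_⟩
      · rw [Finset.mem_piAntidiag]
        exact ⟨rfl, fun i _ => Finset.mem_univ i⟩
      · rw [← h2]
        exact h1.valid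
  rw [← Finset.sum_fiberwise_of_maps_to hmaps, Finset.sum_sigma, Finset.mul_sum]
  refine Finset.sum_congr rfl fun k _ => ?_
  rw [Finset.mul_sum, Finset.mul_sum]
  refine Finset.sum_congr rfl fun ℓ hℓ => ?_
  rw [Finset.mem_filter, Finset.mem_piAntidiag] at hℓ
  obtain ⟨⟨hk, _⟩, hv⟩ := hℓ
  have hc := count_Lf d A ρ₀ h₀ ℓ hv
  rw [hk, Nat.card_eq_fintype_card, Fintype.card_subtype] at hc
  rw [← hc]
  have hset : (univ.filter (fun ρ : Rep V m => IsRep d A ρ ∧ ρ.κ = ρ₀.κ)).filter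
      (fun ρ => (⟨∑ i, ρ.len i, ρ.len⟩ : Σ _ : ℕ, (Fin m → ℕ)) = ⟨k, ℓ⟩)
      = univ.filter (fun ρ : Rep V m => IsRep d A ρ ∧ ρ.κ = ρ₀.κ ∧ ρ.len = ℓ) := by
    ext ρ
    simp only [Finset.mem_filter, Finset.mem_univ, true_and]
    constructor
    · rintro ⟨⟨h1, h2⟩, h3⟩
      refine ⟨h1, h2, ?_⟩
      have := congrArg (fun x : (Σ _ : ℕ, (Fin m → ℕ)) => x.2) h3
      exact this
    · rintro ⟨h1, h2, h3⟩
      refine ⟨⟨h1, h2⟩, ?_⟩
      subst h3
      rw [hk]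
  rw [hset]
  have hsum : ∑ ρ ∈ univ.filter (fun ρ : Rep V m => IsRep d A ρ ∧ ρ.κ = ρ₀.κ ∧ ρ.len = ℓ),
      g ρ.len = ((univ.filter
        (fun ρ : Rep V m => IsRep d A ρ ∧ ρ.κ = ρ₀.κ ∧ ρ.len = ℓ)).card : ℝ) * g ℓ := by
    rw [← nsmul_eq_mul]
    refine Finset.sum_eq_card_nsmul fun ρ hρ => ?_
    rw [Finset.mem_filter] at hρ
    rw [hρ.2.2.2]
  rw [hsum]
  push_cast
  ring

end Pool.Agent.H.MP_3b0279_pr
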