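import Mathlib

/-!
MP_3b0279_pr: diameter of random connected graphs (frozen statement S19273).
Basic definitions: kernels with `m` labelled edges given by slots.
-/

set_option autoImplicit false

namespace Pool.Agent.H.MP_3b0279_pr

open Finset

/-- the two ends of `m` labelled edges -/
abbrev Slot (m : ℕ) := Fin m × Bool

/-- the other end of an edge -/
def opp {m : ℕ} (σ : Slot m) : Slot m := (σ.1, !σ.2)

@[simp] lemma opp_opp {m : ℕ} (σ : Slot m) : opp (opp σ) = σ := by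
  rcases σ with ⟨i, b⟩; simp [opp]

lemma opp_ne {m : ℕ} (σ : Slot m) : opp σ ≠ σ := by
  rcases σ with ⟨i, b⟩; cases b <;> simp [opp]

@[simp] lemma opp_fst {m : ℕ} (σ : Slot m) : (opp σ).1 = σ.1 := rfl

variable {V : Type} [Fintype V] [DecidableEq V]

/-- degree of `v` in the kernel `κ` -/
def kdeg {m : ℕ} (κ : Slot m → V) (v : V) : ℕ := (univ.filter (fun σ => κ σ = v)).card

/-- ball of radius `r` around `u` in the kernel (multigraph distance) -/
def kball {m : ℕ} (κ : Slot m → V) (u : V) : ℕ → Finset V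
  | 0 => {u}
  | (r + 1) => kball κ u r ∪ univ.filter (fun v => ∃ σ : Slot m, κ σ ∈ kball κ u r ∧ κ (opp σ) = v)

/-- edges in `E1` are not loops, edges in `E0` are pairwise not parallel -/
def KValid {m : ℕ} (E0 E1 : Finset (Fin m)) (κ : Slot m → V) : Prop :=
  (∀ i ∈ E1, κ (i, false) ≠ κ (i, true)) ∧
  (∀ i ∈ E0, ∀ j ∈ E0, i ≠ j →
    s(κ (i, false), κ (i, true)) ≠ s(κ (j, false), κ (j, true)))

/-- connectivity of the kernel (cut form) -/
def KConn {m : ℕ} (κ : Slot m → V) : Prop :=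
  ∀ Y : Finset V, (∃ σ, κ σ ∈ Y) → (∃ σ, κ σ ∉ Y) → ∃ σ, κ σ ∈ Y ∧ κ (opp σ) ∉ Y

/-- admissible kernels with prescribed degrees -/
def KSet {m : ℕ} (c : V → ℕ) (E0 E1 : Finset (Fin m)) (κ : Slot m → V) : Prop :=
  (∀ v, kdeg κ v = c v) ∧ KValid E0 E1 κ ∧ KConn κ

end Pool.Agent.H.MP_3b0279_pr
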