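import Pool.Agent.H.MP_3b0279_pr.RepDef

/-!
Basic facts on the graph of a representation.
-/

set_option autoImplicit false
set_option linter.unusedSectionVars false

namespace Pool.Agent.H.MP_3b0279_pr

open Finset

variable {V : Type} [Fintype V] [DecidableEq V] {m : ℕ}

/-- oriented walk: `j`-th vertex of the path starting from slot `σ` -/
def Rep.ow (ρ : Rep V m) (σ : Slot m) (j : ℕ) : V :=
  if σ.2 = false then ρ.w σ.1 j else ρ.w σ.1 (ρ.len σ.1 + 1 - j)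

namespace Rep

theorem w_zero (ρ : Rep V m) (i : Fin m) : ρ.w i 0 = ρ.κ (i, false) := by
  simp [w]

theorem w_last (ρ : Rep V m) (i : Fin m) : ρ.w i (ρ.len i + 1) = ρ.κ (i, true) := by
  simp [w, len]

theorem w_inner (ρ : Rep V m) (i : Fin m) (j : ℕ) (h1 : 1 ≤ j) (h2 : j ≤ ρ.len i) :
    ρ.w i j = ρ.L i ⟨j - 1, by rw [len] at h2; omega⟩ := by
  have h3 : j ≠ 0 := by omega
  have h4 : j - 1 < (ρ.ℓ i).val := by rw [len] at h2; omega
  rw [w, if_neg h3, dif_pos h4]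

theorem ow_false (ρ : Rep V m) (i : Fin m) (j : ℕ) : ρ.ow (i, false) j = ρ.w i j := by
  simp [ow]

theorem ow_true (ρ : Rep V m) (i : Fin m) (j : ℕ) :
    ρ.ow (i, true) j = ρ.w i (ρ.len i + 1 - j) := by
  simp [ow]

theorem ow_zero (ρ : Rep V m) (σ : Slot m) : ρ.ow σ 0 = ρ.κ σ := by
  rcases σ with ⟨i, b⟩
  cases b
  · rw [ow_false, w_zero]
  · rw [ow_true, Nat.sub_zero, w_last]

theorem ow_last (ρ : Rep V m) (σ : Slot m) : ρ.ow σ (ρ.len σ.1 + 1) = ρ.κ (opp σ) := by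
  rcases σ with ⟨i, b⟩
  cases b
  · rw [ow_false, w_last]; rfl
  · rw [ow_true, Nat.sub_self, w_zero]; rfl

theorem ow_opp (ρ : Rep V m) (σ : Slot m) (j : ℕ) (hj : j ≤ ρ.len σ.1 + 1) :
    ρ.ow (opp σ) j = ρ.ow σ (ρ.len σ.1 + 1 - j) := by
  rcases σ with ⟨i, b⟩
  cases b
  · show ρ.ow (i, true) j = ρ.ow (i, false) _
    rw [ow_false, ow_true]
  · show ρ.ow (i, false) j = ρ.ow (i, true) _
    rw [ow_false, ow_true]
    have hj' : j ≤ ρ.len i + 1 := hj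
    show ρ.w i j = ρ.w i (ρ.len i + 1 - (ρ.len i + 1 - j))
    rw [Nat.sub_sub_self hj']

theorem mem_B (ρ : Rep V m) (v : V) : v ∈ ρ.B ↔ ∃ σ, ρ.κ σ = v := by
  simp [B]

theorem mem_P (ρ : Rep V m) (v : V) : v ∈ ρ.P ↔ ∃ i j, ρ.L i j = v := by
  simp [P]

theorem w_mem_P (ρ : Rep V m) (i : Fin m) (j : ℕ) (h1 : 1 ≤ j) (h2 : j ≤ ρ.len i) :
    ρ.w i j ∈ ρ.P := by
  rw [w_inner ρ i j h1 h2, mem_P]
  exact ⟨_, _, rfl⟩

theorem ow_mem_P (ρ : Rep V m) (σ : Slot m) (j : ℕ) (h1 : 1 ≤ j) (h2 : j ≤ ρ.len σ.1) :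
    ρ.ow σ j ∈ ρ.P := by
  rcases σ with ⟨i, b⟩
  simp only at h2
  cases b
  · rw [ow_false]; exact w_mem_P ρ i j h1 h2
  · rw [ow_true]; exact w_mem_P ρ i _ (by omega) (by omega)

theorem mem_P_ow (ρ : Rep V m) (v : V) :
    v ∈ ρ.P ↔ ∃ σ : Slot m, ∃ j, 1 ≤ j ∧ j ≤ ρ.len σ.1 ∧ ρ.ow σ j = v := by
  constructor
  · intro h
    rw [mem_P] at h
    obtain ⟨i, j, rfl⟩ := h
    refine ⟨(i, false), j.val + 1, by omega, ?_, ?_⟩
    · have := j.2
      show j.val + 1 ≤ ρ.len i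
      rw [len]; omega
    · rw [ow_false, w_inner ρ i (j.val + 1) (by omega) (by have := j.2; rw [len]; omega)]
      rfl
  · rintro ⟨σ, j, h1, h2, rfl⟩
    exact ow_mem_P ρ σ j h1 h2

theorem w_mem_In (ρ : Rep V m) (i : Fin m) (j : ℕ) : ρ.w i j ∈ ρ.In := by
  rw [In, mem_union]
  rw [w]
  split_ifs with h1 h2
  · exact Or.inl ((mem_B ρ _).mpr ⟨_, rfl⟩)
  · exact Or.inr ((mem_P ρ _).mpr ⟨_, _, rfl⟩)
  · exact Or.inl ((mem_B ρ _).mpr ⟨_, rfl⟩)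

theorem ow_mem_In (ρ : Rep V m) (σ : Slot m) (j : ℕ) : ρ.ow σ j ∈ ρ.In := by
  rw [ow]
  split_ifs <;> exact w_mem_In ρ _ _

theorem κ_mem_B (ρ : Rep V m) (σ : Slot m) : ρ.κ σ ∈ ρ.B := (mem_B ρ _).mpr ⟨σ, rfl⟩

end Rep

variable {d : V → ℕ} {A : Finset V} {ρ : Rep V m}

namespace IsRep

theorem disj_BP (h : IsRep d A ρ) : Disjoint ρ.B ρ.P := by
  rw [Finset.disjoint_left]
  intro v hB hP
  obtain ⟨σ, rfl⟩ := (Rep.mem_B ρ v).mp hB
  obtain ⟨i, j, hij⟩ := (Rep.mem_P ρ _).mp hP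
  exact h.disj i j σ hij

theorem not_B_P (h : IsRep d A ρ) {v : V} (hB : v ∈ ρ.B) (hP : v ∈ ρ.P) : False :=
  Finset.disjoint_left.mp h.disj_BP hB hP

theorem card_P (h : IsRep d A ρ) : ρ.P.card = ∑ i, ρ.len i := by
  have h1 : ρ.P = (univ : Finset (Σ i : Fin m, Fin (ρ.ℓ i).val)).image (fun x => ρ.L x.1 x.2) := by
    ext v
    rw [Rep.mem_P, Finset.mem_image]
    constructor
    · rintro ⟨i, j, hij⟩
      exact ⟨⟨i, j⟩, Finset.mem_univ _, hij⟩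
    · rintro ⟨⟨i, j⟩, -, hij⟩
      exact ⟨i, j, hij⟩
  rw [h1, Finset.card_image_of_injective _ (fun x y hxy => h.inj x.1 x.2 y.1 y.2 hxy),
    Finset.card_univ, Fintype.card_sigma]
  simp [Rep.len]

theorem w_inj (h : IsRep d A ρ) (i i' : Fin m) (j k : ℕ) (hj1 : 1 ≤ j) (hj2 : j ≤ ρ.len i)
    (hk1 : 1 ≤ k) (hk2 : k ≤ ρ.len i') (heq : ρ.w i j = ρ.w i' k) : i = i' ∧ j = k := by
  rw [Rep.w_inner ρ i j hj1 hj2, Rep.w_inner ρ i' k hk1 hk2] at heq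
  have h1 := h.inj _ _ _ _ heq
  have h2 : i = i' := congrArg Sigma.fst h1
  subst h2
  refine ⟨rfl, ?_⟩
  have h3 := eq_of_heq (Sigma.mk.inj_iff.mp h1).2
  have h4 := congrArg Fin.val h3
  simp only at h4
  omega

/-- inner vertices occur once (up to reversal) -/
theorem ow_inj_inner (h : IsRep d A ρ) (σ τ : Slot m) (j k : ℕ) (hj1 : 1 ≤ j)
    (hj2 : j ≤ ρ.len σ.1) (hk1 : 1 ≤ k) (hk2 : k ≤ ρ.len τ.1)
    (heq : ρ.ow σ j = ρ.ow τ k) :
    (σ = τ ∧ j = k) ∨ (σ = opp τ ∧ j = ρ.len τ.1 + 1 - k) := by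
  rcases σ with ⟨i, b⟩
  rcases τ with ⟨i', b'⟩
  simp only at hj2 hk2
  cases b <;> cases b' <;> simp only [Rep.ow_false, Rep.ow_true] at heq
  · obtain ⟨h1, h2⟩ := h.w_inj _ _ _ _ (by omega) (by omega) (by omega) (by omega) heq
    subst h1; subst h2
    exact Or.inl ⟨rfl, rfl⟩
  · obtain ⟨h1, h2⟩ := h.w_inj _ _ _ _ (by omega) (by omega) (by omega) (by omega) heq
    subst h1; subst h2
    exact Or.inr ⟨rfl, rfl⟩
  · obtain ⟨h1, h2⟩ := h.w_inj _ _ _ _ (by omega) (by omega) (by omega) (by omega) heq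
    subst h1
    refine Or.inr ⟨rfl, ?_⟩
    simp only
    omega
  · obtain ⟨h1, h2⟩ := h.w_inj _ _ _ _ (by omega) (by omega) (by omega) (by omega) heq
    subst h1
    refine Or.inl ⟨rfl, ?_⟩
    omega

/-- a path of length at most one is not a loop -/
theorem κ_opp_ne (h : IsRep d A ρ) (σ : Slot m) (hl : ρ.len σ.1 ≤ 1) :
    ρ.κ σ ≠ ρ.κ (opp σ) := by
  have h1 := h.valid.1 σ.1 (by simpa using hl)
  rcases σ with ⟨i, b⟩
  cases b
  · exact h1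
  · exact h1.symm

/-- walks through a slot start with different vertices -/
theorem ow_one_inj (h : IsRep d A ρ) (σ τ : Slot m) (h0 : ρ.κ σ = ρ.κ τ)
    (h1 : ρ.ow σ 1 = ρ.ow τ 1) : σ = τ := by
  rcases Nat.eq_zero_or_pos (ρ.len σ.1) with hσ | hσ
  · have e1 : ρ.ow σ 1 = ρ.κ (opp σ) := by
      have := Rep.ow_last ρ σ
      rwa [hσ] at this
    rcases Nat.eq_zero_or_pos (ρ.len τ.1) with hτ | hτ
    · have e2 : ρ.ow τ 1 = ρ.κ (opp τ) := by
        have := Rep.ow_last ρ τ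
        rwa [hτ] at this
      rw [e1, e2] at h1
      by_cases hst : σ.1 = τ.1
      · have : σ = τ ∨ σ = opp τ := by
          rcases σ with ⟨i, b⟩
          rcases τ with ⟨i', b'⟩
          simp only at hst
          subst hst
          cases b <;> cases b' <;> simp [opp]
        rcases this with h2 | h2
        · exact h2
        · exfalso
          apply h.κ_opp_ne τ (by omega)
          rw [← h0, h2]
      · exfalso
        have h3 := h.valid.2 σ.1 (by simpa using hσ) τ.1 (by simpa using hτ) hst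
        apply h3
        have h4 : ∀ σ : Slot m, s(ρ.κ (σ.1, false), ρ.κ (σ.1, true)) = s(ρ.κ σ, ρ.κ (opp σ)) := by
          rintro ⟨i, b⟩
          cases b
          · rfl
          · exact Sym2.eq_swap
        rw [h4 σ, h4 τ, h0, h1]
    · exfalso
      rw [e1] at h1
      exact h.not_B_P (Rep.κ_mem_B ρ (opp σ)) (h1 ▸ Rep.ow_mem_P ρ τ 1 le_rfl hτ)
  · rcases Nat.eq_zero_or_pos (ρ.len τ.1) with hτ | hτ
    · exfalso
      have e2 : ρ.ow τ 1 = ρ.κ (opp τ) := by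
        have := Rep.ow_last ρ τ
        rwa [hτ] at this
      rw [e2] at h1
      exact h.not_B_P (Rep.κ_mem_B ρ (opp τ)) (h1 ▸ Rep.ow_mem_P ρ σ 1 le_rfl hσ)
    · rcases h.ow_inj_inner σ τ 1 1 le_rfl hσ le_rfl hτ h1 with ⟨h2, -⟩ | ⟨h2, h3⟩
      · exact h2
      · exfalso
        apply h.κ_opp_ne τ (by omega)
        rw [← h0, h2]

theorem adj_ow (h : IsRep d A ρ) (σ : Slot m) (j : ℕ) (hj : j ≤ ρ.len σ.1) :
    ρ.ev.Adj (ρ.ow σ j) (ρ.ow σ (j + 1)) := by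
  refine ⟨?_, Or.inl ?_⟩
  · intro heq
    rcases Nat.eq_zero_or_pos j with hj0 | hj0
    · subst hj0
      rw [Rep.ow_zero] at heq
      rcases Nat.eq_zero_or_pos (ρ.len σ.1) with hσ | hσ
      · have e1 : ρ.ow σ 1 = ρ.κ (opp σ) := by
          have := Rep.ow_last ρ σ
          rwa [hσ] at this
        rw [zero_add, e1] at heq
        exact h.κ_opp_ne σ (by omega) heq
      · exact h.not_B_P (Rep.κ_mem_B ρ σ) (heq ▸ Rep.ow_mem_P ρ σ (0 + 1) (by omega) hσ)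
    · rcases Nat.lt_or_ge j (ρ.len σ.1) with hlt | hge
      · rcases h.ow_inj_inner σ σ j (j + 1) hj0 hj (by omega) (by omega) heq with
          ⟨-, h2⟩ | ⟨h2, -⟩
        · omega
        · exact opp_ne σ h2.symm
      · have hj' : j = ρ.len σ.1 := by omega
        have h3 : ρ.ow σ (j + 1) = ρ.κ (opp σ) := by rw [hj']; exact Rep.ow_last ρ σ
        rw [h3] at heq
        exact h.not_B_P (Rep.κ_mem_B ρ (opp σ)) (heq ▸ Rep.ow_mem_P ρ σ j hj0 hj)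
  · rcases σ with ⟨i, b⟩
    simp only at hj
    cases b
    · exact ⟨i, j, hj, by rw [Rep.ow_false, Rep.ow_false]⟩
    · refine ⟨i, ρ.len i - j, Nat.sub_le _ _, ?_⟩
      rw [Rep.ow_true, Rep.ow_true]
      have e1 : ρ.len i - j + 1 = ρ.len i + 1 - j := by omega
      have e2 : ρ.len i - j = ρ.len i + 1 - (j + 1) := by omega
      rw [e1, e2]
      exact Sym2.eq_swap

/-- adjacency between two vertices of the core part -/
theorem adj_In_iff (h : IsRep d A ρ) (a b : V) (ha : a ∈ ρ.In) (hb : b ∈ ρ.In) :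
    ρ.ev.Adj a b ↔ ∃ σ : Slot m, ∃ j, j ≤ ρ.len σ.1 ∧ ρ.ow σ j = a ∧ ρ.ow σ (j + 1) = b := by
  constructor
  · rintro ⟨-, ⟨i, j, hj, hs⟩ | ⟨h1, -⟩ | ⟨h1, -⟩⟩
    · rcases Sym2.eq_iff.mp hs with ⟨h1, h2⟩ | ⟨h1, h2⟩
      · exact ⟨(i, false), j, hj, by rw [Rep.ow_false, h1], by rw [Rep.ow_false, h2]⟩
      · refine ⟨(i, true), ρ.len i - j, Nat.sub_le _ _, ?_, ?_⟩
        · rw [Rep.ow_true, ← h2]
          congr 1
          rw [Rep.len]
          omega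
        · rw [Rep.ow_true, ← h1]
          congr 1
          rw [Rep.len]
          omega
    · exact absurd ha h1
    · exact absurd hb h1
  · rintro ⟨σ, j, hj, rfl, rfl⟩
    exact h.adj_ow σ j hj

/-- neighbours in the core part of a branch vertex -/
theorem adj_B_iff (h : IsRep d A ρ) (a b : V) (ha : a ∈ ρ.B) (hb : b ∈ ρ.In) :
    ρ.ev.Adj a b ↔ ∃ σ : Slot m, ρ.κ σ = a ∧ ρ.ow σ 1 = b := by
  rw [h.adj_In_iff a b (Finset.mem_union_left _ ha) hb]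
  constructor
  · rintro ⟨σ, j, hj, h1, h2⟩
    rcases Nat.eq_zero_or_pos j with hj0 | hj0
    · subst hj0
      exact ⟨σ, by rw [← h1, Rep.ow_zero], h2⟩
    · exfalso
      exact h.not_B_P ha (h1 ▸ Rep.ow_mem_P ρ σ j hj0 hj)
  · rintro ⟨σ, h1, h2⟩
    exact ⟨σ, 0, Nat.zero_le _, by rw [Rep.ow_zero, h1], h2⟩

/-- neighbours in the core part of an inner vertex -/
theorem adj_P_iff (h : IsRep d A ρ) (σ : Slot m) (j : ℕ) (hj1 : 1 ≤ j) (hj2 : j ≤ ρ.len σ.1)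
    (b : V) (hb : b ∈ ρ.In) :
    ρ.ev.Adj (ρ.ow σ j) b ↔ b = ρ.ow σ (j - 1) ∨ b = ρ.ow σ (j + 1) := by
  constructor
  · rw [h.adj_In_iff _ b (Rep.ow_mem_In ρ σ j) hb]
    rintro ⟨τ, k, hk, h1, h2⟩
    rcases Nat.eq_zero_or_pos k with hk0 | hk0
    · exfalso
      subst hk0
      rw [Rep.ow_zero] at h1
      exact h.not_B_P (Rep.κ_mem_B ρ τ) (h1 ▸ Rep.ow_mem_P ρ σ j hj1 hj2)
    · rcases h.ow_inj_inner τ σ k j hk0 hk hj1 hj2 h1 with ⟨h3, h4⟩ | ⟨h3, h4⟩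
      · subst h3; subst h4
        exact Or.inr h2.symm
      · left
        rw [← h2, h3, Rep.ow_opp ρ σ (k + 1) (by omega)]
        congr 1
        omega
  · rintro (rfl | rfl)
    · have := h.adj_ow σ (j - 1) (by omega)
      rw [Nat.sub_add_cancel hj1] at this
      exact this.symm
    · exact h.adj_ow σ j hj2

theorem ow_pred_ne_succ (h : IsRep d A ρ) (σ : Slot m) (j : ℕ) (hj1 : 1 ≤ j)
    (hj2 : j ≤ ρ.len σ.1) : ρ.ow σ (j - 1) ≠ ρ.ow σ (j + 1) := by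
  intro heq
  have hB1 : j = 1 → ρ.ow σ (j - 1) = ρ.κ σ := by
    rintro rfl; exact Rep.ow_zero ρ σ
  have hB2 : j = ρ.len σ.1 → ρ.ow σ (j + 1) = ρ.κ (opp σ) := by
    intro hj; rw [hj]; exact Rep.ow_last ρ σ
  rcases Nat.lt_or_ge 1 j with h1 | h1
  · have hP1 := Rep.ow_mem_P ρ σ (j - 1) (by omega) (by omega)
    rcases Nat.lt_or_ge j (ρ.len σ.1) with h2 | h2
    · rcases h.ow_inj_inner σ σ (j - 1) (j + 1) (by omega) (by omega) (by omega) (by omega) heq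
        with ⟨-, h3⟩ | ⟨h3, -⟩
      · omega
      · exact opp_ne σ h3.symm
    · rw [heq, hB2 (by omega)] at hP1
      exact h.not_B_P (Rep.κ_mem_B ρ (opp σ)) hP1
  · have hj : j = 1 := by omega
    rw [hB1 hj] at heq
    rcases Nat.lt_or_ge j (ρ.len σ.1) with h2 | h2
    · exact h.not_B_P (Rep.κ_mem_B ρ σ) (heq ▸ Rep.ow_mem_P ρ σ (j + 1) (by omega) (by omega))
    · rw [hB2 (by omega)] at heq
      exact h.κ_opp_ne σ (by omega) heq

theorem f_ne (h : IsRep d A ρ) (a : V) (ha : a ∉ ρ.In) : ρ.f a ≠ a := by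
  intro hf
  obtain ⟨t, ht⟩ := h.acyc a
  rw [Function.iterate_fixed hf] at ht
  exact ha ht

theorem f_f_ne (h : IsRep d A ρ) (a : V) (ha : a ∉ ρ.In) : ρ.f (ρ.f a) ≠ a := by
  intro hf
  have hfa : ρ.f a ∉ ρ.In := by
    intro h1
    rw [h.fix _ h1] at hf
    rw [hf] at h1
    exact ha h1
  have key : ∀ t : ℕ, ρ.f^[t] a = a ∨ ρ.f^[t] a = ρ.f a := by
    intro t
    induction t with
    | zero => left; rfl
    | succ t ih =>
      rw [Function.iterate_succ_apply']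
      rcases ih with h1 | h1
      · right; rw [h1]
      · left; rw [h1, hf]
  obtain ⟨t, ht⟩ := h.acyc a
  rcases key t with h1 | h1
  · rw [h1] at ht; exact ha ht
  · rw [h1] at ht; exact hfa ht

/-- neighbours of a vertex outside the core part -/
theorem adj_out_iff (h : IsRep d A ρ) (a b : V) (ha : a ∉ ρ.In) :
    ρ.ev.Adj a b ↔ b = ρ.f a ∨ (b ∉ ρ.In ∧ ρ.f b = a) := by
  constructor
  · rintro ⟨-, ⟨i, j, hj, hs⟩ | ⟨-, h1⟩ | ⟨h1, h2⟩⟩
    · exfalso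
      rcases Sym2.eq_iff.mp hs with ⟨h1, -⟩ | ⟨-, h1⟩
      · exact ha (h1 ▸ Rep.w_mem_In ρ i j)
      · exact ha (h1 ▸ Rep.w_mem_In ρ i (j + 1))
    · exact Or.inl h1.symm
    · exact Or.inr ⟨h1, h2⟩
  · rintro (rfl | ⟨h1, h2⟩)
    · exact ⟨(h.f_ne a ha).symm, Or.inr (Or.inl ⟨ha, rfl⟩)⟩
    · refine ⟨?_, Or.inr (Or.inr ⟨h1, h2⟩)⟩
      rintro rfl
      exact h.f_ne a ha h2

end IsRep

end Pool.Agent.H.MP_3b0279_pr
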