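import Pool.Agent.H.MP_3b0279_pr.EvBasic

/-!
The graph of a representation has the right degrees, is connected, and its core is the core part.
-/

set_option autoImplicit false

namespace Pool.Agent.H.MP_3b0279_pr

open Finset

variable {V : Type} [Fintype V] [DecidableEq V] {m : ℕ}

variable {d : V → ℕ} {A : Finset V} {ρ : Rep V m}

namespace IsRep

lemma evg_mem_In (v : V) : v ∈ ρ.In ↔ v ∈ ρ.B ∨ v ∈ ρ.P := by
  unfold Rep.In
  exact Finset.mem_union

open Classical in
/-- number of neighbours inside the core part -/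
theorem card_nbr_In (h : IsRep d A ρ) (v : V) (hv : v ∈ ρ.In) :
    (ρ.In.filter (fun u => ρ.ev.Adj v u)).card = ρ.tdeg v := by
  by_cases hP : v ∈ ρ.P
  · have htd : ρ.tdeg v = 2 := by
      unfold Rep.tdeg
      rw [if_pos hP]
    obtain ⟨σ, j, hj1, hj2, rfl⟩ := (ρ.mem_P_ow v).1 hP
    have hset : ρ.In.filter (fun u => ρ.ev.Adj (ρ.ow σ j) u)
        = {ρ.ow σ (j - 1), ρ.ow σ (j + 1)} := by
      ext b
      simp only [Finset.mem_filter, Finset.mem_insert, Finset.mem_singleton]
      constructor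
      · rintro ⟨hb, hadj⟩
        exact (h.adj_P_iff σ j hj1 hj2 b hb).1 hadj
      · intro hb
        have hbIn : b ∈ ρ.In := by
          rcases hb with rfl | rfl
          · exact ρ.ow_mem_In σ _
          · exact ρ.ow_mem_In σ _
        exact ⟨hbIn, (h.adj_P_iff σ j hj1 hj2 b hbIn).2 hb⟩
    rw [hset, htd]
    exact Finset.card_pair (h.ow_pred_ne_succ σ j hj1 hj2)
  · have hB : v ∈ ρ.B := by
      rcases (evg_mem_In v).1 hv with h1 | h1
      · exact h1
      · exact absurd h1 hP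
    have htd : ρ.tdeg v = kdeg ρ.κ v := by
      unfold Rep.tdeg
      rw [if_neg hP, if_pos hB]
    have hset : ρ.In.filter (fun u => ρ.ev.Adj v u)
        = (univ.filter (fun σ => ρ.κ σ = v)).image (fun σ => ρ.ow σ 1) := by
      ext b
      simp only [Finset.mem_filter, Finset.mem_image, Finset.mem_univ, true_and]
      constructor
      · rintro ⟨hb, hadj⟩
        exact (h.adj_B_iff v b hB hb).1 hadj
      · rintro ⟨σ, h1, h2⟩
        have hbIn : b ∈ ρ.In := by
          rw [← h2]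
          exact ρ.ow_mem_In σ _
        exact ⟨hbIn, (h.adj_B_iff v b hB hbIn).2 ⟨σ, h1, h2⟩⟩
    rw [hset, htd]
    unfold kdeg
    apply Finset.card_image_of_injOn
    intro σ hσ τ hτ heq
    have hσ' : ρ.κ σ = v := by simpa using hσ
    have hτ' : ρ.κ τ = v := by simpa using hτ
    exact h.ow_one_inj σ τ (hσ'.trans hτ'.symm) heq

lemma evg_reach_f (h : IsRep d A ρ) (v : V) : ρ.ev.Reachable v (ρ.f v) := by
  by_cases hv : v ∈ ρ.In
  · rw [h.fix v hv]
  · exact ((h.adj_out_iff v (ρ.f v) hv).2 (Or.inl rfl)).reachable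

lemma evg_reach_iter (h : IsRep d A ρ) (t : ℕ) : ∀ v : V, ρ.ev.Reachable v (ρ.f^[t] v) := by
  induction t with
  | zero => intro v; exact SimpleGraph.Reachable.refl _
  | succ t ih =>
    intro v
    rw [Function.iterate_succ_apply]
    exact (h.evg_reach_f v).trans (ih (ρ.f v))

lemma evg_reach_ow (h : IsRep d A ρ) (σ : Slot m) (j : ℕ) (hj : j ≤ ρ.len σ.1 + 1) :
    ρ.ev.Reachable (ρ.κ σ) (ρ.ow σ j) := by
  induction j with
  | zero => rw [ρ.ow_zero σ]
  | succ j ih =>
    exact (ih (by omega)).trans (h.adj_ow σ j (by omega)).reachable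

lemma evg_reach_In (h : IsRep d A ρ) (v : V) (hv : v ∈ ρ.In) :
    ∃ σ, ρ.ev.Reachable v (ρ.κ σ) := by
  rcases (evg_mem_In v).1 hv with h1 | h1
  · obtain ⟨σ, rfl⟩ := (ρ.mem_B v).1 h1
    exact ⟨σ, SimpleGraph.Reachable.refl _⟩
  · obtain ⟨σ, j, _, hj2, rfl⟩ := (ρ.mem_P_ow v).1 h1
    exact ⟨σ, (h.evg_reach_ow σ j (by omega)).symm⟩

lemma evg_reach_slots (h : IsRep d A ρ) (σ τ : Slot m) : ρ.ev.Reachable (ρ.κ σ) (ρ.κ τ) := by
  classical
  by_contra hcon
  have hconn := h.good.1 (univ.filter (fun x => ρ.ev.Reachable (ρ.κ σ) x))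
    ⟨σ, by simp⟩ ⟨τ, by simpa using hcon⟩
  obtain ⟨s, hs1, hs2⟩ := hconn
  simp only [Finset.mem_filter, Finset.mem_univ, true_and] at hs1 hs2
  apply hs2
  have h1 := h.evg_reach_ow s (ρ.len s.1 + 1) le_rfl
  rw [ρ.ow_last s] at h1
  exact hs1.trans h1

open Classical in
lemma evg_card_nbr (h : IsRep d A ρ) (v : V) :
    (univ.filter (fun u => ρ.ev.Adj v u)).card = ρ.childs v + ρ.tdeg v := by
  by_cases hv : v ∈ ρ.In
  · rw [← h.card_nbr_In v hv]
    unfold Rep.childs
    rw [← Finset.card_union_of_disjoint]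
    · apply congrArg Finset.card
      ext b
      simp only [Finset.mem_filter, Finset.mem_union, Finset.mem_univ, true_and]
      by_cases hb : b ∈ ρ.In
      · simp [hb]
      · have h1 := h.adj_out_iff b v hb
        rw [SimpleGraph.adj_comm, h1]
        constructor
        · rintro (h2 | h2)
          · exact Or.inl ⟨hb, h2.symm⟩
          · exact absurd hv h2.1
        · rintro (h2 | h2)
          · exact Or.inl h2.2.symm
          · exact absurd h2.1 hb
    · rw [Finset.disjoint_left]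
      intro b hb1 hb2
      simp only [Finset.mem_filter, Finset.mem_univ, true_and] at hb1 hb2
      exact hb1.1 hb2.1
  · have htd : ρ.tdeg v = 1 := by
      unfold Rep.tdeg
      have h1 : v ∉ ρ.P := fun h2 => hv ((evg_mem_In v).2 (Or.inr h2))
      have h3 : v ∉ ρ.B := fun h2 => hv ((evg_mem_In v).2 (Or.inl h2))
      rw [if_neg h1, if_neg h3]
    rw [htd]
    unfold Rep.childs
    have hset : univ.filter (fun u => ρ.ev.Adj v u)
        = insert (ρ.f v) (univ.filter (fun u => u ∉ ρ.In ∧ ρ.f u = v)) := by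
      ext b
      simp only [Finset.mem_filter, Finset.mem_insert, Finset.mem_univ, true_and]
      exact h.adj_out_iff v b hv
    rw [hset, Finset.card_insert_of_notMem]
    simp only [Finset.mem_filter, Finset.mem_univ, true_and]
    rintro ⟨_, h2⟩
    exact h.f_f_ne v hv h2

theorem ev_isGr [Nonempty V] (h : IsRep d A ρ) : IsGr d ρ.ev := by
  classical
  refine ⟨?_, ?_⟩
  · rw [SimpleGraph.connected_iff]
    refine ⟨?_, inferInstance⟩
    intro v w
    obtain ⟨t, ht⟩ := h.acyc v
    obtain ⟨s, hs⟩ := h.acyc w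
    obtain ⟨σ, hσ⟩ := h.evg_reach_In _ ht
    obtain ⟨τ, hτ⟩ := h.evg_reach_In _ hs
    exact ((h.evg_reach_iter t v).trans hσ).trans
      ((h.evg_reach_slots σ τ).trans ((h.evg_reach_iter s w).trans hτ).symm)
  · intro v
    have h1 : ρ.ev.neighborSet v
        = ((univ.filter (fun u => ρ.ev.Adj v u) : Finset V) : Set V) := by
      ext b
      simp
    rw [h1, Set.ncard_coe_finset, h.evg_card_nbr v, h.deg v]

theorem m_formula (h : IsRep d A ρ) :
    ∑ v, d v + 2 * ρ.B.card = 2 * Fintype.card V + 2 * m := by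
  classical
  have h1 : ∑ v, d v = ∑ v, ρ.childs v + ∑ v, ρ.tdeg v := by
    rw [← Finset.sum_add_distrib]
    exact Finset.sum_congr rfl (fun v _ => (h.deg v).symm)
  have h2 : ∑ v, ρ.childs v = (ρ.Inᶜ).card := by
    rw [Finset.card_eq_sum_card_fiberwise (f := ρ.f) (s := ρ.Inᶜ) (t := univ)
      (fun _ _ => by simp)]
    apply Finset.sum_congr rfl
    intro v _
    unfold Rep.childs
    apply congrArg Finset.card
    ext u
    simp
  have h3 : ∑ v, ρ.tdeg v = 2 * ρ.P.card + 2 * m + (ρ.Inᶜ).card := by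
    have hPB : Disjoint ρ.P ρ.B := h.disj_BP.symm
    have hsplit : ∑ v, ρ.tdeg v = ∑ v ∈ ρ.P, ρ.tdeg v + ∑ v ∈ ρ.B, ρ.tdeg v
        + ∑ v ∈ ρ.Inᶜ, ρ.tdeg v := by
      rw [← Finset.sum_union hPB, Finset.union_comm, ← Finset.sum_add_sum_compl ρ.In]
      rfl
    rw [hsplit]
    have e1 : ∑ v ∈ ρ.P, ρ.tdeg v = 2 * ρ.P.card := by
      rw [Finset.sum_congr rfl (g := fun _ => 2)]
      · simp [mul_comm]
      · intro v hv
        unfold Rep.tdeg
        rw [if_pos hv]
    have e2 : ∑ v ∈ ρ.B, ρ.tdeg v = 2 * m := by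
      rw [Finset.sum_congr rfl (g := fun v => (univ.filter (fun σ => ρ.κ σ = v)).card)]
      · rw [← Finset.card_eq_sum_card_fiberwise (f := ρ.κ) (s := univ) (t := ρ.B)]
        · simp [Slot, mul_comm]
        · intro σ _
          exact (ρ.mem_B _).2 ⟨σ, rfl⟩
      · intro v hv
        unfold Rep.tdeg
        have hvP : v ∉ ρ.P := fun h5 => (Finset.disjoint_left.1 h.disj_BP) hv h5
        rw [if_neg hvP, if_pos hv]
        rfl
    have e3 : ∑ v ∈ ρ.Inᶜ, ρ.tdeg v = (ρ.Inᶜ).card := by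
      rw [Finset.card_eq_sum_ones]
      apply Finset.sum_congr rfl
      intro v hv
      have hv' : v ∉ ρ.In := by simpa using hv
      unfold Rep.tdeg
      have h5 : v ∉ ρ.P := fun h2 => hv' ((evg_mem_In v).2 (Or.inr h2))
      have h6 : v ∉ ρ.B := fun h2 => hv' ((evg_mem_In v).2 (Or.inl h2))
      rw [if_neg h5, if_neg h6]
    rw [e1, e2, e3]
  have h4 : Fintype.card V = (ρ.Inᶜ).card + (ρ.B.card + ρ.P.card) := by
    have h5 : ρ.In.card = ρ.B.card + ρ.P.card := by
      unfold Rep.In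
      exact Finset.card_union_of_disjoint h.disj_BP
    have h6 := Finset.card_compl_add_card ρ.In
    omega
  omega

lemma evg_mem_B_of_kdeg (v : V) (hv : kdeg ρ.κ v ≠ 0) : v ∈ ρ.B := by
  unfold kdeg at hv
  have h1 : (univ.filter (fun σ => ρ.κ σ = v)).Nonempty := Finset.card_ne_zero.1 hv
  obtain ⟨σ, hσ⟩ := h1
  exact (ρ.mem_B v).2 ⟨σ, by simpa using hσ⟩

lemma evg_kdeg_ne_zero (v : V) (hv : v ∈ ρ.B) : kdeg ρ.κ v ≠ 0 := by
  obtain ⟨σ, hσ⟩ := (ρ.mem_B v).1 hv
  unfold kdeg
  exact Finset.card_ne_zero.2 ⟨σ, by simp [hσ]⟩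

lemma evg_In_stable (h : IsRep d A ρ) : AStable ρ.ev A ρ.In := by
  classical
  constructor
  · intro v hv hvA
    have hcard := h.card_nbr_In v hv
    have h2 : 1 < ρ.tdeg v := by
      unfold Rep.tdeg
      by_cases hP : v ∈ ρ.P
      · rw [if_pos hP]; norm_num
      · have hB : v ∈ ρ.B := by
          rcases (evg_mem_In v).1 hv with h1 | h1
          · exact h1
          · exact absurd h1 hP
        rw [if_neg hP, if_pos hB]
        rcases h.good.2.2 v hvA with h0 | h0
        · exact absurd h0 (evg_kdeg_ne_zero v hB)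
        · omega
    rw [← hcard, Finset.one_lt_card] at h2
    obtain ⟨u, hu, u', hu', hne⟩ := h2
    simp only [Finset.mem_filter] at hu hu'
    exact ⟨u, hu.1, u', hu'.1, hne, hu.2, hu'.2⟩
  · intro v hv hvA
    have hcard := h.card_nbr_In v hv
    have h2 : 0 < ρ.tdeg v := by
      unfold Rep.tdeg
      by_cases hP : v ∈ ρ.P
      · rw [if_pos hP]; norm_num
      · have hB : v ∈ ρ.B := by
          rcases (evg_mem_In v).1 hv with h1 | h1
          · exact h1
          · exact absurd h1 hP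
        rw [if_neg hP, if_pos hB, h.good.2.1 v hvA]
        norm_num
    rw [← hcard, Finset.card_pos] at h2
    obtain ⟨u, hu⟩ := h2
    simp only [Finset.mem_filter] at hu
    exact ⟨u, hu.1, hu.2⟩

theorem In_eq_cor (h : IsRep d A ρ) : ρ.In = cor ρ.ev A := by
  classical
  apply Finset.Subset.antisymm
  · intro v hv
    unfold cor
    simp only [Finset.mem_filter, Finset.mem_univ, true_and]
    exact ⟨ρ.In, h.evg_In_stable, hv⟩
  · intro v hv
    unfold cor at hv
    simp only [Finset.mem_filter, Finset.mem_univ, true_and] at hv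
    obtain ⟨X, hX, hvX⟩ := hv
    by_contra hvIn
    -- a vertex of maximal depth
    have hne : (X \ ρ.In).Nonempty := ⟨v, Finset.mem_sdiff.2 ⟨hvX, hvIn⟩⟩
    obtain ⟨a, ha, hmax⟩ := Finset.exists_max_image (X \ ρ.In)
      (fun x => Nat.find (h.acyc x)) hne
    rw [Finset.mem_sdiff] at ha
    obtain ⟨haX, haIn⟩ := ha
    have haA : a ∉ A := by
      intro haA
      have hk := h.good.2.1 a haA
      exact haIn ((evg_mem_In a).2 (Or.inl (evg_mem_B_of_kdeg a (by omega))))
    obtain ⟨u, hu, u', hu', hne', hadj, hadj'⟩ := hX.1 a haX haA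
    -- one of the neighbours is a child
    have key : ∃ b ∈ X, b ∉ ρ.In ∧ ρ.f b = a := by
      rcases (h.adj_out_iff a u haIn).1 hadj with h1 | h1
      · rcases (h.adj_out_iff a u' haIn).1 hadj' with h2 | h2
        · exact absurd (h1.trans h2.symm) hne'
        · exact ⟨u', hu', h2⟩
      · exact ⟨u, hu, h1⟩
    obtain ⟨b, hbX, hbIn, hfb⟩ := key
    have h3 := hmax b (Finset.mem_sdiff.2 ⟨hbX, hbIn⟩)
    have hspec := Nat.find_spec (h.acyc b)
    have hpos : Nat.find (h.acyc b) ≠ 0 := by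
      intro h0
      rw [h0] at hspec
      exact hbIn hspec
    obtain ⟨t, ht⟩ := Nat.exists_eq_succ_of_ne_zero hpos
    rw [ht, Function.iterate_succ_apply, hfb] at hspec
    have h4 : Nat.find (h.acyc a) ≤ t := Nat.find_min' _ hspec
    omega

end IsRep

end Pool.Agent.H.MP_3b0279_pr
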