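import Mathlib

/-!
Decomposition of a graph into walks through a set of degree-two vertices.
-/

set_option autoImplicit false
set_option linter.unusedSectionVars false

namespace Pool.Agent.H.MP_3b0279_pr

open Finset

/-- the edges of the walk `u, l..., v` -/
def wedges {V : Type} (u : V) : List V → V → Multiset (Sym2 V)
  | [], v => {s(u, v)}
  | (a :: l), v => s(u, a) ::ₘ wedges a l v

theorem wedges_append {V : Type} (u : V) (l l' : List V) (v w : V) :
    wedges u (l ++ v :: l') w = wedges u l v + wedges v l' w := by
  induction l generalizing u with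
  | nil => simp [wedges]
  | cons a l ih => simp [wedges, ih]

theorem wedges_reverse {V : Type} (u : V) (l : List V) (v : V) :
    wedges v l.reverse u = wedges u l v := by
  induction l generalizing u with
  | nil => simp [wedges, Sym2.eq_swap]
  | cons a l ih =>
    rw [List.reverse_cons, wedges_append, ih]
    simp only [wedges]
    rw [Sym2.eq_swap, add_comm, Multiset.singleton_add]

theorem wedges_mem {V : Type} (u : V) (l : List V) (v : V) (e : Sym2 V) (he : e ∈ wedges u l v)
    (x : V) (hx : x ∈ e) : x = u ∨ x = v ∨ x ∈ l := by
  induction l generalizing u with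
  | nil =>
    rw [wedges, Multiset.mem_singleton] at he
    subst he
    rcases Sym2.mem_iff.1 hx with h | h
    · exact Or.inl h
    · exact Or.inr (Or.inl h)
  | cons a l ih =>
    rw [wedges, Multiset.mem_cons] at he
    rcases he with h | h
    · subst h
      rcases Sym2.mem_iff.1 hx with h | h
      · exact Or.inl h
      · exact Or.inr (Or.inr (by simp [h]))
    · rcases ih a h with h | h | h
      · exact Or.inr (Or.inr (by simp [h]))
      · exact Or.inr (Or.inl h)
      · exact Or.inr (Or.inr (by simp [h]))

section count

variable {V : Type} [DecidableEq V]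

/-- number of ends of an edge equal to `v` -/
def wcnt (v : V) : Sym2 V → ℕ :=
  Sym2.lift ⟨fun a b => (if a = v then 1 else 0) + (if b = v then 1 else 0),
    fun _ _ => add_comm _ _⟩

theorem wcnt_mk (v a b : V) :
    wcnt v s(a, b) = (if a = v then 1 else 0) + (if b = v then 1 else 0) := rfl

/-- number of incidences of a multiset of edges at `v` -/
def winc (v : V) (E : Multiset (Sym2 V)) : ℕ := (E.map (wcnt v)).sum

theorem winc_add (v : V) (E F : Multiset (Sym2 V)) : winc v (E + F) = winc v E + winc v F := by
  simp [winc]

theorem winc_wedges (v u : V) (l : List V) (w : V) :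
    winc v (wedges u l w) = (if u = v then 1 else 0) + (if w = v then 1 else 0) +
      2 * l.count v := by
  induction l generalizing u with
  | nil => simp [winc, wedges, wcnt_mk]
  | cons a l ih =>
    have : winc v (wedges u (a :: l) w) = wcnt v s(u, a) + winc v (wedges a l w) := by
      simp [winc, wedges]
    rw [this, ih, wcnt_mk, List.count_cons]
    by_cases h : a = v
    · simp [h]; ring
    · simp [h]; ring

theorem winc_edgeFinset [Fintype V] (H : SimpleGraph V) [DecidableRel H.Adj] (v : V) :
    winc v H.edgeFinset.val = H.degree v := by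
  rw [← H.card_incidenceFinset_eq_degree v, H.incidenceFinset_eq_filter, Finset.card_filter, winc]
  change ∑ e ∈ H.edgeFinset, wcnt v e = _
  refine Finset.sum_congr rfl fun e he => ?_
  induction e using Sym2.ind with
  | _ a b =>
    rw [SimpleGraph.mem_edgeFinset, SimpleGraph.mem_edgeSet] at he
    have hab : a ≠ b := he.ne
    rw [wcnt_mk]
    by_cases h1 : a = v
    · subst h1
      simp [hab.symm]
    · by_cases h2 : b = v
      · subst h2
        simp [h1]
      · simp [h1, h2, Ne.symm h1, Ne.symm h2]

end count

/-- the invariant of the merging procedure -/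
def WState {V : Type} [Fintype V] [DecidableEq V] (H : SimpleGraph V) [DecidableRel H.Adj]
    (D D' : Finset V) (S : Multiset (V × List V × V)) : Prop :=
  (S.map (fun t => (t.2.1 : Multiset V))).sum = (D \ D').val ∧
    (S.map (fun t => wedges t.1 t.2.1 t.2.2)).sum = H.edgeFinset.val

section walks

variable {V : Type} [Fintype V] [DecidableEq V] {H : SimpleGraph V} [DecidableRel H.Adj]
  {D : Finset V}

/-- number of ends equal to `v` -/
def wends (v : V) (S : Multiset (V × List V × V)) : ℕ :=
  (S.map (fun t => (if t.1 = v then 1 else 0) + (if t.2.2 = v then 1 else 0))).sum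

theorem wends_add_inner (v : V) (S : Multiset (V × List V × V)) :
    winc v ((S.map (fun t => wedges t.1 t.2.1 t.2.2)).sum) =
      wends v S + 2 * ((S.map (fun t => (t.2.1 : Multiset V))).sum).count v := by
  induction S using Multiset.induction_on with
  | empty => simp [winc, wends]
  | cons t S ih =>
    rw [Multiset.map_cons, Multiset.sum_cons, winc_add, ih, Multiset.map_cons, Multiset.sum_cons,
      Multiset.count_add, winc_wedges, Multiset.coe_count]
    simp only [wends, Multiset.map_cons, Multiset.sum_cons]
    ring

theorem wstate_ends {D' : Finset V} {S : Multiset (V × List V × V)} (hS : WState H D D' S)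
    (v : V) : H.degree v = wends v S + 2 * (D \ D').val.count v := by
  rw [← winc_edgeFinset, ← hS.2, wends_add_inner, hS.1]

theorem wstate_rev {D' : Finset V} {S : Multiset (V × List V × V)} {u w : V} {l : List V}
    (hS : WState H D D' ((u, l, w) ::ₘ S)) : WState H D D' ((w, l.reverse, u) ::ₘ S) := by
  obtain ⟨h1, h2⟩ := hS
  refine ⟨?_, ?_⟩
  · rw [← h1, Multiset.map_cons, Multiset.sum_cons, Multiset.map_cons, Multiset.sum_cons]
    simp
  · rw [← h2, Multiset.map_cons, Multiset.sum_cons, Multiset.map_cons, Multiset.sum_cons,
      wedges_reverse]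

/-- a multiset of triples with an end `v` can be written with `v` as the first end of its head -/
theorem wstate_head {D' : Finset V} {R S : Multiset (V × List V × V)}
    (hS : WState H D D' (R + S)) (v : V) (hv : 0 < wends v S) :
    ∃ (l : List V) (b : V) (S' : Multiset (V × List V × V)),
      WState H D D' (R + ((v, l, b) ::ₘ S')) ∧ wends v S = 1 + (if b = v then 1 else 0) + wends v S' := by
  have hex : ∃ t ∈ S, t.1 = v ∨ t.2.2 = v := by
    by_contra hcon
    push Not at hcon
    have : wends v S = 0 := by
      rw [wends]
      refine Multiset.sum_eq_zero ?_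
      intro x hx
      rw [Multiset.mem_map] at hx
      obtain ⟨t, ht, rfl⟩ := hx
      simp [(hcon t ht).1, (hcon t ht).2]
    omega
  obtain ⟨⟨a, l, b⟩, ht, hab⟩ := hex
  obtain ⟨S', rfl⟩ := Multiset.exists_cons_of_mem ht
  simp only at hab
  rcases hab with h | h
  · subst h
    refine ⟨l, b, S', hS, ?_⟩
    simp [wends]
  · subst h
    refine ⟨l.reverse, a, S', ?_, ?_⟩
    · rw [Multiset.add_cons] at hS ⊢
      exact wstate_rev hS
    · simp [wends]
      ring

theorem wstate_step (hD : ∀ v ∈ D, H.degree v = 2)
    (hcl : ∀ X : Finset V, X ⊆ D → X.Nonempty → ∃ a ∈ X, ∃ b, b ∉ X ∧ H.Adj a b)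
    {D' : Finset V} (hD' : D' ⊆ D) {S : Multiset (V × List V × V)} (hS : WState H D D' S)
    {v : V} (hv : v ∈ D') : ∃ S', WState H D (D'.erase v) S' := by
  have h2 : wends v S = 2 := by
    have h1 := wstate_ends hS v
    rw [hD v (hD' hv)] at h1
    have h3 : (D \ D').val.count v = 0 := by
      rw [Multiset.count_eq_zero, Finset.mem_val]
      simp [hv]
    omega
  obtain ⟨l, b, S1, hS1, hends1⟩ := wstate_head (R := 0) (S := S) (by simpa using hS) v (by omega)
  rw [zero_add] at hS1
  by_cases hb : b = v
  · -- closed walk
    exfalso
    subst hb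
    set X : Finset V := insert b l.toFinset with hX
    have hlD : ∀ x ∈ l, x ∈ D := by
      intro x hx
      have : x ∈ (D \ D').val := by
        rw [← hS1.1, Multiset.map_cons, Multiset.sum_cons, Multiset.mem_add]
        left
        simpa using hx
      rw [Finset.mem_val, Finset.mem_sdiff] at this
      exact this.1
    have hXD : X ⊆ D := by
      intro x hx
      rw [hX, Finset.mem_insert, List.mem_toFinset] at hx
      rcases hx with rfl | hx
      · exact hD' hv
      · exact hlD x hx
    obtain ⟨a, haX, c, hcX, hac⟩ := hcl X hXD ⟨b, by simp [hX]⟩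
    have hE := hS1.2
    rw [Multiset.map_cons, Multiset.sum_cons] at hE
    have hacE : s(a, c) ∈ H.edgeFinset.val := by
      rw [Finset.mem_val, SimpleGraph.mem_edgeFinset, SimpleGraph.mem_edgeSet]
      exact hac
    rw [← hE, Multiset.mem_add] at hacE
    rcases hacE with h | h
    · have := wedges_mem _ _ _ _ h c (by simp)
      apply hcX
      rw [hX, Finset.mem_insert, List.mem_toFinset]
      simp only at this
      tauto
    · obtain ⟨E', hE'⟩ := Multiset.exists_cons_of_mem h
      have hdeg := winc_edgeFinset H a
      rw [hD a (hXD haX), ← hE, winc_add, winc_wedges, hE'] at hdeg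
      have h5 : winc a (s(a, c) ::ₘ E') = wcnt a s(a, c) + winc a E' := by simp [winc]
      rw [h5, wcnt_mk] at hdeg
      simp only [if_true] at hdeg
      have h6 : 1 ≤ (if b = a then 1 else 0) + l.count a := by
        rw [hX, Finset.mem_insert, List.mem_toFinset] at haX
        rcases haX with rfl | h
        · simp
        · have := List.one_le_count_iff.2 h
          omega
      omega
  · have h7 : wends v S1 = 1 := by
      rw [if_neg hb] at hends1
      omega
    obtain ⟨l', b', S2, hS2, hends2⟩ := wstate_head (R := {(v, l, b)}) (S := S1)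
      (by simpa using hS1) v (by omega)
    have hS3 : WState H D D' ((v, l', b') ::ₘ ((v, l, b) ::ₘ S2)) := by
      simpa using hS2
    have hS4 := wstate_rev hS3
    refine ⟨(b', l'.reverse ++ v :: l, b) ::ₘ S2, ?_, ?_⟩
    · have h8 : D \ D'.erase v = insert v (D \ D') := by
        ext x
        simp only [Finset.mem_sdiff, Finset.mem_erase, Finset.mem_insert]
        by_cases hx : x = v
        · subst hx; simp [hD' hv]
        · simp [hx]
      rw [h8, Finset.insert_val_of_notMem (by simp [hv]), ← hS4.1]
      simp only [Multiset.map_cons, Multiset.sum_cons]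
      rw [← Multiset.coe_add, ← Multiset.cons_coe]
      simp only [Multiset.cons_add, Multiset.add_cons, add_assoc]
    · rw [← hS4.2]
      simp only [Multiset.map_cons, Multiset.sum_cons]
      rw [wedges_append, add_assoc]

end walks

theorem walk_decomp {V : Type} [Fintype V] [DecidableEq V] (H : SimpleGraph V)
    [DecidableRel H.Adj] (D : Finset V) (hD : ∀ v ∈ D, H.degree v = 2)
    (hcl : ∀ X : Finset V, X ⊆ D → X.Nonempty → ∃ a ∈ X, ∃ b, b ∉ X ∧ H.Adj a b) :
    ∃ S : List (V × List V × V),
      (∀ t ∈ S, t.1 ∉ D ∧ t.2.2 ∉ D) ∧
      (S.map (fun t => (t.2.1 : Multiset V))).sum = D.val ∧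
      (S.map (fun t => wedges t.1 t.2.1 t.2.2)).sum = H.edgeFinset.val := by
  have hmain : ∀ n : ℕ, ∀ D' : Finset V, D' ⊆ D → D'.card = n →
      (∃ S, WState H D D' S) → ∃ S, WState H D ∅ S := by
    intro n
    induction n with
    | zero =>
      intro D' _ hc hS
      rw [Finset.card_eq_zero.1 hc] at hS
      exact hS
    | succ n ih =>
      intro D' hsub hc hS
      obtain ⟨v, hv⟩ : D'.Nonempty := by
        rw [← Finset.card_pos]; omega
      obtain ⟨S, hS⟩ := hS
      refine ih (D'.erase v) ((Finset.erase_subset _ _).trans hsub) ?_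
        (wstate_step hD hcl hsub hS hv)
      rw [Finset.card_erase_of_mem hv, hc]
      omega
  obtain ⟨S, hS⟩ := hmain D.card D (Finset.Subset.refl _) rfl
    ⟨H.edgeFinset.val.map (fun e => ((Quot.out e).1, [], (Quot.out e).2)), by
      refine ⟨?_, ?_⟩
      · simp
      · rw [Multiset.map_map]
        have : ((fun t : V × List V × V => wedges t.1 t.2.1 t.2.2) ∘
            fun e : Sym2 V => ((Quot.out e).1, ([] : List V), (Quot.out e).2)) =
            fun e => {e} := by
          funext e
          simp only [Function.comp, wedges]
          congr 1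
          exact Quot.out_eq e
        rw [this, Multiset.sum_map_singleton]⟩
  refine ⟨S.toList, ?_, ?_, ?_⟩
  · intro t ht
    rw [Multiset.mem_toList] at ht
    have key : ∀ v ∈ D, wends v S = 0 := by
      intro v hv
      have h1 := wstate_ends hS v
      rw [hD v hv, Finset.sdiff_empty, Multiset.count_eq_one_of_mem D.nodup hv] at h1
      omega
    obtain ⟨S', rfl⟩ := Multiset.exists_cons_of_mem ht
    constructor
    · intro h
      have := key _ h
      simp [wends] at this
    · intro h
      have := key _ h
      simp [wends] at this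
  · rw [← Multiset.sum_coe, ← Multiset.map_coe, Multiset.coe_toList, hS.1, Finset.sdiff_empty]
  · rw [← Multiset.sum_coe, ← Multiset.map_coe, Multiset.coe_toList, hS.2]

end Pool.Agent.H.MP_3b0279_pr
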