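import Pool.Agent.H.MP_3b0279_pr.CorBasic
import Pool.Agent.H.MP_3b0279_pr.EvGraph
import Pool.Agent.H.MP_3b0279_pr.Walks

/-!
Existence of a representation.
-/

set_option autoImplicit false

namespace Pool.Agent.H.MP_3b0279_pr

open Finset

variable {V : Type} [Fintype V] [DecidableEq V]

open Classical in
/-- a vertex set with many inner edges contains a nonempty set of minimal degree two -/
theorem exists_stable_of_count (G : SimpleGraph V) : ∀ (k : ℕ) (Y : Finset V), Y.card = k →
    2 * Y.card < ((Y ×ˢ Y).filter (fun p => G.Adj p.1 p.2)).card →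
    ∃ X : Finset V, X.Nonempty ∧ AStable G ∅ X := by
  intro k
  induction k with
  | zero =>
    intro Y hY h
    rw [Finset.card_eq_zero] at hY
    subst hY
    simp at h
  | succ k ih =>
    intro Y hY h
    by_cases hst : ∀ v ∈ Y, 1 < (Y.filter (fun u => G.Adj v u)).card
    · refine ⟨Y, ?_, ?_, ?_⟩
      · rw [← Finset.card_pos]; omega
      · intro v hv _
        obtain ⟨a, ha, b, hb, hab⟩ := Finset.one_lt_card.1 (hst v hv)
        rw [Finset.mem_filter] at ha hb
        exact ⟨a, ha.1, b, hb.1, hab, ha.2, hb.2⟩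
      · intro v _ hv
        simp at hv
    · push Not at hst
      obtain ⟨v, hv, hlt⟩ := hst
      apply ih (Y.erase v)
      · rw [Finset.card_erase_of_mem hv]; omega
      · have hsub : (Y ×ˢ Y).filter (fun p => G.Adj p.1 p.2) ⊆
            (((Y.erase v) ×ˢ (Y.erase v)).filter (fun p => G.Adj p.1 p.2)) ∪
            ((Y.filter (fun u => G.Adj v u)).image (fun u => (v, u)) ∪
            (Y.filter (fun u => G.Adj v u)).image (fun u => (u, v))) := by
          rintro ⟨a, b⟩ hab
          simp only [Finset.mem_filter, Finset.mem_product, Finset.mem_union, Finset.mem_image,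
            Finset.mem_erase, Prod.mk.injEq] at hab ⊢
          obtain ⟨⟨ha, hb⟩, hadj⟩ := hab
          by_cases h1 : a = v
          · right; left
            exact ⟨b, ⟨hb, h1 ▸ hadj⟩, h1.symm, rfl⟩
          · by_cases h2 : b = v
            · right; right
              exact ⟨a, ⟨ha, h2 ▸ hadj.symm⟩, rfl, h2.symm⟩
            · left
              exact ⟨⟨⟨h1, ha⟩, ⟨h2, hb⟩⟩, hadj⟩
        have h3 := Finset.card_le_card hsub
        have h4 := Finset.card_union_le
          (((Y.erase v) ×ˢ (Y.erase v)).filter (fun p => G.Adj p.1 p.2))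
          ((Y.filter (fun u => G.Adj v u)).image (fun u => (v, u)) ∪
            (Y.filter (fun u => G.Adj v u)).image (fun u => (u, v)))
        have h5 := Finset.card_union_le
          ((Y.filter (fun u => G.Adj v u)).image (fun u => (v, u)))
          ((Y.filter (fun u => G.Adj v u)).image (fun u => (u, v)))
        have h6 : ((Y.filter (fun u => G.Adj v u)).image (fun u => (v, u))).card ≤ 1 :=
          Finset.card_image_le.trans hlt
        have h7 : ((Y.filter (fun u => G.Adj v u)).image (fun u => (u, v))).card ≤ 1 :=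
          Finset.card_image_le.trans hlt
        rw [Finset.card_erase_of_mem hv]
        omega

open Classical in
theorem card_pairs_eq (G : SimpleGraph V) (Y Z : Finset V) :
    ((Y ×ˢ Z).filter (fun p => G.Adj p.1 p.2)).card =
      ∑ v ∈ Y, (Z.filter (fun u => G.Adj v u)).card := by
  rw [Finset.card_filter, Finset.sum_product]
  apply Finset.sum_congr rfl
  intro v _
  rw [Finset.card_filter]

open Classical in
theorem deg_eq_filter {d : V → ℕ} {G : SimpleGraph V} (hG : IsGr d G) (v : V) :
    (univ.filter (fun u => G.Adj v u)).card = d v := by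
  rw [← hG.2 v, ← Set.ncard_coe_finset]
  congr 1
  ext u
  simp

theorem cor_nonempty (d : V → ℕ) (A : Finset V) (hd : 2 * Fintype.card V + 2 ≤ ∑ v, d v)
    (G : SimpleGraph V) (hG : IsGr d G) : (cor G A).Nonempty := by
  classical
  obtain ⟨X, hX, hXs⟩ := exists_stable_of_count G _ univ rfl (by
    rw [card_pairs_eq, Finset.card_univ, Finset.sum_congr rfl (fun v _ => deg_eq_filter hG v)]
    change 2 * Fintype.card V < ∑ v, d v
    omega)
  obtain ⟨x, hx⟩ := hX
  exact ⟨x, cor_mono G ∅ A (Finset.empty_subset A) (cor_max G ∅ X hXs hx)⟩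

/-- stability is preserved by adding a path with both ends in the set -/
theorem AStable.union_path {G : SimpleGraph V} {A C : Finset V} (hC : AStable G A C)
    {a b : V} (p : G.Walk a b) (hp : p.IsPath) (ha : a ∈ C) (hb : b ∈ C) :
    AStable G A (C ∪ p.support.toFinset) := by
  have key : ∀ v ∈ p.support, v ∉ C → ∃ u ∈ C ∪ p.support.toFinset,
      ∃ u' ∈ C ∪ p.support.toFinset, u ≠ u' ∧ G.Adj v u ∧ G.Adj v u' := by
    intro v hv hvC
    rw [SimpleGraph.Walk.mem_support_iff_exists_getVert] at hv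
    obtain ⟨k, hk, hkl⟩ := hv
    have h0 : k ≠ 0 := by
      rintro rfl
      rw [SimpleGraph.Walk.getVert_zero] at hk
      exact hvC (hk ▸ ha)
    have h1 : k ≠ p.length := by
      rintro rfl
      rw [SimpleGraph.Walk.getVert_length] at hk
      exact hvC (hk ▸ hb)
    obtain ⟨k, rfl⟩ : ∃ k', k = k' + 1 := ⟨k - 1, by omega⟩
    refine ⟨p.getVert k, ?_, p.getVert (k + 2), ?_, ?_, ?_, ?_⟩
    · rw [Finset.mem_union, List.mem_toFinset]
      exact Or.inr (p.getVert_mem_support k)
    · rw [Finset.mem_union, List.mem_toFinset]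
      exact Or.inr (p.getVert_mem_support _)
    · intro h
      have := hp.getVert_injOn (by simp; omega) (by simp; omega) h
      omega
    · rw [← hk]
      exact (p.adj_getVert_succ (i := k) (by omega)).symm
    · rw [← hk]
      exact p.adj_getVert_succ (i := k + 1) (by omega)
  refine ⟨?_, ?_⟩
  · intro v hv hvA
    by_cases hvC : v ∈ C
    · obtain ⟨u, hu, u', hu', h⟩ := hC.1 v hvC hvA
      exact ⟨u, Finset.mem_union_left _ hu, u', Finset.mem_union_left _ hu', h⟩
    · rw [Finset.mem_union, List.mem_toFinset] at hv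
      exact key v (hv.resolve_left hvC) hvC
  · intro v hv hvA
    by_cases hvC : v ∈ C
    · obtain ⟨u, hu, h⟩ := hC.2 v hvC hvA
      exact ⟨u, Finset.mem_union_left _ hu, h⟩
    · rw [Finset.mem_union, List.mem_toFinset] at hv
      obtain ⟨u, hu, u', hu', h, h1, h2⟩ := key v (hv.resolve_left hvC) hvC
      exact ⟨u, hu, h1⟩

/-- the core is connected (cut form) -/
theorem cor_conn {G : SimpleGraph V} (hG : G.Connected) (A X : Finset V)
    (hX : X ⊆ cor G A) (hXn : X.Nonempty) (hXc : (cor G A \ X).Nonempty) :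
    ∃ a ∈ X, ∃ b ∈ cor G A, b ∉ X ∧ G.Adj a b := by
  classical
  have hne : (X ×ˢ (cor G A \ X)).Nonempty := hXn.product hXc
  obtain ⟨⟨a, b⟩, hab, hmin⟩ := Finset.exists_min_image (X ×ˢ (cor G A \ X))
    (fun p => G.dist p.1 p.2) hne
  rw [Finset.mem_product, Finset.mem_sdiff] at hab
  obtain ⟨haX, hbC, hbX⟩ := hab
  obtain ⟨p, hp, hpl⟩ := hG.exists_path_of_dist a b
  have hst := (cor_stable G A).union_path p hp (hX haX) hbC
  have hsub := cor_max G A _ hst
  cases p with
  | nil => exact absurd haX hbX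
  | @cons _ c _ h q =>
    have hc : c ∈ cor G A := by
      apply hsub
      rw [Finset.mem_union, List.mem_toFinset]
      right
      rw [SimpleGraph.Walk.support_cons]
      exact List.mem_cons_of_mem _ (SimpleGraph.Walk.start_mem_support q)
    by_cases hcX : c ∈ X
    · exfalso
      have h1 := hmin (c, b) (by
        rw [Finset.mem_product, Finset.mem_sdiff]; exact ⟨hcX, hbC, hbX⟩)
      have h2 : G.dist c b ≤ q.length := SimpleGraph.dist_le q
      rw [SimpleGraph.Walk.length_cons] at hpl
      simp only at h1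
      omega
    · exact ⟨a, haX, c, hc, hcX, h⟩


theorem setDist_eq_zero (G : SimpleGraph V) (X : Finset V) (x : V) (hx : x ∈ X) :
    setDist G X x = 0 := by
  have := setDist_le G X x x hx
  rw [SimpleGraph.dist_self] at this
  omega

theorem exists_closer (G : SimpleGraph V) (hG : G.Connected) (X : Finset V) (hX : X.Nonempty)
    (v : V) (hv : v ∉ X) : ∃ u, G.Adj v u ∧ setDist G X u < setDist G X v := by
  obtain ⟨x, hx, hd⟩ := exists_setDist G X v hX
  obtain ⟨p, hp, hpl⟩ := hG.exists_path_of_dist v x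
  cases p with
  | nil => exact absurd hx hv
  | @cons _ c _ h q =>
    refine ⟨c, h, ?_⟩
    have h1 := setDist_le G X c x hx
    have h2 : G.dist c x ≤ q.length := SimpleGraph.dist_le q
    rw [SimpleGraph.Walk.length_cons] at hpl
    omega

/-- parent maps: existence and properties -/
theorem exists_parent (G : SimpleGraph V) (hG : G.Connected) (A : Finset V)
    (hne : (cor G A).Nonempty) : ∃ f : V → V,
      (∀ v ∈ cor G A, f v = v) ∧
      (∀ v, v ∉ cor G A → G.Adj v (f v)) ∧
      (∀ v, v ∉ cor G A → setDist G (cor G A) (f v) < setDist G (cor G A) v) ∧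
      (∀ v b, v ∉ cor G A → G.Adj v b → b ≠ f v → b ∉ cor G A ∧ f b = v) ∧
      (∀ v b, v ∈ cor G A → b ∉ cor G A → G.Adj v b → f b = v) := by
  classical
  have hex : ∀ v, ∃ u, v ∉ cor G A →
      G.Adj v u ∧ setDist G (cor G A) u < setDist G (cor G A) v := by
    intro v
    by_cases hv : v ∈ cor G A
    · exact ⟨v, fun h => absurd hv h⟩
    · obtain ⟨u, hu⟩ := exists_closer G hG (cor G A) hne v hv
      exact ⟨u, fun _ => hu⟩
  choose g hg using hex
  refine ⟨fun v => if v ∈ cor G A then v else g v, ?_, ?_, ?_, ?_, ?_⟩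
  · intro v hv
    simp only [hv, if_true]
  · intro v hv
    simp only [hv, if_false]
    exact (hg v hv).1
  · intro v hv
    simp only [hv, if_false]
    exact (hg v hv).2
  · intro v b hv hadj hne'
    simp only [hv, if_false] at hne'
    have h1 : setDist G (cor G A) v < setDist G (cor G A) b := by
      by_contra hcon
      push Not at hcon
      exact hne' (unique_parent G hG A hne v b (g v) hv hadj (hg v hv).1 hcon (hg v hv).2.le)
    have hb : b ∉ cor G A := by
      intro hb
      rw [setDist_eq_zero G _ b hb] at h1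
      omega
    refine ⟨hb, ?_⟩
    simp only [hb, if_false]
    exact unique_parent G hG A hne b (g b) v hb (hg b hb).1 hadj.symm (hg b hb).2.le h1.le
  · intro v b hv hb hadj
    simp only [hb, if_false]
    refine unique_parent G hG A hne b (g b) v hb (hg b hb).1 hadj.symm (hg b hb).2.le ?_
    rw [setDist_eq_zero G _ v hv]
    omega

/-- `j`-th vertex of the walk `u, l..., v` -/
def wseq {V : Type} (u : V) (l : List V) (v : V) (j : ℕ) : V :=
  if j = 0 then u else if h : j - 1 < l.length then l[j - 1] else v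

theorem wseq_zero {V : Type} (u : V) (l : List V) (v : V) : wseq u l v 0 = u := by
  simp [wseq]

theorem wseq_cons_succ {V : Type} (u a : V) (l : List V) (v : V) (j : ℕ) :
    wseq u (a :: l) v (j + 1) = wseq a l v j := by
  cases j with
  | zero => simp [wseq]
  | succ j => simp [wseq]

theorem mem_wedges {V : Type} (l : List V) : ∀ (u v : V) (e : Sym2 V),
    e ∈ wedges u l v ↔ ∃ j, j ≤ l.length ∧ s(wseq u l v j, wseq u l v (j + 1)) = e := by
  induction l with
  | nil =>
    intro u v e
    simp only [wedges, Multiset.mem_singleton, List.length_nil, Nat.le_zero]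
    constructor
    · rintro rfl
      exact ⟨0, rfl, by simp [wseq]⟩
    · rintro ⟨j, rfl, h⟩
      rw [← h]
      simp [wseq]
  | cons a l ih =>
    intro u v e
    simp only [wedges, Multiset.mem_cons, ih]
    constructor
    · rintro (rfl | ⟨j, hj, h⟩)
      · refine ⟨0, Nat.zero_le _, ?_⟩
        rw [wseq_zero, wseq_cons_succ, wseq_zero]
      · refine ⟨j + 1, by simpa using hj, ?_⟩
        rw [wseq_cons_succ, wseq_cons_succ]
        exact h
    · rintro ⟨j, hj, h⟩
      cases j with
      | zero =>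
        left
        rw [wseq_zero, wseq_cons_succ, wseq_zero] at h
        exact h.symm
      | succ j =>
        right
        refine ⟨j, by simpa using hj, ?_⟩
        rw [wseq_cons_succ, wseq_cons_succ] at h
        exact h

/-- number of ends of `e` equal to `x` -/
def einc (x : V) : Sym2 V → ℕ :=
  Sym2.lift ⟨fun a b => (if a = x then 1 else 0) + (if b = x then 1 else 0),
    fun a b => Nat.add_comm _ _⟩

@[simp] theorem einc_mk (x a b : V) :
    einc x s(a, b) = (if a = x then 1 else 0) + (if b = x then 1 else 0) := rfl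

theorem wedges_einc (x : V) (l : List V) : ∀ (u v : V),
    ((wedges u l v).map (einc x)).sum =
      (if u = x then 1 else 0) + 2 * l.count x + (if v = x then 1 else 0) := by
  induction l with
  | nil => intro u v; simp [wedges]
  | cons a l ih =>
    intro u v
    rw [wedges, Multiset.map_cons, Multiset.sum_cons, ih, einc_mk, List.count_cons]
    by_cases h : a = x
    · simp only [h, if_true, beq_self_eq_true]; omega
    · have h' : (a == x) = false := by simpa using h
      simp only [h, h', if_false, Bool.false_eq_true]; omega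

theorem degree_eq_einc (H : SimpleGraph V) [DecidableRel H.Adj] (x : V) :
    H.degree x = ∑ e ∈ H.edgeFinset, einc x e := by
  rw [← SimpleGraph.card_incidenceFinset_eq_degree, SimpleGraph.incidenceFinset_eq_filter,
    Finset.card_filter]
  apply Finset.sum_congr rfl
  intro e he
  induction e with
  | h a b =>
    rw [SimpleGraph.mem_edgeFinset, SimpleGraph.mem_edgeSet] at he
    have hab := he.ne
    simp only [Sym2.mem_iff, einc_mk]
    by_cases h1 : a = x
    · have h2 : b ≠ x := fun h => hab (h1.trans h.symm)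
      simp [h1, h2]
    · by_cases h2 : b = x
      · simp [h1, h2]
      · simp [h1, h2, Ne.symm h1, Ne.symm h2]

theorem decomp_fin (H : SimpleGraph V) [DecidableRel H.Adj] (D : Finset V)
    (hD : ∀ v ∈ D, H.degree v = 2)
    (hcl : ∀ X : Finset V, X ⊆ D → X.Nonempty → ∃ a ∈ X, ∃ b, b ∉ X ∧ H.Adj a b) :
    ∃ m, ∃ (u v : Fin m → V) (l : Fin m → List V),
      (∀ i, u i ∉ D ∧ v i ∉ D) ∧
      (∑ i, ((l i : List V) : Multiset V) = D.val) ∧
      (∑ i, wedges (u i) (l i) (v i) = H.edgeFinset.val) := by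
  obtain ⟨S, h1, h2, h3⟩ := walk_decomp H D hD hcl
  refine ⟨S.length, fun i => (S[i]).1, fun i => (S[i]).2.2, fun i => (S[i]).2.1, ?_, ?_, ?_⟩
  · intro i
    exact h1 _ (List.getElem_mem _)
  · rw [← h2, ← List.sum_ofFn]
    congr 1
    apply List.ext_getElem
    · simp
    · intro n hn1 hn2
      simp
  · rw [← h3, ← List.sum_ofFn]
    congr 1
    apply List.ext_getElem
    · simp
    · intro n hn1 hn2
      simp


theorem msum_facts {ι α : Type} [Fintype ι] [DecidableEq ι] [DecidableEq α]
    (f : ι → Multiset α) (s : Multiset α) (h : ∑ i, f i = s) (hs : s.Nodup) :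
    (∀ x, x ∈ s ↔ ∃ i, x ∈ f i) ∧ (∀ i, (f i).Nodup) ∧
    (∀ i j x, x ∈ f i → x ∈ f j → i = j) := by
  subst h
  refine ⟨fun x => by simp [Multiset.mem_sum], fun i => ?_, fun i j x hi hj => ?_⟩
  · exact Multiset.nodup_of_le
      (Finset.single_le_sum (f := f) (fun _ _ => Multiset.zero_le _) (mem_univ i)) hs
  · by_contra hij
    have h1 : f i + f j ≤ ∑ k, f k := by
      rw [← Finset.sum_pair hij]
      exact Finset.sum_le_sum_of_subset (Finset.subset_univ _)
    have h2 := Multiset.nodup_of_le h1 hs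
    rw [Multiset.nodup_add] at h2
    exact Multiset.disjoint_left.1 h2.2.2 hi hj

/-- the graph induced on `C` (on the same vertex set) -/
def inG (G : SimpleGraph V) (C : Finset V) : SimpleGraph V where
  Adj a b := a ∈ C ∧ b ∈ C ∧ G.Adj a b
  symm := ⟨fun _ _ h => ⟨h.2.1, h.1, h.2.2.symm⟩⟩
  loopless := ⟨fun _ h => h.2.2.ne rfl⟩

theorem inG_degree (G : SimpleGraph V) [DecidableRel G.Adj] (C : Finset V)
    [DecidableRel (inG G C).Adj] (v : V) (hv : v ∈ C) :
    (inG G C).degree v = (C.filter (fun u => G.Adj v u)).card := by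
  rw [← SimpleGraph.card_neighborFinset_eq_degree]
  congr 1
  ext u
  rw [SimpleGraph.mem_neighborFinset, Finset.mem_filter]
  exact ⟨fun h => ⟨h.2.1, h.2.2⟩, fun h => ⟨hv, h.1, h.2⟩⟩

theorem inG_degree_out (G : SimpleGraph V) (C : Finset V)
    [DecidableRel (inG G C).Adj] (v : V) (hv : v ∉ C) :
    (inG G C).degree v = 0 := by
  rw [← SimpleGraph.card_neighborFinset_eq_degree, Finset.card_eq_zero]
  ext u
  rw [SimpleGraph.mem_neighborFinset]
  simp only [Finset.notMem_empty, iff_false]
  exact fun h => hv h.1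

/-- kernel map of walk data -/
def kap {m : ℕ} (u v : Fin m → V) (σ : Slot m) : V := cond σ.2 (v σ.1) (u σ.1)

theorem kdeg_kap {m : ℕ} (u v : Fin m → V) (x : V) :
    kdeg (kap u v) x = ∑ i, ((if u i = x then 1 else 0) + (if v i = x then 1 else 0)) := by
  rw [kdeg, Finset.card_filter, Fintype.sum_prod_type]
  apply Finset.sum_congr rfl
  intro i _
  rw [Fintype.sum_bool]
  simp only [kap, cond_true, cond_false]
  exact Nat.add_comm _ _


theorem ch_in (d : V → ℕ) (G : SimpleGraph V) [DecidableRel G.Adj] (hG : IsGr d G)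
    (C : Finset V) (f : V → V)
    (hf2 : ∀ v, v ∉ C → G.Adj v (f v))
    (hf5 : ∀ v b, v ∈ C → b ∉ C → G.Adj v b → f b = v) (v : V) (hv : v ∈ C) :
    d v = (C.filter (fun u => G.Adj v u)).card +
      (univ.filter (fun u => u ∉ C ∧ f u = v)).card := by
  classical
  rw [← deg_eq_filter hG v, ← Finset.card_union_of_disjoint]
  · congr 1
    ext u
    simp only [Finset.mem_filter, Finset.mem_univ, true_and, Finset.mem_union]
    constructor
    · intro h
      by_cases hu : u ∈ C
      · exact Or.inl ⟨hu, h⟩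
      · exact Or.inr ⟨hu, hf5 v u hv hu h⟩
    · rintro (h | ⟨h1, h2⟩)
      · exact h.2
      · have := hf2 u h1
        rw [h2] at this
        exact this.symm
  · rw [Finset.disjoint_left]
    intro u hu hu'
    rw [Finset.mem_filter] at hu hu'
    exact hu'.2.1 hu.1

theorem ch_out (d : V → ℕ) (G : SimpleGraph V) (hG : IsGr d G)
    (C : Finset V) (f : V → V) (t : V → ℕ)
    (hf2 : ∀ v, v ∉ C → G.Adj v (f v))
    (hf3 : ∀ v, v ∉ C → t (f v) < t v)
    (hf4 : ∀ v b, v ∉ C → G.Adj v b → b ≠ f v → b ∉ C ∧ f b = v) (v : V) (hv : v ∉ C) :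
    d v = 1 + (univ.filter (fun u => u ∉ C ∧ f u = v)).card := by
  classical
  have hn : f v ∉ univ.filter (fun u => u ∉ C ∧ f u = v) := by
    intro h
    rw [Finset.mem_filter] at h
    have h1 := hf3 v hv
    have h2 := hf3 (f v) h.2.1
    rw [h.2.2] at h2
    omega
  rw [← deg_eq_filter hG v, Nat.add_comm, ← Finset.card_insert_of_notMem hn]
  congr 1
  ext u
  simp only [Finset.mem_filter, Finset.mem_univ, true_and, Finset.mem_insert]
  constructor
  · intro h
    by_cases hu : u = f v
    · exact Or.inl hu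
    · exact Or.inr (hf4 v u hv h hu)
  · rintro (h | ⟨h1, h2⟩)
    · rw [h]; exact hf2 v hv
    · have := hf2 u h1
      rw [h2] at this
      exact this.symm

theorem iter_acyc (C : Finset V) (f : V → V) (t : V → ℕ)
    (hf3 : ∀ v, v ∉ C → t (f v) < t v) : ∀ (n : ℕ) (v : V), t v ≤ n → ∃ k : ℕ, f^[k] v ∈ C := by
  intro n
  induction n with
  | zero =>
    intro v hv
    by_cases h : v ∈ C
    · exact ⟨0, h⟩
    · have := hf3 v h; omega
  | succ n ih =>
    intro v hv
    by_cases h : v ∈ C
    · exact ⟨0, h⟩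
    · obtain ⟨k, hk⟩ := ih (f v) (by have := hf3 v h; omega)
      exact ⟨k + 1, by rw [Function.iterate_succ_apply]; exact hk⟩

theorem exists_rep (d : V → ℕ) (A : Finset V) (hA : ∀ v ∈ A, d v = 1)
    (hd : 2 * Fintype.card V + 2 ≤ ∑ v, d v) (G : SimpleGraph V) (hG : IsGr d G) :
    ∃ m, ∃ ρ : Rep V m, IsRep d A ρ ∧ ρ.ev = G := by
  classical
  have hne := cor_nonempty d A hd G hG
  have hst := cor_stable G A
  have hAC := sub_cor G hG.1 A hne
  obtain ⟨f, hf1, hf2, hf3, hf4, hf5⟩ := exists_parent G hG.1 A hne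
  have hconn := cor_conn hG.1 A
  generalize cor G A = C at hne hst hAC hf1 hf2 hf3 hf4 hf5 hconn
  generalize setDist G C = t at hf3
  have hch1 := ch_in d G hG C f hf2 hf5
  have hch2 := ch_out d G hG C f t hf2 hf3 hf4
  have hchsum : ∑ v, (univ.filter (fun u => u ∉ C ∧ f u = v)).card = (Cᶜ).card := by
    rw [Finset.card_eq_sum_card_fiberwise (f := f) (t := univ) (fun _ _ => Finset.mem_univ _)]
    apply Finset.sum_congr rfl
    intro v _
    congr 1
    ext u
    simp
  have hCcard : C.card + (Cᶜ).card = Fintype.card V := Finset.card_add_card_compl C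
  have hsum : ∑ v, d v = ∑ v ∈ C, (C.filter (fun u => G.Adj v u)).card + 2 * (Cᶜ).card := by
    have e1 : ∀ v, d v = (if v ∈ C then (C.filter (fun u => G.Adj v u)).card else 1) +
        (univ.filter (fun u => u ∉ C ∧ f u = v)).card := by
      intro v
      by_cases hv : v ∈ C
      · rw [if_pos hv]; exact hch1 v hv
      · rw [if_neg hv]; exact hch2 v hv
    rw [Finset.sum_congr rfl (fun v _ => e1 v), Finset.sum_add_distrib, hchsum,
      Finset.sum_ite]
    simp only [Finset.sum_const, smul_eq_mul, mul_one]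
    have e2 : univ.filter (fun x => x ∈ C) = C := by ext; simp
    have e3 : univ.filter (fun x => x ∉ C) = Cᶜ := by ext; simp
    rw [e2, e3]
    omega
  have hdegsum : 2 * C.card + 2 ≤ ∑ v ∈ C, (C.filter (fun u => G.Adj v u)).card := by omega
  haveI : DecidableRel (inG G C).Adj := Classical.decRel _
  have hHd1 : ∀ v ∈ C, (inG G C).degree v = (C.filter (fun u => G.Adj v u)).card := fun v hv => by
    convert inG_degree G C v hv
  have hHd0 : ∀ v, v ∉ C → (inG G C).degree v = 0 := fun v hv => inG_degree_out G C v hv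
  -- cut connectivity of the core
  have hcut : ∀ X : Finset V, (∃ a ∈ X, a ∈ C) → (∃ b ∈ C, b ∉ X) →
      ∃ a ∈ X, ∃ b, b ∉ X ∧ (inG G C).Adj a b := by
    rintro X ⟨a, haX, haC⟩ ⟨b, hbC, hbX⟩
    obtain ⟨x, hx, y, hy, hyX, hadj⟩ := hconn (X ∩ C) Finset.inter_subset_right
      ⟨a, Finset.mem_inter.2 ⟨haX, haC⟩⟩
      ⟨b, Finset.mem_sdiff.2 ⟨hbC, fun h => hbX (Finset.mem_inter.1 h).1⟩⟩
    rw [Finset.mem_inter] at hx hyX
    exact ⟨x, hx.1, y, fun h => hyX ⟨h, hy⟩, hx.2, hy, hadj⟩
  obtain ⟨D, hDdef⟩ : ∃ D : Finset V, D = C.filter (fun v => (inG G C).degree v = 2) := ⟨_, rfl⟩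
  have hDC : ∀ v, v ∈ D ↔ v ∈ C ∧ (inG G C).degree v = 2 := by
    intro v; rw [hDdef, Finset.mem_filter]
  have hCD : ∃ b ∈ C, b ∉ D := by
    by_contra hcon
    push Not at hcon
    have : ∑ v ∈ C, (C.filter (fun u => G.Adj v u)).card = ∑ v ∈ C, 2 := by
      apply Finset.sum_congr rfl
      intro v hv
      rw [← hHd1 v hv]
      exact ((hDC v).1 (hcon v hv)).2
    rw [this] at hdegsum
    simp only [Finset.sum_const, smul_eq_mul] at hdegsum
    omega
  obtain ⟨m, u, v, l, hend, hsD, hsE⟩ := decomp_fin (inG G C) D (fun v hv => ((hDC v).1 hv).2)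
    (fun X hX hXn => by
      obtain ⟨x, hx⟩ := hXn
      obtain ⟨b, hb, hbD⟩ := hCD
      exact hcut X ⟨x, hx, ((hDC x).1 (hX hx)).1⟩ ⟨b, hb, fun h => hbD (hX h)⟩)
  obtain ⟨hD1, hD2, hD3⟩ := msum_facts _ _ hsD D.nodup
  obtain ⟨hE1, hE2, hE3⟩ := msum_facts _ _ hsE (inG G C).edgeFinset.nodup
  simp only [Multiset.mem_coe, Multiset.coe_nodup, Finset.mem_val] at hD1 hD2 hD3
  have hE1' : ∀ a b, (inG G C).Adj a b ↔ ∃ i, s(a, b) ∈ wedges (u i) (l i) (v i) := by
    intro a b
    rw [← hE1, Finset.mem_val, SimpleGraph.mem_edgeFinset, SimpleGraph.mem_edgeSet]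
  -- degrees
  have hdegx : ∀ x, (inG G C).degree x = kdeg (kap u v) x + 2 * ∑ i, (l i).count x := by
    intro x
    rw [degree_eq_einc, kdeg_kap, Finset.mul_sum, ← Finset.sum_add_distrib]
    have e1 : ∑ e ∈ (inG G C).edgeFinset, einc x e =
        (((inG G C).edgeFinset.val).map (einc x)).sum := rfl
    rw [e1, ← hsE]
    have e2 : (Multiset.map (einc x) (∑ i, wedges (u i) (l i) (v i))).sum =
        ∑ i, ((wedges (u i) (l i) (v i)).map (einc x)).sum := by
      rw [← Multiset.coe_mapAddMonoidHom, map_sum, ← Multiset.coe_sumAddMonoidHom, map_sum]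
    rw [e2]
    apply Finset.sum_congr rfl
    intro i _
    rw [wedges_einc]
    omega
  have hcount0 : ∀ x, x ∉ D → ∑ i, (l i).count x = 0 := by
    intro x hx
    apply Finset.sum_eq_zero
    intro i _
    rw [List.count_eq_zero]
    intro h
    exact hx ((hD1 x).2 ⟨i, h⟩)
  have hkd0 : ∀ x, x ∉ D → kdeg (kap u v) x = (inG G C).degree x := by
    intro x hx
    rw [hdegx, hcount0 x hx, Nat.mul_zero, Nat.add_zero]
  have hkdpos : ∀ σ : Slot m, 0 < kdeg (kap u v) (kap u v σ) := by
    intro σ
    rw [kdeg, Finset.card_pos]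
    exact ⟨σ, by simp⟩
  have hendσ : ∀ σ : Slot m, kap u v σ ∉ D := by
    rintro ⟨i, b⟩
    cases b
    · exact (hend i).1
    · exact (hend i).2
  have hkdD : ∀ x, x ∈ D → kdeg (kap u v) x = 0 := by
    intro x hx
    rw [kdeg, Finset.card_eq_zero]
    ext σ
    simp only [Finset.mem_filter, Finset.mem_univ, true_and, Finset.notMem_empty, iff_false]
    intro h
    exact hendσ σ (h ▸ hx)
  have hσC : ∀ σ : Slot m, kap u v σ ∈ C := by
    intro σ
    by_contra hcon
    have h1 := hkdpos σ
    rw [hkd0 _ (hendσ σ), hHd0 _ hcon] at h1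
    omega
  have hmin : ∀ x ∈ C, x ∉ A → 2 ≤ (inG G C).degree x := by
    intro x hx hxA
    rw [hHd1 x hx]
    obtain ⟨a, ha, b, hb, hab, h1, h2⟩ := hst.1 x hx hxA
    exact Finset.one_lt_card.2 ⟨a, Finset.mem_filter.2 ⟨ha, h1⟩, b,
      Finset.mem_filter.2 ⟨hb, h2⟩, hab⟩
  have hminA : ∀ x ∈ A, (inG G C).degree x = 1 := by
    intro x hx
    have hxC := hAC hx
    have h1 := hch1 x hxC
    rw [hA x hx, ← hHd1 x hxC] at h1
    have h2 : 0 < (inG G C).degree x := by
      rw [hHd1 x hxC, Finset.card_pos]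
      obtain ⟨a, ha, h3⟩ := hst.2 x hxC hx
      exact ⟨a, Finset.mem_filter.2 ⟨ha, h3⟩⟩
    omega
  have hpos : ∀ x ∈ C, 0 < (inG G C).degree x := by
    intro x hx
    by_cases hxA : x ∈ A
    · rw [hminA x hxA]; exact Nat.one_pos
    · have := hmin x hx hxA; omega
  have hlen : ∀ i, (l i).length < Fintype.card V + 1 := by
    intro i
    have h1 := Finset.card_le_univ (l i).toFinset
    rw [List.toFinset_card_of_nodup (hD2 i)] at h1
    omega
  let ρ : Rep V m := ⟨kap u v, fun i => ⟨(l i).length, hlen i⟩, fun i j => (l i)[j.val], f⟩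
  have hw : ∀ i j, ρ.w i j = wseq (u i) (l i) (v i) j := fun i j => rfl
  have hP : ρ.P = D := by
    ext x
    rw [Rep.mem_P, hD1]
    constructor
    · rintro ⟨i, j, h⟩
      exact ⟨i, h ▸ List.getElem_mem _⟩
    · rintro ⟨i, h⟩
      obtain ⟨j, hj, hx⟩ := List.getElem_of_mem h
      exact ⟨i, ⟨j, hj⟩, hx⟩
  have hB : ρ.B = C \ D := by
    ext x
    rw [Rep.mem_B, Finset.mem_sdiff]
    constructor
    · rintro ⟨σ, rfl⟩
      exact ⟨hσC σ, hendσ σ⟩
    · rintro ⟨h1, h2⟩
      have h3 := hpos x h1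
      rw [← hkd0 x h2, kdeg, Finset.card_pos] at h3
      obtain ⟨σ, hσ⟩ := h3
      exact ⟨σ, (Finset.mem_filter.1 hσ).2⟩
  have hIn : ρ.In = C := by
    rw [Rep.In, hP, hB]
    apply Finset.sdiff_union_of_subset
    intro x hx
    exact ((hDC x).1 hx).1
  refine ⟨m, ρ, ⟨⟨?_, ?_, ?_⟩, ⟨?_, ?_⟩, ?_, ?_, ?_, ?_, ?_⟩, ?_⟩
  · -- KConn
    intro Y hY1 hY2
    by_contra hcon
    push Not at hcon
    have huv : ∀ i, u i ∈ Y ↔ v i ∈ Y := by
      intro i
      constructor
      · intro h; exact hcon (i, false) h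
      · intro h; exact hcon (i, true) h
    let Y' : Finset V := (Y ∩ (C \ D)) ∪ univ.filter (fun x => ∃ i, x ∈ l i ∧ u i ∈ Y)
    have hY'D : ∀ i x, x ∈ l i → (x ∈ Y' ↔ u i ∈ Y) := by
      intro i x hx
      have hxD : x ∈ D := (hD1 x).2 ⟨i, hx⟩
      simp only [Y', Finset.mem_union, Finset.mem_inter, Finset.mem_sdiff, Finset.mem_filter,
        Finset.mem_univ, true_and]
      constructor
      · rintro (h | ⟨j, hj, hjY⟩)
        · exact absurd hxD h.2.2
        · rw [hD3 i j x hx hj]; exact hjY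
      · intro h
        exact Or.inr ⟨i, hx, h⟩
    have hY'C : ∀ σ : Slot m, kap u v σ ∈ Y' ↔ kap u v σ ∈ Y := by
      intro σ
      simp only [Y', Finset.mem_union, Finset.mem_inter, Finset.mem_sdiff, Finset.mem_filter,
        Finset.mem_univ, true_and]
      constructor
      · rintro (h | ⟨j, hj, hjY⟩)
        · exact h.1
        · exact absurd ((hD1 _).2 ⟨j, hj⟩) (hendσ σ)
      · intro h
        exact Or.inl ⟨h, hσC σ, hendσ σ⟩
    have hwY : ∀ i j, j ≤ (l i).length + 1 → (wseq (u i) (l i) (v i) j ∈ Y' ↔ u i ∈ Y) := by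
      intro i j hj
      unfold wseq
      split_ifs with h1 h2
      · exact hY'C (i, false)
      · exact hY'D i _ (List.getElem_mem _)
      · rw [huv i]; exact hY'C (i, true)
    obtain ⟨σ, hσ⟩ := hY1
    obtain ⟨τ, hτ⟩ := hY2
    obtain ⟨a, haY, b, hbY, hadj⟩ := hcut Y' ⟨kap u v σ, (hY'C σ).2 hσ, hσC σ⟩
      ⟨kap u v τ, hσC τ, fun h => hτ ((hY'C τ).1 h)⟩
    rw [hE1'] at hadj
    obtain ⟨i, hi⟩ := hadj
    rw [mem_wedges] at hi
    obtain ⟨j, hj, he⟩ := hi
    have h1 := hwY i j (by omega)
    have h2 := hwY i (j + 1) (by omega)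
    rw [Sym2.eq_iff] at he
    rcases he with ⟨e1, e2⟩ | ⟨e1, e2⟩
    · rw [e1] at h1; rw [e2] at h2
      exact hbY (h2.2 (h1.1 haY))
    · rw [e1] at h1; rw [e2] at h2
      exact hbY (h1.2 (h2.1 haY))
  · -- leaves
    intro x hx
    have h1 := hminA x hx
    have h2 : x ∉ D := by
      intro h
      have := ((hDC x).1 h).2
      omega
    exact (hkd0 x h2).trans h1
  · intro x hxA
    by_cases hxD : x ∈ D
    · exact Or.inl (hkdD x hxD)
    · have h1 : kdeg ρ.κ x = (inG G C).degree x := hkd0 x hxD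
      rw [h1]
      by_cases hxC : x ∈ C
      · right
        have h2 := hmin x hxC hxA
        have h3 : (inG G C).degree x ≠ 2 := fun h => hxD ((hDC x).2 ⟨hxC, h⟩)
        omega
      · exact Or.inl (hHd0 x hxC)
  · -- short paths are not loops
    intro i hi
    rw [Finset.mem_filter] at hi
    have hi2 : (l i).length ≤ 1 := hi.2
    change u i ≠ v i
    have hnd := hE2 i
    intro huv
    rcases hl : l i with _ | ⟨a, l'⟩
    · have h1 : (inG G C).Adj (u i) (v i) := by
        rw [hE1']
        exact ⟨i, by rw [hl]; simp [wedges]⟩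
      exact h1.ne huv
    · rw [hl] at hi2 hnd
      have h2 : l' = [] := by
        rw [List.length_cons] at hi2
        exact List.length_eq_zero_iff.1 (by omega)
      subst h2
      rw [huv] at hnd
      simp only [wedges, Multiset.nodup_cons, Multiset.mem_singleton] at hnd
      exact hnd.1 Sym2.eq_swap
  · -- direct edges are not parallel
    intro i hi j hj hij hs
    rw [Finset.mem_filter] at hi hj
    have hi2 : (l i).length = 0 := hi.2
    have hj2 : (l j).length = 0 := hj.2
    rw [List.length_eq_zero_iff] at hi2 hj2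
    apply hij
    apply hE3 i j s(u i, v i)
    · rw [hi2]; simp [wedges]
    · rw [hj2]
      have hs' : s(u i, v i) = s(u j, v j) := hs
      rw [hs']
      simp [wedges]
  · -- inj
    intro i j i' j' h
    have h' : (l i)[j.val] = (l i')[j'.val] := h
    have hii : i = i' := by
      refine hD3 i i' _ (List.getElem_mem j.isLt) ?_
      rw [h']
      exact List.getElem_mem _
    subst hii
    have := (List.Nodup.getElem_inj_iff (hD2 i)).1 h'
    congr 1
    exact Fin.ext this
  · intro i j σ h
    have h' : (l i)[j.val] = kap u v σ := h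
    apply hendσ σ
    rw [← h', hD1]
    exact ⟨i, List.getElem_mem _⟩
  · intro x hx
    rw [hIn] at hx
    exact hf1 x hx
  · intro x
    rw [hIn]
    exact iter_acyc C f t hf3 (t x) x le_rfl
  · -- degrees
    intro x
    have hc : ρ.childs x = (univ.filter (fun u => u ∉ C ∧ f u = x)).card := by
      rw [Rep.childs, hIn]
    rw [hc, Rep.tdeg, hP, hB]
    by_cases hxC : x ∈ C
    · rw [hch1 x hxC, ← hHd1 x hxC]
      by_cases hxD : x ∈ D
      · rw [if_pos hxD, ((hDC x).1 hxD).2]
        omega
      · rw [if_neg hxD, if_pos (Finset.mem_sdiff.2 ⟨hxC, hxD⟩)]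
        have h1 : kdeg ρ.κ x = (inG G C).degree x := hkd0 x hxD
        rw [h1]
        omega
    · rw [hch2 x hxC, if_neg (fun h => hxC ((hDC x).1 h).1),
        if_neg (fun h => hxC (Finset.mem_sdiff.1 h).1)]
      omega
  · -- the graph
    ext a b
    change (a ≠ b ∧ ((∃ i j, j ≤ (ρ.ℓ i).val ∧ s(ρ.w i j, ρ.w i (j + 1)) = s(a, b)) ∨
      (a ∉ ρ.In ∧ ρ.f a = b) ∨ (b ∉ ρ.In ∧ ρ.f b = a))) ↔ G.Adj a b
    have h1 : (∃ i j, j ≤ (ρ.ℓ i).val ∧ s(ρ.w i j, ρ.w i (j + 1)) = s(a, b)) ↔
        (inG G C).Adj a b := by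
      rw [hE1']
      apply exists_congr
      intro i
      rw [mem_wedges]
      exact Iff.rfl
    rw [h1, hIn]
    constructor
    · rintro ⟨_, h | ⟨h, h'⟩ | ⟨h, h'⟩⟩
      · exact h.2.2
      · have := hf2 a h
        have h'' : f a = b := h'
        rw [h''] at this
        exact this
      · have := hf2 b h
        have h'' : f b = a := h'
        rw [h''] at this
        exact this.symm
    · intro h
      refine ⟨h.ne, ?_⟩
      by_cases ha : a ∈ C
      · by_cases hb : b ∈ C
        · exact Or.inl ⟨ha, hb, h⟩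
        · exact Or.inr (Or.inr ⟨hb, hf5 a b ha hb h⟩)
      · by_cases hba : b = f a
        · exact Or.inr (Or.inl ⟨ha, hba.symm⟩)
        · exact Or.inr (Or.inr (hf4 a b ha h hba))

end Pool.Agent.H.MP_3b0279_pr
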