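import Pool.Agent.H.MP_3b0279_pr.PathFam

/-!
Expected maximal length of kernel paths for a good kernel.
-/

set_option autoImplicit false

namespace Pool.Agent.H.MP_3b0279_pr

open Finset

variable {V : Type} [Fintype V] [DecidableEq V] {m : ℕ}

/-- the maximum over pairs of the path lengths -/
def gmax (F : Fin m → Fin m → Finset (Fin m)) (ℓ : Fin m → ℕ) : ℕ :=
  (univ : Finset (Fin m × Fin m)).sup (fun p => 2 * ∑ l ∈ F p.1 p.2, (ℓ l + 1))

lemma le_gmax (F : Fin m → Fin m → Finset (Fin m)) (ℓ : Fin m → ℕ) (i j : Fin m) :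
    2 * ∑ l ∈ F i j, (ℓ l + 1) ≤ gmax F ℓ := by
  unfold gmax
  exact Finset.le_sup (f := fun p : Fin m × Fin m => 2 * ∑ l ∈ F p.1 p.2, (ℓ l + 1))
    (Finset.mem_univ (i, j))

lemma gmax_le_all (F : Fin m → Fin m → Finset (Fin m)) (ℓ : Fin m → ℕ) :
    gmax F ℓ ≤ 2 * (∑ l, ℓ l + m) := by
  unfold gmax
  apply Finset.sup_le
  intro p _
  have : ∑ l ∈ F p.1 p.2, (ℓ l + 1) ≤ ∑ l, ℓ l + m := by
    calc ∑ l ∈ F p.1 p.2, (ℓ l + 1) ≤ ∑ l, (ℓ l + 1) :=
          Finset.sum_le_sum_of_subset (Finset.subset_univ _)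
      _ = ∑ l, ℓ l + m := by rw [Finset.sum_add_distrib]; simp
  omega

lemma gmax_le (F : Fin m → Fin m → Finset (Fin m)) (ℓ : Fin m → ℕ) (q T : ℕ)
    (hq : ∀ i j, (F i j).card ≤ q) (hT : ∀ i j, ∑ l ∈ F i j, ℓ l < T) :
    gmax F ℓ ≤ 2 * (T + q) := by
  unfold gmax
  apply Finset.sup_le
  intro p _
  have h1 : ∑ l ∈ F p.1 p.2, (ℓ l + 1) = ∑ l ∈ F p.1 p.2, ℓ l + (F p.1 p.2).card := by
    rw [Finset.sum_add_distrib]; simp
  have h2 := hq p.1 p.2
  have h3 := hT p.1 p.2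
  omega

open Classical in
lemma good_phi (κ : Slot m → V) (F : Fin m → Fin m → Finset (Fin m)) (q : ℕ)
    (hq : ∀ i j, (F i j).card ≤ q) (hqm : 4 * q + 4 ≤ m) (hlog : 1 ≤ Real.log m) (k : ℕ) :
    ∑ ℓ ∈ (Finset.piAntidiag (univ : Finset (Fin m)) k).filter (LValid κ), (gmax F ℓ : ℝ)
      ≤ ((22 * q + 34 * Real.log m + 10) * ((k + m) / m)) * nvec (LValid κ) k (fun _ => True) := by
  have hm4 : 4 ≤ m := by omega
  have hmR : (4 : ℝ) ≤ m := by exact_mod_cast hm4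
  have hm0 : (0 : ℝ) < m := by linarith
  have hk0 : (0 : ℝ) ≤ k := Nat.cast_nonneg _
  set lam : ℝ := (k + m) / m with hlam
  have hlam1 : 1 ≤ lam := by
    rw [hlam, le_div_iff₀ hm0]; linarith
  set Y : ℕ := ⌈16 * lam * Real.log m⌉₊ with hY
  have hY1 : 16 * lam * Real.log m ≤ Y := Nat.le_ceil _
  have hY2 : (Y : ℝ) ≤ 16 * lam * Real.log m + 1 := (Nat.ceil_lt_add_one (by positivity)).le
  set T : ℕ := ⌈2 * (q : ℝ) + 8 * q * (k + m) / m + 2 + Y⌉₊ with hT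
  have hT1 : 2 * (q : ℝ) + 8 * q * (k + m) / m + 2 + Y ≤ T := Nat.le_ceil _
  have hT2 : (T : ℝ) ≤ 2 * (q : ℝ) + 8 * q * (k + m) / m + 2 + Y + 1 :=
    (Nat.ceil_lt_add_one (by positivity)).le
  set N : ℕ := nvec (LValid κ) k (fun _ => True) with hN
  set S := (Finset.piAntidiag (univ : Finset (Fin m)) k).filter (LValid κ) with hS
  have hNS : N = S.card := by
    rw [hN, hS]; unfold nvec; simp
  set Bad := S.filter (fun ℓ => ∃ p : Fin m × Fin m, T ≤ ∑ l ∈ F p.1 p.2, ℓ l) with hBad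
  -- number of bad vectors
  have hexp : Real.exp (-(Y * m / (4 * (k + m)))) ≤ 1 / (m : ℝ) ^ 4 := by
    have h1 : 4 * Real.log m ≤ Y * m / (4 * (k + m)) := by
      rw [le_div_iff₀ (by positivity)]
      have h2 : 16 * lam * Real.log m * m = 4 * Real.log m * (4 * (k + m)) := by
        rw [hlam]; field_simp; ring
      rw [← h2]
      exact mul_le_mul_of_nonneg_right hY1 hm0.le
    calc Real.exp (-(Y * m / (4 * (k + m)))) ≤ Real.exp (-(4 * Real.log m)) :=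
          Real.exp_le_exp.2 (by linarith)
      _ = 1 / (m : ℝ) ^ 4 := by
          rw [Real.exp_neg, show (4 : ℝ) * Real.log m = ((4 : ℕ) : ℝ) * Real.log m by norm_num,
            Real.exp_nat_mul, Real.exp_log hm0, one_div]
  have hBadcard : (Bad.card : ℝ) ≤ N / (m : ℝ) ^ 2 := by
    have h1 : Bad ⊆ (univ : Finset (Fin m × Fin m)).biUnion
        (fun p => (Finset.piAntidiag (univ : Finset (Fin m)) k).filter
          (fun ℓ => LValid κ ℓ ∧ T ≤ ∑ l ∈ F p.1 p.2, ℓ l)) := by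
      intro ℓ hℓ
      rw [hBad, Finset.mem_filter, hS, Finset.mem_filter] at hℓ
      obtain ⟨⟨h2, h3⟩, p, hp⟩ := hℓ
      rw [Finset.mem_biUnion]
      exact ⟨p, Finset.mem_univ _, Finset.mem_filter.2 ⟨h2, h3, hp⟩⟩
    have h2 : Bad.card ≤ ∑ p : Fin m × Fin m,
        nvec (LValid κ) k (fun ℓ => T ≤ ∑ l ∈ F p.1 p.2, ℓ l) := by
      refine (Finset.card_le_card h1).trans (Finset.card_biUnion_le.trans ?_)
      apply Finset.sum_le_sum
      intro p _
      apply le_of_eq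
      unfold nvec
      congr
    have h3 : ∀ p : Fin m × Fin m,
        (nvec (LValid κ) k (fun ℓ => T ≤ ∑ l ∈ F p.1 p.2, ℓ l) : ℝ) ≤ 1 / (m : ℝ) ^ 4 * N := by
      intro p
      refine (nvec_sum (LValid κ) (vhyp κ) (F p.1 p.2) q (hq p.1 p.2) hqm k T Y hT1).trans ?_
      exact mul_le_mul_of_nonneg_right hexp (Nat.cast_nonneg _)
    calc (Bad.card : ℝ) ≤ ((∑ p : Fin m × Fin m,
          nvec (LValid κ) k (fun ℓ => T ≤ ∑ l ∈ F p.1 p.2, ℓ l) : ℕ) : ℝ) := by exact_mod_cast h2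
      _ = ∑ p : Fin m × Fin m,
          (nvec (LValid κ) k (fun ℓ => T ≤ ∑ l ∈ F p.1 p.2, ℓ l) : ℝ) := by push_cast; rfl
      _ ≤ ∑ p : Fin m × Fin m, 1 / (m : ℝ) ^ 4 * N := Finset.sum_le_sum (fun p _ => h3 p)
      _ = N / (m : ℝ) ^ 2 := by
          rw [Finset.sum_const, Finset.card_univ, Fintype.card_prod, Fintype.card_fin,
            nsmul_eq_mul]
          push_cast
          field_simp
  -- pointwise bound
  have hpt : ∀ ℓ ∈ S, (gmax F ℓ : ℝ) ≤ 2 * (T + q) +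
      (if (∃ p : Fin m × Fin m, T ≤ ∑ l ∈ F p.1 p.2, ℓ l) then 2 * ((k : ℝ) + m) else 0) := by
    intro ℓ hℓ
    rw [hS, Finset.mem_filter, Finset.mem_piAntidiag] at hℓ
    by_cases hb : ∃ p : Fin m × Fin m, T ≤ ∑ l ∈ F p.1 p.2, ℓ l
    · rw [if_pos hb]
      have h1 := gmax_le_all F ℓ
      have h2 : ∑ l, ℓ l = k := hℓ.1.1
      rw [h2] at h1
      have h3 : (gmax F ℓ : ℝ) ≤ 2 * ((k : ℝ) + m) := by exact_mod_cast h1
      have : (0 : ℝ) ≤ 2 * ((T : ℝ) + q) := by positivity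
      linarith
    · rw [if_neg hb, add_zero]
      push Not at hb
      have h1 := gmax_le F ℓ q T hq (fun i j => hb (i, j))
      exact_mod_cast h1
  have hsum : ∑ ℓ ∈ S, (gmax F ℓ : ℝ) ≤ 2 * (T + q) * N + 2 * ((k : ℝ) + m) * Bad.card := by
    refine (Finset.sum_le_sum hpt).trans (le_of_eq ?_)
    rw [Finset.sum_add_distrib, Finset.sum_const, ← Finset.sum_filter, Finset.sum_const,
      nsmul_eq_mul, nsmul_eq_mul, hNS, hBad]
    ring
  have hN0 : (0 : ℝ) ≤ N := Nat.cast_nonneg _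
  have h1 : 2 * ((k : ℝ) + m) * Bad.card ≤ 2 * lam * N := by
    calc 2 * ((k : ℝ) + m) * Bad.card ≤ 2 * ((k : ℝ) + m) * (N / (m : ℝ) ^ 2) :=
          mul_le_mul_of_nonneg_left hBadcard (by positivity)
      _ = 2 * lam * N * (1 / m) := by rw [hlam]; field_simp
      _ ≤ 2 * lam * N * 1 := by
          apply mul_le_mul_of_nonneg_left _ (by positivity)
          rw [div_le_one hm0]; linarith
      _ = 2 * lam * N := by ring
  have h2 : 2 * ((T : ℝ) + q) + 2 * lam ≤ (22 * q + 34 * Real.log m + 10) * lam := by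
    have h3 : 8 * (q : ℝ) * (k + m) / m = 8 * q * lam := by rw [hlam]; ring
    rw [h3] at hT2
    have hq0 : (0 : ℝ) ≤ q := Nat.cast_nonneg _
    have h4 : (q : ℝ) ≤ q * lam := le_mul_of_one_le_right hq0 hlam1
    have h5 : Real.log m * lam ≥ 0 := by positivity
    nlinarith
  calc ∑ ℓ ∈ S, (gmax F ℓ : ℝ) ≤ 2 * (T + q) * N + 2 * lam * N := by linarith
    _ = (2 * ((T : ℝ) + q) + 2 * lam) * N := by ring
    _ ≤ ((22 * q + 34 * Real.log m + 10) * lam) * N := mul_le_mul_of_nonneg_right h2 hN0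

end Pool.Agent.H.MP_3b0279_pr
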