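import Pool.Agent.H.MP_3b0279_pr.KSwitch

set_option autoImplicit false

namespace Pool.Agent.H.MP_3b0279_pr

open Finset

variable {V : Type} [Fintype V] [DecidableEq V] {m : ℕ}

namespace SwitchG

lemma opp_inj {σ τ : Slot m} (h : opp σ = opp τ) : σ = τ := by
  rw [← opp_opp σ, h, opp_opp]

/-- two slots of the same edge -/
lemma eq_or_opp {σ τ : Slot m} (h : σ.1 = τ.1) : σ = τ ∨ σ = opp τ := by
  rcases σ with ⟨i, a⟩
  rcases τ with ⟨j, b⟩
  simp only at h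
  subst h
  cases a <;> cases b <;> simp [opp]

/-- slot form of `KValid` -/
lemma kvalid_iff (E0 E1 : Finset (Fin m)) (κ : Slot m → V) :
    KValid E0 E1 κ ↔ (∀ ρ : Slot m, ρ.1 ∈ E1 → κ ρ ≠ κ (opp ρ)) ∧
      (∀ ρ ρ' : Slot m, ρ.1 ∈ E0 → ρ'.1 ∈ E0 → ρ.1 ≠ ρ'.1 →
        ¬ (κ ρ = κ ρ' ∧ κ (opp ρ) = κ (opp ρ'))) := by
  constructor
  · rintro ⟨h1, h2⟩
    refine ⟨?_, ?_⟩
    · rintro ⟨i, b⟩ hi
      cases b
      · exact h1 i hi
      · exact (h1 i hi).symm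
    · rintro ⟨i, b⟩ ⟨j, b'⟩ hi hj hij ⟨e1, e2⟩
      apply h2 i hi j hj hij
      rw [Sym2.eq_iff]
      cases b <;> cases b'
      · exact Or.inl ⟨e1, e2⟩
      · exact Or.inr ⟨e1, e2⟩
      · exact Or.inr ⟨e2, e1⟩
      · exact Or.inl ⟨e2, e1⟩
  · rintro ⟨h1, h2⟩
    refine ⟨fun i hi => h1 (i, false) hi, fun i hi j hj hij h => ?_⟩
    rw [Sym2.eq_iff] at h
    rcases h with ⟨e1, e2⟩ | ⟨e1, e2⟩
    · exact h2 (i, false) (j, false) hi hj hij ⟨e1, e2⟩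
    · exact h2 (i, false) (j, true) hi hj hij ⟨e1, e2⟩

/-- the data of a switching -/
structure Data (κ : Slot m → V) (u : V) (r : ℕ) (σ τ : Slot m) : Prop where
  s1 : κ σ ∈ kball κ u (r + 1)
  s0 : κ σ ∉ kball κ u r
  o1 : κ (opp σ) ∈ kball κ u (r + 1)
  o0 : κ (opp σ) ∉ kball κ u r
  t2 : κ τ ∉ kball κ u (r + 2)
  p2 : κ (opp τ) ∉ kball κ u (r + 2)

namespace Data

variable {κ : Slot m → V} {u : V} {r : ℕ} {σ τ : Slot m} (D : Data κ u r σ τ)

include D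

lemma t1 : κ τ ∉ kball κ u (r + 1) := fun h => D.t2 (kball_mono κ u (by omega) h)

lemma p1 : κ (opp τ) ∉ kball κ u (r + 1) := fun h => D.p2 (kball_mono κ u (by omega) h)

lemma t0 : κ τ ∉ kball κ u r := fun h => D.t2 (kball_mono κ u (by omega) h)

lemma p0 : κ (opp τ) ∉ kball κ u r := fun h => D.p2 (kball_mono κ u (by omega) h)

lemma ne1 : σ ≠ τ := fun h => D.t1 (h ▸ D.s1)

lemma ne2 : σ ≠ opp τ := fun h => D.p1 (h ▸ D.s1)

lemma ne3 : opp σ ≠ τ := fun h => D.t1 (h ▸ D.o1)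

lemma ne4 : opp σ ≠ opp τ := fun h => D.p1 (h ▸ D.o1)

/-- values of the switched kernel -/
lemma v1 : (κ ∘ Equiv.swap σ τ) σ = κ τ := by
  simp

lemma v2 : (κ ∘ Equiv.swap σ τ) (opp σ) = κ (opp σ) := by
  rw [Function.comp_apply, Equiv.swap_apply_of_ne_of_ne (opp_ne σ) D.ne3]

lemma v3 : (κ ∘ Equiv.swap σ τ) τ = κ σ := by
  simp

lemma v4 : (κ ∘ Equiv.swap σ τ) (opp τ) = κ (opp τ) := by
  rw [Function.comp_apply, Equiv.swap_apply_of_ne_of_ne D.ne2.symm (opp_ne τ)]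

lemma v5 {ρ : Slot m} (h1 : ρ ≠ σ) (h2 : ρ ≠ τ) : (κ ∘ Equiv.swap σ τ) ρ = κ ρ := by
  rw [Function.comp_apply, Equiv.swap_apply_of_ne_of_ne h1 h2]

/-- slots attached to the small ball are untouched -/
lemma untouched {ρ : Slot m} (h : κ ρ ∈ kball κ u r) :
    (κ ∘ Equiv.swap σ τ) ρ = κ ρ ∧ (κ ∘ Equiv.swap σ τ) (opp ρ) = κ (opp ρ) := by
  have n1 : ρ ≠ σ := fun e => D.s0 (e ▸ h)
  have n2 : ρ ≠ τ := fun e => D.t0 (e ▸ h)
  have n3 : opp ρ ≠ σ := fun e => D.o0 (by rw [← e, opp_opp]; exact h)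
  have n4 : opp ρ ≠ τ := fun e => D.p0 (by rw [← e, opp_opp]; exact h)
  exact ⟨D.v5 n1 n2, D.v5 n3 n4⟩

/-- the same for the switched kernel -/
lemma untouched' {ρ : Slot m} (h : (κ ∘ Equiv.swap σ τ) ρ ∈ kball κ u r) :
    (κ ∘ Equiv.swap σ τ) ρ = κ ρ ∧ (κ ∘ Equiv.swap σ τ) (opp ρ) = κ (opp ρ) := by
  apply D.untouched
  have n1 : ρ ≠ σ := by
    rintro rfl
    rw [D.v1] at h
    exact D.t0 h
  have n2 : ρ ≠ τ := by
    rintro rfl
    rw [D.v3] at h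
    exact D.s0 h
  rw [← D.v5 n1 n2]
  exact h

lemma ball_eq (i : ℕ) (hi : i ≤ r + 1) : kball (κ ∘ Equiv.swap σ τ) u i = kball κ u i := by
  induction i with
  | zero => rfl
  | succ i ih =>
    have ih' := ih (by omega)
    have hm : kball κ u i ⊆ kball κ u r := kball_mono κ u (by omega)
    ext v
    rw [mem_kball_succ, mem_kball_succ, ih']
    constructor
    · rintro (h | ⟨ρ, h1, h2⟩)
      · exact Or.inl h
      · have := D.untouched' (hm h1)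
        rw [this.1] at h1
        rw [this.2] at h2
        exact Or.inr ⟨ρ, h1, h2⟩
    · rintro (h | ⟨ρ, h1, h2⟩)
      · exact Or.inl h
      · have := D.untouched (hm h1)
        rw [← this.1] at h1
        rw [← this.2] at h2
        exact Or.inr ⟨ρ, h1, h2⟩

lemma agree : Agree u r κ (κ ∘ Equiv.swap σ τ) := by
  refine ⟨(D.ball_eq r (by omega)).symm, fun ρ hρ => ?_⟩
  rcases hρ with h | h
  · exact (D.untouched h).1.symm
  · exact (D.untouched' h).1.symm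

lemma mem1 : σ ∈ bdry (κ ∘ Equiv.swap σ τ) u (r + 1) := by
  simp only [bdry, mem_filter, mem_univ, true_and]
  rw [D.ball_eq (r + 1) le_rfl, D.v1, D.v2]
  exact ⟨D.t1, D.o1⟩

lemma mem2 : opp τ ∈ bdry (κ ∘ Equiv.swap σ τ) u (r + 1) := by
  simp only [bdry, mem_filter, mem_univ, true_and]
  rw [D.ball_eq (r + 1) le_rfl, opp_opp, D.v3, D.v4]
  exact ⟨D.p1, D.s1⟩

lemma bdry_eq : bdry (κ ∘ Equiv.swap σ τ) u (r + 1) =
    insert σ (insert (opp τ) (bdry κ u (r + 1))) := by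
  ext ρ
  rw [mem_insert, mem_insert]
  by_cases h1 : ρ = σ
  · subst h1
    exact ⟨fun _ => Or.inl rfl, fun _ => D.mem1⟩
  by_cases h2 : ρ = opp τ
  · subst h2
    exact ⟨fun _ => Or.inr (Or.inl rfl), fun _ => D.mem2⟩
  have key : ρ ∈ bdry (κ ∘ Equiv.swap σ τ) u (r + 1) ↔ ρ ∈ bdry κ u (r + 1) := by
    simp only [bdry, mem_filter, mem_univ, true_and]
    rw [D.ball_eq (r + 1) le_rfl]
    by_cases h3 : ρ = opp σ
    · subst h3
      rw [D.v2]
      constructor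
      · intro h; exact absurd D.o1 h.1
      · intro h; exact absurd D.o1 h.1
    by_cases h4 : ρ = τ
    · subst h4
      rw [D.v3, D.v4]
      constructor
      · intro h; exact absurd h.2 D.p1
      · intro h; exact absurd h.2 D.p1
    have h5 : opp ρ ≠ σ := fun e => h3 (by rw [← e, opp_opp])
    have h6 : opp ρ ≠ τ := fun e => h2 (by rw [← e, opp_opp])
    rw [D.v5 h1 h4, D.v5 h5 h6]
  rw [key]
  constructor
  · intro h; exact Or.inr (Or.inr h)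
  · rintro (h | h | h)
    · exact absurd h h1
    · exact absurd h h2
    · exact h

lemma card_bdry : (bdry (κ ∘ Equiv.swap σ τ) u (r + 1)).card = (bdry κ u (r + 1)).card + 2 := by
  have h2 : opp τ ∉ bdry κ u (r + 1) := by
    simp only [bdry, mem_filter, mem_univ, true_and, opp_opp]
    intro h
    exact D.t1 h.2
  have h1 : σ ∉ insert (opp τ) (bdry κ u (r + 1)) := by
    rw [mem_insert]
    rintro (h | h)
    · exact D.ne2 h
    · simp only [bdry, mem_filter, mem_univ, true_and] at h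
      exact h.1 D.s1
  rw [D.bdry_eq, card_insert_of_notMem h1, card_insert_of_notMem h2]

lemma kdeg_eq (v : V) : kdeg (κ ∘ Equiv.swap σ τ) v = kdeg κ v := by
  rw [kdeg, kdeg]
  apply Finset.card_equiv (Equiv.swap σ τ)
  intro ρ
  simp only [mem_filter, mem_univ, true_and, Function.comp_apply]

omit D in
/-- an edge with one end in a ball has its other end in the next ball -/
lemma next {i : ℕ} {ρ : Slot m} (h : κ ρ ∈ kball κ u i) :
    κ (opp ρ) ∈ kball κ u (i + 1) :=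
  (mem_kball_succ κ u i _).2 (Or.inr ⟨ρ, h, rfl⟩)

/-- the ends of the new edges -/
lemma new_ends {ρ : Slot m} (h : ρ.1 = σ.1 ∨ ρ.1 = τ.1) :
    ((κ ∘ Equiv.swap σ τ) ρ ∈ kball κ u (r + 1) ∧
      (κ ∘ Equiv.swap σ τ) (opp ρ) ∉ kball κ u (r + 2)) ∨
    ((κ ∘ Equiv.swap σ τ) (opp ρ) ∈ kball κ u (r + 1) ∧
      (κ ∘ Equiv.swap σ τ) ρ ∉ kball κ u (r + 2)) := by
  rcases h with h | h
  · rcases eq_or_opp h with rfl | rfl
    · rw [D.v1, D.v2]; exact Or.inr ⟨D.o1, D.t2⟩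
    · rw [opp_opp, D.v1, D.v2]; exact Or.inl ⟨D.o1, D.t2⟩
  · rcases eq_or_opp h with rfl | rfl
    · rw [D.v3, D.v4]; exact Or.inl ⟨D.s1, D.p2⟩
    · rw [opp_opp, D.v3, D.v4]; exact Or.inr ⟨D.s1, D.p2⟩

lemma old_eq {ρ : Slot m} (h : ¬ (ρ.1 = σ.1 ∨ ρ.1 = τ.1)) :
    (κ ∘ Equiv.swap σ τ) ρ = κ ρ ∧ (κ ∘ Equiv.swap σ τ) (opp ρ) = κ (opp ρ) := by
  have n1 : ρ ≠ σ := fun e => h (Or.inl (by rw [e]))
  have n2 : ρ ≠ τ := fun e => h (Or.inr (by rw [e]))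
  have n3 : opp ρ ≠ σ := fun e => h (Or.inl (by rw [← e, opp_fst]))
  have n4 : opp ρ ≠ τ := fun e => h (Or.inr (by rw [← e, opp_fst]))
  exact ⟨D.v5 n1 n2, D.v5 n3 n4⟩

/-- new and old edges are not parallel -/
lemma new_old {ρ ρ' : Slot m} (h : ρ.1 = σ.1 ∨ ρ.1 = τ.1) (h' : ¬ (ρ'.1 = σ.1 ∨ ρ'.1 = τ.1))
    (e1 : (κ ∘ Equiv.swap σ τ) ρ = (κ ∘ Equiv.swap σ τ) ρ')
    (e2 : (κ ∘ Equiv.swap σ τ) (opp ρ) = (κ ∘ Equiv.swap σ τ) (opp ρ')) : False := by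
  obtain ⟨a1, a2⟩ := D.old_eq h'
  rw [a1] at e1
  rw [a2] at e2
  rcases D.new_ends h with ⟨b1, b2⟩ | ⟨b1, b2⟩
  · rw [e1] at b1
    rw [e2] at b2
    exact b2 (next b1)
  · rw [e2] at b1
    rw [e1] at b2
    have := next b1
    rw [opp_opp] at this
    exact b2 this

/-- the two new edges are not parallel unless the old edge is a loop -/
lemma new_new {ρ ρ' : Slot m} (h : ρ.1 = σ.1) (h' : ρ'.1 = τ.1) (hs : κ σ ≠ κ (opp σ))
    (e1 : (κ ∘ Equiv.swap σ τ) ρ = (κ ∘ Equiv.swap σ τ) ρ')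
    (e2 : (κ ∘ Equiv.swap σ τ) (opp ρ) = (κ ∘ Equiv.swap σ τ) (opp ρ')) : False := by
  rcases eq_or_opp h with rfl | rfl <;> rcases eq_or_opp h' with rfl | rfl
  · rw [D.v1, D.v3] at e1
    exact D.t1 (e1 ▸ D.s1)
  · rw [opp_opp, D.v2, D.v3] at e2
    exact hs e2.symm
  · rw [D.v2, D.v3] at e1
    exact hs e1.symm
  · rw [D.v2, D.v4] at e1
    exact D.p1 (e1 ▸ D.o1)

lemma kvalid (E0 E1 : Finset (Fin m)) (hE : E0 ⊆ E1) (hv : KValid E0 E1 κ) :
    KValid E0 E1 (κ ∘ Equiv.swap σ τ) := by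
  rw [kvalid_iff] at hv ⊢
  obtain ⟨hv1, hv2⟩ := hv
  refine ⟨?_, ?_⟩
  · intro ρ hρ
    by_cases h : ρ.1 = σ.1 ∨ ρ.1 = τ.1
    · intro e
      rcases D.new_ends h with ⟨b1, b2⟩ | ⟨b1, b2⟩
      · rw [e] at b1
        exact b2 (kball_mono κ u (by omega) b1)
      · rw [e] at b2
        exact b2 (kball_mono κ u (by omega) b1)
    · obtain ⟨a1, a2⟩ := D.old_eq h
      rw [a1, a2]
      exact hv1 ρ hρ
  · rintro ρ ρ' hρ hρ' hne ⟨e1, e2⟩
    by_cases h : ρ.1 = σ.1 ∨ ρ.1 = τ.1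
    · by_cases h' : ρ'.1 = σ.1 ∨ ρ'.1 = τ.1
      · rcases h with h | h <;> rcases h' with h' | h'
        · exact hne (h.trans h'.symm)
        · exact D.new_new h h' (hv1 σ (h ▸ hE hρ)) e1 e2
        · exact D.new_new h' h (hv1 σ (h' ▸ hE hρ')) e1.symm e2.symm
        · exact hne (h.trans h'.symm)
      · exact D.new_old h h' e1 e2
    · by_cases h' : ρ'.1 = σ.1 ∨ ρ'.1 = τ.1
      · exact D.new_old h' h e1.symm e2.symm
      · obtain ⟨a1, a2⟩ := D.old_eq h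
        obtain ⟨b1, b2⟩ := D.old_eq h'
        rw [a1, b1] at e1
        rw [a2, b2] at e2
        exact hv2 ρ ρ' hρ hρ' hne ⟨e1, e2⟩

lemma kconn (hc : KConn κ) : KConn (κ ∘ Equiv.swap σ τ) := by
  rintro Y ⟨ρ1, h1⟩ ⟨ρ2, h2⟩
  by_contra hcon
  push Not at hcon
  have hiff : ∀ ρ : Slot m, (κ ∘ Equiv.swap σ τ) ρ ∈ Y ↔ (κ ∘ Equiv.swap σ τ) (opp ρ) ∈ Y := by
    intro ρ
    refine ⟨hcon ρ, fun h => ?_⟩
    have := hcon (opp ρ) h
    rw [opp_opp] at this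
    exact this
  have hball : ∀ i, i ≤ r + 1 → ∀ x ∈ kball κ u i, (x ∈ Y ↔ u ∈ Y) := by
    intro i
    induction i with
    | zero =>
      intro _ x hx
      simp only [kball, mem_singleton] at hx
      rw [hx]
    | succ i ih =>
      intro hi x hx
      rcases (mem_kball_succ κ u i x).1 hx with h | ⟨ρ, a1, a2⟩
      · exact ih (by omega) x h
      · have a3 := D.untouched (kball_mono κ u (show i ≤ r by omega) a1)
        rw [← ih (by omega) _ a1, ← a2, ← a3.1, ← a3.2]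
        exact (hiff ρ).symm
  have k1 : κ σ ∈ Y ↔ u ∈ Y := hball (r + 1) le_rfl _ D.s1
  have k2 : κ (opp σ) ∈ Y ↔ u ∈ Y := hball (r + 1) le_rfl _ D.o1
  have k3 : κ τ ∈ Y ↔ u ∈ Y := by
    rw [← k2, ← D.v1, ← D.v2]
    exact hiff σ
  have k4 : κ (opp τ) ∈ Y ↔ u ∈ Y := by
    rw [← k1, ← D.v3, ← D.v4]
    exact (hiff τ).symm
  obtain ⟨ρ0, b1, b2⟩ := hc Y ⟨Equiv.swap σ τ ρ1, h1⟩ ⟨Equiv.swap σ τ ρ2, h2⟩
  by_cases h : ρ0.1 = σ.1 ∨ ρ0.1 = τ.1
  · rcases h with h | h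
    · rcases eq_or_opp h with rfl | rfl
      · exact b2 (k2.2 (k1.1 b1))
      · rw [opp_opp] at b2
        exact b2 (k1.2 (k2.1 b1))
    · rcases eq_or_opp h with rfl | rfl
      · exact b2 (k4.2 (k3.1 b1))
      · rw [opp_opp] at b2
        exact b2 (k3.2 (k4.1 b1))
  · obtain ⟨a1, a2⟩ := D.old_eq h
    rw [← a1] at b1
    rw [← a2] at b2
    exact b2 (hcon ρ0 b1)

lemma kset (c : V → ℕ) (E0 E1 : Finset (Fin m)) (hE : E0 ⊆ E1) (h : KSet c E0 E1 κ) :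
    KSet c E0 E1 (κ ∘ Equiv.swap σ τ) :=
  ⟨fun v => by rw [D.kdeg_eq]; exact h.1 v, D.kvalid E0 E1 hE h.2.1, D.kconn h.2.2⟩

end Data

/-- internal slots of the shell -/
def gset (κ : Slot m → V) (u : V) (r : ℕ) : Finset (Slot m) :=
  univ.filter (fun σ : Slot m => κ σ ∈ shell κ u r ∧ κ (opp σ) ∈ shell κ u r)

lemma data_of_mem {κ : Slot m → V} {u : V} {r : ℕ} {σ τ : Slot m} (h1 : σ ∈ gset κ u r)
    (h2 : τ ∈ outs κ u (r + 2)) : Data κ u r σ τ := by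
  simp only [gset, shell, mem_filter, mem_univ, true_and, mem_sdiff] at h1
  simp only [outs, mem_filter, mem_univ, true_and] at h2
  exact ⟨h1.1.1, h1.1.2, h1.2.1, h1.2.2, h2.1, h2.2⟩

end SwitchG

open SwitchG

open Classical in
/-- switching an internal edge -/
theorem switch_g (c : V → ℕ) (E0 E1 : Finset (Fin m)) (hE : E0 ⊆ E1) (u : V) (r : ℕ)
    (W : (Slot m → V) → ℝ) (hW0 : ∀ κ, 0 ≤ W κ)
    (hW : ∀ κ κ' : Slot m → V, Agree u r κ κ' → W κ = W κ') :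
    ∑ κ ∈ univ.filter (fun κ : Slot m → V => KSet c E0 E1 κ), W κ * XG κ u r
      ≤ ∑ κ ∈ univ.filter (fun κ : Slot m → V => KSet c E0 E1 κ), W κ := by
  set K := univ.filter (fun κ : Slot m → V => KSet c E0 E1 κ) with hK
  -- the source and the target of the switching
  set S : Finset (Σ _ : (Slot m → V), Slot m × Slot m) :=
    K.sigma (fun κ => gset κ u r ×ˢ outs κ u (r + 2)) with hS
  set T : Finset (Σ _ : (Slot m → V), Slot m × Slot m) :=
    K.sigma (fun κ => bdry κ u (r + 1) ×ˢ bdry κ u (r + 1)) with hT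
  set Φ : (Σ _ : (Slot m → V), Slot m × Slot m) → (Σ _ : (Slot m → V), Slot m × Slot m) :=
    fun x => ⟨x.1 ∘ Equiv.swap x.2.1 x.2.2, (x.2.1, opp x.2.2)⟩ with hΦ
  set g : (Σ _ : (Slot m → V), Slot m × Slot m) → ℝ :=
    fun x => W x.1 / ((bdry x.1 u (r + 1)).card : ℝ) ^ 2 with hg
  have hg0 : ∀ x, 0 ≤ g x := fun x => div_nonneg (hW0 _) (by positivity)
  have hinj : Function.Injective Φ := by
    rintro ⟨κ, σ, τ⟩ ⟨κ', σ', τ'⟩ h
    simp only [hΦ, Sigma.mk.injEq, heq_eq_eq, Prod.mk.injEq] at h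
    obtain ⟨h1, h2, h3⟩ := h
    have h3' := opp_inj h3
    subst h2
    subst h3'
    have : κ = κ' := by
      funext x
      have := congrFun h1 (Equiv.swap σ τ x)
      simpa using this
    rw [this]
  have hmap : ∀ x ∈ S, Φ x ∈ T := by
    rintro ⟨κ, σ, τ⟩ hx
    simp only [hS, mem_sigma, mem_product] at hx
    obtain ⟨h1, h2, h3⟩ := hx
    have D := data_of_mem h2 h3
    simp only [hT, hΦ, mem_sigma, mem_product]
    refine ⟨?_, D.mem1, D.mem2⟩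
    simp only [hK, mem_filter, mem_univ, true_and] at h1 ⊢
    exact D.kset c E0 E1 hE h1
  have hval : ∀ x ∈ S, g (Φ x) = W x.1 / (((bdry x.1 u (r + 1)).card : ℝ) + 2) ^ 2 := by
    rintro ⟨κ, σ, τ⟩ hx
    simp only [hS, mem_sigma, mem_product] at hx
    obtain ⟨h1, h2, h3⟩ := hx
    have D := data_of_mem h2 h3
    simp only [hg, hΦ]
    rw [D.card_bdry, ← hW κ _ D.agree]
    push_cast
    rfl
  calc ∑ κ ∈ K, W κ * XG κ u r
      = ∑ x ∈ S, W x.1 / (((bdry x.1 u (r + 1)).card : ℝ) + 2) ^ 2 := by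
        rw [hS, Finset.sum_sigma]
        refine Finset.sum_congr rfl fun κ _ => ?_
        change W κ * XG κ u r = ∑ _s ∈ gset κ u r ×ˢ outs κ u (r + 2),
          W κ / (((bdry κ u (r + 1)).card : ℝ) + 2) ^ 2
        rw [Finset.sum_const, card_product, nsmul_eq_mul, XG, gg, gset]
        push_cast
        ring
    _ = ∑ x ∈ S, g (Φ x) := Finset.sum_congr rfl fun x hx => (hval x hx).symm
    _ = ∑ y ∈ S.image Φ, g y := (Finset.sum_image (fun x _ y _ h => hinj h)).symm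
    _ ≤ ∑ y ∈ T, g y := by
        apply Finset.sum_le_sum_of_subset_of_nonneg
        · intro y hy
          obtain ⟨x, hx, rfl⟩ := Finset.mem_image.1 hy
          exact hmap x hx
        · intro y _ _
          exact hg0 y
    _ = ∑ κ ∈ K, ((bdry κ u (r + 1)).card : ℝ) ^ 2 *
          (W κ / ((bdry κ u (r + 1)).card : ℝ) ^ 2) := by
        rw [hT, Finset.sum_sigma]
        refine Finset.sum_congr rfl fun κ _ => ?_
        change ∑ _s ∈ bdry κ u (r + 1) ×ˢ bdry κ u (r + 1),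
          W κ / ((bdry κ u (r + 1)).card : ℝ) ^ 2 = _
        rw [Finset.sum_const, card_product, nsmul_eq_mul]
        push_cast
        ring
    _ ≤ ∑ κ ∈ K, W κ := by
        refine Finset.sum_le_sum fun κ _ => ?_
        by_cases h : ((bdry κ u (r + 1)).card : ℝ) = 0
        · rw [h]
          simpa using hW0 κ
        · rw [mul_div_cancel₀ _ (pow_ne_zero 2 h)]

end Pool.Agent.H.MP_3b0279_pr
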