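import Pool.Agent.H.MP_3b0279_pr.KSwitchC
import Pool.Agent.H.MP_3b0279_pr.KSwitchG

/-!
Kernel diameter is logarithmic with high probability.
-/

set_option autoImplicit false

namespace Pool.Agent.H.MP_3b0279_pr

open Finset

section KGrowAux

variable {V : Type} [Fintype V] [DecidableEq V] {m : ℕ}

lemma kgrow_step (κ : Slot m → V) (u : V) (r : ℕ) (σ : Slot m) (h : κ σ ∈ kball κ u r) :
    κ (opp σ) ∈ kball κ u (r + 1) := by
  rw [kball, mem_union, mem_filter]
  exact Or.inr ⟨mem_univ _, σ, h, rfl⟩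

lemma kgrow_comp (κ : Slot m → V) (u v : V) (s : ℕ) (hv : v ∈ kball κ u s) :
    ∀ (r : ℕ) (w : V), w ∈ kball κ v r → w ∈ kball κ u (s + r) := by
  intro r
  induction r with
  | zero =>
    intro w hw
    have : w = v := by simpa [kball] using hw
    subst this
    exact hv
  | succ r ih =>
    intro w hw
    rw [kball, mem_union, mem_filter] at hw
    rcases hw with hw | ⟨_, σ, hσ, rfl⟩
    · exact kball_mono κ u (by omega) (ih w hw)
    · exact kgrow_step κ u (s + r) σ (ih _ hσ)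

lemma kgrow_symm (κ : Slot m → V) (u : V) :
    ∀ (r : ℕ) (w : V), w ∈ kball κ u r → u ∈ kball κ w r := by
  intro r
  induction r with
  | zero =>
    intro w hw
    have : w = u := by simpa [kball] using hw
    subst this
    exact hw
  | succ r ih =>
    intro w hw
    rw [kball, mem_union, mem_filter] at hw
    rcases hw with hw | ⟨_, σ, hσ, rfl⟩
    · exact kball_mono κ w (by omega) (ih w hw)
    · have h1 := ih _ hσ
      have h0 : κ (opp σ) ∈ kball κ (κ (opp σ)) 0 := by simp [kball]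
      have h2 := kgrow_step κ (κ (opp σ)) 0 (opp σ) h0
      rw [opp_opp] at h2
      have h3 := kgrow_comp κ (κ (opp σ)) (κ σ) (0 + 1) h2 r u h1
      have : 0 + 1 + r = r + 1 := by omega
      rwa [this] at h3

lemma kgrow_shell_card (κ : Slot m → V) (u : V) (r : ℕ) :
    (shell κ u r).card ≤ (bdry κ u r).card := by
  have : shell κ u r ⊆ (bdry κ u r).image κ := by
    intro v hv
    rw [shell, mem_sdiff, kball, mem_union, mem_filter] at hv
    obtain ⟨h1 | ⟨_, σ, hσ, rfl⟩, h2⟩ := hv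
    · exact absurd h1 h2
    · rw [mem_image]
      refine ⟨opp σ, ?_, rfl⟩
      rw [bdry, mem_filter, opp_opp]
      exact ⟨mem_univ _, h2, hσ⟩
  exact (card_le_card this).trans card_image_le

lemma kgrow_outs_anti (κ : Slot m → V) (u : V) {r s : ℕ} (h : r ≤ s) :
    (outs κ u s).card ≤ (outs κ u r).card := by
  apply card_le_card
  intro σ hσ
  rw [outs, mem_filter] at hσ ⊢
  exact ⟨mem_univ _, fun h1 => hσ.2.1 (kball_mono κ u h h1),
    fun h1 => hσ.2.2 (kball_mono κ u h h1)⟩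

lemma kgrow_count (κ : Slot m → V) (c : V → ℕ) (hd : ∀ v, kdeg κ v = c v)
    (hc : ∀ v, c v = 0 ∨ 3 ≤ c v) (u : V) (r : ℕ) :
    3 * (shell κ u r).card ≤ (bdry κ u r).card + gg κ u r + (bdry κ u (r + 1)).card := by
  classical
  -- the slots with value in the shell
  set T : Finset (Slot m) := univ.filter (fun σ => κ σ ∈ shell κ u r) with hT
  have h1 : T.card = ∑ v ∈ shell κ u r, (T.filter (fun σ => κ σ = v)).card := by
    apply card_eq_sum_card_fiberwise
    intro σ hσ
    have : σ ∈ T := hσ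
    rw [hT, mem_filter] at this
    exact this.2
  have h2 : ∀ v ∈ shell κ u r, 3 ≤ (T.filter (fun σ => κ σ = v)).card := by
    intro v hv
    have h3 : T.filter (fun σ => κ σ = v) = univ.filter (fun σ => κ σ = v) := by
      ext σ
      simp only [hT, mem_filter, mem_univ, true_and]
      constructor
      · exact fun h => h.2
      · intro h
        exact ⟨h ▸ hv, h⟩
    rw [h3]
    have h4 : (univ.filter (fun σ => κ σ = v)).card = c v := hd v
    rw [h4]
    rcases hc v with h5 | h5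
    · exfalso
      rw [h5] at h4
      rw [card_eq_zero, filter_eq_empty_iff] at h4
      rw [shell, mem_sdiff, kball, mem_union, mem_filter] at hv
      obtain ⟨h1 | ⟨_, σ, hσ, hv1⟩, h2⟩ := hv
      · exact absurd h1 h2
      · exact h4 (mem_univ (opp σ)) hv1
    · exact h5
  have h3 : 3 * (shell κ u r).card ≤ T.card := by
    rw [h1, mul_comm, ← smul_eq_mul]
    exact card_nsmul_le_sum _ _ _ h2
  have h4 : T ⊆ bdry κ u r ∪ (univ.filter (fun σ : Slot m => κ σ ∈ shell κ u r ∧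
      κ (opp σ) ∈ shell κ u r)) ∪ (bdry κ u (r + 1)).image opp := by
    intro σ hσ
    rw [hT, mem_filter] at hσ
    obtain ⟨_, hσ⟩ := hσ
    have hσ' := hσ
    rw [shell, mem_sdiff] at hσ'
    by_cases h5 : κ (opp σ) ∈ kball κ u r
    · rw [mem_union, mem_union]
      left; left
      rw [bdry, mem_filter]
      exact ⟨mem_univ _, hσ'.2, h5⟩
    · by_cases h6 : κ (opp σ) ∈ kball κ u (r + 1)
      · rw [mem_union, mem_union]
        left; right
        rw [mem_filter]
        refine ⟨mem_univ _, hσ, ?_⟩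
        rw [shell, mem_sdiff]
        exact ⟨h6, h5⟩
      · rw [mem_union]
        right
        rw [mem_image]
        refine ⟨opp σ, ?_, opp_opp σ⟩
        rw [bdry, mem_filter, opp_opp]
        exact ⟨mem_univ _, h6, hσ'.1⟩
  calc 3 * (shell κ u r).card ≤ T.card := h3
    _ ≤ _ := card_le_card h4
    _ ≤ _ := card_union_le _ _
    _ ≤ (bdry κ u r).card + gg κ u r + (bdry κ u (r + 1)).card := by
      apply add_le_add
      · exact card_union_le _ _
      · exact card_image_le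

lemma kgrow_bdry_pos (κ : Slot m → V) (u : V) (r : ℕ) (hconn : KConn κ)
    (hu : ∃ σ, κ σ = u) (ho : 0 < (outs κ u r).card) : 0 < (bdry κ u r).card := by
  obtain ⟨σ, hσ⟩ := hu
  obtain ⟨τ, hτ⟩ := card_pos.mp ho
  rw [outs, mem_filter] at hτ
  have h0 : κ σ ∈ kball κ u r := by
    rw [hσ]
    exact kball_mono κ u (Nat.zero_le r) (by simp [kball])
  obtain ⟨ω, h1, h2⟩ := hconn (kball κ u r) ⟨σ, h0⟩ ⟨τ, hτ.2.1⟩
  rw [card_pos]
  refine ⟨opp ω, ?_⟩
  rw [bdry, mem_filter, opp_opp]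
  exact ⟨mem_univ _, h2, h1⟩

lemma kgrow_bdry_sum (κ : Slot m → V) (u : V) (R : ℕ) :
    ∑ r ∈ range R, (bdry κ u r).card ≤ 2 * m := by
  have hdisj : ∀ r ∈ range R, ∀ s ∈ range R, r ≠ s → Disjoint (bdry κ u r) (bdry κ u s) := by
    have key : ∀ r s : ℕ, r < s → ∀ σ, σ ∈ bdry κ u r → σ ∈ bdry κ u s → False := by
      intro r s hrs σ h1 h2
      rw [bdry, mem_filter] at h1 h2
      have h3 := kgrow_step κ u r (opp σ) h1.2.2
      rw [opp_opp] at h3
      exact h2.2.1 (kball_mono κ u hrs h3)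
    intro r _ s _ hrs
    rw [disjoint_left]
    intro σ h1 h2
    rcases lt_or_gt_of_ne hrs with h | h
    · exact key r s h σ h1 h2
    · exact key s r h σ h2 h1
  rw [← card_biUnion hdisj]
  calc _ ≤ (univ : Finset (Slot m)).card := card_le_card (subset_univ _)
    _ = 2 * m := by
      rw [card_univ, Fintype.card_prod, Fintype.card_fin, Fintype.card_bool, mul_comm]


/-- real arithmetic of one level -/
lemma kgrow_level (m f f1 s g o : ℝ) (hm : 0 < m) (hf : 1 ≤ f) (hf1 : 1 ≤ f1) (hs : s ≤ f)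
    (hg : 0 ≤ g) (hcount : 3 * s ≤ f + g + f1) (ho : m ≤ o) (h32 : 2 * f1 < 3 * f) :
    m / (27 * f1) ≤ (f - s) * o / (f * (f1 + 1)) + g * o / (f1 + 2) ^ 2 := by
  have hc : 0 ≤ f - s := by linarith
  have hA : (f - s) * m / (2 * f * f1) ≤ (f - s) * o / (f * (f1 + 1)) := by
    apply div_le_div₀
    · exact mul_nonneg hc (by linarith)
    · exact mul_le_mul_of_nonneg_left ho hc
    · nlinarith
    · nlinarith
  have hB : g * m / (9 * f1 ^ 2) ≤ g * o / (f1 + 2) ^ 2 := by
    apply div_le_div₀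
    · exact mul_nonneg hg (by linarith)
    · exact mul_le_mul_of_nonneg_left ho hg
    · nlinarith
    · nlinarith
  have hC : g * m * 2 / (27 * f * f1) ≤ g * m / (9 * f1 ^ 2) := by
    have h1 : g * m / (9 * f1 ^ 2) = g * m * 2 / (18 * f1 ^ 2) := by
      field_simp
      ring
    rw [h1]
    apply div_le_div_of_nonneg_left
    · have := mul_nonneg hg hm.le
      linarith
    · nlinarith
    · nlinarith
  have hD : m / (27 * f1) ≤ (f - s) * m / (2 * f * f1) + g * m * 2 / (27 * f * f1) := by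
    have hf0 : 0 < f := by linarith
    have hf10 : 0 < f1 := by linarith
    have h1 : (f - s) * m / (2 * f * f1) + g * m * 2 / (27 * f * f1) - m / (27 * f1)
        = m * (27 * (f - s) + 4 * g - 2 * f) / (54 * f * f1) := by
      field_simp
      ring
    have h2 : 0 ≤ m * (27 * (f - s) + 4 * g - 2 * f) / (54 * f * f1) := by
      apply div_nonneg
      · apply mul_nonneg hm.le
        nlinarith
      · positivity
    linarith
  linarith

lemma kgrow_level2 (m f f1 s g o : ℝ) (hm : 0 < m) (hf : 1 ≤ f) (hf1 : 1 ≤ f1) (hs : s ≤ f)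
    (hg : 0 ≤ g) (hcount : 3 * s ≤ f + g + f1) (ho : m ≤ o) (hf2 : 2050 * f ≤ m) :
    3 / 2 * f ≤ (1 + ((f - s) * o / (f * (f1 + 1)) + g * o / (f1 + 2) ^ 2) / 50) * f1 := by
  rcases lt_or_ge (2 * f1) (3 * f) with h | h
  · have h1 := kgrow_level m f f1 s g o hm hf hf1 hs hg hcount ho h
    have hf10 : 0 < f1 := by linarith
    have h2 : m / (27 * f1) / 50 * f1 = m / 1350 := by
      field_simp
      norm_num
    have h3 : m / (27 * f1) / 50 * f1 ≤
        ((f - s) * o / (f * (f1 + 1)) + g * o / (f1 + 2) ^ 2) / 50 * f1 := by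
      apply mul_le_mul_of_nonneg_right _ hf10.le
      linarith
    rw [h2] at h3
    nlinarith
  · have h0 : 0 ≤ (f - s) * o / (f * (f1 + 1)) + g * o / (f1 + 2) ^ 2 := by
      have ho' : 0 ≤ o := by linarith
      have : 0 ≤ f - s := by linarith
      have : 0 ≤ f := by linarith
      have : 0 ≤ f1 := by linarith
      positivity
    nlinarith

lemma kgrow_level3 (m f f1 s g o : ℝ) (hm : 0 < m) (hf : 1 ≤ f) (hf1 : 1 ≤ f1) (hs : s ≤ f)
    (hg : 0 ≤ g) (hcount : 3 * s ≤ f + g + f1) (ho : m ≤ o) (hf2 : f ≤ 2 * m) :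
    3 / 2 * f ≤ (1 + ((f - s) * o / (f * (f1 + 1)) + g * o / (f1 + 2) ^ 2) / 50) * f1 * 4050 := by
  rcases lt_or_ge (2 * f1) (3 * f) with h | h
  · have h1 := kgrow_level m f f1 s g o hm hf hf1 hs hg hcount ho h
    have hf10 : 0 < f1 := by linarith
    have h2 : m / (27 * f1) / 50 * f1 = m / 1350 := by
      field_simp
      norm_num
    have h3 : m / (27 * f1) / 50 * f1 ≤
        ((f - s) * o / (f * (f1 + 1)) + g * o / (f1 + 2) ^ 2) / 50 * f1 := by
      apply mul_le_mul_of_nonneg_right _ hf10.le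
      linarith
    rw [h2] at h3
    nlinarith
  · have h0 : 0 ≤ (f - s) * o / (f * (f1 + 1)) + g * o / (f1 + 2) ^ 2 := by
      have ho' : 0 ≤ o := by linarith
      have : 0 ≤ f - s := by linarith
      have : 0 ≤ f := by linarith
      have : 0 ≤ f1 := by linarith
      positivity
    nlinarith

lemma kgrow_XC_nonneg (κ : Slot m → V) (u : V) (r : ℕ) : 0 ≤ XC κ u r := by
  rw [XC]
  apply div_nonneg
  · exact mul_nonneg (Nat.cast_nonneg _) (Nat.cast_nonneg _)
  · have h1 : (0 : ℝ) ≤ (bdry κ u r).card := Nat.cast_nonneg _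
    have h2 : (0 : ℝ) ≤ (bdry κ u (r + 1)).card := Nat.cast_nonneg _
    exact mul_nonneg h1 (by linarith)

lemma kgrow_XG_nonneg (κ : Slot m → V) (u : V) (r : ℕ) : 0 ≤ XG κ u r := by
  rw [XG]
  apply div_nonneg
  · exact mul_nonneg (Nat.cast_nonneg _) (Nat.cast_nonneg _)
  · exact sq_nonneg _

lemma kgrow_factor_nonneg (κ : Slot m → V) (u : V) (r : ℕ) :
    0 ≤ 1 + (XC κ u r + XG κ u r) / 50 := by
  have h1 := kgrow_XC_nonneg κ u r
  have h2 := kgrow_XG_nonneg κ u r
  linarith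

/-- the product of all level factors is large -/
lemma kgrow_prod (κ : Slot m → V) (c : V → ℕ) (hm : 0 < m) (hd : ∀ v, kdeg κ v = c v)
    (hc : ∀ v, c v = 0 ∨ 3 ≤ c v) (hconn : KConn κ) (u : V) (hu : ∃ σ, κ σ = u) :
    ∀ R : ℕ, m ≤ (outs κ u (R + 1)).card →
      ((3 : ℝ) / 2) ^ R ≤ (∏ r ∈ range R, (1 + (XC κ u r + XG κ u r) / 50)) *
        (bdry κ u R).card *
        4050 ^ ((range R).filter (fun r => m < 2050 * (bdry κ u r).card)).card := by
  intro R
  induction R with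
  | zero =>
    intro ho
    have h1 : m ≤ (outs κ u 0).card := ho.trans (kgrow_outs_anti κ u (by omega))
    have h2 := kgrow_bdry_pos κ u 0 hconn hu (by omega)
    have h3 : (1 : ℝ) ≤ (bdry κ u 0).card := by exact_mod_cast h2
    simpa using h3
  | succ R ih =>
    intro ho
    have ih' := ih (ho.trans (kgrow_outs_anti κ u (by omega)))
    rw [prod_range_succ, range_add_one, filter_insert]
    have hfpos : 0 < (bdry κ u R).card := kgrow_bdry_pos κ u R hconn hu
      (lt_of_lt_of_le hm (ho.trans (kgrow_outs_anti κ u (by omega))))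
    have hf1pos : 0 < (bdry κ u (R + 1)).card := kgrow_bdry_pos κ u (R + 1) hconn hu
      (lt_of_lt_of_le hm (ho.trans (kgrow_outs_anti κ u (by omega))))
    have hf2m : (bdry κ u R).card ≤ 2 * m := by
      calc (bdry κ u R).card ≤ (univ : Finset (Slot m)).card := card_le_card (subset_univ _)
        _ = 2 * m := by
          rw [card_univ, Fintype.card_prod, Fintype.card_fin, Fintype.card_bool, mul_comm]
    have hs := kgrow_shell_card κ u R
    have hcnt := kgrow_count κ c hd hc u R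
    have ho' : m ≤ (outs κ u (R + 2)).card := ho
    have hccR : (cc κ u R : ℝ) = (bdry κ u R).card - (shell κ u R).card := by
      rw [cc, Nat.cast_sub hs]
    have hX : XC κ u R + XG κ u R =
        (((bdry κ u R).card : ℝ) - (shell κ u R).card) * (outs κ u (R + 2)).card /
          ((bdry κ u R).card * ((bdry κ u (R + 1)).card + 1)) +
        (gg κ u R : ℝ) * (outs κ u (R + 2)).card / ((bdry κ u (R + 1)).card + 2) ^ 2 := by
      rw [XC, XG, hccR]
    have hmR : (0 : ℝ) < m := by exact_mod_cast hm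
    have e1 : (1 : ℝ) ≤ (bdry κ u R).card := by exact_mod_cast hfpos
    have e2 : (1 : ℝ) ≤ (bdry κ u (R + 1)).card := by exact_mod_cast hf1pos
    have e3 : ((shell κ u R).card : ℝ) ≤ (bdry κ u R).card := by exact_mod_cast hs
    have e4 : (0 : ℝ) ≤ gg κ u R := Nat.cast_nonneg _
    have e5 : 3 * ((shell κ u R).card : ℝ) ≤
        (bdry κ u R).card + gg κ u R + (bdry κ u (R + 1)).card := by exact_mod_cast hcnt
    have e6 : (m : ℝ) ≤ (outs κ u (R + 2)).card := by exact_mod_cast ho'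
    have e7 : ((bdry κ u R).card : ℝ) ≤ 2 * m := by exact_mod_cast hf2m
    have hP : 0 ≤ ∏ r ∈ range R, (1 + (XC κ u r + XG κ u r) / 50) :=
      prod_nonneg (fun r _ => kgrow_factor_nonneg κ u r)
    set P := ∏ r ∈ range R, (1 + (XC κ u r + XG κ u r) / 50) with hPdef
    set L := ((range R).filter (fun r => m < 2050 * (bdry κ u r).card)).card with hL
    have hPL : 0 ≤ P * (4050 : ℝ) ^ L := mul_nonneg hP (pow_nonneg (by norm_num) _)
    by_cases hlin : m < 2050 * (bdry κ u R).card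
    · rw [if_pos hlin, card_insert_of_notMem (by simp), ← hL]
      have h3 := kgrow_level3 m _ _ _ _ _ hmR e1 e2 e3 e4 e5 e6 e7
      rw [← hX] at h3
      have h4 := mul_le_mul_of_nonneg_left h3 hPL
      calc ((3 : ℝ) / 2) ^ (R + 1) = 3 / 2 * (3 / 2) ^ R := by rw [pow_succ]; ring
        _ ≤ 3 / 2 * (P * (bdry κ u R).card * 4050 ^ L) := by linarith
        _ = P * 4050 ^ L * (3 / 2 * (bdry κ u R).card) := by ring
        _ ≤ _ := h4
        _ = _ := by rw [pow_succ]; ring
    · rw [if_neg hlin, ← hL]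
      have e8 : 2050 * ((bdry κ u R).card : ℝ) ≤ m := by exact_mod_cast not_lt.mp hlin
      have h3 := kgrow_level2 m _ _ _ _ _ hmR e1 e2 e3 e4 e5 e6 e8
      rw [← hX] at h3
      have h4 := mul_le_mul_of_nonneg_left h3 hPL
      calc ((3 : ℝ) / 2) ^ (R + 1) = 3 / 2 * (3 / 2) ^ R := by rw [pow_succ]; ring
        _ ≤ 3 / 2 * (P * (bdry κ u R).card * 4050 ^ L) := by linarith
        _ = P * 4050 ^ L * (3 / 2 * (bdry κ u R).card) := by ring
        _ ≤ _ := h4
        _ = _ := by ring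

lemma kgrow_lin_card (κ : Slot m → V) (u : V) (hm : 0 < m) (R : ℕ) :
    ((range R).filter (fun r => m < 2050 * (bdry κ u r).card)).card ≤ 4100 := by
  set S := (range R).filter (fun r => m < 2050 * (bdry κ u r).card) with hS
  have h1 : ∑ r ∈ S, (bdry κ u r).card ≤ 2 * m :=
    (sum_le_sum_of_subset (filter_subset _ _)).trans (kgrow_bdry_sum κ u R)
  have h2 : S.card * m ≤ ∑ r ∈ S, 2050 * (bdry κ u r).card := by
    rw [← smul_eq_mul]
    apply card_nsmul_le_sum
    intro r hr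
    rw [hS, mem_filter] at hr
    exact hr.2.le
  rw [← mul_sum] at h2
  have h3 : S.card * m ≤ 4100 * m := by linarith
  exact Nat.le_of_mul_le_mul_right h3 hm

/-- invariance of the product over one parity class, and its mean -/
noncomputable def kgrowP (κ : Slot m → V) (u : V) (p K : ℕ) : ℝ :=
  ∏ k ∈ range K, (1 + (XC κ u (2 * k + p) + XG κ u (2 * k + p)) / 50)

lemma kgrowP_nonneg (κ : Slot m → V) (u : V) (p K : ℕ) : 0 ≤ kgrowP κ u p K :=
  prod_nonneg (fun r _ => kgrow_factor_nonneg κ u (2 * r + p))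

lemma kgrowP_agree (κ κ' : Slot m → V) (u : V) (p K : ℕ) (h : Agree u (2 * K + p) κ κ') :
    kgrowP κ u p K = kgrowP κ' u p K := by
  apply prod_congr rfl
  intro k hk
  rw [mem_range] at hk
  have hA : Agree u (2 * k + p + 2) κ κ' := agree_mono u (by omega) κ κ' h
  rw [XC_agree u _ κ κ' hA, XG_agree u _ κ κ' hA]

open Classical in
lemma kgrowP_sum (c : V → ℕ) (E0 E1 : Finset (Fin m)) (hE : E0 ⊆ E1) (u : V) (p K : ℕ) :
    ∑ κ ∈ univ.filter (fun κ : Slot m → V => KSet c E0 E1 κ), kgrowP κ u p K ≤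
      (26 / 25) ^ K * ((univ.filter (fun κ : Slot m → V => KSet c E0 E1 κ)).card : ℝ) := by
  induction K with
  | zero => simp [kgrowP]
  | succ K ih =>
    have hC := switch_c c E0 E1 hE u (2 * K + p) (fun κ => kgrowP κ u p K)
      (fun κ => kgrowP_nonneg κ u p K) (fun κ κ' h => kgrowP_agree κ κ' u p K h)
    have hG := switch_g c E0 E1 hE u (2 * K + p) (fun κ => kgrowP κ u p K)
      (fun κ => kgrowP_nonneg κ u p K) (fun κ κ' h => kgrowP_agree κ κ' u p K h)
    have h1 : ∀ κ : Slot m → V, kgrowP κ u p (K + 1) = kgrowP κ u p K +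
        (kgrowP κ u p K * XC κ u (2 * K + p)) / 50 +
        (kgrowP κ u p K * XG κ u (2 * K + p)) / 50 := by
      intro κ
      rw [kgrowP, prod_range_succ, ← kgrowP]
      ring
    simp only [h1]
    rw [sum_add_distrib, sum_add_distrib, ← sum_div, ← sum_div, pow_succ]
    nlinarith

lemma kgrowP_mul (κ : Slot m → V) (u : V) (K : ℕ) :
    ∏ r ∈ range (2 * K), (1 + (XC κ u r + XG κ u r) / 50) =
      kgrowP κ u 0 K * kgrowP κ u 1 K := by
  induction K with
  | zero => simp [kgrowP]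
  | succ K ih =>
    rw [show 2 * (K + 1) = 2 * K + 1 + 1 by ring, prod_range_succ, prod_range_succ, ih,
      kgrowP, kgrowP, kgrowP, kgrowP, prod_range_succ, prod_range_succ]
    simp only [Nat.add_zero]
    ring

open Classical in
lemma kgrow_bad (G : ℝ) (hG1 : 1 ≤ G) (hG : ∀ n : ℕ, n ≤ 4100 → (4050 : ℝ) ^ n ≤ G)
    (c : V → ℕ) (E0 E1 : Finset (Fin m))
    (hE : E0 ⊆ E1) (hm : 0 < m) (hc : ∀ v, c v = 0 ∨ 3 ≤ c v) (u : V) (K : ℕ) :
    (((univ.filter (fun κ : Slot m → V => KSet c E0 E1 κ)).filter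
      (fun κ => (∃ σ, κ σ = u) ∧ m ≤ (outs κ u (2 * K + 1)).card)).card : ℝ) * (3 / 2) ^ K ≤
      2 * m * G * (26 / 25) ^ K *
        ((univ.filter (fun κ : Slot m → V => KSet c E0 E1 κ)).card : ℝ) := by
  have hmR : (1 : ℝ) ≤ m := by exact_mod_cast hm
  have hmG : 1 ≤ (m : ℝ) * G := one_le_mul_of_one_le_of_one_le hmR hG1
  have hmG0 : 0 ≤ (m : ℝ) * G := by linarith
  have key : ∀ κ : Slot m → V, KSet c E0 E1 κ → (∃ σ, κ σ = u) →
      m ≤ (outs κ u (2 * K + 1)).card →
      ((3 : ℝ) / 2) ^ K ≤ (kgrowP κ u 0 K + kgrowP κ u 1 K) * (m * G) := by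
    intro κ hκ hu ho
    have h1 := kgrow_prod κ c hm hκ.1 hc hκ.2.2 u hu (2 * K) ho
    rw [kgrowP_mul] at h1
    have h2 : ((bdry κ u (2 * K)).card : ℝ) ≤ 2 * m := by
      have : (bdry κ u (2 * K)).card ≤ 2 * m := by
        calc (bdry κ u (2 * K)).card ≤ (univ : Finset (Slot m)).card :=
              card_le_card (subset_univ _)
          _ = 2 * m := by
            rw [card_univ, Fintype.card_prod, Fintype.card_fin, Fintype.card_bool, mul_comm]
      exact_mod_cast this
    have h3 := hG _ (kgrow_lin_card κ u hm (2 * K))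
    have hP0 := kgrowP_nonneg κ u 0 K
    have hP1 := kgrowP_nonneg κ u 1 K
    have hP01 := mul_nonneg hP0 hP1
    generalize kgrowP κ u 0 K = a at *
    generalize kgrowP κ u 1 K = b at *
    generalize (4050 : ℝ) ^ ((range (2 * K)).filter
        (fun r => m < 2050 * (bdry κ u r).card)).card = x at *
    have h4 : ((3 : ℝ) / 2) ^ (2 * K) ≤ a * b * (2 * m) * G := by
      refine h1.trans ?_
      have h5 : 0 ≤ a * b * (2 * m) := mul_nonneg hP01 (by linarith)
      have h6 : a * b * ((bdry κ u (2 * K)).card : ℝ) ≤ a * b * (2 * m) :=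
        mul_le_mul_of_nonneg_left h2 hP01
      rcases le_or_gt 0 x with hx | hx
      · exact mul_le_mul h6 h3 hx h5
      · have h7 : 0 ≤ a * b * ((bdry κ u (2 * K)).card : ℝ) :=
          mul_nonneg hP01 (Nat.cast_nonneg _)
        have h8 := mul_nonneg h7 (neg_nonneg.mpr hx.le)
        have h9 := mul_nonneg h5 (show (0 : ℝ) ≤ G by linarith)
        linarith
    have h5 : (((3 : ℝ) / 2) ^ K) ^ 2 ≤ ((a + b) * (m * G)) ^ 2 := by
      rw [← pow_mul, mul_comm K 2]
      calc ((3 : ℝ) / 2) ^ (2 * K) ≤ a * b * (2 * m) * G := h4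
        _ = 2 * (a * b) * (m * G) := by ring
        _ ≤ 2 * (a * b) * (m * G) * (2 * (m * G)) := by
          apply le_mul_of_one_le_right
          · exact mul_nonneg (by linarith) hmG0
          · linarith
        _ = 4 * (a * b) * (m * G) ^ 2 := by ring
        _ ≤ (a + b) ^ 2 * (m * G) ^ 2 := by
          apply mul_le_mul_of_nonneg_right _ (sq_nonneg _)
          nlinarith [sq_nonneg (a - b)]
        _ = _ := by ring
    exact le_of_sq_le_sq h5 (mul_nonneg (add_nonneg hP0 hP1) hmG0)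
  set S := univ.filter (fun κ : Slot m → V => KSet c E0 E1 κ) with hS
  set T := S.filter (fun κ => (∃ σ, κ σ = u) ∧ m ≤ (outs κ u (2 * K + 1)).card) with hT
  have h1 : (T.card : ℝ) * (3 / 2) ^ K ≤
      ∑ κ ∈ S, (kgrowP κ u 0 K + kgrowP κ u 1 K) * (m * G) := by
    have h2 : (T.card : ℝ) * (3 / 2) ^ K = ∑ κ ∈ T, (3 / 2 : ℝ) ^ K := by
      rw [sum_const, nsmul_eq_mul]
    have h3 : ∑ κ ∈ T, (3 / 2 : ℝ) ^ K ≤
        ∑ κ ∈ T, (kgrowP κ u 0 K + kgrowP κ u 1 K) * (m * G) := by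
      apply sum_le_sum
      intro κ hκ
      rw [hT, mem_filter, hS, mem_filter] at hκ
      exact key κ hκ.1.2 hκ.2.1 hκ.2.2
    have h4 : ∑ κ ∈ T, (kgrowP κ u 0 K + kgrowP κ u 1 K) * (m * G) ≤
        ∑ κ ∈ S, (kgrowP κ u 0 K + kgrowP κ u 1 K) * (m * G) := by
      apply sum_le_sum_of_subset_of_nonneg (filter_subset _ _)
      intro κ _ _
      exact mul_nonneg (add_nonneg (kgrowP_nonneg κ u 0 K) (kgrowP_nonneg κ u 1 K)) hmG0
    linarith
  rw [← sum_mul, sum_add_distrib] at h1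
  have h2 := kgrowP_sum c E0 E1 hE u 0 K
  have h3 := kgrowP_sum c E0 E1 hE u 1 K
  rw [← hS] at h2 h3
  calc _ ≤ _ := h1
    _ ≤ ((26 / 25) ^ K * (S.card : ℝ) + (26 / 25) ^ K * (S.card : ℝ)) * (m * G) :=
      mul_le_mul_of_nonneg_right (add_le_add h2 h3) hmG0
    _ = _ := by ring

/-- if few slots avoid the balls then all slots are close -/
lemma kgrow_close (κ : Slot m → V) (R : ℕ)
    (h : ∀ σ : Slot m, (outs κ (κ σ) R).card < m) (σ τ : Slot m) :
    κ τ ∈ kball κ (κ σ) (2 * R + 1) := by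
  classical
  have htot : (univ : Finset (Slot m)).card = 2 * m := by
    rw [card_univ, Fintype.card_prod, Fintype.card_fin, Fintype.card_bool, mul_comm]
  have h1 := h σ
  have h2 := h τ
  have h3 : ∃ ω : Slot m, ω ∉ outs κ (κ σ) R ∪ outs κ (κ τ) R := by
    by_contra hcon
    push Not at hcon
    have h4 : (univ : Finset (Slot m)) ⊆ outs κ (κ σ) R ∪ outs κ (κ τ) R := fun ω _ => hcon ω
    have h5 := (card_le_card h4).trans (card_union_le _ _)
    omega
  obtain ⟨ω, hω⟩ := h3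
  rw [mem_union, not_or] at hω
  have h4 : ∀ u : V, ω ∉ outs κ u R → (κ ω ∈ kball κ u R ∨ κ (opp ω) ∈ kball κ u R) := by
    intro u hu
    rw [outs, mem_filter] at hu
    by_contra hcon
    push Not at hcon
    exact hu ⟨mem_univ _, hcon.1, hcon.2⟩
  have h0 : ∀ (α β : Slot m), (β = α ∨ β = opp α) → κ β ∈ kball κ (κ α) 1 := by
    intro α β hβ
    have h00 : κ α ∈ kball κ (κ α) 0 := by simp [kball]
    rcases hβ with rfl | rfl
    · exact kball_mono κ _ (by omega) h00
    · exact kgrow_step κ _ 0 α h00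
  have key : ∀ α β : Slot m, (β = α ∨ β = opp α) → κ α ∈ kball κ (κ σ) R →
      κ β ∈ kball κ (κ τ) R → κ τ ∈ kball κ (κ σ) (2 * R + 1) := by
    intro α β hαβ h5 h6
    have h7 := kgrow_symm κ _ R _ h6
    have h8 := kgrow_comp κ (κ α) (κ β) 1 (h0 α β hαβ) R _ h7
    have h9 := kgrow_comp κ (κ σ) (κ α) R h5 _ _ h8
    have : R + (1 + R) = 2 * R + 1 := by ring
    rwa [this] at h9
  rcases h4 _ hω.1 with h5 | h5 <;> rcases h4 _ hω.2 with h6 | h6
  · exact key ω ω (Or.inl rfl) h5 h6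
  · exact key ω (opp ω) (Or.inr rfl) h5 h6
  · exact key (opp ω) ω (Or.inr (opp_opp ω).symm) h5 h6
  · exact key (opp ω) (opp ω) (Or.inl rfl) h5 h6

end KGrowAux

open Classical in
theorem kernel_diam : ∃ K : ℕ, ∀ (V : Type) [Fintype V] [DecidableEq V] (m : ℕ) (c : V → ℕ)
    (E0 E1 : Finset (Fin m)), 2 ≤ m → (∀ v, c v = 0 ∨ 3 ≤ c v) → E0 ⊆ E1 →
    m ^ 2 * (univ.filter (fun κ : Slot m → V => KSet c E0 E1 κ ∧
        ∃ σ τ, κ τ ∉ kball κ (κ σ) (K * Nat.log 2 m))).card
      ≤ (univ.filter (fun κ : Slot m → V => KSet c E0 E1 κ)).card := by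
  obtain ⟨G, hG1, hG⟩ : ∃ G : ℝ, 1 ≤ G ∧ ∀ n : ℕ, n ≤ 4100 → (4050 : ℝ) ^ n ≤ G :=
    ⟨4050 ^ 4100, one_le_pow₀ (by norm_num), fun n hn => pow_le_pow_right₀ (by norm_num) hn⟩
  have hG0 : 0 < G := by linarith
  obtain ⟨k0, hk0⟩ : ∃ k0 : ℕ, ((52 : ℝ) / 75) ^ k0 < 1 / (1024 * G) :=
    exists_pow_lt_of_lt_one (by positivity) (by norm_num)
  refine ⟨4 * k0 + 3, ?_⟩
  intro V _ _ m c E0 E1 hm hc hE
  set l := Nat.log 2 m with hl
  have hl1 : 1 ≤ l := by
    rw [hl]
    exact Nat.le_log_of_pow_le (by norm_num) (by simpa using hm)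
  have hml : (m : ℝ) ≤ 4 ^ l := by
    have h1 : m < 2 ^ (l + 1) := Nat.lt_pow_succ_log_self (by norm_num) m
    have h2 : 2 ^ (l + 1) ≤ 4 ^ l := by
      have : (4 : ℕ) = 2 ^ 2 := by norm_num
      rw [this, ← pow_mul]
      exact Nat.pow_le_pow_right (by norm_num) (by omega)
    have h3 : m ≤ 4 ^ l := by omega
    exact_mod_cast h3
  set K := k0 * l with hK
  set S := univ.filter (fun κ : Slot m → V => KSet c E0 E1 κ) with hS
  set B := univ.filter (fun κ : Slot m → V => KSet c E0 E1 κ ∧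
        ∃ σ τ, κ τ ∉ kball κ (κ σ) ((4 * k0 + 3) * l)) with hB
  rcases S.eq_empty_or_nonempty with hS0 | ⟨κ0, hκ0⟩
  · have : B = ∅ := by
      rw [eq_empty_iff_forall_notMem]
      intro κ hκ
      rw [hB, mem_filter] at hκ
      have : κ ∈ S := by
        rw [hS, mem_filter]
        exact ⟨mem_univ _, hκ.2.1⟩
      rw [hS0] at this
      exact absurd this (notMem_empty _)
    rw [this, card_empty]
    omega
  -- the relevant centres
  set U := univ.filter (fun u : V => c u ≠ 0) with hU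
  have hUcard : U.card ≤ 2 * m := by
    have h1 : U ⊆ univ.image κ0 := by
      intro u hu
      rw [hU, mem_filter] at hu
      rw [hS, mem_filter] at hκ0
      have h2 : kdeg κ0 u ≠ 0 := by
        rw [hκ0.2.1 u]
        exact hu.2
      rw [kdeg, card_ne_zero] at h2
      obtain ⟨σ, hσ⟩ := h2
      rw [mem_filter] at hσ
      rw [mem_image]
      exact ⟨σ, mem_univ _, hσ.2⟩
    calc U.card ≤ (univ.image κ0).card := card_le_card h1
      _ ≤ (univ : Finset (Slot m)).card := card_image_le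
      _ = 2 * m := by
        rw [card_univ, Fintype.card_prod, Fintype.card_fin, Fintype.card_bool, mul_comm]
  set T : V → Finset (Slot m → V) := fun u =>
    S.filter (fun κ => (∃ σ, κ σ = u) ∧ m ≤ (outs κ u (2 * K + 1)).card) with hT
  have hBsub : B ⊆ U.biUnion T := by
    intro κ hκ
    rw [hB, mem_filter] at hκ
    obtain ⟨_, hκS, σ, τ, hστ⟩ := hκ
    have h1 : ∃ ω, m ≤ (outs κ (κ ω) (2 * K + 1)).card := by
      by_contra hcon
      push Not at hcon
      have h2 := kgrow_close κ (2 * K + 1) hcon σ τ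
      apply hστ
      refine kball_mono κ _ ?_ h2
      have : (4 * k0 + 3) * l = 4 * K + 3 * l := by rw [hK]; ring
      omega
    obtain ⟨ω, hω⟩ := h1
    rw [mem_biUnion]
    refine ⟨κ ω, ?_, ?_⟩
    · rw [hU, mem_filter]
      refine ⟨mem_univ _, ?_⟩
      rw [← hκS.1 (κ ω), kdeg, card_ne_zero]
      exact ⟨ω, by rw [mem_filter]; exact ⟨mem_univ _, rfl⟩⟩
    · rw [hT]
      simp only [mem_filter]
      refine ⟨?_, ⟨ω, rfl⟩, hω⟩
      rw [hS, mem_filter]
      exact ⟨mem_univ _, hκS⟩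
  have hTcard : ∀ u : V, ((T u).card : ℝ) ≤ 2 * m * G * (52 / 75) ^ K * (S.card : ℝ) := by
    intro u
    have h1 := kgrow_bad G hG1 hG c E0 E1 hE (by omega) hc u K
    have h2 : ((52 : ℝ) / 75) ^ K = (26 / 25) ^ K / (3 / 2) ^ K := by
      rw [← div_pow]
      norm_num
    rw [h2]
    have h3 : (0 : ℝ) < (3 / 2) ^ K := by positivity
    have h4 : 2 * (m : ℝ) * G * ((26 / 25) ^ K / (3 / 2) ^ K) * (S.card : ℝ) =
        (2 * m * G * (26 / 25) ^ K * (S.card : ℝ)) / (3 / 2) ^ K := by ring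
    rw [h4, le_div_iff₀ h3]
    exact h1
  have hBcard : (B.card : ℝ) ≤ 2 * m * (2 * m * G * (52 / 75) ^ K * (S.card : ℝ)) := by
    have h1 : B.card ≤ ∑ u ∈ U, (T u).card := (card_le_card hBsub).trans card_biUnion_le
    have h2 : (B.card : ℝ) ≤ ∑ u ∈ U, ((T u).card : ℝ) := by exact_mod_cast h1
    have h3 : ∑ u ∈ U, ((T u).card : ℝ) ≤
        U.card • (2 * m * G * (52 / 75) ^ K * (S.card : ℝ)) :=
      sum_le_card_nsmul _ _ _ (fun u _ => hTcard u)
    rw [nsmul_eq_mul] at h3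
    have h4 : (U.card : ℝ) ≤ 2 * m := by exact_mod_cast hUcard
    have h5 : 0 ≤ 2 * m * G * (52 / 75) ^ K * (S.card : ℝ) := by positivity
    have h6 := mul_le_mul_of_nonneg_right h4 h5
    linarith
  have hsmall : 4 * (m : ℝ) ^ 4 * G * (52 / 75) ^ K ≤ 1 := by
    have h1 : ((52 : ℝ) / 75) ^ K ≤ (1 / (1024 * G)) ^ l := by
      rw [hK, pow_mul]
      exact pow_le_pow_left₀ (by positivity) hk0.le l
    have h2 : (m : ℝ) ^ 4 ≤ 256 ^ l := by
      calc (m : ℝ) ^ 4 ≤ (4 ^ l) ^ 4 := pow_le_pow_left₀ (Nat.cast_nonneg _) hml 4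
        _ = 256 ^ l := by
          rw [← pow_mul, mul_comm l 4, pow_mul]
          norm_num
    have h3 : 4 * G ≤ (4 * G) ^ l := le_self_pow₀ (by linarith) (by omega)
    have h4 : 4 * (m : ℝ) ^ 4 * G ≤ (1024 * G) ^ l := by
      calc 4 * (m : ℝ) ^ 4 * G = (m : ℝ) ^ 4 * (4 * G) := by ring
        _ ≤ 256 ^ l * (4 * G) ^ l := mul_le_mul h2 h3 (by positivity) (by positivity)
        _ = (1024 * G) ^ l := by
          rw [← mul_pow]
          congr 1
          ring
    calc 4 * (m : ℝ) ^ 4 * G * (52 / 75) ^ K ≤ (1024 * G) ^ l * (1 / (1024 * G)) ^ l :=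
          mul_le_mul h4 h1 (by positivity) (by positivity)
      _ = 1 := by
        rw [← mul_pow, mul_one_div_cancel (by positivity), one_pow]
  have hfin : (m : ℝ) ^ 2 * (B.card : ℝ) ≤ (S.card : ℝ) := by
    have h1 : (m : ℝ) ^ 2 * (B.card : ℝ) ≤
        (m : ℝ) ^ 2 * (2 * m * (2 * m * G * (52 / 75) ^ K * (S.card : ℝ))) :=
      mul_le_mul_of_nonneg_left hBcard (by positivity)
    have h2 : (m : ℝ) ^ 2 * (2 * m * (2 * m * G * (52 / 75) ^ K * (S.card : ℝ))) =
        (4 * (m : ℝ) ^ 4 * G * (52 / 75) ^ K) * (S.card : ℝ) := by ring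
    rw [h2] at h1
    have h3 := mul_le_mul_of_nonneg_right hsmall (Nat.cast_nonneg (α := ℝ) S.card)
    linarith
  exact_mod_cast hfin

end Pool.Agent.H.MP_3b0279_pr
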