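import Pool.Agent.H.MP_3b0279_pr.Defs

/-!
Switchings on kernels.
-/

set_option autoImplicit false

namespace Pool.Agent.H.MP_3b0279_pr

open Finset

variable {V : Type} [Fintype V] [DecidableEq V] {m : ℕ}

/-- outer slots of the edges leaving the ball of radius `r` -/
def bdry (κ : Slot m → V) (u : V) (r : ℕ) : Finset (Slot m) :=
  univ.filter (fun σ => κ σ ∉ kball κ u r ∧ κ (opp σ) ∈ kball κ u r)

/-- vertices at distance exactly `r + 1` -/
def shell (κ : Slot m → V) (u : V) (r : ℕ) : Finset V := kball κ u (r + 1) \ kball κ u r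

/-- number of collisions at level `r` -/
def cc (κ : Slot m → V) (u : V) (r : ℕ) : ℕ := (bdry κ u r).card - (shell κ u r).card

/-- number of slots with both ends in the shell -/
def gg (κ : Slot m → V) (u : V) (r : ℕ) : ℕ :=
  (univ.filter (fun σ : Slot m => κ σ ∈ shell κ u r ∧ κ (opp σ) ∈ shell κ u r)).card

/-- slots with both ends outside the ball -/
def outs (κ : Slot m → V) (u : V) (r : ℕ) : Finset (Slot m) :=
  univ.filter (fun σ : Slot m => κ σ ∉ kball κ u r ∧ κ (opp σ) ∉ kball κ u r)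

/-- same ball of radius `s`, and same kernel inside -/
def Agree (u : V) (s : ℕ) (κ κ' : Slot m → V) : Prop :=
  kball κ u s = kball κ' u s ∧
    ∀ σ, (κ σ ∈ kball κ u s ∨ κ' σ ∈ kball κ u s) → κ σ = κ' σ

/-- the collision rate -/
noncomputable def XC (κ : Slot m → V) (u : V) (r : ℕ) : ℝ :=
  (cc κ u r : ℝ) * (outs κ u (r + 2)).card / ((bdry κ u r).card * ((bdry κ u (r + 1)).card + 1))

/-- the internal edge rate -/
noncomputable def XG (κ : Slot m → V) (u : V) (r : ℕ) : ℝ :=
  (gg κ u r : ℝ) * (outs κ u (r + 2)).card / ((bdry κ u (r + 1)).card + 2) ^ 2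

theorem mem_kball_succ (κ : Slot m → V) (u : V) (r : ℕ) (v : V) :
    v ∈ kball κ u (r + 1) ↔ v ∈ kball κ u r ∨ ∃ σ : Slot m, κ σ ∈ kball κ u r ∧ κ (opp σ) = v := by
  simp only [kball, mem_union, mem_filter, mem_univ, true_and]

theorem kball_mono (κ : Slot m → V) (u : V) {r s : ℕ} (h : r ≤ s) :
    kball κ u r ⊆ kball κ u s := by
  induction h with
  | refl => exact Subset.refl _
  | step _ ih => exact ih.trans (fun v hv => (mem_kball_succ κ u _ v).2 (Or.inl hv))

theorem agree_kball (u : V) {s : ℕ} (κ κ' : Slot m → V) (hA : Agree u s κ κ') (i : ℕ)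
    (hi : i ≤ s) : kball κ u i = kball κ' u i := by
  induction i with
  | zero => rfl
  | succ i ih =>
    have ih' := ih (by omega)
    have hm : kball κ u (i + 1) ⊆ kball κ u s := kball_mono κ u hi
    have hm0 : kball κ u i ⊆ kball κ u s := kball_mono κ u (by omega)
    have hm' : kball κ' u (i + 1) ⊆ kball κ u s := by
      rw [hA.1]; exact kball_mono κ' u hi
    apply Subset.antisymm
    · intro v hv
      rcases (mem_kball_succ κ u i v).1 hv with h | ⟨σ, h1, h2⟩
      · exact (mem_kball_succ κ' u i v).2 (Or.inl (ih' ▸ h))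
      · have e1 : κ σ = κ' σ := hA.2 σ (Or.inl (hm0 h1))
        have e2 : κ (opp σ) = κ' (opp σ) := hA.2 (opp σ) (Or.inl (hm (h2 ▸ hv)))
        refine (mem_kball_succ κ' u i v).2 (Or.inr ⟨σ, ?_, ?_⟩)
        · rw [← ih', ← e1]; exact h1
        · rw [← e2]; exact h2
    · intro v hv
      rcases (mem_kball_succ κ' u i v).1 hv with h | ⟨σ, h1, h2⟩
      · exact (mem_kball_succ κ u i v).2 (Or.inl (ih' ▸ h))
      · rw [← ih'] at h1
        have e1 : κ σ = κ' σ := hA.2 σ (Or.inr (hm0 h1))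
        have e2 : κ (opp σ) = κ' (opp σ) := hA.2 (opp σ) (Or.inr (hm' (h2 ▸ hv)))
        refine (mem_kball_succ κ u i v).2 (Or.inr ⟨σ, ?_, ?_⟩)
        · rw [e1]; exact h1
        · rw [e2]; exact h2

theorem agree_mono (u : V) {r s : ℕ} (h : r ≤ s) (κ κ' : Slot m → V) (hA : Agree u s κ κ') :
    Agree u r κ κ' := by
  refine ⟨agree_kball u κ κ' hA r h, fun σ hσ => hA.2 σ ?_⟩
  rcases hσ with hσ | hσ
  · exact Or.inl (kball_mono κ u h hσ)
  · exact Or.inr (kball_mono κ u h hσ)

theorem agree_symm (u : V) {s : ℕ} (κ κ' : Slot m → V) (hA : Agree u s κ κ') :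
    Agree u s κ' κ := by
  refine ⟨hA.1.symm, fun σ hσ => (hA.2 σ ?_).symm⟩
  rw [hA.1]
  exact hσ.symm

theorem agree_not_mem (u : V) {s : ℕ} {κ κ' : Slot m → V} (hA : Agree u s κ κ') (σ : Slot m) :
    κ σ ∈ kball κ u s ↔ κ' σ ∈ kball κ' u s := by
  constructor
  · intro h
    rw [← hA.2 σ (Or.inl h), ← hA.1]
    exact h
  · intro h
    rw [← hA.1] at h
    rw [hA.2 σ (Or.inr h)]
    exact h

theorem bdry_agree (u : V) {s : ℕ} {κ κ' : Slot m → V} (hA : Agree u s κ κ') :
    bdry κ u s = bdry κ' u s := by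
  ext σ
  simp only [bdry, mem_filter, mem_univ, true_and]
  rw [agree_not_mem u hA σ, agree_not_mem u hA (opp σ)]

theorem outs_agree (u : V) {s : ℕ} {κ κ' : Slot m → V} (hA : Agree u s κ κ') :
    outs κ u s = outs κ' u s := by
  ext σ
  simp only [outs, mem_filter, mem_univ, true_and]
  rw [agree_not_mem u hA σ, agree_not_mem u hA (opp σ)]

theorem shell_agree (u : V) {s : ℕ} {κ κ' : Slot m → V} (hA : Agree u (s + 1) κ κ') :
    shell κ u s = shell κ' u s := by
  rw [shell, shell, hA.1, (agree_mono u (Nat.le_succ s) κ κ' hA).1]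

theorem cc_agree (u : V) {s : ℕ} {κ κ' : Slot m → V} (hA : Agree u (s + 1) κ κ') :
    cc κ u s = cc κ' u s := by
  rw [cc, cc, shell_agree u hA, bdry_agree u (agree_mono u (Nat.le_succ s) κ κ' hA)]

theorem mem_shell_agree (u : V) {s : ℕ} {κ κ' : Slot m → V} (hA : Agree u (s + 1) κ κ')
    (σ : Slot m) : κ σ ∈ shell κ u s ↔ κ' σ ∈ shell κ' u s := by
  rw [shell, shell, mem_sdiff, mem_sdiff, agree_not_mem u hA σ,
    agree_not_mem u (agree_mono u (Nat.le_succ s) κ κ' hA) σ]

theorem gg_agree (u : V) {s : ℕ} {κ κ' : Slot m → V} (hA : Agree u (s + 1) κ κ') :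
    gg κ u s = gg κ' u s := by
  rw [gg, gg]
  apply congrArg
  ext σ
  simp only [mem_filter, mem_univ, true_and]
  rw [mem_shell_agree u hA σ, mem_shell_agree u hA (opp σ)]

theorem XC_agree (u : V) (r : ℕ) (κ κ' : Slot m → V) (hA : Agree u (r + 2) κ κ') :
    XC κ u r = XC κ' u r := by
  have h1 : Agree u (r + 1) κ κ' := agree_mono u (by omega) κ κ' hA
  have h0 : Agree u r κ κ' := agree_mono u (by omega) κ κ' hA
  rw [XC, XC, cc_agree u h1, outs_agree u hA, bdry_agree u h0, bdry_agree u h1]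

theorem XG_agree (u : V) (r : ℕ) (κ κ' : Slot m → V) (hA : Agree u (r + 2) κ κ') :
    XG κ u r = XG κ' u r := by
  have h1 : Agree u (r + 1) κ κ' := agree_mono u (by omega) κ κ' hA
  rw [XG, XG, gg_agree u h1, outs_agree u hA, bdry_agree u h1]

end Pool.Agent.H.MP_3b0279_pr
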