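import Pool.Agent.H.MP_3b0279_pr.KSwitch

set_option autoImplicit false

namespace Pool.Agent.H.MP_3b0279_pr

open Finset

variable {V : Type} [Fintype V] [DecidableEq V] {m : ℕ}

lemma kswc_ball_step {κ : Slot m → V} {u : V} {r : ℕ} {σ : Slot m} (h : κ σ ∈ kball κ u r) :
    κ (opp σ) ∈ kball κ u (r + 1) := by
  rw [kball, mem_union]
  right
  rw [mem_filter]
  exact ⟨mem_univ _, σ, h, rfl⟩

lemma kswc_mem_succ {κ : Slot m → V} {u : V} {r : ℕ} {x : V} :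
    x ∈ kball κ u (r + 1) ↔ x ∈ kball κ u r ∨ ∃ σ : Slot m, κ σ ∈ kball κ u r ∧ κ (opp σ) = x := by
  rw [kball, mem_union, mem_filter]
  simp

/-- a criterion for `Agree` -/
lemma kswc_agree {κ κ' : Slot m → V} {u : V} {r : ℕ}
    (h : ∀ ρ, (κ ρ ∈ kball κ u r ∨ κ' ρ ∈ kball κ u r) → κ ρ = κ' ρ) : Agree u r κ κ' := by
  refine ⟨?_, h⟩
  have key : ∀ s, s ≤ r → kball κ' u s = kball κ u s := by
    intro s
    induction s with
    | zero => intro _; rfl
    | succ s ih =>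
      intro hs
      have ih' := ih (by omega)
      have hsub : kball κ u s ⊆ kball κ u r := kball_mono κ u (by omega)
      have hsub' : kball κ u (s + 1) ⊆ kball κ u r := kball_mono κ u hs
      ext x
      rw [kswc_mem_succ, kswc_mem_succ, ih']
      constructor
      · rintro (hx | ⟨ρ, h1, h2⟩)
        · exact Or.inl hx
        · have e1 : κ ρ = κ' ρ := h ρ (Or.inr (hsub h1))
          have h3 : κ (opp ρ) ∈ kball κ u (s + 1) := kswc_ball_step (by rw [e1]; exact h1)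
          have e2 := h (opp ρ) (Or.inl (hsub' h3))
          exact Or.inr ⟨ρ, by rw [e1]; exact h1, by rw [e2]; exact h2⟩
      · rintro (hx | ⟨ρ, h1, h2⟩)
        · exact Or.inl hx
        · have e1 : κ ρ = κ' ρ := h ρ (Or.inl (hsub h1))
          have h3 : κ (opp ρ) ∈ kball κ u (s + 1) := kswc_ball_step h1
          have e2 := h (opp ρ) (Or.inl (hsub' h3))
          exact Or.inr ⟨ρ, by rw [← e1]; exact h1, by rw [← e2]; exact h2⟩
  exact (key r le_rfl).symm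

lemma kswc_shell_eq (κ : Slot m → V) (u : V) (r : ℕ) :
    shell κ u r = (bdry κ u r).image κ := by
  ext x
  rw [shell, mem_sdiff, kswc_mem_succ, mem_image]
  constructor
  · rintro ⟨h1 | ⟨σ, h1, h2⟩, h3⟩
    · exact absurd h1 h3
    · refine ⟨opp σ, ?_, h2⟩
      rw [bdry, mem_filter]
      refine ⟨mem_univ _, by rw [h2]; exact h3, by rw [opp_opp]; exact h1⟩
  · rintro ⟨σ, h1, h2⟩
    rw [bdry, mem_filter] at h1
    refine ⟨Or.inr ⟨opp σ, h1.2.2, by rw [opp_opp]; exact h2⟩, by rw [← h2]; exact h1.2.1⟩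

/-- the slots which are not kept -/
lemma kswc_exists_N (κ : Slot m → V) (u : V) (r : ℕ) :
    ∃ N ⊆ bdry κ u r, N.card = cc κ u r ∧
      ∀ σ ∈ N, ∃ σ' ∈ bdry κ u r, σ' ≠ σ ∧ κ σ' = κ σ := by
  classical
  have h1 : Set.SurjOn κ (bdry κ u r : Set (Slot m)) (κ '' (bdry κ u r : Set (Slot m))) :=
    Set.surjOn_image _ _
  obtain ⟨K, hK1, hK2, hK3⟩ := h1.exists_subset_injOn_image_eq
  set K' : Finset (Slot m) := (bdry κ u r).filter (fun σ => σ ∈ K) with hK'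
  have hKK : (K' : Set (Slot m)) = K := by
    ext σ
    simp only [hK', coe_filter, Set.mem_ofPred_eq]
    exact ⟨fun h => h.2, fun h => ⟨by exact_mod_cast hK1 h, h⟩⟩
  have hsub : K' ⊆ bdry κ u r := filter_subset _ _
  have himg : K'.image κ = shell κ u r := by
    rw [kswc_shell_eq]
    apply Finset.coe_injective
    rw [coe_image, coe_image, hKK, hK3]
  have hcard : K'.card = (shell κ u r).card := by
    rw [← himg, card_image_of_injOn]
    rw [hKK]; exact hK2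
  refine ⟨bdry κ u r \ K', sdiff_subset, ?_, ?_⟩
  · rw [card_sdiff_of_subset hsub, hcard]; rfl
  · intro σ hσ
    rw [mem_sdiff] at hσ
    have h2 : κ σ ∈ K'.image κ := by
      rw [himg, kswc_shell_eq]; exact mem_image_of_mem _ hσ.1
    obtain ⟨σ', h3, h4⟩ := mem_image.1 h2
    exact ⟨σ', hsub h3, fun h => hσ.2 (h ▸ h3), h4⟩

/-- the data of a switching -/
structure KswC (κ : Slot m → V) (u : V) (r : ℕ) (σ τ : Slot m) : Prop where
  h1 : κ σ ∉ kball κ u r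
  h2 : κ (opp σ) ∈ kball κ u r
  h3 : ∃ σ' ∈ bdry κ u r, σ' ≠ σ ∧ κ σ' = κ σ
  h4 : κ τ ∉ kball κ u (r + 2)
  h5 : κ (opp τ) ∉ kball κ u (r + 2)

section switch

variable {κ : Slot m → V} {u : V} {r : ℕ} {σ τ : Slot m}

lemma KswC.hv (h : KswC κ u r σ τ) : κ σ ∈ kball κ u (r + 1) := by
  have := kswc_ball_step h.h2
  rwa [opp_opp] at this

lemma KswC.sub01 (_h : KswC κ u r σ τ) : kball κ u r ⊆ kball κ u (r + 1) :=
  kball_mono κ u (by omega)
lemma KswC.sub12 (_h : KswC κ u r σ τ) : kball κ u (r + 1) ⊆ kball κ u (r + 2) :=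
  kball_mono κ u (by omega)

lemma KswC.ne1 (h : KswC κ u r σ τ) : σ ≠ τ := by
  rintro rfl; exact h.h4 (h.sub12 h.hv)
lemma KswC.ne2 (h : KswC κ u r σ τ) : σ ≠ opp τ := by
  rintro rfl
  exact h.h5 (h.sub12 h.hv)
lemma KswC.ne3 (h : KswC κ u r σ τ) : opp σ ≠ τ := by
  rintro rfl
  exact h.h4 (h.sub12 (h.sub01 h.h2))
lemma KswC.ne4 (h : KswC κ u r σ τ) : opp σ ≠ opp τ := by
  intro h'
  apply h.ne1
  rw [← opp_opp σ, h', opp_opp]

/-- the switched kernel -/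
def kswc (κ : Slot m → V) (σ τ : Slot m) : Slot m → V := κ ∘ Equiv.swap σ τ

omit [Fintype V] [DecidableEq V] in
lemma kswc_left : kswc κ σ τ σ = κ τ := by simp [kswc]
omit [Fintype V] [DecidableEq V] in
lemma kswc_right : kswc κ σ τ τ = κ σ := by simp [kswc]
omit [Fintype V] [DecidableEq V] in
lemma kswc_of_ne {ρ : Slot m} (h1 : ρ ≠ σ) (h2 : ρ ≠ τ) : kswc κ σ τ ρ = κ ρ := by
  simp [kswc, Equiv.swap_apply_of_ne_of_ne h1 h2]
omit [Fintype V] [DecidableEq V] in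
lemma kswc_map_map : kswc (kswc κ σ τ) σ τ = κ := by
  ext ρ
  simp [kswc]

lemma KswC.opp_left (h : KswC κ u r σ τ) : kswc κ σ τ (opp σ) = κ (opp σ) :=
  kswc_of_ne (opp_ne σ) h.ne3
lemma KswC.opp_right (h : KswC κ u r σ τ) : kswc κ σ τ (opp τ) = κ (opp τ) :=
  kswc_of_ne (fun h' => h.ne2 h'.symm) (opp_ne τ)

/-- slots with value in the ball are not changed -/
lemma KswC.slots (h : KswC κ u r σ τ) (ρ : Slot m)
    (hρ : κ ρ ∈ kball κ u r ∨ kswc κ σ τ ρ ∈ kball κ u r) : κ ρ = kswc κ σ τ ρ := by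
  by_cases h1 : ρ = σ
  · subst h1
    rw [kswc_left] at hρ
    rcases hρ with hρ | hρ
    · exact absurd hρ h.h1
    · exact absurd (h.sub12 (h.sub01 hρ)) h.h4
  · by_cases h2 : ρ = τ
    · subst h2
      rw [kswc_right] at hρ
      rcases hρ with hρ | hρ
      · exact absurd (h.sub12 (h.sub01 hρ)) h.h4
      · exact absurd hρ h.h1
    · rw [kswc_of_ne h1 h2]

lemma KswC.agree (h : KswC κ u r σ τ) : Agree u r κ (kswc κ σ τ) := kswc_agree h.slots

lemma KswC.mem_iff (h : KswC κ u r σ τ) (ρ : Slot m) :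
    kswc κ σ τ ρ ∈ kball κ u r ↔ κ ρ ∈ kball κ u r := by
  constructor
  · intro h'; rw [h.slots ρ (Or.inr h')]; exact h'
  · intro h'; rw [← h.slots ρ (Or.inl h')]; exact h'

lemma KswC.bdry_eq (h : KswC κ u r σ τ) : bdry (kswc κ σ τ) u r = bdry κ u r := by
  unfold bdry
  rw [← h.agree.1]
  ext ρ
  rw [mem_filter, mem_filter, h.mem_iff, h.mem_iff]

lemma KswC.mem_bdry (h : KswC κ u r σ τ) : σ ∈ bdry κ u r := by
  rw [bdry, mem_filter]; exact ⟨mem_univ _, h.h1, h.h2⟩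

lemma KswC.not_mem_bdry (h : KswC κ u r σ τ) : τ ∉ bdry κ u r := by
  rw [bdry, mem_filter]
  intro h'
  exact h.h5 (h.sub12 (h.sub01 h'.2.2))

lemma KswC.shell_eq (h : KswC κ u r σ τ) :
    shell (kswc κ σ τ) u r = insert (κ τ) (shell κ u r) := by
  rw [kswc_shell_eq, kswc_shell_eq, h.bdry_eq]
  ext x
  rw [mem_image, mem_insert, mem_image]
  constructor
  · rintro ⟨ρ, h1, h2⟩
    by_cases h3 : ρ = σ
    · subst h3
      rw [kswc_left] at h2
      exact Or.inl h2.symm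
    · have h4 : ρ ≠ τ := fun h' => h.not_mem_bdry (h' ▸ h1)
      rw [kswc_of_ne h3 h4] at h2
      exact Or.inr ⟨ρ, h1, h2⟩
  · rintro (h1 | ⟨ρ, h1, h2⟩)
    · exact ⟨σ, h.mem_bdry, by rw [kswc_left, h1]⟩
    · by_cases h3 : ρ = σ
      · subst h3
        obtain ⟨ρ', h5, h6, h7⟩ := h.h3
        have h4 : ρ' ≠ τ := fun h' => h.not_mem_bdry (h' ▸ h5)
        exact ⟨ρ', h5, by rw [kswc_of_ne h6 h4, h7, h2]⟩
      · have h4 : ρ ≠ τ := fun h' => h.not_mem_bdry (h' ▸ h1)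
        exact ⟨ρ, h1, by rw [kswc_of_ne h3 h4, h2]⟩

lemma KswC.ball_eq (h : KswC κ u r σ τ) :
    kball (kswc κ σ τ) u (r + 1) = insert (κ τ) (kball κ u (r + 1)) := by
  have e : ∀ κ₀ : Slot m → V, kball κ₀ u (r + 1) = kball κ₀ u r ∪ shell κ₀ u r := by
    intro κ₀
    rw [shell, union_sdiff_of_subset (kball_mono κ₀ u (by omega))]
  rw [e, e, h.shell_eq, ← h.agree.1, union_insert]

/-- the slots that `τ` may be, in terms of the new kernel and `σ` -/
def kswcQ (κ' : Slot m → V) (u : V) (r : ℕ) (σ : Slot m) : Finset (Slot m) :=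
  univ.filter (fun τ => κ' τ ∈ (shell κ' u r).erase (κ' σ) ∧
    κ' (opp τ) ∉ (kball κ' u (r + 1)).erase (κ' σ))

lemma KswC.hτ1 (h : KswC κ u r σ τ) : κ τ ∉ kball κ u (r + 1) := fun h' => h.h4 (h.sub12 h')
lemma KswC.hτ2 (h : KswC κ u r σ τ) : κ (opp τ) ∉ kball κ u (r + 1) := fun h' => h.h5 (h.sub12 h')
lemma KswC.hτ3 (h : KswC κ u r σ τ) : κ τ ∉ shell κ u r := fun h' =>
  h.hτ1 (mem_sdiff.1 h').1
lemma KswC.hτ4 (h : KswC κ u r σ τ) : κ (opp τ) ∉ shell κ u r := fun h' =>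
  h.hτ2 (mem_sdiff.1 h').1

lemma KswC.mem_Q_iff (h : KswC κ u r σ τ) (ρ : Slot m) :
    ρ ∈ kswcQ (kswc κ σ τ) u r σ ↔
      kswc κ σ τ ρ ∈ shell κ u r ∧ kswc κ σ τ (opp ρ) ∉ kball κ u (r + 1) := by
  rw [kswcQ, mem_filter, kswc_left, h.shell_eq, h.ball_eq, erase_insert h.hτ3, erase_insert h.hτ1]
  simp

lemma KswC.τ_mem_Q (h : KswC κ u r σ τ) : τ ∈ kswcQ (kswc κ σ τ) u r σ := by
  rw [h.mem_Q_iff, kswc_right, h.opp_right, shell, mem_sdiff]
  exact ⟨⟨h.hv, h.h1⟩, h.hτ2⟩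

lemma KswC.Q_eq (h : KswC κ u r σ τ) :
    kswcQ (kswc κ σ τ) u r σ = insert τ ((bdry κ u (r + 1)).image opp) := by
  have hmem : ∀ ρ, ρ ∈ (bdry κ u (r + 1)).image opp ↔
      (κ ρ ∈ shell κ u r ∧ κ (opp ρ) ∉ kball κ u (r + 1)) := by
    intro ρ
    rw [mem_image]
    constructor
    · rintro ⟨ρ', h1, rfl⟩
      rw [bdry, mem_filter] at h1
      rw [opp_opp]
      refine ⟨?_, h1.2.1⟩
      rw [shell, mem_sdiff]
      refine ⟨h1.2.2, fun h2 => h1.2.1 ?_⟩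
      have := kswc_ball_step h2
      rwa [opp_opp] at this
    · rintro ⟨h1, h2⟩
      refine ⟨opp ρ, ?_, opp_opp ρ⟩
      rw [bdry, mem_filter, opp_opp]
      exact ⟨mem_univ _, h2, (mem_sdiff.1 h1).1⟩
  ext ρ
  rw [mem_insert, hmem]
  by_cases h0 : ρ = τ
  · subst h0
    exact ⟨fun _ => Or.inl rfl, fun _ => h.τ_mem_Q⟩
  rw [h.mem_Q_iff]
  simp only [h0, false_or]
  by_cases h1 : ρ = σ
  · subst h1
    rw [kswc_left]
    constructor
    · intro h2; exact absurd h2.1 h.hτ3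
    · intro h2
      exact absurd (h.sub01 h.h2) h2.2
  by_cases h2 : opp ρ = σ
  · have h2' : ρ = opp σ := by rw [← h2, opp_opp]
    subst h2'
    rw [h.opp_left, opp_opp, kswc_left]
    have : κ (opp σ) ∉ shell κ u r := fun h3 => (mem_sdiff.1 h3).2 h.h2
    exact ⟨fun h3 => absurd h3.1 this, fun h3 => absurd h3.1 this⟩
  by_cases h3 : opp ρ = τ
  · have h3' : ρ = opp τ := by rw [← h3, opp_opp]
    subst h3'
    rw [h.opp_right]
    exact ⟨fun h4 => absurd h4.1 h.hτ4, fun h4 => absurd h4.1 h.hτ4⟩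
  rw [kswc_of_ne h1 h0, kswc_of_ne h2 h3]

lemma KswC.card_Q (h : KswC κ u r σ τ) :
    (kswcQ (kswc κ σ τ) u r σ).card = (bdry κ u (r + 1)).card + 1 := by
  rw [h.Q_eq, card_insert_of_notMem, card_image_of_injective]
  · intro a b hab
    rw [← opp_opp a, hab, opp_opp]
  · intro h1
    obtain ⟨ρ', h2, h3⟩ := mem_image.1 h1
    rw [bdry, mem_filter] at h2
    have : opp ρ' = τ := h3
    rw [this] at h2
    exact h.hτ1 h2.2.2

lemma KswC.kdeg_eq (_h : KswC κ u r σ τ) (v : V) : kdeg (kswc κ σ τ) v = kdeg κ v := by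
  unfold kdeg
  apply card_bij (fun ρ _ => Equiv.swap σ τ ρ)
  · intro ρ hρ
    rw [mem_filter] at hρ ⊢
    exact ⟨mem_univ _, hρ.2⟩
  · intro a _ b _ hab
    exact (Equiv.swap σ τ).injective hab
  · intro ρ hρ
    rw [mem_filter] at hρ
    refine ⟨Equiv.swap σ τ ρ, ?_, by simp⟩
    rw [mem_filter]
    refine ⟨mem_univ _, ?_⟩
    simp only [kswc, Function.comp, Equiv.swap_apply_self]
    exact hρ.2

/-- an edge of `κ` with one end in the ball of radius `r + 1` has its other end in the ball of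
radius `r + 2` -/
lemma KswC.no_cross (h : KswC κ u r σ τ) (ρ : Slot m) (h1 : κ ρ ∈ kball κ u (r + 1)) :
    κ (opp ρ) ≠ κ τ ∧ κ (opp ρ) ≠ κ (opp τ) := by
  have h2 : κ (opp ρ) ∈ kball κ u (r + 2) := kswc_ball_step h1
  exact ⟨fun h3 => h.h4 (h3 ▸ h2), fun h3 => h.h5 (h3 ▸ h2)⟩

/-- the values of the new kernel at the two slots of an edge -/
lemma KswC.edge_cases (h : KswC κ u r σ τ) (ρ : Slot m) :
    (kswc κ σ τ ρ = κ ρ ∧ kswc κ σ τ (opp ρ) = κ (opp ρ) ∧ ρ.1 ≠ σ.1 ∧ ρ.1 ≠ τ.1) ∨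
    (ρ.1 = σ.1 ∧ s(kswc κ σ τ ρ, kswc κ σ τ (opp ρ)) = s(κ τ, κ (opp σ))) ∨
    (ρ.1 = τ.1 ∧ s(kswc κ σ τ ρ, kswc κ σ τ (opp ρ)) = s(κ σ, κ (opp τ))) := by
  have hcase : ∀ ρ' : Slot m, ρ.1 = ρ'.1 → ρ = ρ' ∨ ρ = opp ρ' := by
    intro ρ' h1
    rcases ρ with ⟨i, b⟩
    rcases ρ' with ⟨j, b'⟩
    simp only at h1
    subst h1
    cases b <;> cases b' <;> simp [opp]
  by_cases h1 : ρ.1 = σ.1
  · right; left
    refine ⟨h1, ?_⟩
    rcases hcase σ h1 with h2 | h2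
    · subst h2
      rw [kswc_left, h.opp_left]
    · subst h2
      rw [opp_opp, kswc_left, h.opp_left]
      exact Sym2.eq_swap
  · by_cases h2 : ρ.1 = τ.1
    · right; right
      refine ⟨h2, ?_⟩
      rcases hcase τ h2 with h3 | h3
      · subst h3
        rw [kswc_right, h.opp_right]
      · subst h3
        rw [opp_opp, kswc_right, h.opp_right]
        exact Sym2.eq_swap
    · left
      refine ⟨kswc_of_ne ?_ ?_, kswc_of_ne ?_ ?_, h1, h2⟩
      · exact fun h' => h1 (h' ▸ rfl)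
      · exact fun h' => h2 (h' ▸ rfl)
      · exact fun h' => h1 (h' ▸ rfl)
      · exact fun h' => h2 (h' ▸ rfl)

lemma KswC.valid (h : KswC κ u r σ τ) {E0 E1 : Finset (Fin m)} (hκ : KValid E0 E1 κ) :
    KValid E0 E1 (kswc κ σ τ) := by
  -- the two new edges
  have hta : κ τ ≠ κ (opp σ) := fun h' => h.hτ1 (h' ▸ h.sub01 h.h2)
  have hvb : κ σ ≠ κ (opp τ) := fun h' => h.hτ2 (h' ▸ h.hv)
  have hav : κ (opp σ) ≠ κ σ := fun h' => h.h1 (h' ▸ h.h2)
  have hab : κ (opp σ) ≠ κ (opp τ) := fun h' => h.hτ2 (h' ▸ h.sub01 h.h2)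
  have hσ : ∀ ρ : Slot m, s(κ ρ, κ (opp ρ)) ≠ s(κ τ, κ (opp σ)) := by
    intro ρ h1
    rw [Sym2.eq_iff] at h1
    rcases h1 with ⟨h1, h2⟩ | ⟨h1, h2⟩
    · have := (h.no_cross (opp ρ) (by rw [h2]; exact h.sub01 h.h2)).1
      rw [opp_opp] at this
      exact this h1
    · exact (h.no_cross ρ (by rw [h1]; exact h.sub01 h.h2)).1 h2
  have hτ : ∀ ρ : Slot m, s(κ ρ, κ (opp ρ)) ≠ s(κ σ, κ (opp τ)) := by
    intro ρ h1
    rw [Sym2.eq_iff] at h1
    rcases h1 with ⟨h1, h2⟩ | ⟨h1, h2⟩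
    · exact (h.no_cross ρ (by rw [h1]; exact h.hv)).2 h2
    · have := (h.no_cross (opp ρ) (by rw [h2]; exact h.hv)).2
      rw [opp_opp] at this
      exact this h1
  have hστ : s(κ τ, κ (opp σ)) ≠ s(κ σ, κ (opp τ)) := by
    intro h1
    rw [Sym2.eq_iff] at h1
    rcases h1 with ⟨h1, h2⟩ | ⟨h1, h2⟩
    · exact hab h2
    · exact hav h2
  constructor
  · intro i hi
    have h0 := hκ.1 i hi
    rcases h.edge_cases (i, false) with ⟨h1, h2, -, -⟩ | ⟨-, h1⟩ | ⟨-, h1⟩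
    · rw [h1]
      have : opp ((i, false) : Slot m) = (i, true) := rfl
      rw [this] at h2
      rw [h2]; exact h0
    · intro h2
      have : opp ((i, false) : Slot m) = (i, true) := rfl
      rw [this, ← h2] at h1
      rw [Sym2.eq_iff] at h1
      rcases h1 with ⟨h1, h3⟩ | ⟨h1, h3⟩
      · exact hta (h1.symm.trans h3)
      · exact hta (h3.symm.trans h1)
    · intro h2
      have : opp ((i, false) : Slot m) = (i, true) := rfl
      rw [this, ← h2] at h1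
      rw [Sym2.eq_iff] at h1
      rcases h1 with ⟨h1, h3⟩ | ⟨h1, h3⟩
      · exact hvb (h1.symm.trans h3)
      · exact hvb (h3.symm.trans h1)
  · intro i hi j hj hij
    have h0 := hκ.2 i hi j hj hij
    have ei : ∀ i : Fin m, opp ((i, false) : Slot m) = (i, true) := fun _ => rfl
    rcases h.edge_cases (i, false) with ⟨h1, h2, -, -⟩ | ⟨e1, h1⟩ | ⟨e1, h1⟩ <;>
      rcases h.edge_cases (j, false) with ⟨h3, h4, -, -⟩ | ⟨e3, h3⟩ | ⟨e3, h3⟩ <;>
      simp only [ei] at *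
    · rw [h1, h2, h3, h4]; exact h0
    · rw [h1, h2, h3]; exact hσ (i, false)
    · rw [h1, h2, h3]; exact hτ (i, false)
    · rw [h3, h4, h1]; exact (hσ (j, false)).symm
    · exact absurd (e1.trans e3.symm) hij
    · rw [h1, h3]; exact hστ
    · rw [h3, h4, h1]; exact (hτ (j, false)).symm
    · rw [h1, h3]; exact hστ.symm
    · exact absurd (e1.trans e3.symm) hij

lemma KswC.conn (h : KswC κ u r σ τ) (hκ : KConn κ) : KConn (kswc κ σ τ) := by
  intro Y h1 h2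
  by_contra hno
  push Not at hno
  -- no edge of the new kernel crosses `Y`
  have hiff : ∀ ρ, kswc κ σ τ ρ ∈ Y ↔ kswc κ σ τ (opp ρ) ∈ Y := by
    intro ρ
    refine ⟨hno ρ, fun h' => ?_⟩
    have := hno (opp ρ) h'
    rwa [opp_opp] at this
  -- the ball is on one side
  have hball : ∀ s, s ≤ r → ∀ x ∈ kball κ u s, (x ∈ Y ↔ u ∈ Y) := by
    intro s
    induction s with
    | zero =>
      intro _ x hx
      rw [kball, mem_singleton] at hx
      rw [hx]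
    | succ s ih =>
      intro hs x hx
      have hsub : kball κ u s ⊆ kball κ u r := kball_mono κ u (by omega)
      have hsub' : kball κ u (s + 1) ⊆ kball κ u r := kball_mono κ u hs
      have hx' := hsub' hx
      rcases kswc_mem_succ.1 hx with h3 | ⟨ρ, h3, h4⟩
      · exact ih (by omega) x h3
      · have h5 := ih (by omega) _ h3
        have e1 := h.slots ρ (Or.inl (hsub h3))
        have e2 := h.slots (opp ρ) (Or.inl (by rw [h4]; exact hx'))
        rw [← h5, e1, hiff ρ, ← e2, h4]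
  have hball' : ∀ x ∈ kball κ u r, (x ∈ Y ↔ u ∈ Y) := hball r le_rfl
  -- all of `a, v, t, b` are on the same side
  have ha : κ (opp σ) ∈ Y ↔ u ∈ Y := hball' _ h.h2
  have hv : κ σ ∈ Y ↔ u ∈ Y := by
    obtain ⟨σ', h3, h4, h5⟩ := h.h3
    have h3' := h3
    rw [bdry, mem_filter] at h3
    have e1 : kswc κ σ τ σ' = κ σ' := kswc_of_ne h4 (fun h' => h.not_mem_bdry (h' ▸ h3'))
    have e2 := h.slots (opp σ') (Or.inl h3.2.2)
    rw [← h5, ← e1, hiff σ', ← e2]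
    exact hball' _ h3.2.2
  have ht : κ τ ∈ Y ↔ u ∈ Y := by
    have := hiff σ
    rw [kswc_left, h.opp_left] at this
    rw [this, ha]
  have hb : κ (opp τ) ∈ Y ↔ u ∈ Y := by
    have := hiff τ
    rw [kswc_right, h.opp_right] at this
    rw [← this, hv]
  have hrange : ∀ ρ, ∃ ρ', κ ρ' = kswc κ σ τ ρ := fun ρ => ⟨Equiv.swap σ τ ρ, rfl⟩
  obtain ⟨ρ, hρ1, hρ2⟩ := hκ Y
    (by obtain ⟨ρ, hρ⟩ := h1; obtain ⟨ρ', h'⟩ := hrange ρ; exact ⟨ρ', h' ▸ hρ⟩)
    (by obtain ⟨ρ, hρ⟩ := h2; obtain ⟨ρ', h'⟩ := hrange ρ; exact ⟨ρ', h' ▸ hρ⟩)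
  by_cases c1 : ρ = σ
  · subst c1; exact hρ2 (ha.2 (hv.1 hρ1))
  by_cases c2 : ρ = τ
  · subst c2; exact hρ2 (hb.2 (ht.1 hρ1))
  by_cases c3 : opp ρ = σ
  · have : ρ = opp σ := by rw [← c3, opp_opp]
    subst this
    rw [opp_opp] at hρ2
    exact hρ2 (hv.2 (ha.1 hρ1))
  by_cases c4 : opp ρ = τ
  · have : ρ = opp τ := by rw [← c4, opp_opp]
    subst this
    rw [opp_opp] at hρ2
    exact hρ2 (ht.2 (hb.1 hρ1))
  have := hiff ρ
  rw [kswc_of_ne c1 c2, kswc_of_ne c3 c4] at this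
  exact hρ2 (this.1 hρ1)

lemma KswC.kset (h : KswC κ u r σ τ) {c : V → ℕ} {E0 E1 : Finset (Fin m)}
    (hκ : KSet c E0 E1 κ) : KSet c E0 E1 (kswc κ σ τ) :=
  ⟨fun v => by rw [h.kdeg_eq]; exact hκ.1 v, h.valid hκ.2.1, h.conn hκ.2.2⟩

end switch

open Classical in
/-- switching a collision -/
theorem switch_c (c : V → ℕ) (E0 E1 : Finset (Fin m)) (hE : E0 ⊆ E1) (u : V) (r : ℕ)
    (W : (Slot m → V) → ℝ) (hW0 : ∀ κ, 0 ≤ W κ)
    (hW : ∀ κ κ' : Slot m → V, Agree u r κ κ' → W κ = W κ') :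
    ∑ κ ∈ univ.filter (fun κ : Slot m → V => KSet c E0 E1 κ), W κ * XC κ u r
      ≤ ∑ κ ∈ univ.filter (fun κ : Slot m → V => KSet c E0 E1 κ), W κ := by
  choose N hN1 hN2 hN3 using fun κ : Slot m → V => kswc_exists_N κ u r
  set S := univ.filter (fun κ : Slot m → V => KSet c E0 E1 κ) with hS
  -- the two sets of triples
  set A : Finset ((Slot m → V) × (Slot m × Slot m)) :=
    univ.filter (fun p => p.1 ∈ S ∧ p.2 ∈ N p.1 ×ˢ outs p.1 u (r + 2)) with hA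
  set B : Finset ((Slot m → V) × (Slot m × Slot m)) :=
    univ.filter (fun p => p.1 ∈ S ∧ (p.2.1 ∈ bdry p.1 u r ∧ p.2.2 ∈ kswcQ p.1 u r p.2.1)) with hB
  set g : (Slot m → V) × (Slot m × Slot m) → ℝ := fun p =>
    W p.1 / (((bdry p.1 u r).card : ℝ) * ((kswcQ p.1 u r p.2.1).card : ℝ)) with hg
  have hg0 : ∀ p, 0 ≤ g p := fun p => div_nonneg (hW0 _) (by positivity)
  set Φ : (Slot m → V) × (Slot m × Slot m) → (Slot m → V) × (Slot m × Slot m) :=
    fun p => (kswc p.1 p.2.1 p.2.2, p.2) with hΦ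
  have hdata : ∀ p ∈ A, KswC p.1 u r p.2.1 p.2.2 := by
    intro p hp
    rw [hA, mem_filter] at hp
    obtain ⟨-, -, hp⟩ := hp
    rw [mem_product] at hp
    obtain ⟨hp1, hp2⟩ := hp
    have h1 := hN1 p.1 hp1
    rw [bdry, mem_filter] at h1
    rw [outs, mem_filter] at hp2
    exact ⟨h1.2.1, h1.2.2, hN3 p.1 _ hp1, hp2.2.1, hp2.2.2⟩
  have hΦinj : Set.InjOn Φ (A : Set _) := by
    intro p _ q _ hpq
    simp only [hΦ, Prod.mk.injEq] at hpq
    obtain ⟨h1, h2⟩ := hpq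
    refine Prod.ext ?_ h2
    have h3 : kswc (kswc p.1 p.2.1 p.2.2) p.2.1 p.2.2 = kswc (kswc q.1 q.2.1 q.2.2) p.2.1 p.2.2 :=
      congrArg (fun κ => kswc κ p.2.1 p.2.2) h1
    rw [kswc_map_map, h2, kswc_map_map] at h3
    exact h3
  have hΦmap : A.image Φ ⊆ B := by
    intro q hq
    obtain ⟨p, hp, rfl⟩ := mem_image.1 hq
    have hd := hdata p hp
    rw [hA, mem_filter] at hp
    rw [hB, mem_filter]
    refine ⟨mem_univ _, ?_, ?_, ?_⟩
    · have := hp.2.1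
      rw [hS, mem_filter] at this ⊢
      exact ⟨mem_univ _, hd.kset this.2⟩
    · show p.2.1 ∈ bdry (kswc p.1 p.2.1 p.2.2) u r
      rw [hd.bdry_eq]; exact hd.mem_bdry
    · exact hd.τ_mem_Q
  have hgΦ : ∀ p ∈ A, g (Φ p) = W p.1 /
      (((bdry p.1 u r).card : ℝ) * ((bdry p.1 u (r + 1)).card + 1)) := by
    intro p hp
    have hd := hdata p hp
    simp only [hg, hΦ]
    rw [hd.bdry_eq, hd.card_Q, ← hW _ _ hd.agree]
    push_cast
    rfl
  have hL : ∑ κ ∈ S, W κ * XC κ u r = ∑ p ∈ A, g (Φ p) := by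
    rw [Finset.sum_congr rfl hgΦ, Finset.sum_finset_product A S
      (fun κ => N κ ×ˢ outs κ u (r + 2)) (fun p => by rw [hA, mem_filter]; simp)]
    refine Finset.sum_congr rfl fun κ _ => ?_
    simp only [Finset.sum_const, card_product, hN2 κ, nsmul_eq_mul, XC]
    push_cast
    ring
  have hR : ∑ p ∈ B, g p ≤ ∑ κ ∈ S, W κ := by
    rw [Finset.sum_finset_product B S (fun κ => univ.filter (fun q : Slot m × Slot m =>
      q.1 ∈ bdry κ u r ∧ q.2 ∈ kswcQ κ u r q.1)) (fun p => by rw [hB, mem_filter]; simp)]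
    refine Finset.sum_le_sum fun κ _ => ?_
    rw [Finset.sum_finset_product _ (bdry κ u r) (fun σ => kswcQ κ u r σ) (fun p => by simp)]
    have h1 : ∀ σ ∈ bdry κ u r, ∑ τ ∈ kswcQ κ u r σ, g (κ, (σ, τ)) ≤
        W κ / ((bdry κ u r).card : ℝ) := by
      intro σ hσ
      have hpos : (0 : ℝ) < (bdry κ u r).card := by exact_mod_cast card_pos.2 ⟨σ, hσ⟩
      simp only [hg, Finset.sum_const, nsmul_eq_mul]
      rcases Nat.eq_zero_or_pos (kswcQ κ u r σ).card with h0 | h0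
      · rw [h0]; simp only [Nat.cast_zero, zero_mul]
        exact div_nonneg (hW0 κ) hpos.le
      · have h0' : (0 : ℝ) < (kswcQ κ u r σ).card := by exact_mod_cast h0
        apply le_of_eq
        field_simp
    refine (Finset.sum_le_sum h1).trans ?_
    rw [Finset.sum_const, nsmul_eq_mul]
    rcases Nat.eq_zero_or_pos (bdry κ u r).card with h0 | h0
    · rw [h0]; simp [hW0 κ]
    · have h0' : (0 : ℝ) < (bdry κ u r).card := by exact_mod_cast h0
      apply le_of_eq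
      field_simp
  rw [hL, ← Finset.sum_image (f := g) hΦinj]
  exact (Finset.sum_le_sum_of_subset_of_nonneg hΦmap fun p _ _ => hg0 p).trans hR

end Pool.Agent.H.MP_3b0279_pr
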