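import Pool.Agent.H.MP_3b0279_pr.CorBasic
import Pool.Agent.H.MP_3b0279_pr.EvGraph

/-!
Distances in the graph of a representation.
-/

set_option autoImplicit false

namespace Pool.Agent.H.MP_3b0279_pr

open Finset

variable {V : Type} [Fintype V] [DecidableEq V] {m : ℕ} {d : V → ℕ} {A : Finset V}

theorem IsRep.walk_ow {ρ : Rep V m} (h : IsRep d A ρ) (σ : Slot m) (j n : ℕ)
    (hk : j + n ≤ ρ.len σ.1 + 1) :
    ∃ p : ρ.ev.Walk (ρ.ow σ j) (ρ.ow σ (j + n)), p.length = n := by
  induction n with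
  | zero => exact ⟨SimpleGraph.Walk.nil, rfl⟩
  | succ n ih =>
    obtain ⟨p, hp⟩ := ih (by omega)
    have ha := h.adj_ow σ (j + n) (by omega)
    refine ⟨p.concat ha, ?_⟩
    rw [SimpleGraph.Walk.length_concat, hp]

theorem IsRep.dist_ow {ρ : Rep V m} (h : IsRep d A ρ) (σ : Slot m) (j k : ℕ) (hjk : j ≤ k)
    (hk : k ≤ ρ.len σ.1 + 1) :
    ρ.ev.dist (ρ.ow σ j) (ρ.ow σ k) ≤ k - j := by
  obtain ⟨n, rfl⟩ := Nat.exists_eq_add_of_le hjk
  obtain ⟨p, hp⟩ := h.walk_ow σ j n hk
  have := SimpleGraph.dist_le p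
  omega

theorem IsRep.dist_slot {ρ : Rep V m} (h : IsRep d A ρ) (σ : Slot m) :
    ρ.ev.dist (ρ.κ σ) (ρ.κ (opp σ)) ≤ ρ.len σ.1 + 1 := by
  have := h.dist_ow σ 0 (ρ.len σ.1 + 1) (Nat.zero_le _) le_rfl
  rwa [ρ.ow_zero, ρ.ow_last] at this

/-- the distance from a marked leaf to the rest of the core -/
theorem branch_dist (ρ : Rep V m) (h : IsRep d A ρ) (hm : 2 ≤ m) (σ : Slot m)
    (hσ : ρ.κ σ ∈ A) :
    setDist ρ.ev (cor ρ.ev (A.erase (ρ.κ σ))) (ρ.κ σ) ≤ ρ.len σ.1 + 1 := by
  have hBP : ∀ v, v ∈ ρ.B → v ∈ ρ.P → False := fun v h1 h2 =>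
    (Finset.disjoint_left.mp h.disj_BP) h1 h2
  have hBIn : ∀ v, v ∈ ρ.B → v ∈ ρ.In := fun v hv => Finset.mem_union_left _ hv
  have hκB : ∀ τ, ρ.κ τ ∈ ρ.B := fun τ => (ρ.mem_B _).2 ⟨τ, rfl⟩
  -- uniqueness of slots at vertices of `A`
  have huniq : ∀ v ∈ A, ∀ τ τ' : Slot m, ρ.κ τ = v → ρ.κ τ' = v → τ = τ' := by
    intro v hv τ τ' h1 h2
    have hd := h.good.2.1 v hv
    unfold kdeg at hd
    obtain ⟨t, ht⟩ := Finset.card_eq_one.mp hd
    have e1 : τ ∈ univ.filter (fun σ => ρ.κ σ = v) := by simp [h1]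
    have e2 : τ' ∈ univ.filter (fun σ => ρ.κ σ = v) := by simp [h2]
    rw [ht, Finset.mem_singleton] at e1 e2
    rw [e1, e2]
  set x := ρ.κ σ with hx
  set u := ρ.κ (opp σ) with hu
  have hux : u ≠ x := by
    intro hcon
    have := huniq x hσ (opp σ) σ hcon rfl
    exact opp_ne σ this
  have huA : u ∉ A := by
    intro huA
    have hm' : ∃ i : Fin m, i ≠ σ.1 := by
      by_cases h0 : σ.1.val = 0
      · exact ⟨⟨1, by omega⟩, fun hc => by
          have := congrArg Fin.val hc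
          simp at this
          omega⟩
      · exact ⟨⟨0, by omega⟩, fun hc => by
          have := congrArg Fin.val hc
          simp at this
          omega⟩
    obtain ⟨i, hi⟩ := hm'
    obtain ⟨τ', h1, h2⟩ := h.good.1 {x, u} ⟨σ, by simp [hx]⟩ ⟨(i, false), by
      intro hmem
      rw [Finset.mem_insert, Finset.mem_singleton] at hmem
      rcases hmem with hmem | hmem
      · have := huniq x hσ (i, false) σ hmem rfl
        exact hi (congrArg Prod.fst this)
      · have := huniq u huA (i, false) (opp σ) hmem rfl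
        exact hi (congrArg Prod.fst this)⟩
    rw [Finset.mem_insert, Finset.mem_singleton] at h1
    rcases h1 with h1 | h1
    · have := huniq x hσ τ' σ h1 rfl
      subst this
      exact h2 (by simp [hu])
    · have := huniq u huA τ' (opp σ) h1 rfl
      subst this
      rw [opp_opp] at h2
      exact h2 (by simp [hx])
  -- two slots at a vertex outside `A`, different from a given slot
  have hthree : ∀ v, v ∉ A → ∀ τ0 : Slot m, ρ.κ τ0 = v →
      ∃ τ1 τ2 : Slot m, τ1 ≠ τ2 ∧ τ1 ≠ τ0 ∧ τ2 ≠ τ0 ∧ ρ.κ τ1 = v ∧ ρ.κ τ2 = v := by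
    intro v hv τ0 hτ0
    have hd := h.good.2.2 v hv
    have hmem : τ0 ∈ univ.filter (fun σ => ρ.κ σ = v) := by simp [hτ0]
    have hpos : kdeg ρ.κ v ≠ 0 := by
      unfold kdeg
      exact Finset.card_ne_zero_of_mem hmem
    have h3 : 3 ≤ kdeg ρ.κ v := by
      rcases hd with hd | hd
      · exact absurd hd hpos
      · exact hd
    unfold kdeg at h3
    have hc : 1 < ((univ.filter (fun σ => ρ.κ σ = v)).erase τ0).card := by
      rw [Finset.card_erase_of_mem hmem]
      omega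
    obtain ⟨τ1, hτ1, τ2, hτ2, hne⟩ := Finset.one_lt_card.mp hc
    rw [Finset.mem_erase, Finset.mem_filter] at hτ1 hτ2
    exact ⟨τ1, τ2, hne, hτ1.1, hτ2.1, hτ1.2.2, hτ2.2.2⟩
  classical
  set X : Finset V := ρ.In.filter (fun v => ∀ j ≤ ρ.len σ.1, ρ.ow σ j ≠ v) with hX
  have hmemX : ∀ v, v ∈ X ↔ v ∈ ρ.In ∧ ∀ j ≤ ρ.len σ.1, ρ.ow σ j ≠ v := by
    intro v
    rw [hX, Finset.mem_filter]
  have hXx : ∀ v ∈ X, v ≠ x := by
    intro v hv hvx
    have := ((hmemX v).1 hv).2 0 (Nat.zero_le _)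
    rw [ρ.ow_zero] at this
    exact this hvx.symm
  have huX : u ∈ X := by
    rw [hmemX]
    refine ⟨hBIn _ (hκB _), ?_⟩
    intro j hj hcon
    rcases Nat.eq_zero_or_pos j with h0 | h0
    · subst h0
      rw [ρ.ow_zero] at hcon
      exact hux hcon.symm
    · have := ρ.ow_mem_P σ j h0 hj
      rw [hcon] at this
      exact hBP _ (hκB _) this
  -- neighbours of remaining vertices remain
  have hN : ∀ v ∈ X, v ≠ u → ∀ b ∈ ρ.In, ρ.ev.Adj v b → b ∈ X := by
    intro v hv hvu b hb hadj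
    by_contra hbX
    have hvIn := ((hmemX v).1 hv).1
    have hvn := ((hmemX v).1 hv).2
    have : ∃ k ≤ ρ.len σ.1, ρ.ow σ k = b := by
      by_contra hno
      push Not at hno
      exact hbX ((hmemX b).2 ⟨hb, hno⟩)
    obtain ⟨k, hk, hkb⟩ := this
    rcases Nat.eq_zero_or_pos k with h0 | h0
    · subst h0
      rw [ρ.ow_zero] at hkb
      have hadj' := (h.adj_B_iff b v (by rw [← hkb]; exact hκB _) hvIn).1 hadj.symm
      obtain ⟨σ', h1, h2⟩ := hadj'
      have : σ' = σ := huniq x hσ σ' σ (by rw [h1, ← hkb]) rfl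
      subst this
      rcases Nat.eq_zero_or_pos (ρ.len σ'.1) with hl | hl
      · have h3 := ρ.ow_last σ'
        rw [hl] at h3
        apply hvu
        rw [← h2]
        exact h3
      · exact hvn 1 hl h2
    · have hadj' := (h.adj_P_iff σ k h0 hk v hvIn).1 (by rw [hkb]; exact hadj.symm)
      rcases hadj' with h1 | h1
      · exact hvn (k - 1) (by omega) h1.symm
      · rcases Nat.lt_or_ge k (ρ.len σ.1) with hl | hl
        · exact hvn (k + 1) (by omega) h1.symm
        · have hkl : k = ρ.len σ.1 := le_antisymm hk hl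
          apply hvu
          rw [h1, hkl]
          exact ρ.ow_last σ
  have hadj1 : ∀ τ : Slot m, ρ.ev.Adj (ρ.κ τ) (ρ.ow τ 1) := by
    intro τ
    have := h.adj_ow τ 0 (Nat.zero_le _)
    rwa [ρ.ow_zero] at this
  have hst : AStable ρ.ev (A.erase x) X := by
    refine ⟨?_, ?_⟩
    · intro v hv hvA
      have hvx := hXx v hv
      have hvA' : v ∉ A := fun hc => hvA (Finset.mem_erase.2 ⟨hvx, hc⟩)
      have hvIn := ((hmemX v).1 hv).1
      by_cases hvu : v = u
      · obtain ⟨τ1, τ2, hne, hn1, hn2, hk1, hk2⟩ := hthree u huA (opp σ) rfl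
        have key : ∀ τ : Slot m, τ ≠ opp σ → ρ.κ τ = u → ρ.ow τ 1 ∈ X := by
          intro τ hτ hκ
          rw [hmemX]
          refine ⟨ρ.ow_mem_In τ 1, ?_⟩
          intro j hj hcon
          rcases Nat.eq_zero_or_pos (ρ.len τ.1) with hl | hl
          · have h3 := ρ.ow_last τ
            rw [hl] at h3
            simp only [Nat.zero_add] at h3
            rw [h3] at hcon
            rcases Nat.eq_zero_or_pos j with h0 | h0
            · subst h0
              rw [ρ.ow_zero] at hcon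
              have h4 := huniq x hσ (opp τ) σ hcon.symm rfl
              apply hτ
              rw [← h4, opp_opp]
            · have := ρ.ow_mem_P σ j h0 hj
              rw [hcon] at this
              exact hBP _ (hκB _) this
          · have hP := ρ.ow_mem_P τ 1 le_rfl hl
            rcases Nat.eq_zero_or_pos j with h0 | h0
            · subst h0
              rw [← hcon, ρ.ow_zero] at hP
              exact hBP _ (hκB _) hP
            · rcases h.ow_inj_inner σ τ j 1 h0 hj le_rfl hl hcon with h4 | h4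
              · apply hux
                rw [← hκ, ← h4.1]
              · apply hτ
                rw [h4.1, opp_opp]
        refine ⟨ρ.ow τ1 1, key τ1 hn1 hk1, ρ.ow τ2 1, key τ2 hn2 hk2, ?_, ?_, ?_⟩
        · intro hcon
          exact hne (h.ow_one_inj τ1 τ2 (hk1.trans hk2.symm) hcon)
        · rw [hvu, ← hk1]; exact hadj1 τ1
        · rw [hvu, ← hk2]; exact hadj1 τ2
      · have hcase : v ∈ ρ.B ∨ v ∈ ρ.P := Finset.mem_union.1 hvIn
        rcases hcase with hB | hP
        · obtain ⟨τ0, hτ0⟩ := (ρ.mem_B v).1 hB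
          obtain ⟨τ1, τ2, hne, -, -, hk1, hk2⟩ := hthree v hvA' τ0 hτ0
          have a1 : ρ.ev.Adj v (ρ.ow τ1 1) := by rw [← hk1]; exact hadj1 τ1
          have a2 : ρ.ev.Adj v (ρ.ow τ2 1) := by rw [← hk2]; exact hadj1 τ2
          refine ⟨ρ.ow τ1 1, hN v hv hvu _ (ρ.ow_mem_In _ _) a1,
            ρ.ow τ2 1, hN v hv hvu _ (ρ.ow_mem_In _ _) a2, ?_, a1, a2⟩
          intro hcon
          exact hne (h.ow_one_inj τ1 τ2 (hk1.trans hk2.symm) hcon)
        · obtain ⟨τ, j, hj1, hj2, hτj⟩ := (ρ.mem_P_ow v).1 hP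
          have a1 : ρ.ev.Adj v (ρ.ow τ (j - 1)) := by
            rw [← hτj]
            exact (h.adj_P_iff τ j hj1 hj2 _ (ρ.ow_mem_In _ _)).2 (Or.inl rfl)
          have a2 : ρ.ev.Adj v (ρ.ow τ (j + 1)) := by
            rw [← hτj]
            exact (h.adj_P_iff τ j hj1 hj2 _ (ρ.ow_mem_In _ _)).2 (Or.inr rfl)
          exact ⟨ρ.ow τ (j - 1), hN v hv hvu _ (ρ.ow_mem_In _ _) a1,
            ρ.ow τ (j + 1), hN v hv hvu _ (ρ.ow_mem_In _ _) a2,
            h.ow_pred_ne_succ τ j hj1 hj2, a1, a2⟩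
    · intro v hv hvA
      have hvA' : v ∈ A := (Finset.mem_erase.1 hvA).2
      have hvu : v ≠ u := fun hc => huA (hc ▸ hvA')
      have hvIn := ((hmemX v).1 hv).1
      rcases Finset.mem_union.1 hvIn with hB | hP
      · obtain ⟨τ0, hτ0⟩ := (ρ.mem_B v).1 hB
        have a1 : ρ.ev.Adj v (ρ.ow τ0 1) := by rw [← hτ0]; exact hadj1 τ0
        exact ⟨ρ.ow τ0 1, hN v hv hvu _ (ρ.ow_mem_In _ _) a1, a1⟩
      · obtain ⟨τ, j, hj1, hj2, hτj⟩ := (ρ.mem_P_ow v).1 hP
        have a2 : ρ.ev.Adj v (ρ.ow τ (j + 1)) := by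
          rw [← hτj]
          exact (h.adj_P_iff τ j hj1 hj2 _ (ρ.ow_mem_In _ _)).2 (Or.inr rfl)
        exact ⟨ρ.ow τ (j + 1), hN v hv hvu _ (ρ.ow_mem_In _ _) a2, a2⟩
  have hsub := cor_max ρ.ev (A.erase x) X hst
  refine (setDist_le ρ.ev _ x u (hsub huX)).trans ?_
  exact h.dist_slot σ

/-- each vertex of the core part is close to a branch vertex -/
theorem In_near (ρ : Rep V m) (h : IsRep d A ρ) (v : V) (hv : v ∈ ρ.In) :
    ∃ i : Fin m, ρ.ev.dist (ρ.κ (i, false)) v ≤ ρ.len i + 1 := by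
  have key : ∀ (i : Fin m) (j : ℕ), j ≤ ρ.len i + 1 →
      ρ.ev.dist (ρ.κ (i, false)) (ρ.ow (i, false) j) ≤ ρ.len i + 1 := by
    intro i j hj
    have := h.dist_ow (i, false) 0 j (Nat.zero_le _) hj
    rw [ρ.ow_zero] at this
    omega
  rcases Finset.mem_union.1 hv with hB | hP
  · obtain ⟨⟨i, b⟩, hσ⟩ := (ρ.mem_B v).1 hB
    refine ⟨i, ?_⟩
    cases b
    · rw [hσ]
      simp
    · have h1 := key i (ρ.len i + 1) le_rfl
      have h2 := ρ.ow_last (i, false)
      have h3 : opp ((i, false) : Slot m) = (i, true) := rfl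
      rw [h3, hσ] at h2
      have h4 : ρ.ow (i, false) (ρ.len i + 1) = v := h2
      rw [h4] at h1
      exact h1
  · obtain ⟨⟨i, b⟩, j, hj1, hj2, hτj⟩ := (ρ.mem_P_ow v).1 hP
    have hj2' : j ≤ ρ.len i := hj2
    refine ⟨i, ?_⟩
    cases b
    · rw [← hτj]
      exact key i j (by omega)
    · have h1 := key i (ρ.len i + 1 - j) (by omega)
      have h2 := ρ.ow_opp (i, true) (ρ.len i + 1 - j) (by
        change ρ.len i + 1 - j ≤ ρ.len i + 1
        omega)
      have h3 : opp ((i, true) : Slot m) = (i, false) := rfl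
      rw [h3] at h2
      have h4 : ρ.len ((i, true) : Slot m).1 + 1 - (ρ.len i + 1 - j) = j := by
        change ρ.len i + 1 - (ρ.len i + 1 - j) = j
        omega
      rw [h4, hτj] at h2
      rw [h2] at h1
      exact h1

theorem kball_path_aux (κ : Slot m → V) (u : V) (r : ℕ) : ∀ v, v ∈ kball κ u r →
    ∃ F : Finset (Fin m), F.card ≤ r ∧
      (∀ i ∈ F, κ (i, false) ∈ kball κ u r ∧ κ (i, true) ∈ kball κ u r) ∧
      ∀ (d : V → ℕ) (A : Finset V) (ρ : Rep V m), IsRep d A ρ → ρ.κ = κ →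
        ρ.ev.dist u v ≤ ∑ i ∈ F, (ρ.len i + 1) := by
  induction r with
  | zero =>
    intro v hv
    have : v = u := by simpa [kball] using hv
    subst this
    exact ⟨∅, by simp, by simp, by intro d A ρ _ _; simp⟩
  | succ r ih =>
    intro v hv
    by_cases hvr : v ∈ kball κ u r
    · obtain ⟨F, hF1, hF2, hF3⟩ := ih v hvr
      refine ⟨F, by omega, ?_, hF3⟩
      intro i hi
      exact ⟨Finset.mem_union_left _ (hF2 i hi).1, Finset.mem_union_left _ (hF2 i hi).2⟩
    · have hv' : v ∈ kball κ u r ∪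
          univ.filter (fun v => ∃ σ : Slot m, κ σ ∈ kball κ u r ∧ κ (opp σ) = v) := hv
      rcases Finset.mem_union.1 hv' with h1 | h1
      · exact absurd h1 hvr
      · obtain ⟨σ, hσ1, hσ2⟩ := (Finset.mem_filter.1 h1).2
        obtain ⟨F, hF1, hF2, hF3⟩ := ih (κ σ) hσ1
        have hσF : σ.1 ∉ F := by
          intro hmem
          have := hF2 σ.1 hmem
          apply hvr
          rw [← hσ2]
          rcases σ with ⟨i, b⟩
          cases b
          · exact this.2
          · exact this.1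
        refine ⟨insert σ.1 F, ?_, ?_, ?_⟩
        · rw [Finset.card_insert_of_notMem hσF]
          omega
        · intro i hi
          rcases Finset.mem_insert.1 hi with h2 | h2
          · subst h2
            have e1 : κ σ ∈ kball κ u (r + 1) := Finset.mem_union_left _ hσ1
            have e2 : κ (opp σ) ∈ kball κ u (r + 1) := by rw [hσ2]; exact hv
            rcases σ with ⟨i, b⟩
            cases b
            · exact ⟨e1, e2⟩
            · exact ⟨e2, e1⟩
          · exact ⟨Finset.mem_union_left _ (hF2 i h2).1, Finset.mem_union_left _ (hF2 i h2).2⟩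
        · intro d A ρ hρ hκ
          have : Nonempty V := ⟨u⟩
          have hconn := hρ.ev_isGr.1
          rw [Finset.sum_insert hσF]
          have t1 := hF3 d A ρ hρ hκ
          have t2 := hρ.dist_slot σ
          rw [hκ, hσ2] at t2
          have t3 := hconn.dist_triangle (u := u) (v := κ σ) (w := v)
          omega

/-- kernel paths give paths in the graph -/
theorem kball_path (κ : Slot m → V) (u v : V) (r : ℕ) (hv : v ∈ kball κ u r) :
    ∃ F : Finset (Fin m), F.card ≤ r ∧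
      ∀ (d : V → ℕ) (A : Finset V) (ρ : Rep V m), IsRep d A ρ → ρ.κ = κ →
        ρ.ev.dist u v ≤ ∑ i ∈ F, (ρ.len i + 1) := by
  obtain ⟨F, h1, -, h3⟩ := kball_path_aux κ u r v hv
  exact ⟨F, h1, h3⟩

end Pool.Agent.H.MP_3b0279_pr
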