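import Pool.Agent.H.MP_3b0279_pr.CoreTail
import Pool.Agent.H.MP_3b0279_pr.CompFree
import Pool.Agent.H.MP_3b0279_pr.RepDist

/-!
Distance of a leaf to the core.
-/

set_option autoImplicit false

namespace Pool.Agent.H.MP_3b0279_pr

open Finset

variable {V : Type} [Fintype V] [DecidableEq V] {m : ℕ}

open Classical in
/-- averaging over the fibres of the kernel -/
lemma fiber_le (d : V → ℕ) (A : Finset V) (m : ℕ) (F : Rep V m → ℝ) (c : ℝ)
    (h : ∀ ρ₀ : Rep V m, IsRep d A ρ₀ →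
      ∑ ρ ∈ univ.filter (fun ρ : Rep V m => IsRep d A ρ ∧ ρ.κ = ρ₀.κ), F ρ
        ≤ c * (univ.filter (fun ρ : Rep V m => IsRep d A ρ ∧ ρ.κ = ρ₀.κ)).card) :
    ∑ ρ ∈ Om d A m, F ρ ≤ c * (Om d A m).card := by
  have h1 : ∀ κ : Slot m → V, (Om d A m).filter (fun ρ => ρ.κ = κ)
      = univ.filter (fun ρ : Rep V m => IsRep d A ρ ∧ ρ.κ = κ) := by
    intro κ
    ext ρ
    simp [mem_Om]
  have h2 : ((Om d A m).card : ℝ) = ∑ κ : Slot m → V,
      ((univ.filter (fun ρ : Rep V m => IsRep d A ρ ∧ ρ.κ = κ)).card : ℝ) := by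
    rw [Finset.card_eq_sum_card_fiberwise (s := Om d A m) (t := univ) (f := fun ρ => ρ.κ)
      (fun ρ _ => Finset.mem_coe.2 (Finset.mem_univ _))]
    push_cast
    apply Finset.sum_congr rfl
    intro κ _
    rw [h1 κ]
  have h3 : ∑ ρ ∈ Om d A m, F ρ = ∑ κ : Slot m → V,
      ∑ ρ ∈ univ.filter (fun ρ : Rep V m => IsRep d A ρ ∧ ρ.κ = κ), F ρ := by
    rw [← Finset.sum_fiberwise_of_maps_to (s := Om d A m) (t := univ) (g := fun ρ => ρ.κ)
      (fun ρ _ => Finset.mem_univ _)]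
    apply Finset.sum_congr rfl
    intro κ _
    rw [h1 κ]
  rw [h2, h3, Finset.mul_sum]
  apply Finset.sum_le_sum
  intro κ _
  rcases (univ.filter (fun ρ : Rep V m => IsRep d A ρ ∧ ρ.κ = κ)).eq_empty_or_nonempty
    with h0 | ⟨ρ₀, h0⟩
  · rw [h0]; simp
  · rw [Finset.mem_filter] at h0
    obtain ⟨_, h4, rfl⟩ := h0
    exact h ρ₀ h4

lemma sum_kdeg (κ : Slot m → V) : ∑ v, kdeg κ v = 2 * m := by
  unfold kdeg
  rw [← Finset.card_eq_sum_card_fiberwise (s := univ) (t := univ) (f := κ)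
    (fun σ _ => Finset.mem_coe.2 (Finset.mem_univ _))]
  simp [mul_comm]

lemma kdeg_eq_zero (κ : Slot m → V) (v : V) (h : v ∉ KB κ) : kdeg κ v = 0 := by
  unfold kdeg
  rw [Finset.card_eq_zero, Finset.filter_eq_empty_iff]
  intro σ _ hσ
  exact h (by simp only [KB, Finset.mem_filter, Finset.mem_univ, true_and]; exact ⟨σ, hσ⟩)

/-- there are at least `s + |A|` kernel edges -/
lemma m_ge (d : V → ℕ) (A : Finset V) (ρ : Rep V m) (h : IsRep d A ρ) (s : ℕ) (hs2 : 2 ≤ s)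
    (hs : ∑ v, d v + 2 = 2 * Fintype.card V + 2 * s) : s + A.card ≤ m := by
  have h1 := m_eq d A ρ h s hs
  have h2 : A ⊆ ρ.B := by
    intro v hv
    by_contra hc
    have := kdeg_eq_zero ρ.κ v hc
    have h3 := h.good.2.1 v hv
    omega
  rcases h2.eq_or_ssubset with h3 | h3
  · exfalso
    have h4 : ∑ v ∈ ρ.B, kdeg ρ.κ v = ρ.B.card := by
      rw [Finset.sum_congr rfl (g := fun _ => 1)]
      · simp
      · intro v hv
        rw [← h3] at hv
        exact h.good.2.1 v hv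
    have h5 : ∑ v ∈ ρ.B, kdeg ρ.κ v = ∑ v, kdeg ρ.κ v := by
      apply Finset.sum_subset (Finset.subset_univ _)
      intro v _ hv
      exact kdeg_eq_zero ρ.κ v hv
    rw [h4, sum_kdeg] at h5
    omega
  · have := Finset.card_lt_card h3
    omega

lemma exp_half_le (t : ℝ) (ht0 : 0 ≤ t) (ht1 : t ≤ 1) : Real.exp (t / 2) ≤ 1 + t := by
  have h1 := Real.one_sub_inv_le_log_of_pos (show (0 : ℝ) < 1 + t by linarith)
  have h2 : t / 2 ≤ 1 - (1 + t)⁻¹ := by
    rw [div_le_iff₀ (by norm_num : (0 : ℝ) < 2)]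
    have h3 : (1 - (1 + t)⁻¹) = t / (1 + t) := by
      field_simp; ring
    rw [h3]
    rw [div_mul_eq_mul_div, le_div_iff₀ (by linarith)]
    nlinarith
  calc Real.exp (t / 2) ≤ Real.exp (Real.log (1 + t)) := Real.exp_le_exp.2 (h2.trans h1)
    _ = 1 + t := Real.exp_log (by linarith)

open Classical in
/-- distance of a marked leaf to the rest of the core -/
theorem leaf_dist (ε : ℝ) (hε : 0 < ε) : ∃ C c : ℝ, ∃ s₀ : ℕ, 0 < C ∧ 0 < c ∧
    ∀ (V : Type) [Fintype V] [DecidableEq V] (d : V → ℕ) (s : ℕ) (A : Finset V) (x : V),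
      ((univ.filter (fun v => d v = 2)).card : ℝ) ≤ (1 - ε) * Fintype.card V →
      ∑ v, d v + 2 = 2 * Fintype.card V + 2 * s → s₀ ≤ s → (∀ v ∈ A, d v = 1) → x ∈ A →
      ∀ L : ℝ, 1 ≤ L → Real.sqrt ((Fintype.card V : ℝ) / (s + A.card : ℕ)) ≤ L → ∀ h : ℕ,
      ∑ G ∈ grs d, ((setDist G (cor G (A.erase x)) x - 1 - h : ℕ) : ℝ)
        ≤ (C * L * Real.exp (-(c * h / L)) + 2 * L / (s + A.card : ℕ)) * (grs d).card := by
  obtain ⟨C', m₀, hC', H⟩ := core_tail ε hε
  refine ⟨2 * C', 1 / (4 * C'), max m₀ 4, by positivity, by positivity, ?_⟩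
  intro V _ _ d s A x hε2 hs hs₀ hA hx L hL1 hL h
  have hs4 : 4 ≤ s := le_trans (le_max_right _ _) hs₀
  apply avg_le d A hA (by omega)
  intro m _
  apply fiber_le
  intro ρ₀ h₀
  have hm := m_ge d A ρ₀ h₀ s (by omega) hs
  have hm4 : 4 ≤ m := by omega
  have hmR : (4 : ℝ) ≤ m := by exact_mod_cast hm4
  have hsA : (0 : ℝ) < (s + A.card : ℕ) := by
    exact_mod_cast (by omega : 0 < s + A.card)
  have hmsA : ((s + A.card : ℕ) : ℝ) ≤ m := by exact_mod_cast hm
  set n := Fintype.card V with hn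
  have hLm : Real.sqrt ((n : ℝ) / m) ≤ L := by
    refine le_trans (Real.sqrt_le_sqrt ?_) hL
    exact div_le_div_of_nonneg_left (Nat.cast_nonneg _) hsA hmsA
  have hm₀ : m₀ ≤ m := by
    have := le_trans (le_max_left m₀ 4) hs₀
    omega
  have htail := H V d A m s ρ₀ h₀ hε2 hs (by omega) hm₀ L hL1 hLm
  have hkx : kdeg ρ₀.κ x = 1 := h₀.good.2.1 x hx
  obtain ⟨σ₀, hσ₀⟩ : ∃ σ, ρ₀.κ σ = x := by
    unfold kdeg at hkx
    obtain ⟨σ, hσ⟩ := Finset.card_eq_one.1 hkx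
    have h1 : σ ∈ (univ.filter (fun σ => ρ₀.κ σ = x)) := by
      rw [hσ]; exact Finset.mem_singleton_self σ
    exact ⟨σ, (Finset.mem_filter.1 h1).2⟩
  set φ : ℕ → ℝ := fun k => (1 + ((m : ℝ) - 2) / k)⁻¹ ^ h * (k / ((m : ℝ) - 2)) with hφ
  have hkap := kappa_sum_le d A ρ₀ h₀ (fun ℓ => ((ℓ σ₀.1 - h : ℕ) : ℝ)) φ ?_
  · have hm2 : (0 : ℝ) < (m : ℝ) - 2 := by linarith
    have hφ1 : ∀ k : ℕ, φ k ≤ 2 / m * k := by
      intro k
      have h1 : (1 + ((m : ℝ) - 2) / k)⁻¹ ^ h ≤ 1 := by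
        apply pow_le_one₀ (by positivity)
        apply inv_le_one_of_one_le₀
        have : 0 ≤ ((m : ℝ) - 2) / k := by positivity
        linarith
      have h2 : (k : ℝ) / ((m : ℝ) - 2) ≤ 2 / m * k := by
        rw [div_mul_eq_mul_div, div_le_div_iff₀ hm2 (by linarith)]
        have : (0 : ℝ) ≤ k := Nat.cast_nonneg _
        nlinarith
      have h3 : 0 ≤ (k : ℝ) / ((m : ℝ) - 2) := by positivity
      calc φ k ≤ 1 * (k / ((m : ℝ) - 2)) := mul_le_mul_of_nonneg_right h1 h3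
        _ ≤ 2 / m * k := by rw [one_mul]; exact h2
    have hL0 : 0 < L := by linarith
    have hC0 : 0 < C' := by linarith
    set a : ℝ := 2 * C' * L * Real.exp (-(1 / (4 * C') * h / L)) with ha
    have ha0 : 0 ≤ a := by positivity
    have hφ2 : ∀ k : ℕ, (k : ℝ) ≤ C' * L * m → φ k ≤ a := by
      intro k hk
      rcases Nat.eq_zero_or_pos k with h0 | hkpos
      · simp only [hφ, h0, Nat.cast_zero, zero_div, mul_zero]
        exact ha0
      have hkR : (0 : ℝ) < k := by exact_mod_cast hkpos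
      set t : ℝ := 1 / (2 * C' * L) with ht
      have hCL : 1 ≤ C' * L := by nlinarith
      have ht0 : 0 < t := by positivity
      have ht1 : t ≤ 1 := by
        rw [ht, div_le_one (by positivity)]; nlinarith
      have h1 : t ≤ ((m : ℝ) - 2) / k := by
        rw [ht, div_le_div_iff₀ (by positivity) hkR]
        nlinarith
      have h2 : (1 + ((m : ℝ) - 2) / k)⁻¹ ≤ Real.exp (-(t / 2)) := by
        rw [Real.exp_neg]
        apply inv_anti₀ (Real.exp_pos _)
        exact (exp_half_le t ht0.le ht1).trans (by linarith)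
      have h3 : (1 + ((m : ℝ) - 2) / k)⁻¹ ^ h ≤ Real.exp (-(1 / (4 * C') * h / L)) := by
        calc (1 + ((m : ℝ) - 2) / k)⁻¹ ^ h ≤ Real.exp (-(t / 2)) ^ h :=
              pow_le_pow_left₀ (by positivity) h2 h
          _ = Real.exp (-(1 / (4 * C') * h / L)) := by
              rw [← Real.exp_nat_mul]
              congr 1
              rw [ht]; field_simp; ring
      have h4 : (k : ℝ) / ((m : ℝ) - 2) ≤ 2 * C' * L := by
        rw [div_le_iff₀ hm2]
        nlinarith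
      calc φ k ≤ Real.exp (-(1 / (4 * C') * h / L)) * (2 * C' * L) :=
            mul_le_mul h3 h4 (by positivity) (Real.exp_pos _).le
        _ = a := by rw [ha]; ring
    have hts := tail_sum_le d ρ₀.κ (n + 1) (C' * L * m) a (2 / m) L (by positivity) φ hφ2 ha0
      (fun k _ => (hφ1 k).trans (by linarith)) htail
    rw [← fiber_card d A ρ₀ h₀] at hts
    have hKD := KD_pos d ρ₀.κ
    have h5 := hkap.trans hts
    have h6 : ∑ ρ ∈ univ.filter (fun ρ : Rep V m => IsRep d A ρ ∧ ρ.κ = ρ₀.κ),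
        ((ρ.len σ₀.1 - h : ℕ) : ℝ) ≤ (a + 2 / m * L) *
          (univ.filter (fun ρ : Rep V m => IsRep d A ρ ∧ ρ.κ = ρ₀.κ)).card := by
      refine le_of_mul_le_mul_left ?_ hKD
      refine h5.trans (le_of_eq ?_)
      ring
    refine le_trans (Finset.sum_le_sum ?_) (h6.trans ?_)
    · intro ρ hρ
      rw [Finset.mem_filter] at hρ
      have hσ : ρ.κ σ₀ = x := by rw [hρ.2.2]; exact hσ₀
      have := branch_dist ρ hρ.2.1 (by omega) σ₀ (by rw [hσ]; exact hx)
      rw [hσ] at this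
      exact_mod_cast (by omega :
        setDist ρ.ev (cor ρ.ev (A.erase x)) x - 1 - h ≤ ρ.len σ₀.1 - h)
    · apply mul_le_mul_of_nonneg_right _ (Nat.cast_nonneg _)
      have : 2 / (m : ℝ) * L ≤ 2 * L / (s + A.card : ℕ) := by
        rw [div_mul_eq_mul_div]
        exact div_le_div_of_nonneg_left (by positivity) hsA hmsA
      linarith
  · intro k hk
    rcases Nat.eq_zero_or_pos k with h0 | hkpos
    · subst h0
      have : ∑ ℓ ∈ (Finset.piAntidiag (univ : Finset (Fin m)) 0).filter (LValid ρ₀.κ),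
          ((ℓ σ₀.1 - h : ℕ) : ℝ) = 0 := by
        apply Finset.sum_eq_zero
        intro ℓ hℓ
        rw [Finset.mem_filter, Finset.mem_piAntidiag] at hℓ
        have h1 : ℓ σ₀.1 = 0 := by
          have := hℓ.1.1
          exact (Finset.sum_eq_zero_iff.1 this) σ₀.1 (Finset.mem_univ _)
        simp [h1]
      rw [this]
      simp [hφ]
    · exact nvec_free (LValid ρ₀.κ) (vhyp ρ₀.κ) σ₀.1
        (fun ℓ ℓ' hℓ hv => lvalid_leaf ρ₀.κ σ₀ (by rw [hσ₀]; exact hkx) ℓ ℓ' hℓ hv)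
        (by omega) k h hkpos

end Pool.Agent.H.MP_3b0279_pr
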