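import Pool.Agent.H.MP_3b0279_pr.CoreDiam

/-!
Expected diameter, general finite vertex set.
-/

set_option autoImplicit false

namespace Pool.Agent.H.MP_3b0279_pr

open Finset

open Classical in
theorem main_V (ε : ℝ) (hε : 0 < ε) : ∃ C : ℝ, ∃ s₀ : ℕ, 0 < C ∧
    ∀ (V : Type) [Fintype V] [DecidableEq V] (d : V → ℕ) (s : ℕ),
      ((univ.filter (fun v => d v = 2)).card : ℝ) ≤ (1 - ε) * Fintype.card V →
      ∑ v, d v + 2 = 2 * Fintype.card V + 2 * s → s₀ ≤ s →
      ∑ G ∈ grs d, (G.diam : ℝ)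
        ≤ (C * (1 + Real.sqrt ((Fintype.card V : ℝ) / s)) * Real.log s) * (grs d).card := by
  obtain ⟨C₁, s₁, hC₁, H₁⟩ := core_diam ε hε
  obtain ⟨C₂, s₂, hC₂, H₂⟩ := core_dist ε hε
  refine ⟨C₁ + 2 * C₂, max (max s₁ s₂) 2, by positivity, ?_⟩
  intro V _ _ d s hε2 hs hs₀
  have h1 := H₁ V d s hε2 hs (le_trans (le_trans (le_max_left _ _) (le_max_left _ _)) hs₀)
  have h2 := H₂ V d s hε2 hs (le_trans (le_trans (le_max_right _ _) (le_max_left _ _)) hs₀)
  have hs2 : 2 ≤ s := le_trans (le_max_right _ _) hs₀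
  have hpt : ∀ G ∈ grs d, (G.diam : ℝ)
      ≤ (coreDiam G : ℝ) + 2 * ((univ.sup (fun x => setDist G (cor G ∅) x) : ℕ) : ℝ) := by
    intro G hG
    rw [mem_grs] at hG
    have hne := cor_nonempty d ∅ (by omega) G hG
    have := diam_le_of_cor G hG.1 (cor G ∅) hne (coreDiam G)
      (univ.sup (fun x => setDist G (cor G ∅) x)) (by
        intro x hx y hy
        unfold coreDiam
        exact Finset.le_sup (f := fun p : V × V => G.dist p.1 p.2)
          (Finset.mem_product.2 ⟨hx, hy⟩ : (x, y) ∈ (cor G ∅) ×ˢ (cor G ∅)))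
      (fun v => Finset.le_sup (f := fun x => setDist G (cor G ∅) x) (Finset.mem_univ v))
    exact_mod_cast this
  calc ∑ G ∈ grs d, (G.diam : ℝ)
      ≤ ∑ G ∈ grs d, ((coreDiam G : ℝ)
        + 2 * ((univ.sup (fun x => setDist G (cor G ∅) x) : ℕ) : ℝ)) := Finset.sum_le_sum hpt
    _ = ∑ G ∈ grs d, (coreDiam G : ℝ)
        + 2 * ∑ G ∈ grs d, ((univ.sup (fun x => setDist G (cor G ∅) x) : ℕ) : ℝ) := by
        rw [Finset.sum_add_distrib, Finset.mul_sum]
    _ ≤ (C₁ * (1 + Real.sqrt ((Fintype.card V : ℝ) / s)) * Real.log s) * (grs d).card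
        + 2 * ((C₂ * (1 + Real.sqrt ((Fintype.card V : ℝ) / s)) * Real.log s)
          * (grs d).card) := by linarith
    _ = _ := by ring

/-- the degree sum of a graph in the class -/
lemma sum_even {V : Type} [Fintype V] [DecidableEq V] (d : V → ℕ) (G : SimpleGraph V)
    (hG : IsGr d G) : Even (∑ v, d v) := by
  classical
  have h1 : ∀ v, d v = G.degree v := by
    intro v
    rw [← hG.2 v, ← SimpleGraph.card_neighborSet_eq_degree, Set.ncard_eq_toFinset_card',
      Set.toFinset_card]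
  rw [Finset.sum_congr rfl (fun v _ => h1 v), SimpleGraph.sum_degrees_eq_twice_card_edges]
  exact even_two_mul _

end Pool.Agent.H.MP_3b0279_pr
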