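import Pool.Agent.H.MP_3b0279_pr.CoreDist
import Pool.Agent.H.MP_3b0279_pr.CompSum
import Pool.Agent.H.MP_3b0279_pr.KGrow

/-!
Families of kernel paths, and the diameter of the core for good kernels.
-/

set_option autoImplicit false

namespace Pool.Agent.H.MP_3b0279_pr

open Finset

variable {V : Type} [Fintype V] [DecidableEq V] {m : ℕ}

open Classical in
lemma conn_kball (κ : Slot m → V) (hκ : KConn κ) (σ τ : Slot m) :
    ∃ r, κ τ ∈ kball κ (κ σ) r := by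
  by_contra hc
  set Y : Finset V := univ.filter (fun v => ∃ r, v ∈ kball κ (κ σ) r) with hY
  have h1 : κ σ ∈ Y := by
    rw [hY, Finset.mem_filter]
    exact ⟨Finset.mem_univ _, 0, by simp [kball]⟩
  have h2 : κ τ ∉ Y := by
    rw [hY, Finset.mem_filter]
    rintro ⟨_, h⟩
    exact hc h
  obtain ⟨ω, hω1, hω2⟩ := hκ Y ⟨σ, h1⟩ ⟨τ, h2⟩
  apply hω2
  rw [hY, Finset.mem_filter] at hω1 ⊢
  obtain ⟨_, r, hr⟩ := hω1
  refine ⟨Finset.mem_univ _, r + 1, ?_⟩
  rw [kball, Finset.mem_union]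
  right
  rw [Finset.mem_filter]
  exact ⟨Finset.mem_univ _, ω, hr, rfl⟩

open Classical in
/-- all pairs of slots are at kernel distance at most `R` -/
def Good (κ : Slot m → V) (R : ℕ) : Prop := ∀ σ τ, κ τ ∈ kball κ (κ σ) R

lemma path_family (κ : Slot m → V) (hκ : KConn κ) (R : ℕ) :
    ∃ F : Fin m → Fin m → Finset (Fin m),
      (Good κ R → ∀ i j, (F i j).card ≤ R + 2) ∧
      ∀ (d : V → ℕ) (A : Finset V) (ρ : Rep V m), IsRep d A ρ → ρ.κ = κ →
        ∀ x ∈ ρ.In, ∀ y ∈ ρ.In, ∃ i j, ρ.ev.dist x y ≤ 2 * ∑ l ∈ F i j, (ρ.len l + 1) := by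
  classical
  have h1 : ∃ F0 : Fin m → Fin m → Finset (Fin m),
      (Good κ R → ∀ i j, (F0 i j).card ≤ R) ∧
      ∀ i j, ∀ (d : V → ℕ) (A : Finset V) (ρ : Rep V m), IsRep d A ρ → ρ.κ = κ →
        ρ.ev.dist (κ (i, false)) (κ (j, false)) ≤ ∑ l ∈ F0 i j, (ρ.len l + 1) := by
    by_cases hg : Good κ R
    · have h2 : ∀ i j : Fin m, ∃ F : Finset (Fin m), F.card ≤ R ∧
          ∀ (d : V → ℕ) (A : Finset V) (ρ : Rep V m), IsRep d A ρ → ρ.κ = κ →
            ρ.ev.dist (κ (i, false)) (κ (j, false)) ≤ ∑ l ∈ F, (ρ.len l + 1) :=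
        fun i j => kball_path κ _ _ R (hg (i, false) (j, false))
      choose F hF1 hF2 using h2
      exact ⟨F, fun _ => hF1, hF2⟩
    · have h2 : ∀ i j : Fin m, ∃ F : Finset (Fin m),
          ∀ (d : V → ℕ) (A : Finset V) (ρ : Rep V m), IsRep d A ρ → ρ.κ = κ →
            ρ.ev.dist (κ (i, false)) (κ (j, false)) ≤ ∑ l ∈ F, (ρ.len l + 1) := by
        intro i j
        obtain ⟨r, hr⟩ := conn_kball κ hκ (i, false) (j, false)
        obtain ⟨F, _, hF⟩ := kball_path κ _ _ r hr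
        exact ⟨F, hF⟩
      choose F hF using h2
      exact ⟨F, fun h => absurd h hg, hF⟩
  obtain ⟨F0, hF01, hF02⟩ := h1
  refine ⟨fun i j => insert i (insert j (F0 i j)), ?_, ?_⟩
  · intro hg i j
    have h2 := Finset.card_insert_le i (insert j (F0 i j))
    have h3 := Finset.card_insert_le j (F0 i j)
    have h4 := hF01 hg i j
    show (insert i (insert j (F0 i j))).card ≤ R + 2
    omega
  · intro d A ρ hρ hκρ x hx y hy
    obtain ⟨i, hi⟩ := In_near ρ hρ x hx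
    obtain ⟨j, hj⟩ := In_near ρ hρ y hy
    refine ⟨i, j, ?_⟩
    have h2 := hF02 i j d A ρ hρ hκρ
    rw [hκρ] at hi hj
    have hne : Nonempty V := ⟨x⟩
    have hconn := (hρ.ev_isGr).1
    have h3 : ρ.ev.dist x y ≤ ρ.ev.dist x (κ (i, false)) + ρ.ev.dist (κ (i, false)) y :=
      hconn.dist_triangle
    have h4 : ρ.ev.dist (κ (i, false)) y
        ≤ ρ.ev.dist (κ (i, false)) (κ (j, false)) + ρ.ev.dist (κ (j, false)) y :=
      hconn.dist_triangle
    rw [SimpleGraph.dist_comm (u := x) (v := κ (i, false))] at h3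
    set S := insert i (insert j (F0 i j)) with hS
    show ρ.ev.dist x y ≤ 2 * ∑ l ∈ S, (ρ.len l + 1)
    have h5 : ∑ l ∈ F0 i j, (ρ.len l + 1) ≤ ∑ l ∈ S, (ρ.len l + 1) :=
      Finset.sum_le_sum_of_subset (by
        intro l hl; rw [hS]; simp [hl])
    by_cases hij : i = j
    · subst hij
      by_cases hyx : ρ.ev.dist (κ (i, false)) (κ (i, false)) = 0
      · have h6 : ρ.len i + 1 ≤ ∑ l ∈ S, (ρ.len l + 1) :=
          Finset.single_le_sum (f := fun l => ρ.len l + 1) (fun _ _ => Nat.zero_le _)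
            (by rw [hS]; simp)
        omega
      · exact absurd (SimpleGraph.dist_self) hyx
    · have h6 : (ρ.len i + 1) + (ρ.len j + 1) ≤ ∑ l ∈ S, (ρ.len l + 1) := by
        rw [← Finset.sum_pair (f := fun l => ρ.len l + 1) hij]
        apply Finset.sum_le_sum_of_subset
        intro l hl
        rw [Finset.mem_insert, Finset.mem_singleton] at hl
        rw [hS]
        rcases hl with rfl | rfl <;> simp
      omega

/-- diameter of the 2-core in the graph metric -/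
noncomputable def coreDiam (G : SimpleGraph V) : ℕ :=
  ((cor G ∅) ×ˢ (cor G ∅)).sup (fun p => G.dist p.1 p.2)

lemma sum_len (ρ : Rep V m) (F : Finset (Fin m)) :
    ∑ l ∈ F, (ρ.len l + 1) ≤ ∑ l, ρ.len l + m := by
  calc ∑ l ∈ F, (ρ.len l + 1) ≤ ∑ l, (ρ.len l + 1) :=
        Finset.sum_le_sum_of_subset (Finset.subset_univ _)
    _ = ∑ l, ρ.len l + m := by
        rw [Finset.sum_add_distrib]; simp

lemma coreDiam_le_all (d : V → ℕ) (ρ : Rep V m) (h : IsRep d ∅ ρ) :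
    coreDiam ρ.ev ≤ 2 * (∑ l, ρ.len l + m) := by
  obtain ⟨F, _, hF⟩ := path_family ρ.κ h.good.1 0
  unfold coreDiam
  apply Finset.sup_le
  rintro ⟨x, y⟩ hxy
  rw [Finset.mem_product, ← h.In_eq_cor] at hxy
  obtain ⟨i, j, hij⟩ := hF d ∅ ρ h rfl x hxy.1 y hxy.2
  have := sum_len ρ (F i j)
  show ρ.ev.dist x y ≤ _
  omega

lemma coreDiam_le_path (d : V → ℕ) (ρ : Rep V m) (h : IsRep d ∅ ρ)
    (F : Fin m → Fin m → Finset (Fin m)) (q T : ℕ)
    (hF : ∀ x ∈ ρ.In, ∀ y ∈ ρ.In, ∃ i j, ρ.ev.dist x y ≤ 2 * ∑ l ∈ F i j, (ρ.len l + 1))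
    (hq : ∀ i j, (F i j).card ≤ q) (hT : ∀ i j, ∑ l ∈ F i j, ρ.len l < T) :
    coreDiam ρ.ev ≤ 2 * (T + q) := by
  unfold coreDiam
  apply Finset.sup_le
  rintro ⟨x, y⟩ hxy
  rw [Finset.mem_product, ← h.In_eq_cor] at hxy
  obtain ⟨i, j, hij⟩ := hF x hxy.1 y hxy.2
  have h1 : ∑ l ∈ F i j, (ρ.len l + 1) = ∑ l ∈ F i j, ρ.len l + (F i j).card := by
    rw [Finset.sum_add_distrib]; simp
  have h2 := hq i j
  have h3 := hT i j
  show ρ.ev.dist x y ≤ _
  omega

end Pool.Agent.H.MP_3b0279_pr
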