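import Pool.Agent.H.MP_3b0279_pr.Torsor
import Pool.Agent.H.MP_3b0279_pr.Exist
import Pool.Agent.H.MP_3b0279_pr.CountLf
import Pool.Agent.H.MP_3b0279_pr.Comp

/-!
Averages over graphs are averages over representations.
-/

set_option autoImplicit false

namespace Pool.Agent.H.MP_3b0279_pr

open Finset

variable {V : Type} [Fintype V] [DecidableEq V]

open Classical in
/-- connected graphs with degrees `d` -/
noncomputable def grs (d : V → ℕ) : Finset (SimpleGraph V) := univ.filter (fun G => IsGr d G)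

open Classical in
/-- representations with `m` kernel edges -/
noncomputable def Om (d : V → ℕ) (A : Finset V) (m : ℕ) : Finset (Rep V m) :=
  univ.filter (fun ρ => IsRep d A ρ)

lemma mem_grs (d : V → ℕ) (G : SimpleGraph V) : G ∈ grs d ↔ IsGr d G := by
  simp [grs]

lemma mem_Om (d : V → ℕ) (A : Finset V) (m : ℕ) (ρ : Rep V m) : ρ ∈ Om d A m ↔ IsRep d A ρ := by
  simp [Om]

instance (m : ℕ) : Finite (Gam m) := by unfold Gam; infer_instance

lemma gam_pos (m : ℕ) : 0 < Nat.card (Gam m) := by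
  have : Nonempty (Gam m) := ⟨⟨Equiv.refl _, fun σ => rfl⟩⟩
  exact Nat.card_pos

open Classical in
theorem graph_sum (d : V → ℕ) (A : Finset V) (hA : ∀ v ∈ A, d v = 1)
    (hd : 2 * Fintype.card V + 2 ≤ ∑ v, d v) (F : SimpleGraph V → ℝ) :
    ∑ G ∈ grs d, F G = ∑ m ∈ range (∑ v, d v + 1),
      ((Nat.card (Gam m) : ℝ))⁻¹ * ∑ ρ ∈ Om d A m, F ρ.ev := by
  by_cases hV : Nonempty V
  swap
  · exfalso
    rw [not_nonempty_iff] at hV
    simp at hd
  have h1 : ∀ m, ∑ ρ ∈ Om d A m, F ρ.ev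
      = ∑ G ∈ grs d, (((Om d A m).filter (fun ρ => ρ.ev = G)).card : ℝ) * F G := by
    intro m
    rw [← Finset.sum_fiberwise_of_maps_to (s := Om d A m) (t := grs d) (g := fun ρ => ρ.ev)
      (fun ρ hρ => (mem_grs d _).2 ((mem_Om d A m ρ).1 hρ).ev_isGr)]
    apply Finset.sum_congr rfl
    intro G _
    rw [Finset.sum_congr rfl (g := fun _ => F G)]
    · rw [Finset.sum_const, nsmul_eq_mul]
    · intro ρ hρ
      rw [(Finset.mem_filter.1 hρ).2]
  have h2 : ∑ m ∈ range (∑ v, d v + 1),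
      ((Nat.card (Gam m) : ℝ))⁻¹ * ∑ ρ ∈ Om d A m, F ρ.ev
      = ∑ G ∈ grs d, F G * ∑ m ∈ range (∑ v, d v + 1),
        ((Nat.card (Gam m) : ℝ))⁻¹ * (((Om d A m).filter (fun ρ => ρ.ev = G)).card : ℝ) := by
    have : ∀ m ∈ range (∑ v, d v + 1), ((Nat.card (Gam m) : ℝ))⁻¹ * ∑ ρ ∈ Om d A m, F ρ.ev
        = ∑ G ∈ grs d, ((Nat.card (Gam m) : ℝ))⁻¹ *
          ((((Om d A m).filter (fun ρ => ρ.ev = G)).card : ℝ) * F G) := by
      intro m _
      rw [h1 m, Finset.mul_sum]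
    rw [Finset.sum_congr rfl this, Finset.sum_comm]
    apply Finset.sum_congr rfl
    intro G _
    rw [Finset.mul_sum]
    apply Finset.sum_congr rfl
    intro m _
    ring
  rw [h2]
  apply Finset.sum_congr rfl
  intro G hG
  rw [mem_grs] at hG
  obtain ⟨m₀, ρ₀, hρ₀, he⟩ := exists_rep d A hA hd G hG
  have hm₀ : m₀ ∈ range (∑ v, d v + 1) := by
    have := hρ₀.m_formula
    have hB : ρ₀.B.card ≤ Fintype.card V := Finset.card_le_univ _
    rw [Finset.mem_range]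
    omega
  rw [Finset.sum_eq_single_of_mem m₀ hm₀]
  · have h3 : ((Om d A m₀).filter (fun ρ => ρ.ev = G)).card = Nat.card (Gam m₀) := by
      rw [← rep_fiber d A ρ₀ hρ₀, Nat.card_eq_fintype_card, Fintype.card_subtype]
      congr 1
      ext ρ
      simp only [Finset.mem_filter, mem_Om, Finset.mem_univ, true_and, he]
    rw [h3]
    have h4 : (Nat.card (Gam m₀) : ℝ) ≠ 0 := by
      exact_mod_cast (gam_pos m₀).ne'
    rw [inv_mul_cancel₀ h4, mul_one]
  · intro m _ hm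
    have h3 : ((Om d A m).filter (fun ρ => ρ.ev = G)) = ∅ := by
      rw [Finset.filter_eq_empty_iff]
      intro ρ hρ hev
      rw [mem_Om] at hρ
      exact hm (rep_m_unique d A ρ ρ₀ hρ hρ₀ (by rw [hev, he]))
    rw [h3]
    simp

/-- averaging -/
theorem avg_le (d : V → ℕ) (A : Finset V) (hA : ∀ v ∈ A, d v = 1)
    (hd : 2 * Fintype.card V + 2 ≤ ∑ v, d v) (F : SimpleGraph V → ℝ) (c : ℝ)
    (h : ∀ m, (Om d A m).Nonempty → ∑ ρ ∈ Om d A m, F ρ.ev ≤ c * (Om d A m).card) :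
    ∑ G ∈ grs d, F G ≤ c * (grs d).card := by
  have h1 := graph_sum d A hA hd F
  have h2 := graph_sum d A hA hd (fun _ => c)
  have h3 : c * (grs d).card = ∑ G ∈ grs d, c := by
    rw [Finset.sum_const, nsmul_eq_mul, mul_comm]
  rw [h3, h1, h2]
  apply Finset.sum_le_sum
  intro m _
  apply mul_le_mul_of_nonneg_left _ (by positivity)
  rw [Finset.sum_const, nsmul_eq_mul]
  rcases (Om d A m).eq_empty_or_nonempty with h0 | h0
  · simp [h0]
  · rw [mul_comm]; exact h m h0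

open Classical in
/-- changing the kernel -/
theorem rep_kappa {m : ℕ} (d : V → ℕ) (A : Finset V) (ρ : Rep V m) (h : IsRep d A ρ)
    (κ' : Slot m → V) (hk : kdeg κ' = kdeg ρ.κ) :
    IsRep d A (⟨κ', ρ.ℓ, ρ.L, ρ.f⟩ : Rep V m) ↔
      KSet (kdeg ρ.κ) (univ.filter (fun i => ρ.len i = 0)) (univ.filter (fun i => ρ.len i ≤ 1))
        κ' := by
  have hB : (⟨κ', ρ.ℓ, ρ.L, ρ.f⟩ : Rep V m).B = ρ.B := by
    ext v
    simp only [Rep.mem_B]
    have h1 : ∀ κ : Slot m → V, (∃ σ, κ σ = v) ↔ kdeg κ v ≠ 0 := by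
      intro κ
      unfold kdeg
      rw [Finset.card_ne_zero]
      constructor
      · rintro ⟨σ, hσ⟩; exact ⟨σ, by simp [hσ]⟩
      · rintro ⟨σ, hσ⟩; exact ⟨σ, by simpa using hσ⟩
    rw [h1, h1, hk]
  have hIn : (⟨κ', ρ.ℓ, ρ.L, ρ.f⟩ : Rep V m).In = ρ.In := by
    show (⟨κ', ρ.ℓ, ρ.L, ρ.f⟩ : Rep V m).B ∪ _ = _
    rw [hB]
    rfl
  constructor
  · intro h'
    exact ⟨fun v => congrFun hk v, h'.valid, h'.good.1⟩
  · rintro ⟨_, h2, h3⟩
    refine ⟨⟨h3, ?_, ?_⟩, h2, h.inj, ?_, ?_, ?_, ?_⟩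
    · intro v hv
      show kdeg κ' v = 1
      rw [hk]; exact h.good.2.1 v hv
    · intro v hv
      show kdeg κ' v = 0 ∨ 3 ≤ kdeg κ' v
      rw [hk]; exact h.good.2.2 v hv
    · intro i j σ he
      have : κ' σ ∈ ρ.B := by
        rw [← hB, Rep.mem_B]; exact ⟨σ, rfl⟩
      rw [Rep.mem_B] at this
      obtain ⟨τ, hτ⟩ := this
      exact h.disj i j τ (by rw [hτ]; exact he)
    · intro v hv
      rw [hIn] at hv
      exact h.fix v hv
    · intro v
      rw [hIn]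
      exact h.acyc v
    · intro v
      have h5 : (⟨κ', ρ.ℓ, ρ.L, ρ.f⟩ : Rep V m).childs v = ρ.childs v := by
        unfold Rep.childs
        rw [hIn]
      have h6 : (⟨κ', ρ.ℓ, ρ.L, ρ.f⟩ : Rep V m).tdeg v = ρ.tdeg v := by
        unfold Rep.tdeg
        rw [hB]
        show (if v ∈ ρ.P then 2 else if v ∈ ρ.B then kdeg κ' v else 1) = _
        rw [hk]
      rw [h5, h6]
      exact h.deg v

end Pool.Agent.H.MP_3b0279_pr
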