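import Pool.Agent.H.MP_3b0279_pr.Defs

/-!
Representations of connected graphs: kernel, lengths of the kernel paths, inner vertices,
and the parent map of the pendant forest.
-/

set_option autoImplicit false

namespace Pool.Agent.H.MP_3b0279_pr

open Finset

/-- representation data: kernel `κ`, lengths `ℓ`, inner vertices `L`, parent map `f` -/
structure Rep (V : Type) [Fintype V] (m : ℕ) where
  κ : Slot m → V
  ℓ : Fin m → Fin (Fintype.card V + 1)
  L : (i : Fin m) → Fin (ℓ i).val → V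
  f : V → V

/-- representation data as a nested product -/
def Rep.equiv (V : Type) [Fintype V] (m : ℕ) :
    Rep V m ≃ (Slot m → V) × (Σ ℓ : Fin m → Fin (Fintype.card V + 1),
      ((i : Fin m) → Fin (ℓ i).val → V)) × (V → V) where
  toFun ρ := (ρ.κ, ⟨ρ.ℓ, ρ.L⟩, ρ.f)
  invFun x := ⟨x.1, x.2.1.1, x.2.1.2, x.2.2⟩
  left_inv _ := rfl
  right_inv _ := rfl

noncomputable instance (V : Type) [Fintype V] [DecidableEq V] (m : ℕ) : Fintype (Rep V m) :=
  Fintype.ofEquiv _ (Rep.equiv V m).symm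

namespace Rep

variable {V : Type} [Fintype V] [DecidableEq V] {m : ℕ} (ρ : Rep V m)

/-- length of path `i` as a natural number -/
def len (i : Fin m) : ℕ := (ρ.ℓ i).val

/-- branch vertices -/
def B : Finset V := univ.filter (fun v => ∃ σ, ρ.κ σ = v)

/-- inner vertices of the kernel paths -/
def P : Finset V := univ.filter (fun v => ∃ i j, ρ.L i j = v)

/-- vertices of the core-like part -/
def In : Finset V := ρ.B ∪ ρ.P

/-- `j`-th vertex of path `i`, for `0 ≤ j ≤ len i + 1` -/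
def w (i : Fin m) (j : ℕ) : V :=
  if j = 0 then ρ.κ (i, false)
  else if h : j - 1 < (ρ.ℓ i).val then ρ.L i ⟨j - 1, h⟩ else ρ.κ (i, true)

/-- degree inside the core-like part (for `v ∈ In`), and `1` outside -/
def tdeg (v : V) : ℕ := if v ∈ ρ.P then 2 else if v ∈ ρ.B then kdeg ρ.κ v else 1

/-- number of children of `v` in the pendant forest -/
def childs (v : V) : ℕ := (univ.filter (fun u => u ∉ ρ.In ∧ ρ.f u = v)).card

/-- the graph represented by `ρ` -/
def ev : SimpleGraph V where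
  Adj a b := a ≠ b ∧ ((∃ i j, j ≤ (ρ.ℓ i).val ∧ s(ρ.w i j, ρ.w i (j + 1)) = s(a, b)) ∨
    (a ∉ ρ.In ∧ ρ.f a = b) ∨ (b ∉ ρ.In ∧ ρ.f b = a))
  symm := by
    constructor
    rintro a b ⟨h, h'⟩
    refine ⟨h.symm, ?_⟩
    rcases h' with ⟨i, j, hj, h1⟩ | h1 | h1
    · exact Or.inl ⟨i, j, hj, by rw [h1]; exact Sym2.eq_swap⟩
    · exact Or.inr (Or.inr h1)
    · exact Or.inr (Or.inl h1)
  loopless := ⟨fun a h => h.1 rfl⟩

end Rep

variable {V : Type} [Fintype V] [DecidableEq V]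

/-- lengths are compatible with simplicity -/
def LValid {m : ℕ} (κ : Slot m → V) (ℓ : Fin m → ℕ) : Prop :=
  KValid (univ.filter (fun i => ℓ i = 0)) (univ.filter (fun i => ℓ i ≤ 1)) κ

/-- kernel conditions: connected, marked leaves have degree one, other degrees are at least 3 -/
def KGood {m : ℕ} (A : Finset V) (κ : Slot m → V) : Prop :=
  KConn κ ∧ (∀ v ∈ A, kdeg κ v = 1) ∧ (∀ v, v ∉ A → kdeg κ v = 0 ∨ 3 ≤ kdeg κ v)

/-- `ρ` represents a connected graph with degree sequence `d`, with respect to the set `A`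
of marked leaves -/
structure IsRep (d : V → ℕ) (A : Finset V) {m : ℕ} (ρ : Rep V m) : Prop where
  good : KGood A ρ.κ
  valid : LValid ρ.κ ρ.len
  inj : ∀ i j i' j', ρ.L i j = ρ.L i' j' →
    (⟨i, j⟩ : Σ i : Fin m, Fin (ρ.ℓ i).val) = ⟨i', j'⟩
  disj : ∀ i j σ, ρ.L i j ≠ ρ.κ σ
  fix : ∀ v ∈ ρ.In, ρ.f v = v
  acyc : ∀ v, ∃ t : ℕ, ρ.f^[t] v ∈ ρ.In
  deg : ∀ v, ρ.childs v + ρ.tdeg v = d v

/-- symmetries of the set of slots -/
def Gam (m : ℕ) := {π : Equiv.Perm (Slot m) // ∀ σ, π (opp σ) = opp (π σ)}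

/-- graphs with degree sequence `d` -/
def IsGr (d : V → ℕ) (G : SimpleGraph V) : Prop :=
  G.Connected ∧ ∀ v, (G.neighborSet v).ncard = d v

/-- `A`-stable vertex sets: min degree two inside, except for marked leaves -/
def AStable (G : SimpleGraph V) (A X : Finset V) : Prop :=
  (∀ v ∈ X, v ∉ A → ∃ u ∈ X, ∃ u' ∈ X, u ≠ u' ∧ G.Adj v u ∧ G.Adj v u') ∧
  (∀ v ∈ X, v ∈ A → ∃ u ∈ X, G.Adj v u)

open Classical in
/-- the union of all `A`-stable sets (for `A = ∅` the 2-core) -/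
noncomputable def cor (G : SimpleGraph V) (A : Finset V) : Finset V :=
  univ.filter (fun v => ∃ X : Finset V, AStable G A X ∧ v ∈ X)

end Pool.Agent.H.MP_3b0279_pr
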