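import Pool.Agent.H.MP_3b0279_pr.EvGraph

/-!
Each graph has exactly `|Gam m|` representations.
-/

set_option autoImplicit false
set_option linter.unusedSectionVars false

namespace Pool.Agent.H.MP_3b0279_pr

open Finset

variable {V : Type} [Fintype V] [DecidableEq V]

/-- extensionality for representations, avoiding heterogeneous equality -/
theorem Rep.ext_walk {m : ℕ} {ρ₁ ρ₂ : Rep V m} (hκ : ρ₁.κ = ρ₂.κ)
    (hlen : ∀ i, ρ₁.len i = ρ₂.len i)
    (hL : ∀ (i : Fin m) (j : ℕ) (h1 : j < (ρ₁.ℓ i).val) (h2 : j < (ρ₂.ℓ i).val),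
      ρ₁.L i ⟨j, h1⟩ = ρ₂.L i ⟨j, h2⟩)
    (hf : ρ₁.f = ρ₂.f) : ρ₁ = ρ₂ := by
  obtain ⟨κ₁, ℓ₁, L₁, f₁⟩ := ρ₁
  obtain ⟨κ₂, ℓ₂, L₂, f₂⟩ := ρ₂
  simp only at hκ hf
  subst hκ
  subst hf
  have hℓ : ℓ₁ = ℓ₂ := by
    funext i
    exact Fin.ext (hlen i)
  subst hℓ
  have hLL : L₁ = L₂ := by
    funext i j
    exact hL i j.1 j.2 j.2
  subst hLL
  rfl

theorem Rep.L_eq_ow {m : ℕ} (ρ : Rep V m) (i : Fin m) (j : Fin (ρ.ℓ i).val) :
    ρ.L i j = ρ.ow (i, false) (j.1 + 1) := by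
  simp [Rep.ow, Rep.w]

theorem Rep.w_eq_ow {m : ℕ} (ρ : Rep V m) (i : Fin m) (j : ℕ) :
    ρ.w i j = ρ.ow (i, false) j := by
  simp [Rep.ow]

theorem IsRep.kdeg_ne_two {m : ℕ} {d : V → ℕ} {A : Finset V} {ρ : Rep V m} (h : IsRep d A ρ)
    (v : V) : kdeg ρ.κ v ≠ 2 := by
  by_cases hv : v ∈ A
  · rw [h.good.2.1 v hv]; omega
  · rcases h.good.2.2 v hv with h1 | h1 <;> omega

theorem IsRep.mem_P_iff_tdeg {m : ℕ} {d : V → ℕ} {A : Finset V} {ρ : Rep V m}
    (h : IsRep d A ρ) (v : V) : v ∈ ρ.P ↔ v ∈ ρ.In ∧ ρ.tdeg v = 2 := by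
  constructor
  · intro hv
    exact ⟨mem_union_right _ hv, by simp [Rep.tdeg, hv]⟩
  · rintro ⟨hv, ht⟩
    by_contra hP
    have hB : v ∈ ρ.B := by
      rcases mem_union.1 hv with h1 | h1
      · exact h1
      · exact absurd h1 hP
    simp only [Rep.tdeg, hP, hB, if_true, if_false] at ht
    exact h.kdeg_ne_two v ht

theorem IsRep.In_congr {m m' : ℕ} {d : V → ℕ} {A : Finset V} {ρ : Rep V m} {ρ' : Rep V m'}
    (h : IsRep d A ρ) (h' : IsRep d A ρ') (he : ρ.ev = ρ'.ev) : ρ.In = ρ'.In := by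
  rw [h.In_eq_cor, h'.In_eq_cor, he]

theorem IsRep.P_congr {m m' : ℕ} {d : V → ℕ} {A : Finset V} {ρ : Rep V m} {ρ' : Rep V m'}
    (h : IsRep d A ρ) (h' : IsRep d A ρ') (he : ρ.ev = ρ'.ev) : ρ.P = ρ'.P := by
  ext v
  rw [h.mem_P_iff_tdeg, h'.mem_P_iff_tdeg, h.In_congr h' he]
  refine and_congr_right fun hv => ?_
  rw [← h.card_nbr_In v (by rw [h.In_congr h' he]; exact hv), ← h'.card_nbr_In v hv,
    h.In_congr h' he, he]

theorem IsRep.B_eq_sdiff {m : ℕ} {d : V → ℕ} {A : Finset V} {ρ : Rep V m} (h : IsRep d A ρ) :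
    ρ.B = ρ.In \ ρ.P := by
  rw [Rep.In, union_sdiff_right]
  exact (sdiff_eq_self_of_disjoint h.disj_BP).symm

theorem IsRep.B_congr {m m' : ℕ} {d : V → ℕ} {A : Finset V} {ρ : Rep V m} {ρ' : Rep V m'}
    (h : IsRep d A ρ) (h' : IsRep d A ρ') (he : ρ.ev = ρ'.ev) : ρ.B = ρ'.B := by
  rw [h.B_eq_sdiff, h'.B_eq_sdiff, h.In_congr h' he, h.P_congr h' he]

/-- two representations of the same graph have the same number of kernel edges -/
theorem rep_m_unique {m m' : ℕ} (d : V → ℕ) (A : Finset V) (ρ : Rep V m) (ρ' : Rep V m')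
    (h : IsRep d A ρ) (h' : IsRep d A ρ') (he : ρ.ev = ρ'.ev) : m = m' := by
  have h1 := h.m_formula
  have h2 := h'.m_formula
  rw [h.B_congr h' he] at h1
  omega

section Act

variable {m : ℕ}

/-- action of a slot symmetry on representations -/
def Rep.act (ρ : Rep V m) (π : Slot m → Slot m) : Rep V m where
  κ := fun σ => ρ.κ (π σ)
  ℓ := fun i => ρ.ℓ (π (i, false)).1
  L := fun i j => ρ.ow (π (i, false)) (j.1 + 1)
  f := ρ.f

theorem gam_fst (π : Gam m) (σ : Slot m) : (π.1 (σ.1, false)).1 = (π.1 σ).1 := by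
  obtain ⟨i, b⟩ := σ
  cases b
  · rfl
  · have h1 : ((i, true) : Slot m) = opp (i, false) := rfl
    rw [h1, π.2]
    rfl

theorem Rep.act_len (ρ : Rep V m) (π : Gam m) (σ : Slot m) :
    (ρ.act π.1).len σ.1 = ρ.len (π.1 σ).1 := by
  show ρ.len (π.1 (σ.1, false)).1 = _
  rw [gam_fst]

theorem Rep.act_w (ρ : Rep V m) (π : Gam m) (i : Fin m) (j : ℕ)
    (hj : j ≤ (ρ.act π.1).len i + 1) :
    (ρ.act π.1).w i j = ρ.ow (π.1 (i, false)) j := by
  have hlen : (ρ.act π.1).len i = ρ.len (π.1 (i, false)).1 := rfl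
  rw [hlen] at hj
  unfold Rep.w
  rcases Nat.eq_zero_or_pos j with rfl | hj0
  · simp only [if_true]
    rw [Rep.ow_zero]; rfl
  · rw [if_neg (by omega)]
    split_ifs with h1
    · show ρ.ow (π.1 (i, false)) (j - 1 + 1) = _
      rw [Nat.sub_add_cancel hj0]
    · have h2 : ¬ (j - 1 < ρ.len (π.1 (i, false)).1) := h1
      have h3 : j = ρ.len (π.1 (i, false)).1 + 1 := by omega
      rw [h3, Rep.ow_last]
      show ρ.κ (π.1 (i, true)) = _
      have h4 : ((i, true) : Slot m) = opp (i, false) := rfl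
      rw [h4, π.2]

theorem Rep.act_ow (ρ : Rep V m) (π : Gam m) (σ : Slot m) (j : ℕ)
    (hj : j ≤ ρ.len (π.1 σ).1 + 1) :
    (ρ.act π.1).ow σ j = ρ.ow (π.1 σ) j := by
  have hlen := ρ.act_len π σ
  obtain ⟨i, b⟩ := σ
  cases b
  · show (ρ.act π.1).w i j = _
    rw [Rep.act_w]
    rw [hlen]; exact hj
  · show (ρ.act π.1).w i ((ρ.act π.1).len i + 1 - j) = _
    rw [Rep.act_w _ _ _ _ (by omega)]
    have h4 : ((i, true) : Slot m) = opp (i, false) := rfl
    have h5 : (ρ.act π.1).len i = ρ.len (π.1 (i, false)).1 := rfl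
    have h6 : (π.1 (i, true)).1 = (π.1 (i, false)).1 := by rw [h4, π.2, opp_fst]
    rw [h6] at hj
    rw [h5, h4, π.2, Rep.ow_opp _ _ _ hj]

theorem Rep.act_B (ρ : Rep V m) (π : Gam m) : (ρ.act π.1).B = ρ.B := by
  ext v
  rw [Rep.mem_B, Rep.mem_B]
  constructor
  · rintro ⟨σ, hσ⟩
    exact ⟨π.1 σ, hσ⟩
  · rintro ⟨σ, hσ⟩
    refine ⟨π.1.symm σ, ?_⟩
    show ρ.κ (π.1 (π.1.symm σ)) = v
    rw [Equiv.apply_symm_apply, hσ]

theorem Rep.act_P (ρ : Rep V m) (π : Gam m) : (ρ.act π.1).P = ρ.P := by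
  ext v
  rw [Rep.mem_P_ow, Rep.mem_P_ow]
  constructor
  · rintro ⟨σ, j, h1, h2, h3⟩
    rw [ρ.act_len π] at h2
    rw [ρ.act_ow π σ j (by omega)] at h3
    exact ⟨π.1 σ, j, h1, h2, h3⟩
  · rintro ⟨σ, j, h1, h2, h3⟩
    refine ⟨π.1.symm σ, j, h1, ?_, ?_⟩
    · rw [ρ.act_len π, Equiv.apply_symm_apply]; exact h2
    · rw [ρ.act_ow π _ j (by rw [Equiv.apply_symm_apply]; omega), Equiv.apply_symm_apply]
      exact h3

theorem Rep.act_In (ρ : Rep V m) (π : Gam m) : (ρ.act π.1).In = ρ.In := by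
  rw [Rep.In, Rep.In, ρ.act_B π, ρ.act_P π]

theorem kdeg_comp (κ : Slot m → V) (π : Equiv.Perm (Slot m)) (v : V) :
    kdeg (fun σ => κ (π σ)) v = kdeg κ v := by
  unfold kdeg
  refine card_bij (fun σ _ => π σ) ?_ ?_ ?_
  · intro σ hσ
    simpa using hσ
  · intro a _ b _ hab
    exact π.injective hab
  · intro b hb
    exact ⟨π.symm b, by simpa using hb, by simp⟩

theorem Rep.act_tdeg (ρ : Rep V m) (π : Gam m) (v : V) : (ρ.act π.1).tdeg v = ρ.tdeg v := by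
  unfold Rep.tdeg
  rw [ρ.act_P π, ρ.act_B π]
  have h1 : kdeg (ρ.act π.1).κ v = kdeg ρ.κ v := kdeg_comp ρ.κ π.1 v
  rw [h1]

theorem Rep.act_childs (ρ : Rep V m) (π : Gam m) (v : V) :
    (ρ.act π.1).childs v = ρ.childs v := by
  unfold Rep.childs
  rw [ρ.act_In π]
  rfl

theorem IsRep.act {d : V → ℕ} {A : Finset V} {ρ : Rep V m} (h : IsRep d A ρ) (π : Gam m) :
    IsRep d A (ρ.act π.1) where
  good := by
    obtain ⟨h1, h2, h3⟩ := h.good
    refine ⟨?_, ?_, ?_⟩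
    · rintro Y ⟨σ, hσ⟩ ⟨τ, hτ⟩
      obtain ⟨σ', h4, h5⟩ := h1 Y ⟨π.1 σ, hσ⟩ ⟨π.1 τ, hτ⟩
      refine ⟨π.1.symm σ', ?_, ?_⟩
      · show ρ.κ (π.1 (π.1.symm σ')) ∈ Y
        rw [Equiv.apply_symm_apply]; exact h4
      · show ρ.κ (π.1 (opp (π.1.symm σ'))) ∉ Y
        rw [π.2, Equiv.apply_symm_apply]; exact h5
    · intro v hv
      exact (kdeg_comp ρ.κ π.1 v).trans (h2 v hv)
    · intro v hv
      have h4 : kdeg (ρ.act π.1).κ v = kdeg ρ.κ v := kdeg_comp ρ.κ π.1 v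
      rw [h4]
      exact h3 v hv
  valid := by
    obtain ⟨h1, h2⟩ := h.valid
    have hs : ∀ i : Fin m, s((ρ.act π.1).κ (i, false), (ρ.act π.1).κ (i, true)) =
        s(ρ.κ ((π.1 (i, false)).1, false), ρ.κ ((π.1 (i, false)).1, true)) := by
      intro i
      have h4 : ((i, true) : Slot m) = opp (i, false) := rfl
      show s(ρ.κ (π.1 (i, false)), ρ.κ (π.1 (i, true))) = _
      rw [h4, π.2]
      rcases hh : π.1 (i, false) with ⟨a, b⟩
      cases b
      · rfl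
      · exact Sym2.eq_swap
    refine ⟨?_, ?_⟩
    · intro i hi heq
      have hi' : (π.1 (i, false)).1 ∈ univ.filter (fun i => ρ.len i ≤ 1) := by
        simp only [mem_filter, mem_univ, true_and] at hi ⊢
        exact hi
      have h5 := h1 _ hi'
      have h6 := hs i
      rw [heq] at h6
      have h7 : ρ.κ ((π.1 (i, false)).1, false) = ρ.κ ((π.1 (i, false)).1, true) := by
        have h8 := h6.symm
        rw [Sym2.eq_iff] at h8
        rcases h8 with ⟨e1, e2⟩ | ⟨e1, e2⟩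
        · rw [e1, e2]
        · rw [e1, e2]
      exact h5 h7
    · intro i hi j hj hij
      rw [hs i, hs j]
      refine h2 _ ?_ _ ?_ ?_
      · simp only [mem_filter, mem_univ, true_and] at hi ⊢
        exact hi
      · simp only [mem_filter, mem_univ, true_and] at hj ⊢
        exact hj
      · intro heq
        have h5 : π.1 (i, false) = π.1 (j, false) ∨ π.1 (i, false) = opp (π.1 (j, false)) := by
          rcases h6 : π.1 (i, false) with ⟨a, b⟩
          rcases h7 : π.1 (j, false) with ⟨a', b'⟩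
          rw [h6, h7] at heq
          simp only at heq
          subst heq
          cases b <;> cases b' <;> simp [opp]
        rcases h5 with h5 | h5
        · have := π.1.injective h5
          exact hij (by simpa using this)
        · rw [← π.2] at h5
          have := π.1.injective h5
          simp [opp] at this
  inj := by
    intro i j i' j' heq
    have hj := j.2
    have hj' := j'.2
    have heq' : ρ.ow (π.1 (i, false)) (j.1 + 1) = ρ.ow (π.1 (i', false)) (j'.1 + 1) := heq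
    have hj2 : j.1 < ρ.len (π.1 (i, false)).1 := hj
    have hj2' : j'.1 < ρ.len (π.1 (i', false)).1 := hj'
    rcases h.ow_inj_inner _ _ _ _ (by omega) (by omega) (by omega) (by omega) heq' with
      ⟨h1, h2⟩ | ⟨h1, h2⟩
    · have h3 := π.1.injective h1
      have h4 : i = i' := by simpa using h3
      subst h4
      have h5 : j = j' := Fin.ext (by omega)
      subst h5
      rfl
    · rw [← π.2] at h1
      have h3 := π.1.injective h1
      simp [opp] at h3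
  disj := by
    intro i j σ heq
    have hj : j.1 < ρ.len (π.1 (i, false)).1 := j.2
    have h1 : ρ.ow (π.1 (i, false)) (j.1 + 1) ∈ ρ.P := ρ.ow_mem_P _ _ (by omega) (by omega)
    have h2 : ρ.κ (π.1 σ) ∈ ρ.B := (ρ.mem_B _).2 ⟨_, rfl⟩
    have h3 : ρ.ow (π.1 (i, false)) (j.1 + 1) = ρ.κ (π.1 σ) := heq
    rw [h3] at h1
    exact disjoint_left.1 h.disj_BP h2 h1
  fix := by
    intro v hv
    rw [ρ.act_In π] at hv
    exact h.fix v hv
  acyc := by
    intro v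
    rw [ρ.act_In π]
    exact h.acyc v
  deg := by
    intro v
    rw [ρ.act_childs π, ρ.act_tdeg π]
    exact h.deg v

theorem IsRep.act_ev {d : V → ℕ} {A : Finset V} {ρ : Rep V m} (h : IsRep d A ρ) (π : Gam m) :
    (ρ.act π.1).ev = ρ.ev := by
  have hA := h.act π
  have hIn := ρ.act_In π
  ext a b
  by_cases ha : a ∈ ρ.In
  · by_cases hb : b ∈ ρ.In
    · rw [hA.adj_In_iff a b (by rw [hIn]; exact ha) (by rw [hIn]; exact hb),
        h.adj_In_iff a b ha hb]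
      constructor
      · rintro ⟨σ, j, h1, h2, h3⟩
        rw [ρ.act_len π] at h1
        rw [ρ.act_ow π σ _ (by omega)] at h2 h3
        exact ⟨π.1 σ, j, h1, h2, h3⟩
      · rintro ⟨σ, j, h1, h2, h3⟩
        refine ⟨π.1.symm σ, j, ?_, ?_, ?_⟩
        · rw [ρ.act_len π, Equiv.apply_symm_apply]; exact h1
        · rw [ρ.act_ow π _ j (by rw [Equiv.apply_symm_apply]; omega), Equiv.apply_symm_apply]
          exact h2
        · rw [ρ.act_ow π _ _ (by rw [Equiv.apply_symm_apply]; omega), Equiv.apply_symm_apply]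
          exact h3
    · rw [SimpleGraph.adj_comm, SimpleGraph.adj_comm (G := ρ.ev),
        hA.adj_out_iff b a (by rw [hIn]; exact hb), h.adj_out_iff b a hb, hIn]
      rfl
  · rw [hA.adj_out_iff a b (by rw [hIn]; exact ha), h.adj_out_iff a b ha, hIn]
    rfl

end Act

section Fiber

variable {m : ℕ} {d : V → ℕ} {A : Finset V} {ρ ρ' : Rep V m}

theorem IsRep.f_congr (h : IsRep d A ρ) (h' : IsRep d A ρ') (he : ρ.ev = ρ'.ev) :
    ρ.f = ρ'.f := by
  have hIn := h.In_congr h' he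
  funext v
  by_cases hv : v ∈ ρ.In
  · rw [h.fix v hv, h'.fix v (by rw [← hIn]; exact hv)]
  · by_contra hne
    have hcond : ∀ x, x ∉ ρ.In → ρ'.f x = ρ.f x ∨ (ρ'.f x ∉ ρ.In ∧ ρ.f (ρ'.f x) = x) := by
      intro x hx
      have h1 : ρ'.ev.Adj x (ρ'.f x) :=
        (h'.adj_out_iff x _ (by rw [← hIn]; exact hx)).2 (Or.inl rfl)
      rw [← he] at h1
      exact (h.adj_out_iff x _ hx).1 h1
    have key : ∀ t : ℕ, ρ'.f^[t] v ∉ ρ.In ∧ ρ'.f^[t + 1] v ∉ ρ.In ∧
        ρ.f (ρ'.f^[t + 1] v) = ρ'.f^[t] v := by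
      intro t
      induction t with
      | zero =>
        rcases hcond v hv with h1 | h1
        · exact absurd h1.symm hne
        · exact ⟨hv, h1.1, h1.2⟩
      | succ t ih =>
        obtain ⟨h1, h2, h3⟩ := ih
        refine ⟨h2, ?_⟩
        have h4 : ρ'.f^[t + 1 + 1] v = ρ'.f (ρ'.f^[t + 1] v) :=
          Function.iterate_succ_apply' _ _ _
        have h5 : ρ'.f^[t + 1] v = ρ'.f (ρ'.f^[t] v) := Function.iterate_succ_apply' _ _ _
        rw [h4]
        rcases hcond _ h2 with h6 | h6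
        · exfalso
          rw [h3] at h6
          have h7 := h'.f_f_ne (ρ'.f^[t] v) (by rw [← hIn]; exact h1)
          rw [← h5] at h7
          exact h7 h6
        · exact h6
    obtain ⟨t, ht⟩ := h'.acyc v
    rw [← hIn] at ht
    exact (key t).1 ht

theorem IsRep.exists_slot (h : IsRep d A ρ) (h' : IsRep d A ρ') (he : ρ.ev = ρ'.ev)
    (σ : Slot m) : ∃ τ : Slot m, ρ.κ τ = ρ'.κ σ ∧ ρ.ow τ 1 = ρ'.ow σ 1 := by
  have h1 : ρ'.ev.Adj (ρ'.ow σ 0) (ρ'.ow σ 1) := h'.adj_ow σ 0 (Nat.zero_le _)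
  rw [Rep.ow_zero, ← he] at h1
  have h2 : ρ'.κ σ ∈ ρ.B := by
    rw [h.B_congr h' he]
    exact (ρ'.mem_B _).2 ⟨σ, rfl⟩
  have h3 : ρ'.ow σ 1 ∈ ρ.In := by
    rw [h.In_congr h' he]
    exact ρ'.ow_mem_In _ _
  exact (h.adj_B_iff _ _ h2 h3).1 h1

theorem IsRep.walk_congr (h : IsRep d A ρ) (h' : IsRep d A ρ') (he : ρ.ev = ρ'.ev)
    (σ τ : Slot m) (h0 : ρ.κ τ = ρ'.κ σ) (h1 : ρ.ow τ 1 = ρ'.ow σ 1) :
    ρ.len τ.1 = ρ'.len σ.1 ∧ ∀ j, j ≤ ρ'.len σ.1 + 1 → ρ.ow τ j = ρ'.ow σ j := by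
  have hP := h.P_congr h' he
  have hB := h.B_congr h' he
  have hIn := h.In_congr h' he
  have notB : ∀ x, x ∈ ρ.P → x ∉ ρ.B := fun x hx hx' => disjoint_left.1 h.disj_BP hx' hx
  have key : ∀ j, j ≤ ρ'.len σ.1 → (j ≤ ρ.len τ.1 ∧ ρ.ow τ j = ρ'.ow σ j ∧
      ρ.ow τ (j + 1) = ρ'.ow σ (j + 1)) := by
    intro j
    induction j with
    | zero =>
      intro _
      exact ⟨Nat.zero_le _, by rw [Rep.ow_zero, Rep.ow_zero, h0], h1⟩
    | succ j ih =>
      intro hj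
      obtain ⟨h2, h3, h4⟩ := ih (by omega)
      have h5 : ρ'.ow σ (j + 1) ∈ ρ.P := by
        rw [hP]; exact ρ'.ow_mem_P _ _ (by omega) hj
      have h6 : j + 1 ≤ ρ.len τ.1 := by
        by_contra hcon
        have h7 : j = ρ.len τ.1 := by omega
        rw [← h4, h7, Rep.ow_last] at h5
        exact notB _ h5 ((ρ.mem_B _).2 ⟨_, rfl⟩)
      refine ⟨h6, h4, ?_⟩
      have h8 : ρ'.ev.Adj (ρ'.ow σ (j + 1)) (ρ'.ow σ (j + 1 + 1)) := h'.adj_ow σ (j + 1) hj
      rw [← he, ← h4] at h8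
      have h9 := (h.adj_P_iff τ (j + 1) (by omega) h6 _
        (by rw [hIn]; exact ρ'.ow_mem_In _ _)).1 h8
      rcases h9 with h9 | h9
      · exfalso
        have h10 := h'.ow_pred_ne_succ σ (j + 1) (by omega) hj
        rw [h9] at h10
        simp only [Nat.add_sub_cancel] at h10
        exact h10 h3.symm
      · exact h9.symm
  obtain ⟨k1, k2, k3⟩ := key (ρ'.len σ.1) le_rfl
  have hlen : ρ.len τ.1 = ρ'.len σ.1 := by
    by_contra hcon
    have h7 : ρ.ow τ (ρ'.len σ.1 + 1) ∈ ρ.P := ρ.ow_mem_P _ _ (by omega) (by omega)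
    rw [k3, Rep.ow_last] at h7
    refine notB _ h7 ?_
    rw [hB]
    exact (ρ'.mem_B _).2 ⟨_, rfl⟩
  refine ⟨hlen, ?_⟩
  intro j hj
  rcases Nat.lt_or_ge j (ρ'.len σ.1 + 1) with h8 | h8
  · exact (key j (by omega)).2.1
  · have h9 : j = ρ'.len σ.1 + 1 := by omega
    rw [h9]
    exact k3

theorem IsRep.exists_gam (h : IsRep d A ρ) (h' : IsRep d A ρ') (he : ρ.ev = ρ'.ev) :
    ∃ π : Gam m, ρ.act π.1 = ρ' := by
  choose π hπ0 hπ1 using h.exists_slot h' he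
  have hinj : Function.Injective π := by
    intro σ τ hστ
    refine h'.ow_one_inj σ τ ?_ ?_
    · rw [← hπ0, ← hπ0, hστ]
    · rw [← hπ1, ← hπ1, hστ]
  have hbij : Function.Bijective π := Finite.injective_iff_bijective.1 hinj
  have hw := fun σ => h.walk_congr h' he σ (π σ) (hπ0 σ) (hπ1 σ)
  have hopp : ∀ σ, π (opp σ) = opp (π σ) := by
    intro σ
    obtain ⟨h1, h2⟩ := hw σ
    refine h.ow_one_inj _ _ ?_ ?_
    · rw [hπ0, ← Rep.ow_last, ← Rep.ow_last, h1]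
      exact (h2 _ le_rfl).symm
    · rw [hπ1, Rep.ow_opp _ _ _ (by omega), Rep.ow_opp _ _ _ (by omega), h1]
      exact (h2 _ (by omega)).symm
  refine ⟨⟨Equiv.ofBijective π hbij, hopp⟩, ?_⟩
  refine Rep.ext_walk ?_ ?_ ?_ ?_
  · funext σ
    exact hπ0 σ
  · intro i
    exact (hw (i, false)).1
  · intro i j h1 h2
    have h3 : ρ'.L i ⟨j, h2⟩ = ρ'.ow (i, false) (j + 1) := ρ'.L_eq_ow i ⟨j, h2⟩
    rw [h3]
    have h4 : j < ρ'.len i := h2
    exact (hw (i, false)).2 (j + 1) (by show j + 1 ≤ ρ'.len i + 1; omega)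
  · exact h.f_congr h' he

theorem IsRep.act_injective (h : IsRep d A ρ) (π π' : Gam m)
    (he : ρ.act π.1 = ρ.act π'.1) : π = π' := by
  apply Subtype.ext
  apply Equiv.ext
  intro σ
  refine h.ow_one_inj _ _ ?_ ?_
  · exact congrFun (congrArg Rep.κ he) σ
  · rw [← ρ.act_ow π σ 1 (by omega), ← ρ.act_ow π' σ 1 (by omega), he]

end Fiber

/-- the number of representations of a graph -/
theorem rep_fiber {m : ℕ} (d : V → ℕ) (A : Finset V) (ρ : Rep V m) (h : IsRep d A ρ) :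
    Nat.card {ρ' : Rep V m // IsRep d A ρ' ∧ ρ'.ev = ρ.ev} = Nat.card (Gam m) := by
  symm
  refine Nat.card_congr (Equiv.ofBijective
    (fun π : Gam m => (⟨ρ.act π.1, h.act π, h.act_ev π⟩ :
      {ρ' : Rep V m // IsRep d A ρ' ∧ ρ'.ev = ρ.ev})) ⟨?_, ?_⟩)
  · intro π π' hππ
    exact h.act_injective π π' (congrArg Subtype.val hππ)
  · rintro ⟨ρ', h', he⟩
    obtain ⟨π, hπ⟩ := h.exists_gam h' he.symm
    exact ⟨π, Subtype.ext hπ⟩

end Pool.Agent.H.MP_3b0279_pr
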